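import Pool.Agent.Helper77.ST.Defs

/-!
# Evenly twisted knots: definitions

Only definitions.
-/

namespace Pool.Agent.EVT

open Finset
open Pool.Agent.Helper9.Kashaev (Piece Diagram)
open Pool.Agent.Helper9.FA (Item twists)
open Pool.Agent.Helper77.ST (wf Arc IsKnot SPiece SDiagram tw)

/-! ### state sums with arbitrary data -/

/-- The data of a state sum: a duality of the labels, the coefficients of minima and maxima, and the
matrices of the crossings (`pos a b c d`: upper labels `a`, `b`, lower labels `c`, `d`). -/
structure FD (A ι : Type*) where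
  dual : ι → ι
  cup : ι → A
  cap : ι → A
  pos : ι → ι → ι → ι → A
  neg : ι → ι → ι → ι → A

section FD

variable {A ι : Type*} [CommRing A] [Fintype ι] [DecidableEq ι]

/-- the operator of a piece with no strand to its left -/
def FD.pc (F : FD A ι) : Piece → (List ι → A) → List ι → A
  | .cup, f, a :: b :: w => if b = F.dual a then F.cup a * f w else 0
  | .cup, _, _ => 0
  | .cap, f, w => ∑ a, F.cap a * f (a :: F.dual a :: w)
  | .pos, f, a :: b :: w => ∑ c, ∑ d, F.pos a b c d * f (c :: d :: w)
  | .pos, _, _ => 0
  | .neg, f, a :: b :: w => ∑ c, ∑ d, F.neg a b c d * f (c :: d :: w)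
  | .neg, _, _ => 0

/-- the operator of a piece with `k` strands to its left -/
def FD.sl (F : FD A ι) (p : Piece) : ℕ → (List ι → A) → List ι → A
  | 0, f, w => F.pc p f w
  | _ + 1, _, [] => 0
  | k + 1, f, x :: w => F.sl p k (fun u => f (x :: u)) w

/-- the operator of a diagram -/
def FD.RT (F : FD A ι) : Diagram → (List ι → A) → List ι → A
  | [], f => f
  | s :: D, f => F.RT D (F.sl s.2 s.1 f)

/-- a basis vector -/
def ket (A : Type*) {ι : Type*} [CommRing A] [DecidableEq ι] (w : List ι) : List ι → A :=
  fun u => if u = w then 1 else 0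

/-- the conditions for invariance -/
structure FD.Inv (F : FD A ι) : Prop where
  dd : ∀ a, F.dual (F.dual a) = a
  zig : ∀ a, F.cap (F.dual a) * F.cup a = 1
  cup1p : ∀ a b, ∑ c, F.pos a b c (F.dual c) * F.cup c = if b = F.dual a then F.cup a else 0
  cup1n : ∀ a b, ∑ c, F.neg a b c (F.dual c) * F.cup c = if b = F.dual a then F.cup a else 0
  cap1p : ∀ c d, ∑ a, F.cap a * F.pos a (F.dual a) c d = if d = F.dual c then F.cap c else 0
  cap1n : ∀ c d, ∑ a, F.cap a * F.neg a (F.dual a) c d = if d = F.dual c then F.cap c else 0
  pn : ∀ a b c d, ∑ x, ∑ y, F.neg a b x y * F.pos x y c d = if a = c ∧ b = d then 1 else 0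
  np : ∀ a b c d, ∑ x, ∑ y, F.pos a b x y * F.neg x y c d = if a = c ∧ b = d then 1 else 0
  r3 : ∀ t₁ t₂ t₃ s₁ s₂ s₃,
    ∑ u, ∑ v, ∑ w, F.pos t₁ t₂ u v * F.pos v t₃ w s₃ * F.pos u w s₁ s₂ =
      ∑ u, ∑ v, ∑ w, F.pos t₂ t₃ u v * F.pos t₁ u s₁ w * F.pos w v s₂ s₃
  rotp : ∀ a b c x, F.cup (F.dual c) * F.pos a b x (F.dual c) =
    F.cup a * F.neg b c (F.dual a) x
  rotn : ∀ a b c x, F.cup (F.dual c) * F.neg a b x (F.dual c) =
    F.cup a * F.pos b c (F.dual a) x

/-- change of the ring -/
def FD.map {B : Type*} [CommRing B] (φ : A →+* B) (F : FD A ι) : FD B ι where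
  dual := F.dual
  cup := fun a => φ (F.cup a)
  cap := fun a => φ (F.cap a)
  pos := fun a b c d => φ (F.pos a b c d)
  neg := fun a b c d => φ (F.neg a b c d)

/-- The operator of a singular diagram: a double point is the difference of the crossings. -/
def FD.sRT (F : FD A ι) : SDiagram → (List ι → A) → List ι → A
  | [], f => f
  | (k, .reg p) :: S, f => F.sRT S (F.sl p k f)
  | (k, .dbl) :: S, f => F.sRT S (fun w => F.sl .pos k f w - F.sl .neg k f w)

end FD

/-- shift a diagram to the right -/
def sh (k : ℕ) (D : Diagram) : Diagram := D.map fun s => (k + s.1, s.2)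

/-! ### the vector representation of quantum `gl(N)` and its dual -/

section WF

variable {A : Type*} [CommRing A]

/-- integral powers of a unit -/
def zp (q : Aˣ) (x : ℤ) : A := ((q ^ x : Aˣ) : A)

/-- `q - q⁻¹` -/
def zz (q : Aˣ) : A := zp q 1 - zp q (-1)

/-- The matrix of the positive crossing of two strands which go up. -/
def pB {N : ℕ} (q : Aˣ) (i j k l : Fin N) : A :=
  if i = j then (if k = i ∧ l = i then zp q (1 - N) else 0)
  else zp q (-N) * ((if k = j ∧ l = i then 1 else 0) + (if i < j ∧ k = i ∧ l = j then zz q else 0))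

/-- The matrix of the negative crossing of two strands which go up. -/
def nB {N : ℕ} (q : Aˣ) (i j k l : Fin N) : A :=
  if i = j then (if k = i ∧ l = i then zp q (N - 1) else 0)
  else zp q N * ((if k = j ∧ l = i then 1 else 0) - (if j < i ∧ k = i ∧ l = j then zz q else 0))

/-- both matrices -/
def xB {N : ℕ} (q : Aˣ) (s : Bool) (i j k l : Fin N) : A :=
  if s then pB q i j k l else nB q i j k l

/-- the coefficient of a minimum which goes up at its left end -/
def kap {N : ℕ} (q : Aˣ) (i : Fin N) : A := zp q (2 * (i : ℤ) + 1 - N)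

/-- its inverse -/
def kapi {N : ℕ} (q : Aˣ) (i : Fin N) : A := zp q (N - 1 - 2 * (i : ℤ))

/-- The matrix of a crossing for all orientations; `(true, i)` is the basis vector number `i` of the
vector representation (a strand which goes up), `(false, i)` that of the dual (a strand which
goes down). -/
def xW {N : ℕ} (q : Aˣ) (s : Bool) : Bool × Fin N → Bool × Fin N → Bool × Fin N → Bool × Fin N → A
  | (true, a), (true, b), (true, c), (true, d) => xB q s a b c d
  | (false, a), (false, b), (false, c), (false, d) => xB q s d c b a
  | (true, a), (false, b), (false, c), (true, d) => kap q b * kapi q c * xB q (!s) c a d b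
  | (false, a), (true, b), (true, c), (false, d) => xB q (!s) b d a c
  | _, _, _, _ => 0

/-- The state sum of the vector representation and its dual. -/
def WF (N : ℕ) (q : Aˣ) : FD A (Bool × Fin N) where
  dual := fun a => (!a.1, a.2)
  cup := fun a => if a.1 then kap q a.2 else 1
  cap := fun a => if a.1 then 1 else kapi q a.2
  pos := xW q true
  neg := xW q false

/-- the value of a knot diagram -/
def val (N : ℕ) [NeZero N] (q : Aˣ) (D : Diagram) : A :=
  (WF N q).RT D (ket A [(true, 0)]) [(true, 0)]

/-- the quantum integer `[N]` -/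
def dl (N : ℕ) (q : Aˣ) : A := ∑ i : Fin N, kap q i

/-- The coefficient of the product of a maximum and a minimum in `k` full twists of antiparallel
strands; `cc k * [N] = 1 - q ^ (2 N k)`. -/
def cc (N : ℕ) (q : Aˣ) : ℤ → A
  | .ofNat m => -(zz q * zp q N * ∑ i ∈ range m, zp q (2 * N * i))
  | .negSucc m => zz q * zp q (-N) * ∑ i ∈ range (m + 1), zp q (-(2 * N * i))

end WF

/-! ### planar state sums -/

/-- The data of a planar state sum: the coefficients of minima (`c`) and of maxima (`e`) with an even
number of strands to the left (`true`) or an odd number (`false`). -/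
structure TL (A ι : Type*) where
  c : Bool → ι → A
  e : Bool → ι → A

section TL

variable {A ι : Type*} [CommRing A] [Fintype ι] [DecidableEq ι]

/-- straightening, and the value `δ` of a closed curve -/
structure TL.Ok (T : TL A ι) (δ : A) : Prop where
  zig : ∀ b i, T.e (!b) i * T.c b i = 1
  loop : ∀ b, ∑ i, T.e b i * T.c b i = δ

/-- a minimum with `k` strands to its left; `b` is the parity of the first strand -/
def TL.cu (T : TL A ι) (b : Bool) : ℕ → (List ι → A) → List ι → A
  | 0, f, x :: y :: w => if x = y then T.c b x * f w else 0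
  | 0, _, _ => 0
  | _ + 1, _, [] => 0
  | k + 1, f, x :: w => T.cu (!b) k (fun u => f (x :: u)) w

/-- a maximum with `k` strands to its left; `b` is the parity of the first strand -/
def TL.ca (T : TL A ι) (b : Bool) : ℕ → (List ι → A) → List ι → A
  | 0, f, w => ∑ x, T.e b x * f (x :: x :: w)
  | _ + 1, _, [] => 0
  | k + 1, f, x :: w => T.ca (!b) k (fun u => f (x :: u)) w

/-- planar diagrams: minima (`true`) and maxima (`false`) with the number of strands to their left -/
abbrev PD := List (Bool × ℕ)

/-- the operator of a planar diagram -/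
def TL.pev (T : TL A ι) : PD → (List ι → A) → List ι → A
  | [], f => f
  | (true, k) :: D, f => T.pev D (T.cu true k f)
  | (false, k) :: D, f => T.pev D (T.ca true k f)

/-- The operator of a pattern; a vertex with weights `(x, y)` is `x` times two vertical strands plus `y`
times a maximum below a minimum. -/
def TL.ev (T : TL A ι) : List (Item Unit) → List (A × A) → (List ι → A) → List ι → A
  | [], _, f => f
  | .cup k :: S, v, f => T.ev S v (T.cu true k f)
  | .cap k :: S, v, f => T.ev S v (T.ca true k f)
  | .box k _ :: S, z :: v, f =>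
      T.ev S v (fun w => z.1 * f w + z.2 * T.cu true k (T.ca true k f) w)
  | .box _ _ :: S, [], f => T.ev S [] f

end TL

/-- `D` goes from `n` to `m` strands. -/
def wfD : ℕ → PD → ℕ → Prop
  | n, [], m => n = m
  | n, (true, k) :: D, m => k ≤ n ∧ wfD (n + 2) D m
  | n, (false, k) :: D, m => k + 2 ≤ n ∧ wfD (n - 2) D m

/-- The smoothing of a pattern: a vertex is replaced by a maximum below a minimum (`true`) or by two
vertical strands (`false`). -/
def sm : List (Item Unit) → List Bool → PD
  | [], _ => []
  | .cup k :: S, I => (true, k) :: sm S I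
  | .cap k :: S, I => (false, k) :: sm S I
  | .box k _ :: S, true :: I => (false, k) :: (true, k) :: sm S I
  | .box _ _ :: S, false :: I => sm S I
  | .box _ _ :: S, [] => sm S []

/-- the sides of the vertices: is the number of strands to the left even -/
def sides : List (Item Unit) → List Bool
  | [] => []
  | .cup _ :: S => sides S
  | .cap _ :: S => sides S
  | .box k _ :: S => (k % 2 == 0) :: sides S

/-- the number of strands of a pattern (as `wfP`) -/
def wfS : ℕ → List (Item Unit) → ℕ → Prop
  | n, [], m => n = m
  | n, .cup k :: S, m => k ≤ n ∧ wfS (n + 2) S m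
  | n, .cap k :: S, m => k + 2 ≤ n ∧ wfS (n - 2) S m
  | n, .box k _ :: S, m => k + 2 ≤ n ∧ wfS n S m

/-- `1` for an even number, `-1` for an odd number -/
def sgn (k : ℕ) : ℤ := if k % 2 = 0 then 1 else -1

/-- the sum of the signs of the positions -/
def rot (D : PD) : ℤ := (D.map fun s => sgn s.2).sum

/-- The minima `cs` (the last one first) below a maximum with `k` strands to its left: the minima that
remain, and the numbers of closed curves at even and odd positions. -/
def push : ℕ → List ℕ → List ℕ × ℕ × ℕ
  | _, [] => ([], 0, 0)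
  | k, j :: cs =>
    if k = j then (cs, if k % 2 = 0 then (1, 0) else (0, 1))
    else if k = j + 1 ∨ k + 1 = j then (cs, 0, 0)
    else if j < k then (j :: (push (k - 2) cs).1, (push (k - 2) cs).2)
    else ((j - 2) :: (push k cs).1, (push k cs).2)

/-- all pieces of a planar diagram, beginning with the minima `cs` -/
def run : PD → List ℕ → List ℕ × ℕ × ℕ
  | [], cs => (cs, 0, 0)
  | (true, k) :: D, cs => run D (k :: cs)
  | (false, k) :: D, cs =>
    ((run D (push k cs).1).1, (push k cs).2.1 + (run D (push k cs).1).2.1,
      (push k cs).2.2 + (run D (push k cs).1).2.2)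

/-- the minima `cs` as a planar diagram -/
def cups (cs : List ℕ) : PD := cs.reverse.map fun k => (true, k)

/-- the minima `cs` are possible above one strand -/
def wfC : List ℕ → Prop
  | [] => True
  | j :: cs => j ≤ 1 + 2 * cs.length ∧ wfC cs

/-- the number of closed curves of a planar diagram from one strand to one strand -/
def lp (D : PD) : ℕ := (run D []).2.1 + (run D []).2.2

/-! ### labellings with jumps over `F₂` -/

/-- the word of length two at the strands `k`, `k + 1` -/
def addAt : ℕ → ZMod 2 → List (ZMod 2) → List (ZMod 2)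
  | 0, x, a :: b :: w => (a + x) :: (b + x) :: w
  | 0, _, w => w
  | _ + 1, _, [] => []
  | k + 1, x, a :: w => a :: addAt k x w

/-- the sum of the labels of the strands `k`, `k + 1` -/
def dfAt : ℕ → List (ZMod 2) → ZMod 2
  | 0, a :: b :: _ => a + b
  | 0, _ => 0
  | _ + 1, [] => 0
  | k + 1, _ :: w => dfAt k w

/-- the sign of an element of `F₂` -/
def sg2 (x : ZMod 2) : ℚ := if x = 0 then 1 else -1

/-- the planar state sum with labels in `F₂` and all coefficients `1` -/
def T2 : TL ℚ (ZMod 2) where
  c := fun _ _ => 1
  e := fun _ _ => 1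

/-- The operator of a pattern over `F₂`: at a vertex with weights `(x, s)` the labels of both strands
change by `x`, and the coefficient is the sign of `s` times their sum. -/
def jev : List (Item Unit) → List (ZMod 2 × ZMod 2) → (List (ZMod 2) → ℚ) → List (ZMod 2) → ℚ
  | [], _, f => f
  | .cup k :: S, v, f => jev S v (T2.cu true k f)
  | .cap k :: S, v, f => jev S v (T2.ca true k f)
  | .box k _ :: S, z :: v, f =>
      jev S v (fun w => sg2 (z.2 * dfAt k w) * f (addAt k z.1 w))
  | .box _ _ :: S, [], f => jev S [] f

/-- `LB S b d u`: there is a labelling of the strands of `S` by elements of `F₂`, with the labels `u` at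
the bottom and `0` at the top, where both labels at the vertices change by the entries of `b`,
and `d` is the list of the sums of the labels of the two lower strands at the vertices. -/
inductive LB : List (Item Unit) → List (ZMod 2) → List (ZMod 2) → List (ZMod 2) → Prop
  | nil : LB [] [] [] [0]
  | cup {S : List (Item Unit)} {b d l r : List (ZMod 2)} {s : ZMod 2}
      (h : LB S b d (l ++ s :: s :: r)) : LB (.cup l.length :: S) b d (l ++ r)
  | cap {S : List (Item Unit)} {b d l r : List (ZMod 2)} {s : ZMod 2}
      (h : LB S b d (l ++ r)) : LB (.cap l.length :: S) b d (l ++ s :: s :: r)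
  | box {S : List (Item Unit)} {b d l r : List (ZMod 2)} {s t x : ZMod 2} {a : Unit}
      (h : LB S b d (l ++ (s + x) :: (t + x) :: r)) :
      LB (.box l.length a :: S) (x :: b) ((s + t) :: d) (l ++ s :: t :: r)

/-! ### arcs -/

/-- `ArcP c L S`: as `Arc`, for the pattern `S` with two vertical strands at each vertex. -/
def ArcP : ℕ → List ℕ → List (Item Unit) → Prop
  | _, L, [] => L.length = 1
  | c, L, .cup k :: S => k ≤ L.length ∧ ArcP (c + 1) (L.take k ++ c :: c :: L.drop k) S
  | c, L, .cap k :: S => match L.drop k with
    | x :: y :: R => x ≠ y ∧ ArcP c ((L.take k ++ R).map fun z => if z = y then x else z) S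
    | _ => False
  | c, L, .box k _ :: S => k + 2 ≤ L.length ∧ ArcP c L S

/-- Each label occurs twice, except `m`, which occurs once; the labels are less than `c`. -/
def Cnt (c : ℕ) (L : List ℕ) (m : ℕ) : Prop :=
  L.count m = 1 ∧ (∀ x ∈ L, x ≠ m → L.count x = 2) ∧ ∀ x ∈ L, x < c

/-- the twist numbers are possible: at the vertices with an even number of strands to the left
`2 ^ (u + 1)` times an odd number, at the others `2 ^ (v + 1)` times an odd number -/
def Vals (u v : ℕ) : List (Item Unit) → List ℤ → Prop
  | [], _ => True
  | .cup _ :: S, a => Vals u v S a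
  | .cap _ :: S, a => Vals u v S a
  | .box k _ :: S, x :: a =>
    (∃ t : ℤ, x = 2 ^ ((if k % 2 = 0 then u else v) + 1) * (2 * t + 1)) ∧ Vals u v S a
  | .box _ _ :: _, [] => True

end Pool.Agent.EVT
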