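import Pool.Agent.EVT.Defs

/-!
# Evenly twisted knots: further definitions (oriented states)

Only definitions.
-/

namespace Pool.Agent.EVT

open Finset
open Pool.Agent.Helper9.Kashaev (Piece Diagram)
open Pool.Agent.Helper9.FA (Item twists)

variable {A : Type*} [CommRing A]

/-- the planar state sum of the vector representation, with alternating orientations (the strands with
an even number of strands to the left go up) -/
def TQ (N : ℕ) (q : Aˣ) : TL A (Fin N) where
  c := fun b i => if b then kap q i else 1
  e := fun b i => if b then 1 else kapi q i

/-- alternating orientations -/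
def lft {N : ℕ} : Bool → List (Fin N) → List (Bool × Fin N)
  | _, [] => []
  | b, i :: u => (b, i) :: lft (!b) u

/-- The orientations of the strands with the labels `L`, if the arc with the label `x` has alternating
orientation for `g x = false` and the opposite orientation for `g x = true`. -/
def flg (g : ℕ → Bool) : Bool → List ℕ → List Bool
  | _, [] => []
  | b, x :: L => (b ^^ g x) :: flg g (!b) L

/-- `f` vanishes outside the words whose orientations are given by a function of the arcs, and the arc
`m` has alternating orientation. -/
def SuL {N : ℕ} (L : List ℕ) (m : ℕ) (f : List (Bool × Fin N) → A) : Prop :=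
  ∀ w, f w ≠ 0 → ∃ g : ℕ → Bool, g m = false ∧ w.map Prod.fst = flg g true L

/-- the same for labels in `F₂` -/
def SuF (L : List ℕ) (m : ℕ) (f : List (ZMod 2) → ℚ) : Prop :=
  ∀ w, f w ≠ 0 → ∃ g : ℕ → ZMod 2, g m = 0 ∧ w = L.map g

/-- the twist numbers `2 k` -/
def dbl2 (ks : List ℤ) : List ℤ := ks.map fun k => 2 * k

/-- the weights of the vertices with `2 k` crossings -/
def wtQ (N : ℕ) (q : Aˣ) (ks : List ℤ) : List (A × A) :=
  ks.map fun k => (zp q (2 * N * k), cc N q k)

end Pool.Agent.EVT
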