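import Pool.Agent.EVT.Defs
import Mathlib.LinearAlgebra.Matrix.Rank

/-!
# Evenly twisted knots: further definitions (linear algebra over `F₂`)

Only definitions.
-/

namespace Pool.Agent.EVT

open Finset

/-- The rank of the part of `M` with rows in `I` at the side `true` and columns in `I` at the side
`false`. -/
noncomputable def rkI {n : ℕ} (M : Matrix (Fin n) (Fin n) (ZMod 2)) (sd I : Fin n → Bool) : ℕ :=
  (Matrix.of fun i j => if I i = true ∧ sd i = true ∧ I j = true ∧ sd j = false then M i j else 0 :
    Matrix (Fin n) (Fin n) (ZMod 2)).rank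

/-- The rows of `M` in `I` at the side `s` span all rows at this side. -/
def Spn {n : ℕ} (M : Matrix (Fin n) (Fin n) (ZMod 2)) (sd : Fin n → Bool) (s : Bool)
    (I : Fin n → Bool) : Prop :=
  Submodule.span (ZMod 2) {x | ∃ i, I i = true ∧ sd i = s ∧ x = M i} =
    Submodule.span (ZMod 2) {x | ∃ i, sd i = s ∧ x = M i}

/-- the vertices at the side `s` -/
def Vs {n : ℕ} (sd : Fin n → Bool) (s : Bool) : Finset (Fin n) := univ.filter fun i => sd i = s

/-- the characteristic function -/
def ind {n : ℕ} (J : Finset (Fin n)) : Fin n → Bool := fun i => decide (i ∈ J)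

open Classical in
/-- the sum over the spanning sets at the side `s` -/
noncomputable def spS {n : ℕ} {R : Type*} [CommRing R] (M : Matrix (Fin n) (Fin n) (ZMod 2))
    (sd : Fin n → Bool) (s : Bool) (w : Fin n → Bool → R) : R :=
  ∑ J ∈ (Vs sd s).powerset.filter (fun J => Spn M sd s (ind J)),
    (∏ i ∈ J, w i true) * ∏ i ∈ Vs sd s \ J, w i false

end Pool.Agent.EVT
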