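import Pool.Agent.Helper77.CR.Defs2

/-!
# Evenly twisted knots: definitions (dissolving a set of vertices)

Only definitions.
-/

namespace Pool.Agent.EVT

open Pool.Agent.Helper9.FA (Item labels)
open Pool.Agent.Helper9.TW (Conn)
open Pool.Agent.Helper77.CR (smo)

/-- The smoothings of the vertices number `0`, ..., `n - 1` (see `smo`): a vertex in `B` is replaced by a
maximum below and a minimum above, the other vertices in `D` are kept, and all others are
replaced by two vertical strands. -/
def st (n : ℕ) (D B : Finset ℕ) : List (Option Bool) :=
  (List.range n).map fun i => if i ∈ B then some true else if i ∈ D then none else some false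

/-- The vertices in `D` can be removed step by step: each step removes a set `B` of at most two
vertices such that the pattern with the vertices `D` (the other vertices are replaced by two
vertical strands) falls apart if the vertices in `B` are replaced by a maximum below and a minimum
above, but not if this is done with fewer vertices of `B`. -/
inductive Dissolves (S : List (Item Unit)) : Finset ℕ → Prop
  | empty : Dissolves S ∅
  | step {D B : Finset ℕ} (hB : B ⊆ D) (h2 : B.card ≤ 2)
      (hc : ¬ Conn (smo (st (labels S).length D B) S))
      (hm : ∀ C ⊂ B, Conn (smo (st (labels S).length D C) S))
      (hD : Dissolves S (D \ B)) : Dissolves S D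

end Pool.Agent.EVT
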