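import Pool.Agent.EVT.TA

/-!
# EVT module FA: labellings over `F₂`: elementary facts about `LB` and `jev`

* `lb_len`: lengths; `lb_add`: the sum of two labellings (induction on the first one; cases of the second
  one, `l.length` determines the decomposition; lengths by `lb_len`).
* `lb_pair`: for two labellings the sum over the strands of the products of the labels changes at a
  vertex by `(s + x) (s' + x') + (t + x) (t' + x') - s s' - t t' = x (s' + t') + x' (s + t)` (in `F₂`), at
  minima and maxima by `2 s s' = 0`, and is `0` at the top.
* `jev_lin`, `jev_congr`: linearity, only words of the right length matter.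
* `jev_lb`: if the value is non-zero then there is a labelling: induction on `S`, generalizing `f`:
  `jev (cup :: S) v f = jev S v (cu f)`; the induction hypothesis gives a word `u'` with
  `(cu f) u' ≠ 0` and `LB S b d u'`; then `u' = l ++ s :: s :: r` with `f (l ++ r) ≠ 0`, `LB.cup`.  For a
  vertex the word is `addAt k x w`-shifted: `LB.box` with `l ++ s :: t :: r = addAt k x u'`
  (`addAt k x (addAt k x w) = w`).
-/

namespace Pool.Agent.EVT

open Finset
open Pool.Agent.Helper9.FA (Item)

/-- sum of words -/
def wadd (u v : List (ZMod 2)) : List (ZMod 2) := List.zipWith (· + ·) u v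

/-- `∑ i, u i * v i` -/
def dotp (u v : List (ZMod 2)) : ZMod 2 := (List.zipWith (· * ·) u v).sum

namespace FAx
end FAx

open FAx

theorem FAx.wadd_append {l l' r r' : List (ZMod 2)} (h : l.length = l'.length) :
    wadd (l ++ r) (l' ++ r') = wadd l l' ++ wadd r r' := by
  unfold wadd
  exact List.zipWith_append h

theorem FAx.wadd_cons (a b : ZMod 2) (r r' : List (ZMod 2)) :
    wadd (a :: r) (b :: r') = (a + b) :: wadd r r' := rfl

theorem FAx.wadd_length {l l' : List (ZMod 2)} (h : l.length = l'.length) :
    (wadd l l').length = l.length := by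
  unfold wadd
  rw [List.length_zipWith, ← h, min_self]

theorem FAx.dotp_append {l l' r r' : List (ZMod 2)} (h : l.length = l'.length) :
    dotp (l ++ r) (l' ++ r') = dotp l l' + dotp r r' := by
  unfold dotp
  rw [List.zipWith_append h, List.sum_append]

theorem FAx.dotp_cons (a b : ZMod 2) (r r' : List (ZMod 2)) :
    dotp (a :: r) (b :: r') = a * b + dotp r r' := by
  unfold dotp
  rw [List.zipWith_cons_cons, List.sum_cons]

theorem FAx.lb_cup_inv {k : ℕ} {S : List (Item Unit)} {b d u : List (ZMod 2)}
    (h : LB (.cup k :: S) b d u) :
    ∃ (l r : List (ZMod 2)) (s : ZMod 2), l.length = k ∧ u = l ++ r ∧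
      LB S b d (l ++ s :: s :: r) := by
  cases h with
  | cup h => exact ⟨_, _, _, rfl, rfl, h⟩

theorem FAx.lb_cap_inv {k : ℕ} {S : List (Item Unit)} {b d u : List (ZMod 2)}
    (h : LB (.cap k :: S) b d u) :
    ∃ (l r : List (ZMod 2)) (s : ZMod 2), l.length = k ∧ u = l ++ s :: s :: r ∧
      LB S b d (l ++ r) := by
  cases h with
  | cap h => exact ⟨_, _, _, rfl, rfl, h⟩

theorem FAx.lb_box_inv {k : ℕ} {a : Unit} {S : List (Item Unit)} {b d u : List (ZMod 2)}
    (h : LB (.box k a :: S) b d u) :
    ∃ (l r : List (ZMod 2)) (s t x : ZMod 2) (b0 d0 : List (ZMod 2)), l.length = k ∧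
      b = x :: b0 ∧ d = (s + t) :: d0 ∧ u = l ++ s :: t :: r ∧
      LB S b0 d0 (l ++ (s + x) :: (t + x) :: r) := by
  cases h with
  | box h => exact ⟨_, _, _, _, _, _, _, rfl, rfl, rfl, rfl, h⟩

theorem FAx.lb_nil_inv {b d u : List (ZMod 2)} (h : LB [] b d u) : b = [] ∧ d = [] ∧ u = [0] := by
  cases h with
  | nil => exact ⟨rfl, rfl, rfl⟩

theorem lb_len {S : List (Item Unit)} {b d u : List (ZMod 2)} (h : LB S b d u) :
    b.length = (sides S).length ∧ d.length = (sides S).length ∧ wfS u.length S 1 := by
  induction h with
  | nil => exact ⟨rfl, rfl, rfl⟩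
  | @cup S b d l r s h ih =>
    refine ⟨ih.1, ih.2.1, ?_, ?_⟩
    · rw [List.length_append]
      omega
    · have h1 := ih.2.2
      have h2 : (l ++ s :: s :: r).length = (l ++ r).length + 2 := by
        rw [List.length_append, List.length_append, List.length_cons, List.length_cons]
        omega
      rwa [h2] at h1
  | @cap S b d l r s h ih =>
    refine ⟨ih.1, ih.2.1, ?_, ?_⟩
    · rw [List.length_append, List.length_cons, List.length_cons]
      omega
    · have h1 := ih.2.2
      have h2 : (l ++ r).length = (l ++ s :: s :: r).length - 2 := by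
        rw [List.length_append, List.length_append, List.length_cons, List.length_cons]
        omega
      rwa [h2] at h1
  | @box S b d l r s t x a h ih =>
    refine ⟨?_, ?_, ?_, ?_⟩
    · rw [List.length_cons, ih.1]
      rfl
    · rw [List.length_cons, ih.2.1]
      rfl
    · rw [List.length_append, List.length_cons, List.length_cons]
      omega
    · have h1 := ih.2.2
      have h2 : (l ++ (s + x) :: (t + x) :: r).length = (l ++ s :: t :: r).length := by
        rw [List.length_append, List.length_append, List.length_cons, List.length_cons,
          List.length_cons, List.length_cons]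
      rwa [h2] at h1

theorem lb_add {S : List (Item Unit)} {b d u b' d' u' : List (ZMod 2)} (h : LB S b d u)
    (h' : LB S b' d' u') (hu : u.length = u'.length) :
    LB S (wadd b b') (wadd d d') (wadd u u') := by
  induction h generalizing b' d' u' with
  | nil =>
    obtain ⟨rfl, rfl, rfl⟩ := lb_nil_inv h'
    exact LB.nil
  | @cup S b d l r s h ih =>
    obtain ⟨l', r', s', hl, rfl, h1⟩ := lb_cup_inv h'
    have hr : r.length = r'.length := by
      rw [List.length_append, List.length_append, hl] at hu
      omega
    have h2 := ih h1 (by
      rw [List.length_append, List.length_append, List.length_cons, List.length_cons,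
        List.length_cons, List.length_cons, hl, hr])
    rw [wadd_append hl.symm, wadd_cons, wadd_cons] at h2
    have h3 := LB.cup h2
    rw [wadd_length hl.symm] at h3
    rw [wadd_append hl.symm]
    exact h3
  | @cap S b d l r s h ih =>
    obtain ⟨l', r', s', hl, rfl, h1⟩ := lb_cap_inv h'
    have hr : r.length = r'.length := by
      rw [List.length_append, List.length_append, List.length_cons, List.length_cons,
        List.length_cons, List.length_cons, hl] at hu
      omega
    have h2 := ih h1 (by rw [List.length_append, List.length_append, hl, hr])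
    rw [wadd_append hl.symm] at h2
    have h3 := LB.cap (s := s + s') h2
    rw [wadd_length hl.symm] at h3
    rw [wadd_append hl.symm, wadd_cons, wadd_cons]
    exact h3
  | @box S b d l r s t x a h ih =>
    obtain ⟨l', r', s', t', x', b0, d0, hl, rfl, rfl, rfl, h1⟩ := lb_box_inv h'
    have hr : r.length = r'.length := by
      rw [List.length_append, List.length_append, List.length_cons, List.length_cons,
        List.length_cons, List.length_cons, hl] at hu
      omega
    have h2 := ih h1 (by
      rw [List.length_append, List.length_append, List.length_cons, List.length_cons,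
        List.length_cons, List.length_cons, hl, hr])
    rw [wadd_append hl.symm, wadd_cons, wadd_cons, add_add_add_comm s x, add_add_add_comm t x]
      at h2
    have h3 := LB.box (a := a) h2
    rw [wadd_length hl.symm] at h3
    rw [wadd_append hl.symm, wadd_cons, wadd_cons, wadd_cons, wadd_cons, add_add_add_comm s t]
    exact h3

theorem FAx.two_zero : (2 : ZMod 2) = 0 := rfl

theorem lb_pair {S : List (Item Unit)} {b d u b' d' u' : List (ZMod 2)} (h : LB S b d u)
    (h' : LB S b' d' u') (hu : u.length = u'.length) :
    dotp b d' + dotp b' d = dotp u u' := by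
  induction h generalizing b' d' u' with
  | nil =>
    obtain ⟨rfl, rfl, rfl⟩ := lb_nil_inv h'
    rfl
  | @cup S b d l r s h ih =>
    obtain ⟨l', r', s', hl, rfl, h1⟩ := lb_cup_inv h'
    have hr : r.length = r'.length := by
      rw [List.length_append, List.length_append, hl] at hu
      omega
    have h2 := ih h1 (by
      rw [List.length_append, List.length_append, List.length_cons, List.length_cons,
        List.length_cons, List.length_cons, hl, hr])
    rw [dotp_append hl.symm, dotp_cons, dotp_cons] at h2
    rw [dotp_append hl.symm]
    linear_combination h2 + (s * s') * two_zero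
  | @cap S b d l r s h ih =>
    obtain ⟨l', r', s', hl, rfl, h1⟩ := lb_cap_inv h'
    have hr : r.length = r'.length := by
      rw [List.length_append, List.length_append, List.length_cons, List.length_cons,
        List.length_cons, List.length_cons, hl] at hu
      omega
    have h2 := ih h1 (by rw [List.length_append, List.length_append, hl, hr])
    rw [dotp_append hl.symm] at h2
    rw [dotp_append hl.symm, dotp_cons, dotp_cons]
    linear_combination h2 - (s * s') * two_zero
  | @box S b d l r s t x a h ih =>
    obtain ⟨l', r', s', t', x', b0, d0, hl, rfl, rfl, rfl, h1⟩ := lb_box_inv h'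
    have hr : r.length = r'.length := by
      rw [List.length_append, List.length_append, List.length_cons, List.length_cons,
        List.length_cons, List.length_cons, hl] at hu
      omega
    have h2 := ih h1 (by
      rw [List.length_append, List.length_append, List.length_cons, List.length_cons,
        List.length_cons, List.length_cons, hl, hr])
    rw [dotp_append hl.symm, dotp_cons, dotp_cons] at h2
    rw [dotp_append hl.symm, dotp_cons, dotp_cons, dotp_cons, dotp_cons]
    linear_combination h2 + (x * (s' + t') + x' * (s + t) + x * x') * two_zero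

theorem jev_lin (S : List (Item Unit)) (v : List (ZMod 2 × ZMod 2)) {κ : Type*} (s : Finset κ)
    (c : κ → ℚ) (h : κ → List (ZMod 2) → ℚ) (w : List (ZMod 2)) :
    jev S v (fun u => ∑ j ∈ s, c j * h j u) w = ∑ j ∈ s, c j * jev S v (h j) w := by
  induction S generalizing v h with
  | nil => rfl
  | cons p S ih =>
    cases p with
    | cup k =>
      have e : T2.cu true k (fun u => ∑ j ∈ s, c j * h j u) =
          fun w => ∑ j ∈ s, c j * T2.cu true k (h j) w :=
        funext fun w => TL.cu_lin T2 true k s c h w
      simp only [jev]
      rw [e]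
      exact ih v fun j => T2.cu true k (h j)
    | cap k =>
      have e : T2.ca true k (fun u => ∑ j ∈ s, c j * h j u) =
          fun w => ∑ j ∈ s, c j * T2.ca true k (h j) w :=
        funext fun w => TL.ca_lin T2 true k s c h w
      simp only [jev]
      rw [e]
      exact ih v fun j => T2.ca true k (h j)
    | box k a =>
      cases v with
      | nil =>
        simp only [jev]
        exact ih [] h
      | cons z v =>
        have e : (fun w => sg2 (z.2 * dfAt k w) * ∑ j ∈ s, c j * h j (addAt k z.1 w)) =
            fun w => ∑ j ∈ s, c j * (sg2 (z.2 * dfAt k w) * h j (addAt k z.1 w)) := by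
          funext w
          rw [mul_sum]
          refine sum_congr rfl fun j _ => ?_
          ring
        simp only [jev]
        rw [e]
        exact ih v fun j w => sg2 (z.2 * dfAt k w) * h j (addAt k z.1 w)

theorem FAx.addAt_length (k : ℕ) (x : ZMod 2) (w : List (ZMod 2)) :
    (addAt k x w).length = w.length := by
  induction k generalizing w with
  | zero =>
    rcases w with _ | ⟨a, _ | ⟨b, w⟩⟩
    · rfl
    · rfl
    · rfl
  | succ k ih =>
    cases w with
    | nil => rfl
    | cons a w =>
      simp only [addAt, List.length_cons, ih]

theorem FAx.addAt_append (l r : List (ZMod 2)) (p q x : ZMod 2) :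
    addAt l.length x (l ++ p :: q :: r) = l ++ (p + x) :: (q + x) :: r := by
  induction l with
  | nil => rfl
  | cons a l ih =>
    simp only [List.length_cons, List.cons_append, addAt, ih]

theorem FAx.dfAt_append (l r : List (ZMod 2)) (p q : ZMod 2) :
    dfAt l.length (l ++ p :: q :: r) = p + q := by
  induction l with
  | nil => rfl
  | cons a l ih =>
    simp only [List.length_cons, List.cons_append, dfAt, ih]

theorem FAx.exists_split (k : ℕ) (w : List (ZMod 2)) (h : k + 2 ≤ w.length) :
    ∃ (l r : List (ZMod 2)) (p q : ZMod 2), l.length = k ∧ w = l ++ p :: q :: r := by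
  induction k generalizing w with
  | zero =>
    rcases w with _ | ⟨a, _ | ⟨b, w⟩⟩
    · rw [List.length_nil] at h
      omega
    · rw [List.length_cons, List.length_nil] at h
      omega
    · exact ⟨[], w, a, b, rfl, rfl⟩
  | succ k ih =>
    cases w with
    | nil =>
      rw [List.length_nil] at h
      omega
    | cons a w =>
      rw [List.length_cons] at h
      obtain ⟨l, r, p, q, h1, h2⟩ := ih w (by omega)
      exact ⟨a :: l, r, p, q, by rw [List.length_cons, h1], by rw [h2]; rfl⟩

theorem jev_congr {n : ℕ} {S : List (Item Unit)} (hS : wfS n S 1) (v : List (ZMod 2 × ZMod 2))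
    {f g : List (ZMod 2) → ℚ} (h : ∀ u : List (ZMod 2), u.length = n → f u = g u)
    (w : List (ZMod 2)) (hw : w.length = 1) : jev S v f w = jev S v g w := by
  induction S generalizing n v f g with
  | nil =>
    have h1 : n = 1 := hS
    exact h w (by rw [hw, h1])
  | cons p S ih =>
    cases p with
    | cup k =>
      have h1 : k ≤ n ∧ wfS (n + 2) S 1 := hS
      simp only [jev]
      refine ih h1.2 v fun u hu => ?_
      exact TL.cu_congr T2 true k u fun u' hu' => h u' (by omega)
    | cap k =>
      have h1 : k + 2 ≤ n ∧ wfS (n - 2) S 1 := hS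
      simp only [jev]
      refine ih h1.2 v fun u hu => ?_
      exact TL.ca_congr T2 true k u fun u' hu' => h u' (by omega)
    | box k a =>
      have h1 : k + 2 ≤ n ∧ wfS n S 1 := hS
      cases v with
      | nil =>
        simp only [jev]
        exact ih h1.2 [] h
      | cons z v =>
        simp only [jev]
        refine ih h1.2 v fun u hu => ?_
        rw [h (addAt k z.1 u) (by rw [addAt_length, hu])]

theorem FAx.cu_ne (k : ℕ) (b : Bool) (f : List (ZMod 2) → ℚ) (w : List (ZMod 2))
    (h : T2.cu b k f w ≠ 0) : ∃ (l r : List (ZMod 2)) (s : ZMod 2), l.length = k ∧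
      w = l ++ s :: s :: r ∧ f (l ++ r) ≠ 0 := by
  induction k generalizing b f w with
  | zero =>
    rcases w with _ | ⟨x, _ | ⟨y, w⟩⟩
    · exact absurd rfl h
    · exact absurd rfl h
    · simp only [TL.cu] at h
      by_cases hxy : x = y
      · rw [if_pos hxy] at h
        subst hxy
        exact ⟨[], w, x, rfl, rfl, fun hc => h (by rw [List.nil_append] at hc; rw [hc, mul_zero])⟩
      · rw [if_neg hxy] at h
        exact absurd rfl h
  | succ k ih =>
    cases w with
    | nil => exact absurd rfl h
    | cons x w =>
      simp only [TL.cu] at h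
      obtain ⟨l, r, s, h1, h2, h3⟩ := ih _ _ _ h
      exact ⟨x :: l, r, s, by rw [List.length_cons, h1], by rw [h2]; rfl, h3⟩

theorem FAx.ca_ne (k : ℕ) (b : Bool) (f : List (ZMod 2) → ℚ) (w : List (ZMod 2))
    (h : T2.ca b k f w ≠ 0) : ∃ (l r : List (ZMod 2)) (s : ZMod 2), l.length = k ∧
      w = l ++ r ∧ f (l ++ s :: s :: r) ≠ 0 := by
  induction k generalizing b f w with
  | zero =>
    simp only [TL.ca] at h
    obtain ⟨x, _, hx⟩ := exists_ne_zero_of_sum_ne_zero h
    exact ⟨[], w, x, rfl, rfl, fun hc => hx (by rw [List.nil_append] at hc; rw [hc, mul_zero])⟩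
  | succ k ih =>
    cases w with
    | nil => exact absurd rfl h
    | cons x w =>
      simp only [TL.ca] at h
      obtain ⟨l, r, s, h1, h2, h3⟩ := ih _ _ _ h
      exact ⟨x :: l, r, s, by rw [List.length_cons, h1], by rw [h2]; rfl, h3⟩

theorem FAx.add_self2 (x y : ZMod 2) : x + y + y = x := by
  linear_combination y * two_zero

theorem jev_lb (S : List (Item Unit)) (n : ℕ) (hS : wfS n S 1) (b s : List (ZMod 2))
    (hb : b.length = (sides S).length) (hs : s.length = (sides S).length)
    (f : List (ZMod 2) → ℚ) (hf : ∀ u, f u ≠ 0 → u.length = n)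
    (h : jev S (List.zip b s) f [0] ≠ 0) : ∃ u d, f u ≠ 0 ∧ LB S b d u := by
  induction S generalizing n b s f with
  | nil =>
    have h1 : b = [] := List.eq_nil_of_length_eq_zero hb
    subst h1
    exact ⟨[0], [], h, LB.nil⟩
  | cons p S ih =>
    cases p with
    | cup k =>
      have h1 : k ≤ n ∧ wfS (n + 2) S 1 := hS
      simp only [jev] at h
      obtain ⟨u', d, h2, h3⟩ := ih (n + 2) h1.2 b s hb hs _ (by
        intro u hu
        obtain ⟨l, r, σ, a1, a2, a3⟩ := cu_ne k true f u hu
        have := hf _ a3
        rw [a2]
        rw [List.length_append] at this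
        rw [List.length_append, List.length_cons, List.length_cons]
        omega) h
      obtain ⟨l, r, σ, a1, a2, a3⟩ := cu_ne k true f u' h2
      rw [a2] at h3
      refine ⟨l ++ r, d, a3, ?_⟩
      rw [← a1]
      exact LB.cup h3
    | cap k =>
      have h1 : k + 2 ≤ n ∧ wfS (n - 2) S 1 := hS
      simp only [jev] at h
      obtain ⟨u', d, h2, h3⟩ := ih (n - 2) h1.2 b s hb hs _ (by
        intro u hu
        obtain ⟨l, r, σ, a1, a2, a3⟩ := ca_ne k true f u hu
        have := hf _ a3
        rw [a2]
        rw [List.length_append, List.length_cons, List.length_cons] at this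
        rw [List.length_append]
        omega) h
      obtain ⟨l, r, σ, a1, a2, a3⟩ := ca_ne k true f u' h2
      rw [a2] at h3
      refine ⟨l ++ σ :: σ :: r, d, a3, ?_⟩
      rw [← a1]
      exact LB.cap h3
    | box k a =>
      have h1 : k + 2 ≤ n ∧ wfS n S 1 := hS
      have hb' : b.length = (sides S).length + 1 := hb
      have hs' : s.length = (sides S).length + 1 := hs
      rcases b with _ | ⟨x, b⟩
      · rw [List.length_nil] at hb'
        omega
      rcases s with _ | ⟨y, s⟩
      · rw [List.length_nil] at hs'
        omega
      rw [List.length_cons] at hb' hs'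
      rw [List.zip_cons_cons] at h
      simp only [jev] at h
      obtain ⟨u', d, h2, h3⟩ := ih n h1.2 b s (by omega) (by omega) _ (by
        intro u hu
        have := hf _ (right_ne_zero_of_mul hu)
        rwa [addAt_length] at this) h
      have h4 := right_ne_zero_of_mul h2
      have h5 := hf _ h4
      rw [addAt_length] at h5
      obtain ⟨l, r, p, q, a1, a2⟩ := exists_split k u' (by omega)
      subst a1
      rw [a2, addAt_append] at h4
      refine ⟨_, (p + x + (q + x)) :: d, h4, ?_⟩
      apply LB.box
      rw [add_self2, add_self2, ← a2]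
      exact h3

end Pool.Agent.EVT
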