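import Pool.Agent.EVT.FA

/-!
# EVT module FB: a labelling as a change of variables

`jev_shift`: induction on the labelling `h : LB S b d u`, generalizing `x`, `s`, `f`.  Put
`(τ u f) w = f (w + u)` (for words `w` of the length of `u`).
* minimum: `cu k (τ (l ++ r) f) w = τ (l ++ σ :: σ :: r) (cu k f) w` (`k = l.length`): the labels at `k`, `k + 1` of
  `w` are equal iff those of `w + u'` are.
* maximum: `ca k (τ (l ++ σ :: σ :: r) f) w = ∑ y, f (.. y + σ, y + σ ..) = τ (l ++ r) (ca k f) w`.
* vertex, with `u = l ++ σ :: ρ :: r`, `u' = l ++ (σ + β) :: (ρ + β) :: r`, `β` the first entry of `b`: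
  `sg2 (s * dfAt k w) * f (addAt k (x + β) w + u)` and `addAt k (x + β) w + u = addAt k x (w + u')`,
  `dfAt k (w + u') = dfAt k w + (σ + ρ)`, so it is
  `sg2 (s * (σ + ρ)) * (sg2 (s * dfAt k (w + u')) * f (addAt k x (w + u')))`.
(`sg2 (x + y) = sg2 x * sg2 y`.)
`jev_shift0`: the special case `u = [0]`, `x = 0`, `f = ket [0]`.
-/

namespace Pool.Agent.EVT

open Finset
open Pool.Agent.Helper9.FA (Item)

open FAx

theorem sg2_add (x y : ZMod 2) : sg2 (x + y) = sg2 x * sg2 y := by
  have h : ∀ x : ZMod 2, x = 0 ∨ x = 1 := by decide
  have h1 : sg2 0 = 1 := if_pos rfl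
  have h2 : sg2 1 = -1 := if_neg (by decide)
  have h3 : (1 : ZMod 2) + 1 = 0 := by decide
  rcases h x with rfl | rfl <;> rcases h y with rfl | rfl
  · rw [add_zero, h1, mul_one]
  · rw [zero_add, h1, one_mul]
  · rw [add_zero, h1, mul_one]
  · rw [h3, h1, h2]
    norm_num

private theorem jev_zero (S : List (Item Unit)) (v : List (ZMod 2 × ZMod 2)) (w : List (ZMod 2)) :
    jev S v (fun _ => 0) w = 0 := by
  have h := jev_lin S v (∅ : Finset ℕ) (fun _ => 0) (fun _ _ => 0) w
  simp only [sum_empty] at h
  exact h

private theorem jev_smul (S : List (Item Unit)) (v : List (ZMod 2 × ZMod 2)) (c : ℚ)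
    (h : List (ZMod 2) → ℚ) (w : List (ZMod 2)) :
    jev S v (fun u => c * h u) w = c * jev S v h w := by
  have h := jev_lin S v ({0} : Finset ℕ) (fun _ => c) (fun _ => h) w
  simp only [sum_singleton] at h
  exact h

private theorem cu_zero (b : Bool) (k : ℕ) (w : List (ZMod 2)) :
    T2.cu b k (fun _ => 0) w = 0 := by
  have h := TL.cu_lin T2 b k (∅ : Finset ℕ) (fun _ => 0) (fun _ _ => 0) w
  simp only [sum_empty] at h
  exact h

private theorem ca_zero (b : Bool) (k : ℕ) (w : List (ZMod 2)) :
    T2.ca b k (fun _ => 0) w = 0 := by
  have h := TL.ca_lin T2 b k (∅ : Finset ℕ) (fun _ => 0) (fun _ _ => 0) w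
  simp only [sum_empty] at h
  exact h

private theorem cu_restr (b : Bool) (k m : ℕ) (f : List (ZMod 2) → ℚ) (w : List (ZMod 2)) :
    T2.cu b k (fun w => if w.length = m then f w else 0) w =
      if w.length = m + 2 then T2.cu b k f w else 0 := by
  split_ifs with h
  · refine TL.cu_congr T2 b k w fun u hu => ?_
    rw [if_pos (by omega)]
  · refine (TL.cu_congr T2 b k (g := fun _ => 0) w fun u hu => ?_).trans (cu_zero b k w)
    rw [if_neg (by omega)]

private theorem ca_restr (b : Bool) (k m : ℕ) (f : List (ZMod 2) → ℚ) (w : List (ZMod 2)) :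
    T2.ca b k (fun w => if w.length = m + 2 then f w else 0) w =
      if w.length = m then T2.ca b k f w else 0 := by
  split_ifs with h
  · refine TL.ca_congr T2 b k w fun u hu => ?_
    rw [if_pos (by omega)]
  · refine (TL.ca_congr T2 b k (g := fun _ => 0) w fun u hu => ?_).trans (ca_zero b k w)
    rw [if_neg (by omega)]

private theorem cu_shift (l r : List (ZMod 2)) (σ : ZMod 2) (b : Bool) (f : List (ZMod 2) → ℚ)
    (w : List (ZMod 2)) (hw : w.length = (l ++ σ :: σ :: r).length) :
    T2.cu b l.length (fun w => f (wadd w (l ++ r))) w =
      T2.cu b l.length f (wadd w (l ++ σ :: σ :: r)) := by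
  induction l generalizing b f w with
  | nil =>
    rcases w with _ | ⟨x, _ | ⟨y, w⟩⟩
    · exact absurd hw (by simp)
    · exact absurd hw (by simp)
    · rw [List.nil_append, List.nil_append, wadd_cons, wadd_cons]
      simp only [List.length_nil, TL.cu]
      by_cases hxy : x = y
      · rw [if_pos hxy, if_pos (by rw [hxy])]
        rfl
      · rw [if_neg hxy, if_neg (fun hc => hxy (add_right_cancel hc))]
  | cons a l ih =>
    cases w with
    | nil => exact absurd hw (by simp)
    | cons x w =>
      have hw' : w.length = (l ++ σ :: σ :: r).length := by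
        rw [List.cons_append, List.length_cons, List.length_cons] at hw
        omega
      rw [List.cons_append, List.cons_append, wadd_cons]
      simp only [List.length_cons, TL.cu, wadd_cons]
      exact ih (!b) (fun u => f ((x + a) :: u)) w hw'

private theorem ca_shift (l r : List (ZMod 2)) (σ : ZMod 2) (b : Bool) (f : List (ZMod 2) → ℚ)
    (w : List (ZMod 2)) (hw : w.length = (l ++ r).length) :
    T2.ca b l.length (fun w => f (wadd w (l ++ σ :: σ :: r))) w =
      T2.ca b l.length f (wadd w (l ++ r)) := by
  induction l generalizing b f w with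
  | nil =>
    rw [List.nil_append, List.nil_append]
    simp only [List.length_nil, TL.ca, wadd_cons]
    refine Fintype.sum_equiv (Equiv.addRight σ) _ _ fun x => ?_
    rfl
  | cons a l ih =>
    cases w with
    | nil => exact absurd hw (by simp)
    | cons x w =>
      have hw' : w.length = (l ++ r).length := by
        rw [List.cons_append, List.length_cons, List.length_cons] at hw
        omega
      rw [List.cons_append, List.cons_append, wadd_cons]
      simp only [List.length_cons, TL.ca, wadd_cons]
      exact ih (!b) (fun u => f ((x + a) :: u)) w hw'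

private theorem box_shift (l r : List (ZMod 2)) (σ ρ β ξ : ZMod 2) (w : List (ZMod 2))
    (hw : w.length = (l ++ σ :: ρ :: r).length) :
    wadd (addAt l.length (ξ + β) w) (l ++ σ :: ρ :: r) =
        addAt l.length ξ (wadd w (l ++ (σ + β) :: (ρ + β) :: r)) ∧
      dfAt l.length (wadd w (l ++ (σ + β) :: (ρ + β) :: r)) = dfAt l.length w + (σ + ρ) := by
  rw [List.length_append, List.length_cons, List.length_cons] at hw
  obtain ⟨l', r', p, q, h1, rfl⟩ := exists_split l.length w (by omega)
  rw [wadd_append h1, wadd_cons, wadd_cons, ← h1, addAt_append, dfAt_append, wadd_append h1,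
    wadd_cons, wadd_cons]
  have e1 : l'.length = (wadd l' l).length := (wadd_length h1).symm
  constructor
  · conv_rhs => rw [e1, addAt_append]
    congr 2
    · ring
    · congr 1
      ring
  · rw [e1, dfAt_append]
    linear_combination β * two_zero

theorem jev_shift {S : List (Item Unit)} {b d u : List (ZMod 2)} (h : LB S b d u)
    (x s : List (ZMod 2)) (hx : x.length = b.length) (hs : s.length = b.length)
    (f : List (ZMod 2) → ℚ) (t : ZMod 2) :
    jev S (List.zip (wadd x b) s) (fun w => if w.length = u.length then f (wadd w u) else 0) [t] =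
      sg2 (dotp s d) *
        jev S (List.zip x s) (fun w => if w.length = u.length then f w else 0) [t] := by
  induction h generalizing x s f t with
  | nil =>
    have h1 : x = [] := List.eq_nil_of_length_eq_zero hx
    have h2 : s = [] := List.eq_nil_of_length_eq_zero hs
    subst h1 h2
    have e1 : sg2 (dotp [] []) = 1 := if_pos rfl
    rw [e1, one_mul]
    simp only [jev]
    rw [if_pos (by simp), if_pos (by simp), wadd_cons, add_zero]
    rfl
  | @cup S b d l r σ h ih =>
    simp only [jev]
    have hl : (l ++ σ :: σ :: r).length = (l ++ r).length + 2 := by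
      rw [List.length_append, List.length_append, List.length_cons, List.length_cons]
      omega
    have e1 : T2.cu true l.length (fun w => if w.length = (l ++ r).length then
        f (wadd w (l ++ r)) else 0) =
        fun w => if w.length = (l ++ σ :: σ :: r).length then
          (T2.cu true l.length f) (wadd w (l ++ σ :: σ :: r)) else 0 := by
      funext w
      rw [cu_restr true l.length (l ++ r).length (fun w => f (wadd w (l ++ r))) w, hl]
      split_ifs with hw
      · exact cu_shift l r σ true f w (by rw [hw, hl])
      · rfl
    have e2 : T2.cu true l.length (fun w => if w.length = (l ++ r).length then f w else 0) =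
        fun w => if w.length = (l ++ σ :: σ :: r).length then T2.cu true l.length f w else 0 := by
      funext w
      rw [cu_restr, hl]
    rw [e1, e2]
    exact ih x s hx hs (T2.cu true l.length f) t
  | @cap S b d l r σ h ih =>
    simp only [jev]
    have hl : (l ++ σ :: σ :: r).length = (l ++ r).length + 2 := by
      rw [List.length_append, List.length_append, List.length_cons, List.length_cons]
      omega
    have e1 : T2.ca true l.length (fun w => if w.length = (l ++ σ :: σ :: r).length then
        f (wadd w (l ++ σ :: σ :: r)) else 0) =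
        fun w => if w.length = (l ++ r).length then
          (T2.ca true l.length f) (wadd w (l ++ r)) else 0 := by
      funext w
      rw [hl, ca_restr true l.length (l ++ r).length (fun w => f (wadd w (l ++ σ :: σ :: r))) w]
      split_ifs with hw
      · exact ca_shift l r σ true f w hw
      · rfl
    have e2 : T2.ca true l.length (fun w => if w.length = (l ++ σ :: σ :: r).length then f w
        else 0) = fun w => if w.length = (l ++ r).length then T2.ca true l.length f w else 0 := by
      funext w
      rw [hl, ca_restr]
    rw [e1, e2]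
    exact ih x s hx hs (T2.ca true l.length f) t
  | @box S b d l r σ ρ β a h ih =>
    rcases x with _ | ⟨ξ, x⟩
    · exact absurd hx (by simp)
    rcases s with _ | ⟨η, s⟩
    · exact absurd hs (by simp)
    rw [List.length_cons, List.length_cons] at hx hs
    rw [wadd_cons, List.zip_cons_cons, List.zip_cons_cons, dotp_cons, sg2_add]
    simp only [jev]
    have hl : (l ++ (σ + β) :: (ρ + β) :: r).length = (l ++ σ :: ρ :: r).length := by
      rw [List.length_append, List.length_append, List.length_cons, List.length_cons,
        List.length_cons, List.length_cons]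
    have e1 : (fun w => sg2 (η * dfAt l.length w) *
        (if (addAt l.length (ξ + β) w).length = (l ++ σ :: ρ :: r).length then
          f (wadd (addAt l.length (ξ + β) w) (l ++ σ :: ρ :: r)) else 0)) =
        fun w => sg2 (η * (σ + ρ)) * (if w.length = (l ++ (σ + β) :: (ρ + β) :: r).length then
          (fun v => sg2 (η * dfAt l.length v) * f (addAt l.length ξ v))
            (wadd w (l ++ (σ + β) :: (ρ + β) :: r)) else 0) := by
      funext w
      rw [addAt_length, hl]
      split_ifs with hw
      · obtain ⟨b1, b2⟩ := box_shift l r σ ρ β ξ w hw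
        simp only
        rw [b1, b2, ← mul_assoc, ← sg2_add]
        congr 2
        linear_combination (-(η * (σ + ρ))) * two_zero
      · rw [mul_zero, mul_zero]
    have e2 : (fun w => sg2 (η * dfAt l.length w) *
        (if (addAt l.length ξ w).length = (l ++ σ :: ρ :: r).length then
          f (addAt l.length ξ w) else 0)) =
        fun w => if w.length = (l ++ (σ + β) :: (ρ + β) :: r).length then
          (fun v => sg2 (η * dfAt l.length v) * f (addAt l.length ξ v)) w else 0 := by
      funext w
      rw [addAt_length, hl]
      split_ifs with hw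
      · rfl
      · rw [mul_zero]
    rw [e1, e2, jev_smul, mul_assoc]
    congr 1
    exact ih x s (by omega) (by omega)
      (fun v => sg2 (η * dfAt l.length v) * f (addAt l.length ξ v)) t

theorem jev_shift0 {S : List (Item Unit)} {b d : List (ZMod 2)} (h : LB S b d [0])
    (s : List (ZMod 2)) (hs : s.length = b.length) :
    jev S (List.zip b s) (ket ℚ [0]) [0] =
      sg2 (dotp s d) * jev S (List.zip (List.replicate b.length 0) s) (ket ℚ [0]) [0] := by
  have h1 := jev_shift h (List.replicate b.length 0) s (List.length_replicate) hs (ket ℚ [0]) 0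
  have e0 : ∀ b : List (ZMod 2), wadd (List.replicate b.length 0) b = b := by
    intro b
    induction b with
    | nil => rfl
    | cons a b ih => rw [List.length_cons, List.replicate_succ, wadd_cons, ih, zero_add]
  have e1 : (fun w : List (ZMod 2) => if w.length = ([0] : List (ZMod 2)).length then
      ket ℚ [0] (wadd w [0]) else 0) = ket ℚ [0] := by
    funext w
    rcases w with _ | ⟨a, _ | ⟨b, w⟩⟩
    · rw [if_neg (by simp)]
      rfl
    · rw [if_pos (by simp), wadd_cons, add_zero]
      rfl
    · rw [if_neg (by simp)]
      unfold ket
      rw [if_neg (by simp)]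
  have e2 : (fun w : List (ZMod 2) => if w.length = ([0] : List (ZMod 2)).length then
      ket ℚ [0] w else 0) = ket ℚ [0] := by
    funext w
    rcases w with _ | ⟨a, _ | ⟨b, w⟩⟩
    · rw [if_neg (by simp)]
      rfl
    · rw [if_pos (by simp)]
    · rw [if_neg (by simp)]
      unfold ket
      rw [if_neg (by simp)]
  rw [e0, e1, e2] at h1
  exact h1

end Pool.Agent.EVT
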