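import Pool.Agent.EVT.Defs2

/-!
# EVT module LB0: arcs of a pattern with even twist numbers

* `arc_twists`: an even number of crossings at `k` exchanges the labels `L[k]`, `L[k+1]` an even number of
  times.  Induction (two crossings at a time).
* `arc_tw`: induction on `S`; the tail `tw S (dbl2 ks)`.
* `cnt_cup`, `cnt_cap`: counting; in `cnt_cap` the labels `x`, `y` occur at the positions `k`, `k + 1`
  and `y` is renamed to `x`; the number of `x` is then `(2 - 1) + (2 - 1)`, or `(1 - 1) + (2 - 1) = 1`
  if one of them is `m`.
-/

namespace Pool.Agent.EVT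

open Finset
open Pool.Agent.Helper9.Kashaev (Piece Diagram)
open Pool.Agent.Helper9.FA (Item twists)
open Pool.Agent.Helper77.ST (Arc IsKnot tw)

private theorem split_drop {L R : List ℕ} {k x y : ℕ} (hd : L.drop k = x :: y :: R) :
    L = L.take k ++ x :: y :: R ∧ (L.take k).length = k ∧ k + 2 ≤ L.length := by
  have h1 : L.take k ++ L.drop k = L := List.take_append_drop k L
  have h2 : (L.drop k).length = R.length + 2 := by rw [hd]; simp
  rw [List.length_drop] at h2
  refine ⟨by rw [← hd, h1], ?_, by omega⟩
  rw [List.length_take]
  omega

private theorem arc_cross {c k : ℕ} {L : List ℕ} {p : Piece} (hp : p = .pos ∨ p = .neg)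
    {D : Diagram} (h : Arc c L ((k, p) :: D)) :
    ∃ x y R, L.drop k = x :: y :: R ∧ Arc c (L.take k ++ y :: x :: R) D := by
  rcases hp with rfl | rfl
  · unfold Arc at h
    split at h
    · rename_i x y R hd
      exact ⟨x, y, R, hd, h⟩
    · exact h.elim
  · unfold Arc at h
    split at h
    · rename_i x y R hd
      exact ⟨x, y, R, hd, h⟩
    · exact h.elim

private theorem arc_two {c k : ℕ} {L : List ℕ} {p : Piece} (hp : p = .pos ∨ p = .neg)
    {D : Diagram} (h : Arc c L ((k, p) :: (k, p) :: D)) :
    k + 2 ≤ L.length ∧ Arc c L D := by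
  obtain ⟨x, y, R, hd, h⟩ := arc_cross hp h
  obtain ⟨h1, h2, h3⟩ := split_drop hd
  obtain ⟨x', y', R', hd', h'⟩ := arc_cross hp h
  have e1 : (L.take k ++ y :: x :: R).drop k = y :: x :: R := List.drop_left' h2
  have e2 : (L.take k ++ y :: x :: R).take k = L.take k := List.take_left' h2
  rw [e1] at hd'
  injection hd' with a1 a2
  injection a2 with a2 a3
  subst a1 a2 a3
  rw [e2, ← h1] at h'
  exact ⟨h3, h'⟩

private theorem arc_rep {c k : ℕ} {L : List ℕ} {p : Piece} (hp : p = .pos ∨ p = .neg) (n : ℕ)
    {D : Diagram} (h : Arc c L (List.replicate (2 * n) (k, p) ++ D)) :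
    (n ≠ 0 → k + 2 ≤ L.length) ∧ Arc c L D := by
  induction n with
  | zero =>
    refine ⟨fun h => absurd rfl h, ?_⟩
    simpa using h
  | succ n ih =>
    have e : List.replicate (2 * (n + 1)) (k, p) ++ D =
        (k, p) :: (k, p) :: (List.replicate (2 * n) (k, p) ++ D) := by
      rw [show 2 * (n + 1) = 2 * n + 1 + 1 from by ring, List.replicate_succ,
        List.replicate_succ]
      rfl
    rw [e] at h
    obtain ⟨h1, h2⟩ := arc_two hp h
    exact ⟨fun _ => h1, (ih h2).2⟩

theorem arc_twists {c k : ℕ} {L : List ℕ} (x : ℤ) {D : Diagram}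
    (h : Arc c L (twists k (2 * x) ++ D)) : (x ≠ 0 → k + 2 ≤ L.length) ∧ Arc c L D := by
  unfold twists at h
  have e : (2 * x).natAbs = 2 * x.natAbs := by
    rw [Int.natAbs_mul]
    rfl
  rw [e] at h
  have := arc_rep (by split_ifs <;> simp) x.natAbs h
  exact ⟨fun hx => this.1 (by simpa using hx), this.2⟩

theorem arc_tw (S : List (Item Unit)) (ks : List ℤ) (c : ℕ) (L : List ℕ)
    (hl : ks.length = (sides S).length) (h0 : ∀ x ∈ ks, x ≠ 0)
    (h : Arc c L (tw S (dbl2 ks))) : ArcP c L S := by
  induction S generalizing ks c L with
  | nil => exact h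
  | cons s S ih =>
    rcases s with k | k | ⟨k, a⟩
    · simp only [tw] at h
      unfold Arc at h
      unfold ArcP
      exact ⟨h.1, ih ks (c + 1) _ hl h0 h.2⟩
    · simp only [tw] at h
      unfold Arc at h
      unfold ArcP
      split at h
      · rename_i x y R hd
        rw [hd]
        exact ⟨h.1, ih ks c _ hl h0 h.2⟩
      · exact h.elim
    · rcases ks with _ | ⟨x, ks⟩
      · simp [sides] at hl
      · have hl' : ks.length = (sides S).length := by
          simp only [sides, List.length_cons] at hl
          omega
        have e : tw (Item.box k a :: S) (dbl2 (x :: ks)) =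
            twists k (2 * x) ++ tw S (dbl2 ks) := rfl
        rw [e] at h
        obtain ⟨h1, h2⟩ := arc_twists x h
        unfold ArcP
        exact ⟨h1 (h0 x (by simp)),
          ih ks c L hl' (fun z hz => h0 z (List.mem_cons_of_mem _ hz)) h2⟩

theorem arcP_wf (S : List (Item Unit)) (c : ℕ) (L : List ℕ) (h : ArcP c L S) :
    wfS L.length S 1 := by
  induction S generalizing c L with
  | nil => exact h
  | cons s S ih =>
    rcases s with k | k | ⟨k, a⟩
    · unfold ArcP at h
      unfold wfS
      refine ⟨h.1, ?_⟩
      have := ih _ _ h.2
      have e : (L.take k ++ c :: c :: L.drop k).length = L.length + 2 := by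
        simp only [List.length_append, List.length_take, List.length_cons, List.length_drop]
        have := h.1
        omega
      rwa [e] at this
    · unfold ArcP at h
      unfold wfS
      split at h
      · rename_i x y R hd
        obtain ⟨h1, h2, h3⟩ := split_drop hd
        refine ⟨h3, ?_⟩
        have := ih _ _ h.2
        have e : ((L.take k ++ R).map fun z => if z = y then x else z).length =
            L.length - 2 := by
          rw [List.length_map, List.length_append, h2]
          have h4 : L.length = (L.take k).length + (R.length + 2) := by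
            conv_lhs => rw [h1]
            simp
          omega
        rwa [e] at this
      · exact h.elim
    · unfold ArcP at h
      unfold wfS
      exact ⟨h.1, ih _ _ h.2⟩

theorem cnt_init : Cnt 1 [0] 0 := by
  refine ⟨by simp, ?_, by simp⟩
  intro x hx hx0
  simp at hx
  exact absurd hx hx0

theorem cnt_cup {c m : ℕ} {L : List ℕ} (h : Cnt c L m) (k : ℕ) :
    Cnt (c + 1) (L.take k ++ c :: c :: L.drop k) m := by
  obtain ⟨h1, h2, h3⟩ := h
  have hm : m ∈ L := List.count_pos_iff.1 (by omega)
  have hmc : m < c := h3 m hm
  have hcnt : ∀ z, (L.take k ++ c :: c :: L.drop k).count z =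
      L.count z + (if c = z then 2 else 0) := by
    intro z
    have e : L.count z = (L.take k).count z + (L.drop k).count z := by
      rw [← List.count_append, List.take_append_drop]
    rw [List.count_append, List.count_cons, List.count_cons, e]
    simp only [beq_iff_eq]
    split_ifs <;> omega
  have hmem : ∀ z, z ∈ (L.take k ++ c :: c :: L.drop k) → z = c ∨ z ∈ L := by
    intro z hz
    rw [List.mem_append, List.mem_cons, List.mem_cons] at hz
    rcases hz with hz | hz | hz | hz
    · exact Or.inr (List.mem_of_mem_take hz)
    · exact Or.inl hz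
    · exact Or.inl hz
    · exact Or.inr (List.mem_of_mem_drop hz)
  refine ⟨?_, ?_, ?_⟩
  · rw [hcnt, h1, if_neg (by omega)]
  · intro x hx hxm
    rw [hcnt]
    rcases hmem x hx with rfl | hx
    · have : L.count x = 0 := by
        rw [List.count_eq_zero]
        intro hxL
        exact absurd (h3 x hxL) (lt_irrefl _)
      rw [this, if_pos rfl]
    · have : x < c := h3 x hx
      rw [h2 x hx hxm, if_neg (by omega)]
  · intro x hx
    rcases hmem x hx with rfl | hx
    · omega
    · have := h3 x hx
      omega

private theorem count_map_ren {x y : ℕ} (hxy : x ≠ y) (L : List ℕ) (z : ℕ) :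
    (L.map fun z => if z = y then x else z).count z =
      if z = y then 0 else if z = x then L.count x + L.count y else L.count z := by
  induction L with
  | nil => simp
  | cons a L ih =>
    rw [List.map_cons, List.count_cons, ih]
    simp only [List.count_cons, beq_iff_eq]
    by_cases h1 : z = y
    · subst h1
      by_cases h2 : a = z
      · simp [h2, hxy]
      · simp [h2]
    · by_cases h2 : z = x
      · subst h2
        by_cases h3 : a = y
        · simp [h1, h3, hxy.symm]
          omega
        · by_cases h4 : a = z
          · simp [h1, h4]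
            omega
          · simp [h1, h3, h4]
      · by_cases h3 : a = y
        · have h4 : ¬ y = z := fun h => h1 h.symm
          have h5 : ¬ x = z := fun h => h2 h.symm
          simp [h1, h2, h3, h4, h5]
        · simp [h1, h2, h3]

theorem cnt_cap {c m k x y : ℕ} {L R : List ℕ} (h : Cnt c L m) (hd : L.drop k = x :: y :: R)
    (hxy : x ≠ y) : Cnt c ((L.take k ++ R).map fun z => if z = y then x else z)
      (if m = y then x else m) := by
  obtain ⟨h1, h2, h3⟩ := h
  obtain ⟨e1, e2, e3⟩ := split_drop hd
  have hcnt : ∀ z, L.count z = (L.take k ++ R).count z + (if x = z then 1 else 0) +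
      (if y = z then 1 else 0) := by
    intro z
    conv_lhs => rw [e1]
    simp only [List.count_append, List.count_cons, beq_iff_eq]
    omega
  have hxL : x ∈ L := by rw [e1]; simp
  have hyL : y ∈ L := by rw [e1]; simp
  have hsub : ∀ z ∈ L.take k ++ R, z ∈ L := by
    intro z hz
    rw [e1]
    rw [List.mem_append] at hz
    rcases hz with hz | hz
    · exact List.mem_append_left _ hz
    · exact List.mem_append_right _ (List.mem_cons_of_mem _ (List.mem_cons_of_mem _ hz))
  have cx := hcnt x
  have cy := hcnt y
  rw [if_pos rfl, if_neg hxy.symm] at cx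
  rw [if_neg hxy, if_pos rfl] at cy
  refine ⟨?_, ?_, ?_⟩
  · rw [count_map_ren hxy]
    by_cases hm : m = y
    · subst hm
      rw [if_pos rfl, if_neg hxy, if_pos rfl]
      have := h2 x hxL hxy
      omega
    · rw [if_neg hm, if_neg hm]
      by_cases hmx : m = x
      · subst hmx
        rw [if_pos rfl]
        have := h2 y hyL (fun h => hm h.symm)
        omega
      · rw [if_neg hmx]
        have cm := hcnt m
        rw [if_neg (fun h => hmx h.symm), if_neg (fun h => hm h.symm)] at cm
        omega
  · intro z hz hzm
    rw [count_map_ren hxy]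
    rw [List.mem_map] at hz
    obtain ⟨w, hw, hwz⟩ := hz
    have hzy : z ≠ y := by
      intro hzy
      subst hzy
      split_ifs at hwz with h
      · exact hxy hwz
      · exact h hwz
    rw [if_neg hzy]
    by_cases hzx : z = x
    · subst hzx
      rw [if_pos rfl]
      by_cases hm : m = y
      · rw [if_pos hm] at hzm
        exact absurd rfl hzm
      · rw [if_neg hm] at hzm
        have a1 := h2 z hxL hzm
        have a2 := h2 y hyL (fun h => hm h.symm)
        omega
    · rw [if_neg hzx]
      have hwz' : w = z := by
        split_ifs at hwz with h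
        · exact absurd hwz.symm hzx
        · exact hwz
      subst hwz'
      have cz := hcnt w
      rw [if_neg (fun h => hzx h.symm), if_neg (fun h => hzy h.symm)] at cz
      have hwm : w ≠ m := by
        intro h
        subst h
        rw [if_neg hzy] at hzm
        exact hzm rfl
      have := h2 w (hsub w hw) hwm
      omega
  · intro z hz
    rw [List.mem_map] at hz
    obtain ⟨w, hw, hwz⟩ := hz
    split_ifs at hwz with h
    · rw [← hwz]
      exact h3 x hxL
    · rw [← hwz]
      exact h3 w (hsub w hw)

end Pool.Agent.EVT
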