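import Pool.Agent.EVT.FA
import Pool.Agent.EVT.LB0

/-!
# EVT module FC: without jumps there is only the zero labelling

`jev_zero`: induction on `S`, generalizing `c`, `L`, `m`, `f` (compare module LC, which has the same
structure).  Write `0_L` for the zero word of the length of `L`; claim: `jev S (zip 0 s) f [0] = f 0_L` if `f`
is supported on the words `L.map g` with `g m = 0` (`SuF L m f`).
* minimum: `cu k f` is supported on the new labels (`g' c =` the new label), and
  `(cu k f) 0 = f 0`.
* maximum: the value of `ca k f` at the zero word is `f (0) + f (.. 1, 1 ..)`; the second value is `0`: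
  otherwise `g x = g y = 1` (`x`, `y` the labels at `k`, `k + 1`), so `x ≠ m`, and `x` occurs at another
  position of `L` (`Cnt`), where the word has the label `0`.  Support: as in `cap_su`.
* vertex: `sg2 (s * dfAt k w) * f (addAt k 0 w)` has the same support, and the same value at the zero
  word.
* end: `L = [x]`, `x = m`, `jev [] _ f [0] = f [0]`.
`jev_one`: `c = 1`, `L = [0]`, `m = 0`, `f = ket [0]`.
`lb_unique`: by `jev_shift0` and `jev_one` (for `b = 0`): `sg2 (dotp s d) = 1` for all `s`, so
`d = 0`; then difference of two labellings (`lb_add`).  (Or directly from `jev_zero`-like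
arguments.)
-/

namespace Pool.Agent.EVT

open Finset
open Pool.Agent.Helper9.FA (Item)

private lemma fc_cu (b : Bool) (f : List (ZMod 2) → ℚ) (l : List (ZMod 2)) :
    ∀ (x y : ZMod 2) (r : List (ZMod 2)),
      T2.cu b l.length f (l ++ x :: y :: r) = if x = y then f (l ++ r) else 0 := by
  induction l generalizing b f with
  | nil => intro x y r; simp [TL.cu, T2]
  | cons a l ih =>
    intro x y r
    simp only [List.length_cons, List.cons_append, TL.cu]
    exact ih _ _ x y r

private lemma fc_cu_ne (b : Bool) (k : ℕ) (f : List (ZMod 2) → ℚ) (w : List (ZMod 2))
    (h : T2.cu b k f w ≠ 0) :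
    ∃ (l : List (ZMod 2)) (x : ZMod 2) (r : List (ZMod 2)), l.length = k ∧
      w = l ++ x :: x :: r ∧ f (l ++ r) ≠ 0 := by
  induction k generalizing b f w with
  | zero =>
    match w with
    | [] => simp [TL.cu] at h
    | [_] => simp [TL.cu] at h
    | x :: y :: r =>
      simp only [TL.cu] at h
      by_cases hxy : x = y
      · subst hxy
        refine ⟨[], x, r, rfl, rfl, ?_⟩
        intro h0
        apply h
        simp only [List.nil_append] at h0
        simp [h0]
      · simp [hxy] at h
  | succ k ih =>
    match w with
    | [] => simp [TL.cu] at h
    | a :: w =>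
      simp only [TL.cu] at h
      obtain ⟨l, x, r, h1, h2, h3⟩ := ih _ _ _ h
      exact ⟨a :: l, x, r, by simp [h1], by simp [h2], h3⟩

private lemma fc_ca (b : Bool) (f : List (ZMod 2) → ℚ) (l : List (ZMod 2)) :
    ∀ r : List (ZMod 2), T2.ca b l.length f (l ++ r) = ∑ x, f (l ++ x :: x :: r) := by
  induction l generalizing b f with
  | nil => intro r; simp [TL.ca, T2]
  | cons a l ih =>
    intro r
    simp only [List.length_cons, List.cons_append, TL.ca]
    exact ih _ _ r

private lemma fc_ca_ne (b : Bool) (k : ℕ) (f : List (ZMod 2) → ℚ) (w : List (ZMod 2))
    (h : T2.ca b k f w ≠ 0) :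
    ∃ (l : List (ZMod 2)) (x : ZMod 2) (r : List (ZMod 2)), l.length = k ∧
      w = l ++ r ∧ f (l ++ x :: x :: r) ≠ 0 := by
  induction k generalizing b f w with
  | zero =>
    simp only [TL.ca] at h
    obtain ⟨x, -, hx⟩ := Finset.exists_ne_zero_of_sum_ne_zero h
    refine ⟨[], x, w, rfl, rfl, ?_⟩
    intro h0
    apply hx
    simp only [List.nil_append] at h0
    simp [h0]
  | succ k ih =>
    match w with
    | [] => simp [TL.ca] at h
    | a :: w =>
      simp only [TL.ca] at h
      obtain ⟨l, x, r, h1, h2, h3⟩ := ih _ _ _ h
      exact ⟨a :: l, x, r, by simp [h1], by simp [h2], h3⟩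

private lemma fc_add (k : ℕ) (w : List (ZMod 2)) : addAt k 0 w = w := by
  induction k generalizing w with
  | zero =>
    match w with
    | [] => rfl
    | [_] => rfl
    | a :: b :: w => simp [addAt]
  | succ k ih =>
    match w with
    | [] => rfl
    | a :: w => simp [addAt, ih]

private lemma fc_df (k n : ℕ) : dfAt k (List.replicate n (0 : ZMod 2)) = 0 := by
  induction k generalizing n with
  | zero =>
    match n with
    | 0 => rfl
    | 1 => rfl
    | n + 2 => simp [dfAt, List.replicate_succ]
  | succ k ih =>
    match n with
    | 0 => rfl
    | n + 1 => simp [dfAt, List.replicate_succ, ih]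

theorem jev_zero (S : List (Item Unit)) (c m : ℕ) (L : List ℕ) (hS : ArcP c L S)
    (hc : Cnt c L m) (s : List (ZMod 2)) (hs : s.length = (sides S).length)
    (f : List (ZMod 2) → ℚ) (hf : SuF L m f) :
    jev S (List.zip (List.replicate (sides S).length 0) s) f [0] =
      f (List.replicate L.length 0) := by
  induction S generalizing c m L s f with
  | nil =>
    simp only [ArcP] at hS
    rw [hS]
    simp [jev]
  | cons it S ih =>
    match it with
    | .cup k =>
      simp only [ArcP] at hS
      obtain ⟨hk, hS⟩ := hS
      simp only [sides] at hs
      simp only [sides, jev]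
      have hmL : m ∈ L := by
        rw [← List.count_pos_iff, hc.1]
        exact one_pos
      have hmc : m ≠ c := (hc.2.2 m hmL).ne
      have hcL : ∀ x ∈ L, x ≠ c := fun x hx => (hc.2.2 x hx).ne
      rw [ih (c + 1) m _ hS (cnt_cup hc k) s hs]
      · have e1 : (L.take k ++ c :: c :: L.drop k).length = k + ((L.length - k) + 2) := by
          simp [hk]
        have e2 : List.replicate (k + ((L.length - k) + 2)) (0 : ZMod 2) =
            List.replicate k 0 ++ 0 :: 0 :: List.replicate (L.length - k) 0 := by
          rw [List.replicate_add]
          rfl
        have e3 := fc_cu true f (List.replicate k 0) 0 0 (List.replicate (L.length - k) 0)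
        rw [List.length_replicate, if_pos rfl, ← List.replicate_add] at e3
        rw [e1, e2, e3]
        congr 2
        omega
      · intro w hw
        obtain ⟨l, x, r, h1, h2, h3⟩ := fc_cu_ne _ _ _ _ hw
        obtain ⟨g, hg1, hg2⟩ := hf _ h3
        refine ⟨Function.update g c x, ?_, ?_⟩
        · rw [Function.update_of_ne hmc, hg1]
        · have e1 : L.map g = (L.take k).map g ++ (L.drop k).map g := by
            rw [← List.map_append, List.take_append_drop]
          rw [e1] at hg2
          have e2 := List.append_inj hg2 (by simp [h1, hk])
          have e3 : ∀ M : List ℕ, (∀ z ∈ M, z ∈ L) →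
              M.map (Function.update g c x) = M.map g := by
            intro M hM
            refine List.map_congr_left fun z hz => ?_
            rw [Function.update_of_ne (hcL z (hM z hz))]
          rw [h2, List.map_append, List.map_cons, List.map_cons, Function.update_self,
            e3 _ (fun z hz => List.mem_of_mem_take hz), e3 _ (fun z hz => List.mem_of_mem_drop hz),
            e2.1, e2.2]
    | .cap k =>
      simp only [ArcP] at hS
      simp only [sides] at hs
      simp only [sides, jev]
      match hd : L.drop k with
      | [] => rw [hd] at hS; exact hS.elim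
      | [_] => rw [hd] at hS; exact hS.elim
      | x :: y :: R =>
        rw [hd] at hS
        obtain ⟨hxy, hS⟩ := hS
        have hL : L = L.take k ++ x :: y :: R := by rw [← hd, List.take_append_drop]
        have hlen : L.length = k + (R.length + 2) := by
          have h1 : (L.drop k).length = R.length + 2 := by rw [hd]; simp
          rw [List.length_drop] at h1
          omega
        have hkL : k ≤ L.length := by omega
        rw [ih c _ _ hS (cnt_cap hc hd hxy) s hs]
        · have e1 : ((L.take k ++ R).map fun z => if z = y then x else z).length =
              k + R.length := by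
            simp [hkL]
          have e3 := fc_ca true f (List.replicate k 0) (List.replicate R.length 0)
          rw [List.length_replicate, ← List.replicate_add] at e3
          rw [e1, e3, hlen]
          have e4 : ∀ F : ZMod 2 → ℚ, ∑ z, F z = F 0 + F 1 := fun F => Fin.sum_univ_two F
          rw [e4]
          have e5 : f (List.replicate k 0 ++ 1 :: 1 :: List.replicate R.length 0) = 0 := by
            by_contra h0
            obtain ⟨g, hg1, hg2⟩ := hf _ h0
            rw [hL, List.map_append, List.map_cons, List.map_cons] at hg2
            have e2 := List.append_inj hg2 (by simp [hkL])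
            obtain ⟨e6, e7⟩ := e2
            rw [List.cons.injEq, List.cons.injEq] at e7
            obtain ⟨gx, gy, gR⟩ := e7
            have hxm : x ≠ m := by
              rintro rfl
              rw [hg1] at gx
              exact one_ne_zero gx
            have hxL : x ∈ L := by rw [hL]; simp
            have hcx := hc.2.1 x hxL hxm
            rw [hL, List.count_append, List.count_cons_self,
              List.count_cons_of_ne hxy.symm] at hcx
            have hx2 : x ∈ L.take k ∨ x ∈ R := by
              by_contra h1
              rw [not_or] at h1
              rw [List.count_eq_zero_of_not_mem h1.1, List.count_eq_zero_of_not_mem h1.2] at hcx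
              omega
            have hg0 : g x = 0 := by
              rcases hx2 with h1 | h1
              · have h2 : g x ∈ (L.take k).map g := List.mem_map_of_mem h1
                rw [← e6] at h2
                exact List.eq_of_mem_replicate h2
              · have h2 : g x ∈ R.map g := List.mem_map_of_mem h1
                rw [← gR] at h2
                exact List.eq_of_mem_replicate h2
            rw [hg0] at gx
            exact one_ne_zero gx
          rw [e5, add_zero]
          congr 1
          rw [List.replicate_add]
          rfl
        · intro w hw
          obtain ⟨l, z, r, h1, h2, h3⟩ := fc_ca_ne _ _ _ _ hw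
          obtain ⟨g, hg1, hg2⟩ := hf _ h3
          rw [hL, List.map_append, List.map_cons, List.map_cons] at hg2
          have e2 := List.append_inj hg2 (by simp [hkL, h1])
          obtain ⟨e6, e7⟩ := e2
          rw [List.cons.injEq, List.cons.injEq] at e7
          obtain ⟨gx, gy, gR⟩ := e7
          refine ⟨g, ?_, ?_⟩
          · by_cases hm : m = y
            · rw [if_pos hm, ← gx, gy, ← hm, hg1]
            · rw [if_neg hm, hg1]
          · rw [h2, e6, gR, ← List.map_append, List.map_map]
            refine List.map_congr_left fun v _ => ?_
            simp only [Function.comp_apply]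
            by_cases hv : v = y
            · rw [if_pos hv, hv, ← gx, gy]
            · rw [if_neg hv]
    | .box k a =>
      simp only [ArcP] at hS
      obtain ⟨hk, hS⟩ := hS
      match s, hs with
      | s0 :: s, hs =>
        simp only [sides, List.length_cons, Nat.add_right_cancel_iff] at hs
        simp only [sides, List.length_cons, List.replicate_succ, List.zip_cons_cons, jev]
        rw [ih c m L hS hc s hs]
        · rw [fc_add, fc_df, mul_zero]
          simp [sg2]
        · intro w hw
          simp only [fc_add] at hw
          exact hf w (right_ne_zero_of_mul hw)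

theorem jev_one (S : List (Item Unit)) (hS : ArcP 1 [0] S) (s : List (ZMod 2))
    (hs : s.length = (sides S).length) :
    jev S (List.zip (List.replicate (sides S).length 0) s) (ket ℚ [0]) [0] = 1 := by
  rw [jev_zero S 1 0 [0] hS cnt_init s hs]
  · simp [ket]
  · intro w hw
    refine ⟨fun _ => 0, rfl, ?_⟩
    unfold ket at hw
    by_contra h
    exact hw (if_neg h)

end Pool.Agent.EVT
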