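import Pool.Agent.EVT.TC

/-!
# EVT module TD: expansion of a pattern over its smoothings

Induction on `S`, generalizing `f`; the value of `pev` is linear in the function.  For a vertex:
`Fin.consEquiv` (or `Fin.cons`), `Fintype.sum_prod_type`, `Fin.prod_univ_succ`, as in
`Pool/Agent/Helper77/ST/STw.lean`.  `List.ofFn I = I 0 :: List.ofFn (fun i => I i.succ)`.
`ev_lp`: `ev_sum` and `pev_lp`, `sm_wf`.
-/

namespace Pool.Agent.EVT

open Finset
open Pool.Agent.Helper9.FA (Item)

variable {A ι : Type*} [CommRing A] [Fintype ι] [DecidableEq ι]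

private theorem td_two (T : TL A ι) (D : PD) (x y : A) (f g : List ι → A) (w : List ι) :
    T.pev D (fun u => x * f u + y * g u) w = x * T.pev D f w + y * T.pev D g w := by
  have h := T.pev_lin D (univ : Finset Bool) (fun b => if b then x else y)
    (fun b => if b then f else g) w
  simp only [Fintype.sum_bool, if_true, Bool.false_eq_true, if_false] at h
  exact h

theorem ev_sum (T : TL A ι) (S : List (Item Unit)) (n : ℕ) (hn : (sides S).length = n)
    (v : Fin n → A × A) (f : List ι → A) (w : List ι) :
    T.ev S (List.ofFn v) f w =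
      ∑ I : Fin n → Bool, (∏ i, if I i then (v i).2 else (v i).1) *
        T.pev (sm S (List.ofFn I)) f w := by
  induction S generalizing n f with
  | nil =>
    subst hn
    simp only [sides, List.length_nil]
    rw [Fintype.sum_eq_single (fun i : Fin 0 => i.elim0) (fun I _ => by
      exfalso
      rename_i h
      exact h (funext fun i => i.elim0))]
    simp only [univ_eq_empty, prod_empty, one_mul]
    rfl
  | cons s S ih =>
    cases s with
    | cup k => exact ih n hn v (T.cu true k f)
    | cap k => exact ih n hn v (T.ca true k f)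
    | box k a =>
      obtain ⟨m, rfl⟩ : ∃ m, n = m + 1 := ⟨(sides S).length, by rw [← hn]; rfl⟩
      have hm : (sides S).length = m := by
        have h1 : (sides S).length + 1 = m + 1 := hn
        omega
      have h1 : T.ev (.box k a :: S) (List.ofFn v) f w =
          T.ev S (List.ofFn fun i => v i.succ)
            (fun u => (v 0).1 * f u + (v 0).2 * T.cu true k (T.ca true k f) u) w := by
        rw [List.ofFn_succ]
        rfl
      rw [h1, ih m hm]
      rw [← (Fin.consEquiv fun _ : Fin (m + 1) => Bool).sum_comp, Fintype.sum_prod_type,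
        Fintype.sum_bool, ← Finset.sum_add_distrib]
      refine Finset.sum_congr rfl fun I _ => ?_
      rw [td_two, Fin.prod_univ_succ, Fin.prod_univ_succ, List.ofFn_succ, List.ofFn_succ]
      simp only [Fin.consEquiv_apply, Fin.cons_zero, Fin.cons_succ]
      have h2 : T.pev (sm (.box k a :: S) (true :: List.ofFn I)) f w =
          T.pev (sm S (List.ofFn I)) (T.cu true k (T.ca true k f)) w := rfl
      have h3 : T.pev (sm (.box k a :: S) (false :: List.ofFn I)) f w =
          T.pev (sm S (List.ofFn I)) f w := rfl
      rw [h2, h3]
      simp only [if_true, Bool.false_eq_true, if_false]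
      ring

theorem ev_lp {T : TL A ι} {δ : A} (hT : T.Ok δ) (S : List (Item Unit)) (hS : wfS 1 S 1) (n : ℕ)
    (hn : (sides S).length = n) (v : Fin n → A × A) (f : List ι → A) (w : List ι)
    (hw : w.length = 1) :
    T.ev S (List.ofFn v) f w =
      ∑ I : Fin n → Bool, (∏ i, if I i then (v i).2 else (v i).1) *
        (δ ^ lp (sm S (List.ofFn I)) * f w) := by
  rw [ev_sum T S n hn v f w]
  refine Finset.sum_congr rfl fun I _ => ?_
  rw [pev_lp hT _ (sm_wf S 1 hS _) f w hw]

end Pool.Agent.EVT
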