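import Pool.Agent.EVT.FA
import Pool.Agent.EVT.TD

/-!
# EVT module FD0: smoothings over `F₂` as averages of jumps and signs

A maximum below a minimum: `T2.cu true k (T2.ca true k f) w` is `∑ x, f (addAt k x w)` if
`dfAt k w = 0`, else `0` (for words `w` with at least `k + 2` letters), which is
`(1 / 2) * ∑ x, ∑ s, sg2 (s * dfAt k w) * f (addAt k x w)`.
`pev_sm`: induction on `S` (with the sum over functions `Fin n → ZMod 2 × ZMod 2` supported on `I`;
`Fin.consEquiv`), linearity (`jev_lin`), and `jev_congr` for the words of the right length.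
For `I i = false` the vertex is the identity: `x = 0`, `s = 0`.
-/

namespace Pool.Agent.EVT

open Finset
open Pool.Agent.Helper9.FA (Item)

theorem cu_ca_T2_aux (k : ℕ) : ∀ (b : Bool) (f : List (ZMod 2) → ℚ) (w : List (ZMod 2)),
    k + 2 ≤ w.length →
    T2.cu b k (T2.ca b k f) w =
      (1 / 2) * ∑ z : ZMod 2 × ZMod 2, sg2 (z.2 * dfAt k w) * f (addAt k z.1 w) := by
  induction k with
  | zero =>
    intro b f w hw
    match w, hw with
    | x :: y :: w', _ =>
      simp only [TL.cu, TL.ca, dfAt, addAt, T2, one_mul]
      rw [Fintype.sum_prod_type]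
      have hx : ∀ F : ZMod 2 → ℚ, ∑ i, F i = F 0 + F 1 := fun F => Fin.sum_univ_two F
      simp only [hx]
      have h2 : ∀ t : ZMod 2, t = 0 ∨ t = 1 := by decide
      have h10 : (1 : ZMod 2) ≠ 0 := by decide
      have h11 : (1 : ZMod 2) + 1 = 0 := by decide
      rcases h2 x with rfl | rfl <;> rcases h2 y with rfl | rfl <;>
        simp [sg2, h10, h11] <;> ring
  | succ k ih =>
    intro b f w hw
    match w, hw with
    | x :: w', hw =>
      have h := ih (!b) (fun u => f (x :: u)) w' (by simpa using hw)
      simp only [TL.cu, TL.ca, dfAt, addAt]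
      exact h

theorem cu_ca_T2 (k : ℕ) (f : List (ZMod 2) → ℚ) (w : List (ZMod 2)) (hw : k + 2 ≤ w.length) :
    T2.cu true k (T2.ca true k f) w =
      (1 / 2) * ∑ z : ZMod 2 × ZMod 2, sg2 (z.2 * dfAt k w) * f (addAt k z.1 w) :=
  cu_ca_T2_aux k true f w hw

theorem FD0_addAt_zero (k : ℕ) : ∀ w : List (ZMod 2), addAt k 0 w = w := by
  induction k with
  | zero =>
    intro w
    match w with
    | [] => rfl
    | [x] => rfl
    | x :: y :: w' => simp [addAt]
  | succ k ih =>
    intro w
    match w with
    | [] => rfl
    | x :: w' => simp [addAt, ih]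

theorem FD0_sum_cons {n : ℕ} {α : Type*} [Fintype α] (F : (Fin (n + 1) → α) → ℚ) :
    ∑ z, F z = ∑ x : α, ∑ z : Fin n → α, F (Fin.cons x z) := by
  rw [← (Fin.consEquiv (fun _ : Fin (n + 1) => α)).sum_comp F, Fintype.sum_prod_type]
  rfl

theorem pev_sm (S : List (Item Unit)) (p : ℕ) (hS : wfS p S 1) (n : ℕ)
    (hn : (sides S).length = n) (I : Fin n → Bool) (f : List (ZMod 2) → ℚ) (w : List (ZMod 2))
    (hw : w.length = 1) :
    T2.pev (sm S (List.ofFn I)) f w =
      (1 / 2) ^ (univ.filter fun i => I i = true).card *
        ∑ z ∈ univ.filter (fun z : Fin n → ZMod 2 × ZMod 2 => ∀ i, I i = false → z i = 0),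
          jev S (List.ofFn z) f w := by
  induction S generalizing p n f with
  | nil =>
    have : n = 0 := by simpa [sides] using hn.symm
    subst this
    simp [sm, jev, TL.pev]
  | cons s S ih =>
    cases s with
    | cup k =>
      obtain ⟨h1, h2⟩ := hS
      exact ih (p + 2) h2 n hn I (T2.cu true k f)
    | cap k =>
      obtain ⟨h1, h2⟩ := hS
      exact ih (p - 2) h2 n hn I (T2.ca true k f)
    | box k a =>
      obtain ⟨h1, h2⟩ := hS
      obtain ⟨m, hm⟩ : ∃ m, (sides S).length = m := ⟨_, rfl⟩
      have hn' : n = m + 1 := by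
        have : (sides S).length + 1 = n := hn
        omega
      subst hn'
      have hI : List.ofFn I = I 0 :: List.ofFn (fun i => I i.succ) := List.ofFn_succ
      have hj : ∀ (x : ZMod 2 × ZMod 2) (z : Fin m → ZMod 2 × ZMod 2),
          jev (Item.box k a :: S) (List.ofFn (Fin.cons x z : Fin (m + 1) → ZMod 2 × ZMod 2)) f w =
            jev S (List.ofFn z) (fun w => sg2 (x.2 * dfAt k w) * f (addAt k x.1 w)) w := by
        intro x z
        rw [List.ofFn_succ]
        simp only [Fin.cons_zero, Fin.cons_succ]
        rfl
      rw [Finset.sum_filter, FD0_sum_cons, hI, Fin.card_filter_univ_succ]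
      simp only [hj, Fin.forall_fin_succ, Fin.cons_zero, Fin.cons_succ]
      cases h0 : I 0 with
      | false =>
        have e1 : sm (Item.box k a :: S) (false :: List.ofFn (fun i => I i.succ)) =
            sm S (List.ofFn (fun i => I i.succ)) := rfl
        rw [e1, ih p h2 m hm (fun i => I i.succ) f, Finset.sum_filter]
        simp only [Bool.false_eq_true, if_false, true_imp_iff]
        congr 1
        rw [Finset.sum_eq_single (0 : ZMod 2 × ZMod 2)]
        · refine Finset.sum_congr rfl fun z _ => ?_
          have e2 : (fun w => sg2 ((0 : ZMod 2 × ZMod 2).2 * dfAt k w) *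
              f (addAt k (0 : ZMod 2 × ZMod 2).1 w)) = f := by
            funext u
            have : sg2 0 = 1 := by simp [sg2]
            simp [FD0_addAt_zero, this]
          rw [e2]
          simp
        · intro b _ hb
          refine Finset.sum_eq_zero fun z _ => if_neg ?_
          rintro ⟨h, _⟩
          exact hb h
        · intro h
          exact absurd (Finset.mem_univ _) h
      | true =>
        have e1 : T2.pev (sm (Item.box k a :: S) (true :: List.ofFn (fun i => I i.succ))) f =
            T2.pev (sm S (List.ofFn (fun i => I i.succ))) (T2.cu true k (T2.ca true k f)) := rfl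
        rw [e1, ih p h2 m hm (fun i => I i.succ) _, Finset.sum_filter]
        simp only [if_true, Bool.true_eq_false, false_imp_iff, true_and]
        rw [pow_succ, mul_assoc]
        congr 1
        rw [Finset.sum_comm, Finset.mul_sum]
        refine Finset.sum_congr rfl fun z _ => ?_
        split_ifs with hz
        · rw [jev_congr h2 (List.ofFn z) (g := fun u => ∑ x : ZMod 2 × ZMod 2,
            (1 / 2) * (sg2 (x.2 * dfAt k u) * f (addAt k x.1 u))) _ w hw, jev_lin, Finset.mul_sum]
          intro u hu
          rw [cu_ca_T2 k f u (by omega), Finset.mul_sum]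
        · simp

end Pool.Agent.EVT
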