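import Pool.Agent.EVT.FB
import Pool.Agent.EVT.FC
import Pool.Agent.EVT.FD0

/-!
# EVT module FE: the interlacement matrix

Let `S` be a pattern from one strand to one strand, one arc if all vertices are replaced by two vertical
strands (`ArcP 1 [0] S`), with `n` vertices.

(1) `count_lb`: `2 ^ lp (sm S I)` is `T2.pev (sm S I) (ket [0]) [0]` (`pev_lp`, `T2_ok`), by `pev_sm` it is
`2 ^ (-#I) * ∑_{x, s supported on I} jev S (zip x s) (ket [0]) [0]`.  If there is no `d` with
`LB S x d [0]` then the term is `0` (`jev_lb`), otherwise it is `sg2 (dotp s d)` (`jev_shift0`,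
`jev_one`).  The sum over `s` is `2 ^ #I` if `d i = 0` for all `i ∈ I`, else `0`.  So `2 ^ lp (sm S I)` is the
number of `x` supported on `I` such that there is `d` with `LB S x d [0]` and `d i = 0` for all `i ∈ I`
(`d` is unique: by (1') below).
(1') `lb_zero`: `LB S 0 d [0]` implies `d = 0`: `jev_shift0` and `jev_one` give `sg2 (dotp s d) = 1` for
all `s`.  So `d` is determined by `x` (`lb_add`).
(2) For `I = ∅`: `lp (sm S ∅) = 0`, so `rot (sm S ∅) = 0`: more precisely `|rot| ≤ 2 lp = 0`
(`rot_le_lp`).
(3) For `I = {i}`: `rot (sm S I) = ± 2` (`sm_rot`), so `lp ≥ 1` (`rot_le_lp`), so the number in (1) is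
at least `2`: there is `x ≠ 0` supported on `{i}`, so a labelling with the jump `1` at `i` and no
other, with `d i = 0`.
(4) By `lb_add` there is a labelling for every `x`; `d` depends linearly on `x`: a matrix `M` with
`LB S x (M x) [0]` for all `x` (columns from (3)); `M i i = 0`.
(5) `M` is symmetric: `lb_pair` for the unit vectors at `i` and `j`: `M i j + M j i = 0`.
(6) If `i ≠ j` have the same side then `rot (sm S {i, j}) = ± 4`, so `lp ≥ 2`, so all four `x` supported
on `{i, j}` are counted in (1), in particular the unit vector at `j`: `M i j = 0`.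
All this was checked by computer on 600 random patterns.
-/

namespace Pool.Agent.EVT

open Finset
open Pool.Agent.Helper9.FA (Item)

private theorem fe_zipWith {α β γ : Type*} (f : α → β → γ) {n : ℕ} (x : Fin n → α)
    (y : Fin n → β) :
    List.zipWith f (List.ofFn x) (List.ofFn y) = List.ofFn fun i => f (x i) (y i) := by
  apply List.ext_getElem
  · simp
  · intro i h1 h2
    simp

private theorem fe_dotp {n : ℕ} (x y : Fin n → ZMod 2) :
    dotp (List.ofFn x) (List.ofFn y) = ∑ i, x i * y i := by
  unfold dotp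
  rw [fe_zipWith, List.sum_ofFn]

private theorem fe_wadd {n : ℕ} (x y : Fin n → ZMod 2) :
    wadd (List.ofFn x) (List.ofFn y) = List.ofFn (x + y) := by
  unfold wadd
  rw [fe_zipWith]
  rfl

private theorem fe_zip {n : ℕ} (x y : Fin n → ZMod 2) :
    List.zip (List.ofFn x) (List.ofFn y) = List.ofFn fun i => (x i, y i) :=
  fe_zipWith Prod.mk x y

private theorem fe_ofFn {α : Type*} {n : ℕ} (l : List α) (h : l.length = n) :
    ∃ x : Fin n → α, l = List.ofFn x := by
  subst h
  exact ⟨l.get, (List.ofFn_get l).symm⟩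

private theorem fe_zero {n : ℕ} : List.replicate n (0 : ZMod 2) = List.ofFn (0 : Fin n → ZMod 2) := by
  rw [← List.ofFn_const]
  rfl

private theorem fe_z2 : ∀ x : ZMod 2, x = 0 ∨ x = 1 := by decide

private theorem fe_sg2_zero : sg2 0 = 1 := by
  unfold sg2
  rw [if_pos rfl]

private theorem fe_sg2_one : sg2 1 = -1 := by
  unfold sg2
  rw [if_neg (by decide)]

private theorem fe_sg2_inj {x y : ZMod 2} (h : sg2 x = sg2 y) : x = y := by
  rcases fe_z2 x with rfl | rfl <;> rcases fe_z2 y with rfl | rfl
  · rfl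
  · rw [fe_sg2_zero, fe_sg2_one] at h
    norm_num at h
  · rw [fe_sg2_zero, fe_sg2_one] at h
    norm_num at h
  · rfl

private theorem fe_sg2_sum {ι : Type*} (s : Finset ι) (f : ι → ZMod 2) :
    sg2 (∑ i ∈ s, f i) = ∏ i ∈ s, sg2 (f i) := by
  classical
  induction s using Finset.induction_on with
  | empty => rw [Finset.sum_empty, Finset.prod_empty, fe_sg2_zero]
  | insert a s ha ih => rw [Finset.sum_insert ha, Finset.prod_insert ha, sg2_add, ih]

/-- the value for a labelling. -/
private theorem fe_val {S : List (Item Unit)} (hA : ArcP 1 [0] S) {n : ℕ}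
    (hn : (sides S).length = n) {x d : Fin n → ZMod 2} (h : LB S (List.ofFn x) (List.ofFn d) [0])
    (s : Fin n → ZMod 2) :
    jev S (List.ofFn fun i => (x i, s i)) (ket ℚ [0]) [0] = sg2 (∑ i, s i * d i) := by
  have h1 := jev_shift0 h (List.ofFn s) (by simp)
  have h2 := jev_one S hA (List.ofFn s) (by simp [hn])
  rw [hn] at h2
  rw [List.length_ofFn, h2, mul_one, fe_zip, fe_dotp] at h1
  exact h1

/-- no labelling. -/
private theorem fe_none {S : List (Item Unit)} (hS : wfS 1 S 1) {n : ℕ}
    (hn : (sides S).length = n) {x : Fin n → ZMod 2}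
    (h : ¬ ∃ d : Fin n → ZMod 2, LB S (List.ofFn x) (List.ofFn d) [0]) (s : Fin n → ZMod 2) :
    jev S (List.ofFn fun i => (x i, s i)) (ket ℚ [0]) [0] = 0 := by
  by_contra hne
  rw [← fe_zip] at hne
  have hket : ∀ u : List (ZMod 2), ket ℚ [0] u ≠ 0 → u = [0] := by
    intro u hu
    by_contra hcon
    apply hu
    unfold ket
    rw [if_neg hcon]
  obtain ⟨u, d, hu, hLB⟩ := jev_lb S 1 hS (List.ofFn x) (List.ofFn s) (by simp [hn])
    (by simp [hn]) (ket ℚ [0]) (fun u hu => by rw [hket u hu]; rfl) hne
  rw [hket u hu] at hLB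
  obtain ⟨d', rfl⟩ := fe_ofFn d ((lb_len hLB).2.1.trans hn)
  exact h ⟨d', hLB⟩

private theorem fe_single {n : ℕ} (i : Fin n) (d : Fin n → ZMod 2) :
    ∑ j, (Pi.single i (1 : ZMod 2) : Fin n → ZMod 2) j * d j = d i := by
  rw [Finset.sum_eq_single i]
  · rw [Pi.single_eq_same, one_mul]
  · intro j _ hj
    rw [Pi.single_eq_of_ne hj, zero_mul]
  · intro h
    exact absurd (Finset.mem_univ i) h

private theorem fe_uniq {S : List (Item Unit)} (hA : ArcP 1 [0] S) {n : ℕ}
    (hn : (sides S).length = n) {x d d' : Fin n → ZMod 2}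
    (h : LB S (List.ofFn x) (List.ofFn d) [0]) (h' : LB S (List.ofFn x) (List.ofFn d') [0]) :
    d = d' := by
  funext i
  have h1 := fe_val hA hn h (Pi.single i 1)
  have h2 := fe_val hA hn h' (Pi.single i 1)
  rw [fe_single] at h1 h2
  exact fe_sg2_inj (h1.symm.trans h2)

private theorem fe_lb_zero {S : List (Item Unit)} (hA : ArcP 1 [0] S) {n : ℕ}
    (hn : (sides S).length = n) {d : Fin n → ZMod 2}
    (h : LB S (List.ofFn (0 : Fin n → ZMod 2)) (List.ofFn d) [0]) : d = 0 := by
  funext i
  have h1 := fe_val hA hn h (Pi.single i 1)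
  rw [fe_single] at h1
  have h2 := jev_one S hA (List.ofFn (Pi.single i (1 : ZMod 2) : Fin n → ZMod 2)) (by simp [hn])
  rw [hn, fe_zero, fe_zip, h1, ← fe_sg2_zero] at h2
  exact fe_sg2_inj h2

theorem lb_zero (S : List (Item Unit)) (hA : ArcP 1 [0] S) (d : List (ZMod 2))
    (h : LB S (List.replicate (sides S).length 0) d [0]) :
    d = List.replicate (sides S).length 0 := by
  obtain ⟨d', rfl⟩ := fe_ofFn d (lb_len h).2.1
  rw [fe_zero] at h ⊢
  rw [fe_lb_zero hA rfl h]

/-- the functions supported on `I` -/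
private def fe_t {n : ℕ} (I : Fin n → Bool) (i : Fin n) : Finset (ZMod 2) :=
  if I i = true then univ else {0}

private theorem fe_mem_t {n : ℕ} (I : Fin n → Bool) (x : Fin n → ZMod 2) :
    x ∈ Fintype.piFinset (fe_t I) ↔ ∀ i, I i = false → x i = 0 := by
  rw [Fintype.mem_piFinset]
  refine forall_congr' fun i => ?_
  unfold fe_t
  by_cases h : I i = true
  · rw [if_pos h]
    simp [h]
  · rw [if_neg h]
    have h' : I i = false := by simpa using h
    simp [h']

private theorem fe_T {n : ℕ} (I : Fin n → Bool) (d : Fin n → ZMod 2) :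
    ∑ s ∈ Fintype.piFinset (fe_t I), sg2 (∑ i, s i * d i) =
      if ∀ i, I i = true → d i = 0 then (2 : ℚ) ^ (univ.filter fun i => I i = true).card else 0 := by
  classical
  have h1 : ∀ s : Fin n → ZMod 2, sg2 (∑ i, s i * d i) = ∏ i, sg2 (s i * d i) := fun s =>
    fe_sg2_sum _ _
  simp only [h1]
  rw [← Finset.prod_univ_sum (t := fe_t I) (f := fun i j => sg2 (j * d i))]
  have h2 : ∀ i, ∑ j ∈ fe_t I i, sg2 (j * d i) =
      if I i = true then (if d i = 0 then 2 else 0) else 1 := by
    intro i
    unfold fe_t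
    by_cases h : I i = true
    · rw [if_pos h, if_pos h]
      have h3 : (univ : Finset (ZMod 2)) = {0, 1} := by decide
      rw [h3, Finset.sum_pair (by decide), zero_mul, one_mul, fe_sg2_zero]
      rcases fe_z2 (d i) with h4 | h4
      · rw [h4, fe_sg2_zero, if_pos rfl]
        norm_num
      · rw [h4, fe_sg2_one, if_neg (by decide)]
        norm_num
    · rw [if_neg h, if_neg h, Finset.sum_singleton, zero_mul, fe_sg2_zero]
  simp only [h2]
  by_cases hall : ∀ i, I i = true → d i = 0
  · rw [if_pos hall, Finset.card_filter, ← Finset.prod_pow_eq_pow_sum]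
    refine Finset.prod_congr rfl fun i _ => ?_
    by_cases h : I i = true
    · rw [if_pos h, if_pos h, if_pos (hall i h), pow_one]
    · rw [if_neg h, if_neg h, pow_zero]
  · rw [if_neg hall]
    push Not at hall
    obtain ⟨i, hi, hdi⟩ := hall
    exact Finset.prod_eq_zero (Finset.mem_univ i) (by rw [if_pos hi, if_neg hdi])

theorem count_lb (S : List (Item Unit)) (hS : wfS 1 S 1) (hA : ArcP 1 [0] S) (n : ℕ)
    (hn : (sides S).length = n) (I : Fin n → Bool) [DecidablePred fun x : Fin n → ZMod 2 =>
      (∀ i, I i = false → x i = 0) ∧ ∃ d : Fin n → ZMod 2, LB S (List.ofFn x) (List.ofFn d) [0] ∧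
        ∀ i, I i = true → d i = 0] :
    2 ^ lp (sm S (List.ofFn I)) = (univ.filter fun x : Fin n → ZMod 2 =>
      (∀ i, I i = false → x i = 0) ∧ ∃ d : Fin n → ZMod 2, LB S (List.ofFn x) (List.ofFn d) [0] ∧
        ∀ i, I i = true → d i = 0).card := by
  classical
  have h1 := pev_lp T2_ok (sm S (List.ofFn I)) (sm_wf S 1 hS _) (ket ℚ [0]) [0] rfl
  rw [pev_sm S 1 hS n hn I (ket ℚ [0]) [0] rfl] at h1
  have hk : ket ℚ [0] ([0] : List (ZMod 2)) = 1 := by
    unfold ket
    rw [if_pos rfl]
  rw [hk, mul_one] at h1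
  -- the sum over pairs
  have h2 : ∑ z ∈ univ.filter (fun z : Fin n → ZMod 2 × ZMod 2 => ∀ i, I i = false → z i = 0),
      jev S (List.ofFn z) (ket ℚ [0]) [0] =
      ∑ x ∈ Fintype.piFinset (fe_t I), ∑ s ∈ Fintype.piFinset (fe_t I),
        jev S (List.ofFn fun i => (x i, s i)) (ket ℚ [0]) [0] := by
    rw [← Finset.sum_product']
    refine Finset.sum_bij' (fun z _ => (fun i => (z i).1, fun i => (z i).2))
      (fun q _ => fun i => (q.1 i, q.2 i)) ?_ ?_ ?_ ?_ ?_
    · intro z hz
      have hz' := (Finset.mem_filter.1 hz).2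
      rw [Finset.mem_product, fe_mem_t, fe_mem_t]
      exact ⟨fun i hi => by simp only [hz' i hi]; rfl, fun i hi => by simp only [hz' i hi]; rfl⟩
    · intro q hq
      rw [Finset.mem_product, fe_mem_t, fe_mem_t] at hq
      rw [Finset.mem_filter]
      refine ⟨Finset.mem_univ _, fun i hi => ?_⟩
      show (q.1 i, q.2 i) = 0
      rw [hq.1 i hi, hq.2 i hi]
      rfl
    · intro z _
      rfl
    · intro q _
      rfl
    · intro z _
      rfl
  rw [h2] at h1
  -- the inner sums
  have h3 : ∀ x : Fin n → ZMod 2, ∑ s ∈ Fintype.piFinset (fe_t I),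
      jev S (List.ofFn fun i => (x i, s i)) (ket ℚ [0]) [0] =
      if (∃ d : Fin n → ZMod 2, LB S (List.ofFn x) (List.ofFn d) [0] ∧
        ∀ i, I i = true → d i = 0) then (2 : ℚ) ^ (univ.filter fun i => I i = true).card else 0 := by
    intro x
    by_cases hex : ∃ d : Fin n → ZMod 2, LB S (List.ofFn x) (List.ofFn d) [0]
    · obtain ⟨d, hd⟩ := hex
      rw [Finset.sum_congr rfl fun s _ => fe_val hA hn hd s, fe_T]
      by_cases h4 : ∀ i, I i = true → d i = 0
      · rw [if_pos h4, if_pos ⟨d, hd, h4⟩]
      · rw [if_neg h4, if_neg]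
        rintro ⟨d', hd', h5⟩
        rw [fe_uniq hA hn hd hd'] at h4
        exact h4 h5
    · rw [Finset.sum_eq_zero fun s _ => fe_none hS hn hex s, if_neg]
      rintro ⟨d, hd, -⟩
      exact hex ⟨d, hd⟩
  simp only [h3] at h1
  have h4 : (univ : Finset (Fin n → ZMod 2)).filter (fun x => ∀ i, I i = false → x i = 0) =
      Fintype.piFinset (fe_t I) := by
    ext x
    rw [fe_mem_t, Finset.mem_filter]
    exact ⟨fun h => h.2, fun h => ⟨Finset.mem_univ _, h⟩⟩
  have h5 : (2 : ℚ) ^ lp (sm S (List.ofFn I)) = ((univ.filter fun x : Fin n → ZMod 2 =>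
      (∀ i, I i = false → x i = 0) ∧ ∃ d : Fin n → ZMod 2, LB S (List.ofFn x) (List.ofFn d) [0] ∧
        ∀ i, I i = true → d i = 0).card : ℚ) := by
    rw [← h1, ← h4, Finset.natCast_card_filter, Finset.mul_sum, Finset.sum_filter]
    refine Finset.sum_congr rfl fun x _ => ?_
    by_cases hx : ∀ i, I i = false → x i = 0
    · rw [if_pos hx]
      by_cases hd : ∃ d : Fin n → ZMod 2, LB S (List.ofFn x) (List.ofFn d) [0] ∧
        ∀ i, I i = true → d i = 0
      · rw [if_pos hd, if_pos ⟨hx, hd⟩, ← mul_pow]
        norm_num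
      · rw [if_neg hd, if_neg fun h => hd h.2, mul_zero]
    · rw [if_neg hx, if_neg fun h => hx h.1]
  exact_mod_cast h5

private theorem fe_rot {S : List (Item Unit)} {n : ℕ} (hn : (sides S).length = n)
    (sd : Fin n → Bool) (hsd : sides S = List.ofFn sd) (I : Fin n → Bool) :
    rot (sm S (List.ofFn I)) = rot (sm S (List.ofFn fun _ : Fin n => false)) +
      2 * ∑ i, if I i then (if sd i then (1 : ℤ) else -1) else 0 := by
  have h1 := sm_rot S (List.ofFn I) (by simp [hn])
  rw [hn, ← List.ofFn_const, hsd, fe_zipWith, List.sum_ofFn] at h1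
  exact h1

/-- the interlacement matrix -/
theorem exists_matrix (S : List (Item Unit)) (hS : wfS 1 S 1) (hA : ArcP 1 [0] S) (n : ℕ)
    (hn : (sides S).length = n) :
    ∃ M : Matrix (Fin n) (Fin n) (ZMod 2), (∀ i j, M i j = M j i) ∧
      (∀ i j, (sides S)[i]'(hn ▸ i.2) = (sides S)[j]'(hn ▸ j.2) → M i j = 0) ∧
      (∀ x : Fin n → ZMod 2, LB S (List.ofFn x) (List.ofFn (M.mulVec x)) [0]) ∧
      ∀ I : Fin n → Bool, 2 ^ lp (sm S (List.ofFn I)) = (univ.filter fun x : Fin n → ZMod 2 =>
        (∀ i, I i = false → x i = 0) ∧ ∀ i, I i = true → M.mulVec x i = 0).card := by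
  classical
  obtain ⟨sd, hsd⟩ := fe_ofFn (sides S) hn
  have hsdi : ∀ i : Fin n, (sides S)[i]'(hn ▸ i.2) = sd i := by
    intro i
    have h1 : ∀ (l : List Bool) (h : l = List.ofFn sd) (h2 : (i : ℕ) < l.length),
        l[(i : ℕ)] = sd i := by
      rintro l rfl h2
      simp
    exact h1 _ hsd _
  -- (2)
  have hc0 := count_lb S hS hA n hn (fun _ => false)
  have hlp0 : lp (sm S (List.ofFn fun _ : Fin n => false)) = 0 := by
    have h1 : (univ.filter fun x : Fin n → ZMod 2 =>
      (∀ i : Fin n, false = false → x i = 0) ∧ ∃ d : Fin n → ZMod 2,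
        LB S (List.ofFn x) (List.ofFn d) [0] ∧ ∀ i : Fin n, false = true → d i = 0).card ≤ 1 := by
      rw [Finset.card_le_one]
      intro x hx y hy
      funext i
      rw [(Finset.mem_filter.1 hx).2.1 i rfl, (Finset.mem_filter.1 hy).2.1 i rfl]
    by_contra hne
    have h2 : 2 ≤ 2 ^ lp (sm S (List.ofFn fun _ : Fin n => false)) :=
      Nat.le_self_pow hne 2
    rw [hc0] at h2
    omega
  have hrot0 : rot (sm S (List.ofFn fun _ : Fin n => false)) = 0 := by
    have h1 := rot_le_lp (sm S (List.ofFn fun _ : Fin n => false)) (sm_wf S 1 hS _)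
    rw [hlp0] at h1
    have h2 := abs_nonneg (rot (sm S (List.ofFn fun _ : Fin n => false)))
    have h3 : |rot (sm S (List.ofFn fun _ : Fin n => false))| = 0 := by
      simp only [Nat.cast_zero, mul_zero] at h1
      omega
    exact abs_eq_zero.1 h3
  have hLB0 : LB S (List.ofFn (0 : Fin n → ZMod 2)) (List.ofFn (0 : Fin n → ZMod 2)) [0] := by
    have h1 : 0 < (univ.filter fun x : Fin n → ZMod 2 =>
      (∀ i : Fin n, false = false → x i = 0) ∧ ∃ d : Fin n → ZMod 2,
        LB S (List.ofFn x) (List.ofFn d) [0] ∧ ∀ i : Fin n, false = true → d i = 0).card := by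
      rw [← hc0]
      positivity
    obtain ⟨x, hx⟩ := Finset.card_pos.1 h1
    obtain ⟨hx0, d, hd, -⟩ := (Finset.mem_filter.1 hx).2
    have hx' : x = 0 := funext fun i => hx0 i rfl
    rw [hx'] at hd
    have hd0 := fe_lb_zero hA hn hd
    rwa [hd0] at hd
  have hrot : ∀ I : Fin n → Bool, rot (sm S (List.ofFn I)) =
      2 * ∑ i, if I i then (if sd i then (1 : ℤ) else -1) else 0 := by
    intro I
    rw [fe_rot hn sd hsd, hrot0, zero_add]
  -- the counted functions are all the functions supported on `I` if there are enough curves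
  have hall : ∀ I : Fin n → Bool, (univ.filter fun i => I i = true).card ≤
      lp (sm S (List.ofFn I)) → ∀ x : Fin n → ZMod 2, (∀ i, I i = false → x i = 0) →
      ∃ d : Fin n → ZMod 2, LB S (List.ofFn x) (List.ofFn d) [0] ∧ ∀ i, I i = true → d i = 0 := by
    intro I hI x hx
    have h1 := count_lb S hS hA n hn I
    have hsub : (univ.filter fun x : Fin n → ZMod 2 =>
      (∀ i, I i = false → x i = 0) ∧ ∃ d : Fin n → ZMod 2, LB S (List.ofFn x) (List.ofFn d) [0] ∧
        ∀ i, I i = true → d i = 0) ⊆ Fintype.piFinset (fe_t I) := by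
      intro y hy
      rw [fe_mem_t]
      exact (Finset.mem_filter.1 hy).2.1
    have hcard : (Fintype.piFinset (fe_t I)).card = 2 ^ (univ.filter fun i => I i = true).card := by
      rw [Fintype.card_piFinset, Finset.card_filter, ← Finset.prod_pow_eq_pow_sum]
      refine Finset.prod_congr rfl fun i _ => ?_
      unfold fe_t
      by_cases h : I i = true
      · rw [if_pos h, if_pos h, pow_one]
        rfl
      · rw [if_neg h, if_neg h, pow_zero]
        rfl
    have heq := Finset.eq_of_subset_of_card_le hsub (by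
      rw [hcard, ← h1]
      exact Nat.pow_le_pow_right (by norm_num) hI)
    have hmem : x ∈ Fintype.piFinset (fe_t I) := (fe_mem_t I x).2 hx
    rw [← heq] at hmem
    exact (Finset.mem_filter.1 hmem).2.2
  -- (3)
  have hcol : ∀ i : Fin n, ∃ d : Fin n → ZMod 2,
      LB S (List.ofFn (Pi.single i (1 : ZMod 2) : Fin n → ZMod 2)) (List.ofFn d) [0] ∧
        d i = 0 := by
    intro i
    set I : Fin n → Bool := fun j => decide (j = i) with hI
    have hcardI : (univ.filter fun j => I j = true).card = 1 := by
      have : (univ.filter fun j => I j = true) = {i} := by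
        ext j
        simp [hI]
      rw [this, Finset.card_singleton]
    have hlp : 1 ≤ lp (sm S (List.ofFn I)) := by
      have h1 := rot_le_lp (sm S (List.ofFn I)) (sm_wf S 1 hS _)
      rw [hrot I, Finset.sum_eq_single i] at h1
      · rw [if_pos (by simp [hI])] at h1
        by_cases hs : sd i = true
        · rw [if_pos hs] at h1
          norm_num at h1
          omega
        · rw [if_neg hs] at h1
          norm_num at h1
          omega
      · intro j _ hj
        rw [if_neg]
        simp [hI, hj]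
      · intro h
        exact absurd (Finset.mem_univ i) h
    obtain ⟨d, hd, hd0⟩ := hall I (by rw [hcardI]; exact hlp) (Pi.single i 1) (by
      intro j hj
      have hji : j ≠ i := by simpa [hI] using hj
      exact Pi.single_eq_of_ne hji _)
    exact ⟨d, hd, hd0 i (by simp [hI])⟩
  choose col hcolLB hcol0 using hcol
  set M : Matrix (Fin n) (Fin n) (ZMod 2) := Matrix.of fun a i => col i a with hM
  have hMi : ∀ a i, M a i = col i a := fun a i => rfl
  -- (4)
  have hLB : ∀ x : Fin n → ZMod 2, LB S (List.ofFn x) (List.ofFn (M.mulVec x)) [0] := by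
    intro x
    have h1 : ∀ T : Finset (Fin n), LB S
        (List.ofFn (∑ i ∈ T, x i • (Pi.single i (1 : ZMod 2) : Fin n → ZMod 2)))
        (List.ofFn (∑ i ∈ T, x i • col i)) [0] := by
      intro T
      induction T using Finset.induction_on with
      | empty =>
        rw [Finset.sum_empty, Finset.sum_empty]
        exact hLB0
      | insert i T hi ih =>
        rw [Finset.sum_insert hi, Finset.sum_insert hi]
        rcases fe_z2 (x i) with h2 | h2
        · rw [h2, zero_smul, zero_smul, zero_add, zero_add]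
          exact ih
        · rw [h2, one_smul, one_smul, ← fe_wadd, ← fe_wadd]
          have h3 := lb_add (hcolLB i) ih rfl
          have h4 : wadd [0] [0] = [0] := by decide
          rwa [h4] at h3
    have h2 := h1 univ
    have h3 : ∑ i, x i • (Pi.single i (1 : ZMod 2) : Fin n → ZMod 2) = x := by
      funext j
      rw [Finset.sum_apply, Finset.sum_eq_single j]
      · simp
      · intro i _ hi
        simp [hi.symm]
      · intro h
        exact absurd (Finset.mem_univ j) h
    have h4 : ∑ i, x i • col i = M.mulVec x := by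
      funext j
      rw [Finset.sum_apply, Matrix.mulVec, dotProduct]
      refine Finset.sum_congr rfl fun i _ => ?_
      rw [Pi.smul_apply, smul_eq_mul, hMi, mul_comm]
    rwa [h3, h4] at h2
  refine ⟨M, ?_, ?_, hLB, ?_⟩
  · -- (5)
    intro i j
    have h1 := lb_pair (hcolLB i) (hcolLB j) rfl
    rw [fe_dotp, fe_dotp, fe_single, fe_single] at h1
    have h2 : dotp [0] [0] = 0 := by decide
    rw [h2] at h1
    rw [hMi, hMi]
    rcases fe_z2 (col j i) with h3 | h3 <;> rcases fe_z2 (col i j) with h4 | h4
    · rw [h3, h4]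
    · rw [h3, h4] at h1
      exact absurd h1 (by decide)
    · rw [h3, h4] at h1
      exact absurd h1 (by decide)
    · rw [h3, h4]
  · -- (6)
    intro i j hij
    rw [hsdi, hsdi] at hij
    rw [hMi]
    by_cases hne : i = j
    · rw [hne]
      exact hcol0 j
    · set I : Fin n → Bool := fun k => decide (k = i ∨ k = j) with hI
      have hset : (univ.filter fun k => I k = true) = {i, j} := by
        ext k
        simp [hI]
      have hcardI : (univ.filter fun k => I k = true).card = 2 := by
        rw [hset, Finset.card_pair hne]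
      have hlp : 2 ≤ lp (sm S (List.ofFn I)) := by
        have h1 := rot_le_lp (sm S (List.ofFn I)) (sm_wf S 1 hS _)
        have h2 : ∑ k, (if I k then (if sd k then (1 : ℤ) else -1) else 0) =
            2 * (if sd i then (1 : ℤ) else -1) := by
          rw [← Finset.sum_filter, hset, Finset.sum_pair hne, ← hij]
          ring
        rw [hrot I, h2] at h1
        by_cases hs : sd i = true
        · rw [if_pos hs] at h1
          norm_num at h1
          omega
        · rw [if_neg hs] at h1
          norm_num at h1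
          omega
      obtain ⟨d, hd, hd0⟩ := hall I (by rw [hcardI]; exact hlp) (Pi.single j 1) (by
        intro k hk
        have hkj : k ≠ j := by
          rintro rfl
          simp [hI] at hk
        exact Pi.single_eq_of_ne hkj _)
      rw [fe_uniq hA hn (hcolLB j) hd]
      exact hd0 i (by simp [hI])
  · -- (7)
    intro I
    rw [count_lb S hS hA n hn I]
    congr 1
    ext x
    rw [Finset.mem_filter, Finset.mem_filter]
    refine and_congr_right fun _ => and_congr_right fun _ => ?_
    constructor
    · rintro ⟨d, hd, hd0⟩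
      rw [← fe_uniq hA hn hd (hLB x)]
      exact hd0
    · intro h
      exact ⟨_, hLB x, h⟩

end Pool.Agent.EVT
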