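import Pool.Agent.EVT.FINb
import Pool.Agent.Helper77.ST.PDiff
import Pool.Agent.Helper77.ST.PPoly
import Pool.Agent.Helper77.ST.PNoe

/-!
# Evenly twisted knots: the theorem
-/

namespace Pool.Agent.EVT

open Finset
open Pool.Agent.Helper9.Kashaev (Piece Diagram)
open Pool.Agent.Helper9.FA (Item twists labels wfP)
open Pool.Agent.Helper77.ST (IsKnot tw IsVassiliev poly_of_diff tw_diff exists_finite_eqs)
open Pool.Agent.Helper77.CR (Red)

/-- the coefficients are polynomials in the numbers of full twists -/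
theorem vi_poly (N : ℕ) [NeZero N] (j : ℕ) (S : List (Item Unit)) (hS : wfP 1 S 1) :
    ∃ p : MvPolynomial (Fin (labels S).length) ℚ, ∀ y : Fin (labels S).length → ℤ,
      VI N j (tw S (dbl2 (List.ofFn y))) = MvPolynomial.eval (fun i => (y i : ℚ)) p := by
  apply poly_of_diff (fun y : Fin (labels S).length → ℤ => VI N j (tw S (dbl2 (List.ofFn y)))) j
  intro y i
  have h := tw_diff (VI N j) j (fun D D' h => vi_isotopic N j h) (fun D S => vi_alt N j D S) S hS
    (fun i => 2 * y i) i
  rw [← h]
  apply sum_congr rfl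
  intro k _
  congr 3
  simp only [dbl2, List.map_ofFn]
  congr 1
  funext i'
  by_cases hi : i' = i
  · subst hi
    simp only [Function.comp, Function.update_self]
    ring
  · simp only [Function.comp, Function.update_of_ne hi]

theorem mono {d e : ℕ} {I : Diagram → ℚ} (h : IsVassiliev d I) (hde : d ≤ e) :
    IsVassiliev e I where
  inv := h.inv
  fin := fun S h1 h2 => h.fin S h1 (hde.trans_lt h2)

/-- knots with even numbers of crossings in all twist regions -/
theorem main (S : List (Item Unit)) (hS : wfP 1 S 1) (hR : Red S) (hne : labels S ≠ []) :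
    ∃ d : ℕ, ∀ a : List ℤ, a.length = (labels S).length → (∀ x ∈ a, Even x ∧ x ≠ 0) →
      ((∃ (s : Bool) (e : ℤ), ∀ z ∈ (sides S).zip a, z.1 = s → 0 < e * z.2) ∨
        (∃ u : Bool → ℕ, ∀ z ∈ (sides S).zip a, ∃ t : ℤ, z.2 = 2 ^ u z.1 * (2 * t + 1))) →
      IsKnot (tw S a) → ∃ I, IsVassiliev d I ∧ I (tw S a) ≠ I [] := by
  set n := (labels S).length with hn
  have hn' : (sides S).length = n := sides_len S
  have h0 : 0 < n := List.length_pos_iff.mpr hne
  choose p hp using fun x : ℕ × ℕ => vi_poly (x.1 + 1) x.2 S hS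
  obtain ⟨F, hF⟩ := exists_finite_eqs (fun x : ℕ × ℕ =>
    p x - MvPolynomial.C (VI (x.1 + 1) x.2 []))
  refine ⟨F.sup Prod.snd, fun a hal hev hV hK => ?_⟩
  -- the numbers of full twists
  have hi1 : ∀ i : Fin n, (i : ℕ) < a.length := fun i => by rw [hal]; exact i.2
  have hi2 : ∀ i : Fin n, (i : ℕ) < (sides S).length := fun i => by rw [hn']; exact i.2
  set k : Fin n → ℤ := fun i => (a[(i : ℕ)]'(hi1 i)) / 2 with hk
  have hak : ∀ i : Fin n, a[(i : ℕ)]'(hi1 i) = 2 * k i := by
    intro i
    have h3 := (hev _ (List.getElem_mem (hi1 i))).1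
    simp only [hk]
    rw [Int.mul_ediv_cancel' h3.two_dvd]
  have hk0 : ∀ i, k i ≠ 0 := by
    intro i h3
    apply (hev _ (List.getElem_mem (hi1 i))).2
    rw [hak, h3, mul_zero]
  have ha : a = dbl2 (List.ofFn k) := by
    apply List.ext_getElem
    · simp [dbl2, hal]
    · intro i h2 h3
      have h4 : i < n := by rw [← hal]; exact h2
      have h5 := hak ⟨i, h4⟩
      simp only [dbl2, List.getElem_map, List.getElem_ofFn]
      exact h5
  have hmem : ∀ i : Fin n, (sdf S hn' i, 2 * k i) ∈ (sides S).zip a := by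
    intro i
    rw [← hak i, List.mem_iff_getElem]
    refine ⟨i, ?_, ?_⟩
    · rw [List.length_zip]
      exact lt_min (hi2 i) (hi1 i)
    · rw [List.getElem_zip]
      rfl
  have key : ∃ N j : ℕ, VI (N + 1) j (tw S (dbl2 (List.ofFn k))) ≠ VI (N + 1) j [] := by
    have hK' : IsKnot (tw S (dbl2 (List.ofFn k))) := by rw [← ha]; exact hK
    rcases hV with ⟨s, e, hs⟩ | ⟨u, hu⟩
    · rcases le_or_gt e 0 with he | he
      · refine exists_VI_sign S hS hR h0 hn' s 1 (Or.inl rfl) k hk0 ?_ hK'
        intro i hi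
        have h3 := hs _ (hmem i) hi
        simp only at h3
        by_contra hc
        push Not at hc
        nlinarith
      · refine exists_VI_sign S hS hR h0 hn' s (-1) (Or.inr rfl) k hk0 ?_ hK'
        intro i hi
        have h3 := hs _ (hmem i) hi
        simp only at h3
        by_contra hc
        push Not at hc
        nlinarith
    · choose t ht using fun i : Fin n => hu _ (hmem i)
      simp only at ht
      refine exists_VI S hS hR h0 hn' (fun s => u s - 1) k t ?_ hK'
      intro i
      have h3 := ht i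
      have h4 : 1 ≤ u (sdf S hn' i) := by
        by_contra hc
        have h5 : u (sdf S hn' i) = 0 := by omega
        rw [h5, pow_zero, one_mul] at h3
        omega
      have h5 : (2 : ℤ) ^ u (sdf S hn' i) = 2 * 2 ^ (u (sdf S hn' i) - 1) := by
        rw [← pow_succ']
        congr 1
        omega
      rw [h5, mul_assoc] at h3
      exact mul_left_cancel₀ two_ne_zero h3
  by_contra hcon
  push Not at hcon
  rw [ha] at hcon
  obtain ⟨N, j, hNj⟩ := key
  apply hNj
  have h2 := hF (fun i => (k i : ℚ)) (by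
    intro x hx
    rw [map_sub, MvPolynomial.eval_C, ← hp, sub_eq_zero]
    exact hcon _ (mono (vi_vassiliev (x.1 + 1) x.2) (Finset.le_sup (f := Prod.snd) hx))) (N, j)
  rw [map_sub, MvPolynomial.eval_C, ← hp, sub_eq_zero] at h2
  exact h2

end Pool.Agent.EVT
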