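import Pool.Agent.EVT.NB
import Mathlib.Analysis.Complex.Basic
import Mathlib.Analysis.SpecialFunctions.Complex.Circle

/-!
# EVT module NC: evaluation at a root of unity

Let `R s x = spS M sd s w` with the weights `w i true = 1 - x ^ k i`, `w i false = x ^ k i`, for real `x > 1`.

* Polynomials over `ℂ`: `P s = spS M sd s W` with `W i true = X ^ (-k i).toNat - X ^ (k i).toNat`,
  `W i false = X ^ (k i).toNat`.  For real `x ≠ 0`: `(P s).eval x = (∏ x ^ (-k i).toNat) * R s x` (`spS_map`
  for the evaluation, `spS_mul`, `spS_congr`; `x ^ (k.toNat) = x ^ ((-k).toNat) * x ^ k`).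
* If `R true x * R false x = 0` for all `x > 1` then `P true * P false` has infinitely many zeros, so it is
  zero, so `P s = 0` for one `s` (`ℂ[X]` is a domain).
* Let `k i = 2 ^ u * (2 t i + 1)` for all `i` at this side `s`, and let `ζ = exp (π I / 2 ^ u)`, so `ζ ≠ 0`,
  `ζ ^ (2 ^ u) = -1`, `ζ ^ k i = (-1) ^ (2 t i + 1) = -1` (integral power), so
  `(W i true)(ζ) = ζ ^ (-k i).toNat * 2`, `(W i false)(ζ) = ζ ^ (-k i).toNat * (-1)`, and by `spS_mul`
  `(P s).eval ζ` is a non-zero number times the image of the integer `spS M sd s (2, -1)`, which is not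
  zero by hypothesis (`spS_map` for `Int.castRingHom ℂ`).
-/

namespace Pool.Agent.EVT

open Finset

variable {n : ℕ}

/-- the weights as polynomials -/
private noncomputable def Wp (k : Fin n → ℤ) (i : Fin n) (b : Bool) : Polynomial ℂ :=
  if b = true then Polynomial.X ^ (-k i).toNat - Polynomial.X ^ (k i).toNat
  else Polynomial.X ^ (k i).toNat

/-- evaluation -/
private theorem eval_spS (M : Matrix (Fin n) (Fin n) (ZMod 2)) (sd : Fin n → Bool) (s : Bool)
    (k : Fin n → ℤ) (z : ℂ) (hz : z ≠ 0) (w : Fin n → Bool → ℂ)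
    (h1 : ∀ i, sd i = s → w i true = 1 - z ^ k i) (h2 : ∀ i, sd i = s → w i false = z ^ k i) :
    (spS M sd s (Wp k)).eval z = (∏ i ∈ Vs sd s, z ^ (-k i).toNat) * spS M sd s w := by
  have e1 : (spS M sd s (Wp k)).eval z = Polynomial.evalRingHom z (spS M sd s (Wp k)) := rfl
  rw [e1, spS_map, ← spS_mul]
  refine spS_congr M sd s fun i hi b => ?_
  have e2 : z ^ (k i).toNat = z ^ (-k i).toNat * z ^ k i := by
    rw [← zpow_natCast, ← zpow_natCast, ← zpow_add₀ hz]
    congr 1
    have := Int.toNat_sub_toNat_neg (k i)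
    omega
  rw [Polynomial.coe_evalRingHom]
  cases b
  · rw [h2 i hi]
    show Polynomial.eval z (Polynomial.X ^ (k i).toNat) = _
    rw [Polynomial.eval_pow, Polynomial.eval_X, e2]
  · rw [h1 i hi]
    show Polynomial.eval z (Polynomial.X ^ (-k i).toNat - Polynomial.X ^ (k i).toNat) = _
    rw [Polynomial.eval_sub, Polynomial.eval_pow, Polynomial.eval_pow, Polynomial.eval_X, e2]
    ring

/-- no two such sums have product zero for all `x > 1` -/
theorem no_zero (M : Matrix (Fin n) (Fin n) (ZMod 2)) (sd : Fin n → Bool)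
    (hM : ∀ s, spS M sd s (fun _ b => if b = true then (2 : ℤ) else -1) ≠ 0)
    (u : Bool → ℕ) (k t : Fin n → ℤ) (hk : ∀ i, k i = 2 ^ u (sd i) * (2 * t i + 1))
    (h : ∀ x : ℝ, 1 < x →
      spS M sd true (fun i b => if b = true then 1 - x ^ k i else x ^ k i) *
        spS M sd false (fun i b => if b = true then 1 - x ^ k i else x ^ k i) = 0) : False := by
  -- the product of the polynomials vanishes
  have hev : ∀ (s : Bool) (x : ℝ), 1 < x → (spS M sd s (Wp k)).eval (x : ℂ) =
      (∏ i ∈ Vs sd s, (x : ℂ) ^ (-k i).toNat) *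
        ((spS M sd s (fun i b => if b = true then 1 - x ^ k i else x ^ k i) : ℝ) : ℂ) := by
    intro s x hx
    have hx0 : (x : ℂ) ≠ 0 := by
      rw [Ne, Complex.ofReal_eq_zero]
      linarith
    have e1 : ((spS M sd s (fun i b => if b = true then 1 - x ^ k i else x ^ k i) : ℝ) : ℂ) =
        spS M sd s (fun i b => ((if b = true then 1 - x ^ k i else x ^ k i : ℝ) : ℂ)) :=
      spS_map Complex.ofRealHom M sd s _
    rw [e1]
    refine eval_spS M sd s k x hx0 _ (fun i _ => ?_) (fun i _ => ?_)
    · rw [if_pos rfl]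
      push_cast
      rfl
    · rw [if_neg (by decide)]
      push_cast
      rfl
  have hprod : spS M sd true (Wp k) * spS M sd false (Wp k) = 0 := by
    apply Polynomial.eq_zero_of_infinite_isRoot
    refine Set.Infinite.mono (s := (fun x : ℝ => (x : ℂ)) '' Set.Ioi 1) ?_ ?_
    · rintro _ ⟨x, hx, rfl⟩
      show ((spS M sd true (Wp k) * spS M sd false (Wp k))).eval (x : ℂ) = 0
      rw [Polynomial.eval_mul, hev true x hx, hev false x hx]
      have h3 := h x hx
      have h4 : ((spS M sd true (fun i b => if b = true then 1 - x ^ k i else x ^ k i) : ℝ) : ℂ) *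
          ((spS M sd false (fun i b => if b = true then 1 - x ^ k i else x ^ k i) : ℝ) : ℂ) = 0 := by
        rw [← Complex.ofReal_mul, h3, Complex.ofReal_zero]
      rw [mul_mul_mul_comm, h4, mul_zero]
    · exact (Set.Ioi_infinite (1 : ℝ)).image (Complex.ofReal_injective.injOn)
  obtain ⟨s, hs⟩ : ∃ s, spS M sd s (Wp k) = 0 := by
    rcases mul_eq_zero.1 hprod with h3 | h3
    · exact ⟨true, h3⟩
    · exact ⟨false, h3⟩
  -- evaluation at the root of unity
  set z : ℂ := Complex.exp (Real.pi * Complex.I / 2 ^ u s) with hz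
  have hz0 : z ≠ 0 := Complex.exp_ne_zero _
  have hz1 : z ^ (2 ^ u s) = -1 := by
    rw [hz, ← Complex.exp_nat_mul]
    have : ((2 ^ u s : ℕ) : ℂ) * (Real.pi * Complex.I / 2 ^ u s) = Real.pi * Complex.I := by
      push_cast
      field_simp
    rw [this, Complex.exp_pi_mul_I]
  have hzk : ∀ i, sd i = s → z ^ k i = -1 := by
    intro i hi
    rw [hk i, hi, zpow_mul]
    have e1 : z ^ ((2 : ℤ) ^ u s) = -1 := by
      have : ((2 : ℤ) ^ u s) = ((2 ^ u s : ℕ) : ℤ) := by push_cast; rfl
      rw [this, zpow_natCast, hz1]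
    rw [e1]
    exact Odd.neg_one_zpow ⟨t i, rfl⟩
  have h5 := eval_spS M sd s k z hz0 (fun _ b => if b = true then (2 : ℂ) else -1)
    (fun i hi => by rw [hzk i hi, if_pos rfl]; norm_num)
    (fun i hi => by rw [hzk i hi, if_neg (by decide)])
  rw [hs, Polynomial.eval_zero] at h5
  have h6 : spS M sd s (fun _ b => if b = true then (2 : ℂ) else -1) =
      ((spS M sd s (fun _ b => if b = true then (2 : ℤ) else -1) : ℤ) : ℂ) := by
    have e1 := spS_map (Int.castRingHom ℂ) M sd s (fun _ b => if b = true then (2 : ℤ) else -1)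
    refine Eq.trans ?_ e1.symm
    refine spS_congr M sd s fun i _ b => ?_
    cases b <;> simp
  rw [h6] at h5
  rcases mul_eq_zero.1 h5.symm with h7 | h7
  · rw [Finset.prod_eq_zero_iff] at h7
    obtain ⟨i, _, h8⟩ := h7
    exact pow_ne_zero _ hz0 h8
  · rw [Int.cast_eq_zero] at h7
    exact hM s h7

end Pool.Agent.EVT
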