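import Pool.Agent.EVT.Defs3

/-!
# EVT module RA: the rank of a part of a symmetric bipartite matrix

Let `P i j = M i j` for `i ∈ I` at the side `true` and `j ∈ I` at the side `false`, else `0`
(so `rkI M sd I = P.rank`).
* For `x` supported on `I`: `(M x) i = 0` for all `i ∈ I` iff `P x = 0` and `Pᵀ x = 0` (by `h1`, `h2`, the row
  `i ∈ I` at the side `true` of `M` restricted to `I` is the row `i` of `P`, the row `i ∈ I` at the side
  `false` restricted to `I` is the row `i` of `Pᵀ`), and then `x = x₀ + x₁` with `x₀` supported on `I`, side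
  `true`, `x₁` on `I`, side `false`; `P x = P x₁`, `Pᵀ x = Pᵀ x₀`.
* So the space is the product of the kernel of `P` on the functions supported on `I ∩ false` and of
  the kernel of `Pᵀ` on those supported on `I ∩ true`; dimensions `#(I ∩ false) - P.rank` and
  `#(I ∩ true) - Pᵀ.rank` (rank-nullity; `Matrix.rank_transpose`; the range of `P` on all functions is the
  range on the functions supported on `I ∩ false`).
* Alternatively: the linear map `x ↦ (P + Pᵀ) x` on the functions supported on `I`; the matrix `P + Pᵀ` has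
  rank `2 * P.rank`.
* `Module.card_eq_pow_finrank` (`Fintype.card (ZMod 2) = 2`).
`rk_add`: the count `2 ^ c * 4 ^ r = 2 ^ #I` in the form `c + 2 r = #I`.
-/

namespace Pool.Agent.EVT

open Finset

/-- extension by zero -/
private def ext0 {n : ℕ} (I : Fin n → Bool) :
    ({i : Fin n // I i = true} → ZMod 2) →ₗ[ZMod 2] (Fin n → ZMod 2) where
  toFun x i := if h : I i = true then x ⟨i, h⟩ else 0
  map_add' x y := by
    funext i
    rw [Pi.add_apply]
    split_ifs
    · rfl
    · rw [add_zero]
  map_smul' c x := by
    funext i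
    rw [Pi.smul_apply]
    split_ifs
    · rfl
    · rw [smul_zero]

private theorem ext0_apply {n : ℕ} (I : Fin n → Bool) (x : {i : Fin n // I i = true} → ZMod 2)
    (i : Fin n) : ext0 I x i = if h : I i = true then x ⟨i, h⟩ else 0 := rfl

/-- the part of the matrix -/
private def Pm {n : ℕ} (M : Matrix (Fin n) (Fin n) (ZMod 2)) (sd I : Fin n → Bool) :
    Matrix (Fin n) (Fin n) (ZMod 2) :=
  Matrix.of fun i j => if I i = true ∧ sd i = true ∧ I j = true ∧ sd j = false then M i j else 0

private theorem mv {n : ℕ} (A : Matrix (Fin n) (Fin n) (ZMod 2)) (x : Fin n → ZMod 2) (i : Fin n) :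
    A.mulVec x i = ∑ j, A i j * x j := rfl

private theorem Pm_apply {n : ℕ} (M : Matrix (Fin n) (Fin n) (ZMod 2)) (sd I : Fin n → Bool)
    (i j : Fin n) : Pm M sd I i j =
      if I i = true ∧ sd i = true ∧ I j = true ∧ sd j = false then M i j else 0 := rfl

theorem card_ker {n : ℕ} (M : Matrix (Fin n) (Fin n) (ZMod 2)) (sd : Fin n → Bool)
    (h1 : ∀ i j, M i j = M j i) (h2 : ∀ i j, sd i = sd j → M i j = 0) (I : Fin n → Bool) :
    (univ.filter fun x : Fin n → ZMod 2 => (∀ i, I i = false → x i = 0) ∧
      ∀ i, I i = true → M.mulVec x i = 0).card * 4 ^ rkI M sd I =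
        2 ^ (univ.filter fun i => I i = true).card := by
  classical
  set P := Pm M sd I with hP
  have hrk : rkI M sd I = P.rank := rfl
  set f1 : ({i : Fin n // I i = true} → ZMod 2) →ₗ[ZMod 2] (Fin n → ZMod 2) :=
    P.mulVecLin ∘ₗ ext0 I with hf1
  set f2 : ({i : Fin n // I i = true} → ZMod 2) →ₗ[ZMod 2] (Fin n → ZMod 2) :=
    P.transpose.mulVecLin ∘ₗ ext0 I with hf2
  have m1 : ∀ x, f1 x ∈ LinearMap.range P.mulVecLin := fun x => ⟨ext0 I x, rfl⟩
  have m2 : ∀ x, f2 x ∈ LinearMap.range P.transpose.mulVecLin := fun x => ⟨ext0 I x, rfl⟩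
  set g : ({i : Fin n // I i = true} → ZMod 2) →ₗ[ZMod 2]
      (LinearMap.range P.mulVecLin × LinearMap.range P.transpose.mulVecLin) :=
    (f1.codRestrict _ m1).prod (f2.codRestrict _ m2) with hg
  have hsurj : Function.Surjective g := by
    rintro ⟨⟨_, a, rfl⟩, ⟨_, b, rfl⟩⟩
    refine ⟨fun i => if sd i.1 = false then a i.1 else b i.1, ?_⟩
    apply Prod.ext
    · apply Subtype.ext
      show P.mulVec (ext0 I _) = P.mulVec a
      funext i
      rw [mv, mv]
      refine sum_congr rfl fun j _ => ?_
      rw [hP, Pm_apply]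
      by_cases hc : I i = true ∧ sd i = true ∧ I j = true ∧ sd j = false
      · rw [ext0_apply, dif_pos hc.2.2.1, if_pos hc.2.2.2]
      · rw [if_neg hc, zero_mul, zero_mul]
    · apply Subtype.ext
      show P.transpose.mulVec (ext0 I _) = P.transpose.mulVec b
      funext i
      rw [mv, mv]
      refine sum_congr rfl fun j _ => ?_
      rw [Matrix.transpose_apply, hP, Pm_apply]
      by_cases hc : I j = true ∧ sd j = true ∧ I i = true ∧ sd i = false
      · have hs : ¬ sd j = false := by rw [hc.2.1]; decide
        rw [ext0_apply, dif_pos hc.1]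
        simp only [if_neg hs]
      · rw [if_neg hc, zero_mul, zero_mul]
  have hdim := LinearMap.finrank_range_add_finrank_ker g
  rw [LinearMap.range_eq_top.2 hsurj, finrank_top, Module.finrank_prod,
    Module.finrank_fintype_fun_eq_card] at hdim
  have r1 : Module.finrank (ZMod 2) (LinearMap.range P.mulVecLin) = rkI M sd I := rfl
  have r2 : Module.finrank (ZMod 2) (LinearMap.range P.transpose.mulVecLin) = rkI M sd I := by
    rw [hrk]
    exact Matrix.rank_transpose P
  rw [r1, r2, Fintype.card_subtype] at hdim
  -- the kernel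
  have hker : (univ.filter fun x : Fin n → ZMod 2 => (∀ i, I i = false → x i = 0) ∧
      ∀ i, I i = true → M.mulVec x i = 0) =
      (univ : Finset (LinearMap.ker g)).image fun y => ext0 I y.1 := by
    have key : ∀ y : {i : Fin n // I i = true} → ZMod 2, g y = 0 ↔
        ∀ i, I i = true → M.mulVec (ext0 I y) i = 0 := by
      intro y
      have e1 : g y = 0 ↔ P.mulVec (ext0 I y) = 0 ∧ P.transpose.mulVec (ext0 I y) = 0 := by
        constructor
        · intro h
          exact ⟨congrArg Subtype.val (congrArg Prod.fst h),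
            congrArg Subtype.val (congrArg Prod.snd h)⟩
        · intro h
          exact Prod.ext (Subtype.ext h.1) (Subtype.ext h.2)
      have hz : ∀ j, I j = false → ext0 I y j = 0 := by
        intro j hj
        rw [ext0_apply, dif_neg (by rw [hj]; decide)]
      have e2 : ∀ i, I i = true → sd i = true →
          M.mulVec (ext0 I y) i = P.mulVec (ext0 I y) i := by
        intro i hi hsi
        rw [mv, mv]
        refine sum_congr rfl fun j _ => ?_
        rw [hP, Pm_apply]
        cases hj : I j
        · rw [hz j hj, mul_zero, mul_zero]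
        · cases hsj : sd j
          · rw [if_pos ⟨hi, hsi, rfl, rfl⟩]
          · rw [h2 i j (by rw [hsi, hsj]), zero_mul, if_neg (by simp), zero_mul]
      have e3 : ∀ i, I i = true → sd i = false →
          M.mulVec (ext0 I y) i = P.transpose.mulVec (ext0 I y) i := by
        intro i hi hsi
        rw [mv, mv]
        refine sum_congr rfl fun j _ => ?_
        rw [Matrix.transpose_apply, hP, Pm_apply]
        cases hj : I j
        · rw [hz j hj, mul_zero, mul_zero]
        · cases hsj : sd j
          · rw [h2 i j (by rw [hsi, hsj]), zero_mul, if_neg (by simp), zero_mul]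
          · rw [if_pos ⟨rfl, rfl, hi, hsi⟩, h1 i j]
      have e4 : ∀ i, ¬ (I i = true ∧ sd i = true) → P.mulVec (ext0 I y) i = 0 := by
        intro i hi
        rw [mv]
        refine sum_eq_zero fun j _ => ?_
        rw [hP, Pm_apply, if_neg (fun hc => hi ⟨hc.1, hc.2.1⟩), zero_mul]
      have e5 : ∀ i, ¬ (I i = true ∧ sd i = false) → P.transpose.mulVec (ext0 I y) i = 0 := by
        intro i hi
        rw [mv]
        refine sum_eq_zero fun j _ => ?_
        rw [Matrix.transpose_apply, hP, Pm_apply, if_neg (fun hc => hi ⟨hc.2.2.1, hc.2.2.2⟩),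
          zero_mul]
      rw [e1]
      constructor
      · rintro ⟨ha, hb⟩ i hi
        cases hsi : sd i
        · rw [e3 i hi hsi, hb, Pi.zero_apply]
        · rw [e2 i hi hsi, ha, Pi.zero_apply]
      · intro h
        constructor
        · funext i
          by_cases hi : I i = true ∧ sd i = true
          · rw [← e2 i hi.1 hi.2, h i hi.1, Pi.zero_apply]
          · rw [e4 i hi, Pi.zero_apply]
        · funext i
          by_cases hi : I i = true ∧ sd i = false
          · rw [← e3 i hi.1 hi.2, h i hi.1, Pi.zero_apply]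
          · rw [e5 i hi, Pi.zero_apply]
    ext x
    rw [mem_filter, mem_image]
    constructor
    · rintro ⟨-, hx1, hx2⟩
      have hx : ext0 I (fun i => x i.1) = x := by
        funext i
        rw [ext0_apply]
        by_cases hi : I i = true
        · rw [dif_pos hi]
        · rw [dif_neg hi, hx1 i (by simpa using hi)]
      refine ⟨⟨fun i => x i.1, ?_⟩, mem_univ _, hx⟩
      rw [LinearMap.mem_ker, key, hx]
      exact hx2
    · rintro ⟨⟨y, hy⟩, -, rfl⟩
      rw [LinearMap.mem_ker, key] at hy
      refine ⟨mem_univ _, fun i hi => ?_, hy⟩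
      rw [ext0_apply, dif_neg (by rw [hi]; decide)]
  have hinj : Function.Injective fun y : LinearMap.ker g => ext0 I y.1 := by
    intro y z hyz
    apply Subtype.ext
    funext i
    have := congrFun hyz i.1
    simp only [ext0_apply] at this
    rwa [dif_pos i.2, dif_pos i.2] at this
  rw [hker, card_image_of_injective _ hinj, card_univ,
    Module.card_eq_pow_finrank (K := ZMod 2) (V := LinearMap.ker g), ZMod.card, ← hdim]
  have h4 : (4 : ℕ) = 2 ^ 2 := by norm_num
  rw [h4, ← pow_mul, ← pow_add]
  congr 1
  omega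

theorem rk_add {n : ℕ} (M : Matrix (Fin n) (Fin n) (ZMod 2)) (sd : Fin n → Bool)
    (h1 : ∀ i j, M i j = M j i) (h2 : ∀ i j, sd i = sd j → M i j = 0) (I : Fin n → Bool) (c : ℕ)
    (hc : 2 ^ c = (univ.filter fun x : Fin n → ZMod 2 => (∀ i, I i = false → x i = 0) ∧
      ∀ i, I i = true → M.mulVec x i = 0).card) :
    c + 2 * rkI M sd I = (univ.filter fun i => I i = true).card := by
  have h := card_ker M sd h1 h2 I
  rw [← hc] at h
  have h4 : (4 : ℕ) = 2 ^ 2 := by norm_num
  rw [h4, ← pow_mul, ← pow_add] at h
  exact Nat.pow_right_injective le_rfl h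

end Pool.Agent.EVT
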