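import Pool.Agent.EVT.Defs3

/-!
# EVT module RB: parts of maximal rank

Let `P_I` be the matrix in the definition of `rkI M sd I`, and `P = P_univ` (rows at the side `true`,
columns at the side `false`).  By `h1`, `h2` the rows `M i` with `sd i = true` are the rows of `P`, and the rows
`M i` with `sd i = false` are the columns of `P` (other rows and columns of `P` are zero).
* `rk_le`: `P_I = D_I P D_I` with diagonal matrices `D_I` (`Matrix.rank_mul_le`), or: `rank` of a part.
* `rk_iff`: let `Q = D_I P` (rows in `I` only).  `rank P_I ≤ rank Q ≤ rank P`.  The row space of `Q` is the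
  span of the rows `M i`, `i ∈ I`, `sd i = true`, a subspace of the row space of `P`, so `rank Q = rank P` iff
  these are equal, i.e. `Spn M sd true I` (`Matrix.rank_eq_finrank_span_row`,
  `Submodule.eq_of_le_of_finrank_eq`).  Similarly `rank P_I ≤ rank (P D_I) ≤ rank P`, and
  `rank (P D_I) = rank P` iff `Spn M sd false I`.  So `rank P_I = rank P` implies both.
  Conversely: if `Spn M sd false I` then every column of `P` is a linear combination of the columns in `I`,
  so every column of `Q = D_I P` is a linear combination of the columns of `P_I = D_I P D_I`, so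
  `rank P_I = rank Q`, and `rank Q = rank P` by `Spn M sd true I`.
-/

namespace Pool.Agent.EVT

open Finset

/-- the part of the matrix -/
private def Pm {n : ℕ} (M : Matrix (Fin n) (Fin n) (ZMod 2)) (sd I : Fin n → Bool) :
    Matrix (Fin n) (Fin n) (ZMod 2) :=
  Matrix.of fun i j => if I i = true ∧ sd i = true ∧ I j = true ∧ sd j = false then M i j else 0

private theorem Pm_apply {n : ℕ} (M : Matrix (Fin n) (Fin n) (ZMod 2)) (sd I : Fin n → Bool)
    (i j : Fin n) : Pm M sd I i j =
      if I i = true ∧ sd i = true ∧ I j = true ∧ sd j = false then M i j else 0 := rfl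

private theorem rk_eq {n : ℕ} (M : Matrix (Fin n) (Fin n) (ZMod 2)) (sd I : Fin n → Bool) :
    rkI M sd I = (Pm M sd I).rank := rfl

/-- the projection -/
private def Dm {n : ℕ} (I : Fin n → Bool) : Matrix (Fin n) (Fin n) (ZMod 2) :=
  Matrix.diagonal fun i => if I i = true then 1 else 0

private abbrev P0 {n : ℕ} (M : Matrix (Fin n) (Fin n) (ZMod 2)) (sd : Fin n → Bool) :
    Matrix (Fin n) (Fin n) (ZMod 2) := Pm M sd fun _ => true

private theorem P0_apply {n : ℕ} (M : Matrix (Fin n) (Fin n) (ZMod 2)) (sd : Fin n → Bool)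
    (i j : Fin n) : P0 M sd i j = if sd i = true ∧ sd j = false then M i j else 0 := by
  unfold P0
  rw [Pm_apply]
  by_cases h : sd i = true ∧ sd j = false
  · rw [if_pos h, if_pos ⟨rfl, h.1, rfl, h.2⟩]
  · rw [if_neg h, if_neg (fun hc => h ⟨hc.2.1, hc.2.2.2⟩)]

private theorem DP_apply {n : ℕ} (A : Matrix (Fin n) (Fin n) (ZMod 2)) (I : Fin n → Bool)
    (i j : Fin n) : (Dm I * A) i j = if I i = true then A i j else 0 := by
  unfold Dm
  rw [Matrix.diagonal_mul]
  split_ifs
  · rw [one_mul]
  · rw [zero_mul]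

private theorem PD_apply {n : ℕ} (A : Matrix (Fin n) (Fin n) (ZMod 2)) (I : Fin n → Bool)
    (i j : Fin n) : (A * Dm I) i j = if I j = true then A i j else 0 := by
  unfold Dm
  rw [Matrix.mul_diagonal]
  split_ifs
  · rw [mul_one]
  · rw [mul_zero]

private theorem Pm_eq {n : ℕ} (M : Matrix (Fin n) (Fin n) (ZMod 2)) (sd I : Fin n → Bool) :
    Pm M sd I = Dm I * P0 M sd * Dm I := by
  ext i j
  rw [PD_apply, DP_apply, P0_apply, Pm_apply]
  by_cases hi : I i = true
  · by_cases hj : I j = true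
    · rw [if_pos hj, if_pos hi]
      by_cases h : sd i = true ∧ sd j = false
      · rw [if_pos h, if_pos ⟨hi, h.1, hj, h.2⟩]
      · rw [if_neg h, if_neg (fun hc => h ⟨hc.2.1, hc.2.2.2⟩)]
    · rw [if_neg hj, if_neg (fun hc => hj hc.2.2.1)]
  · rw [if_neg (fun hc => hi hc.1), if_neg hi]
    split_ifs <;> rfl

theorem rk_le {n : ℕ} (M : Matrix (Fin n) (Fin n) (ZMod 2)) (sd I : Fin n → Bool) :
    rkI M sd I ≤ rkI M sd (fun _ => true) := by
  rw [rk_eq, rk_eq, Pm_eq]
  exact (Matrix.rank_mul_le_left _ _).trans (Matrix.rank_mul_le_right _ _)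

/-- the span of the rows at the side `true` -/
private theorem row_span {n : ℕ} (M : Matrix (Fin n) (Fin n) (ZMod 2)) (sd : Fin n → Bool)
    (h2 : ∀ i j, sd i = sd j → M i j = 0) (I : Fin n → Bool) :
    Submodule.span (ZMod 2) (Set.range (Dm I * P0 M sd).row) =
      Submodule.span (ZMod 2) {x | ∃ i, I i = true ∧ sd i = true ∧ x = M i} := by
  have hrow : ∀ i, (Dm I * P0 M sd).row i = if I i = true ∧ sd i = true then M i else 0 := by
    intro i
    funext j
    show (Dm I * P0 M sd) i j = _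
    rw [DP_apply, P0_apply]
    by_cases hi : I i = true
    · rw [if_pos hi]
      by_cases hs : sd i = true
      · rw [if_pos (show I i = true ∧ sd i = true from ⟨hi, hs⟩)]
        cases hj : sd j
        · rw [if_pos ⟨hs, rfl⟩]
        · rw [if_neg (by simp), h2 i j (by rw [hs, hj])]
      · rw [if_neg (fun hc => hs hc.1), if_neg (fun hc => hs hc.2), Pi.zero_apply]
    · rw [if_neg hi, if_neg (fun hc => hi hc.1), Pi.zero_apply]
  apply le_antisymm
  · rw [Submodule.span_le]
    rintro _ ⟨i, rfl⟩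
    rw [hrow]
    split_ifs with h
    · exact Submodule.subset_span ⟨i, h.1, h.2, rfl⟩
    · exact Submodule.zero_mem _
  · rw [Submodule.span_le]
    rintro _ ⟨i, hi, hs, rfl⟩
    refine Submodule.subset_span ⟨i, ?_⟩
    rw [hrow, if_pos ⟨hi, hs⟩]

/-- the span of the columns -/
private theorem col_span {n : ℕ} (M : Matrix (Fin n) (Fin n) (ZMod 2)) (sd : Fin n → Bool)
    (h1 : ∀ i j, M i j = M j i) (h2 : ∀ i j, sd i = sd j → M i j = 0) (I : Fin n → Bool) :
    Submodule.span (ZMod 2) (Set.range (P0 M sd * Dm I).col) =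
      Submodule.span (ZMod 2) {x | ∃ i, I i = true ∧ sd i = false ∧ x = M i} := by
  have hcol : ∀ j, (P0 M sd * Dm I).col j = if I j = true ∧ sd j = false then M j else 0 := by
    intro j
    funext i
    show (P0 M sd * Dm I) i j = _
    rw [PD_apply, P0_apply]
    by_cases hj : I j = true
    · rw [if_pos hj]
      by_cases hs : sd j = false
      · rw [if_pos (show I j = true ∧ sd j = false from ⟨hj, hs⟩)]
        cases hi : sd i
        · rw [if_neg (by simp), h2 j i (by rw [hs, hi])]
        · rw [if_pos ⟨rfl, hs⟩, h1]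
      · rw [if_neg (fun hc => hs hc.2), if_neg (fun hc => hs hc.2), Pi.zero_apply]
    · rw [if_neg hj, if_neg (fun hc => hj hc.1), Pi.zero_apply]
  apply le_antisymm
  · rw [Submodule.span_le]
    rintro _ ⟨i, rfl⟩
    rw [hcol]
    split_ifs with h
    · exact Submodule.subset_span ⟨i, h.1, h.2, rfl⟩
    · exact Submodule.zero_mem _
  · rw [Submodule.span_le]
    rintro _ ⟨i, hi, hs, rfl⟩
    refine Submodule.subset_span ⟨i, ?_⟩
    rw [hcol, if_pos ⟨hi, hs⟩]

private theorem Dm_one {n : ℕ} : Dm (fun _ : Fin n => true) = 1 := by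
  unfold Dm
  simp

private theorem all_true {n : ℕ} (M : Matrix (Fin n) (Fin n) (ZMod 2)) (sd : Fin n → Bool)
    (s : Bool) : {x | ∃ i : Fin n, (fun _ : Fin n => true) i = true ∧ sd i = s ∧ x = M i} =
      {x | ∃ i, sd i = s ∧ x = M i} := by
  ext x
  simp

private theorem rk_row {n : ℕ} (M : Matrix (Fin n) (Fin n) (ZMod 2)) (sd : Fin n → Bool)
    (h2 : ∀ i j, sd i = sd j → M i j = 0) (I : Fin n → Bool) :
    (Dm I * P0 M sd).rank = (P0 M sd).rank ↔ Spn M sd true I := by
  have e1 := row_span M sd h2 I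
  have e2 := row_span M sd h2 fun _ => true
  rw [Dm_one, one_mul, all_true] at e2
  unfold Spn
  rw [Matrix.rank_eq_finrank_span_row, Matrix.rank_eq_finrank_span_row, e1, e2]
  constructor
  · intro h
    refine Submodule.eq_of_le_of_finrank_eq (Submodule.span_mono ?_) h
    rintro x ⟨i, _, hs, rfl⟩
    exact ⟨i, hs, rfl⟩
  · intro h
    rw [h]

private theorem rk_col {n : ℕ} (M : Matrix (Fin n) (Fin n) (ZMod 2)) (sd : Fin n → Bool)
    (h1 : ∀ i j, M i j = M j i) (h2 : ∀ i j, sd i = sd j → M i j = 0) (I : Fin n → Bool) :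
    (P0 M sd * Dm I).rank = (P0 M sd).rank ↔ Spn M sd false I := by
  have e1 := col_span M sd h1 h2 I
  have e2 := col_span M sd h1 h2 fun _ => true
  rw [Dm_one, mul_one, all_true] at e2
  unfold Spn
  rw [Matrix.rank_eq_finrank_span_cols, Matrix.rank_eq_finrank_span_cols, e1, e2]
  constructor
  · intro h
    refine Submodule.eq_of_le_of_finrank_eq (Submodule.span_mono ?_) h
    rintro x ⟨i, _, hs, rfl⟩
    exact ⟨i, hs, rfl⟩
  · intro h
    rw [h]

theorem rk_iff {n : ℕ} (M : Matrix (Fin n) (Fin n) (ZMod 2)) (sd : Fin n → Bool)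
    (h1 : ∀ i j, M i j = M j i) (h2 : ∀ i j, sd i = sd j → M i j = 0) (I : Fin n → Bool) :
    rkI M sd I = rkI M sd (fun _ => true) ↔ Spn M sd true I ∧ Spn M sd false I := by
  rw [rk_eq, rk_eq, Pm_eq]
  show (Dm I * P0 M sd * Dm I).rank = (P0 M sd).rank ↔ _
  have a1 : (Dm I * P0 M sd * Dm I).rank ≤ (Dm I * P0 M sd).rank := Matrix.rank_mul_le_left _ _
  have a2 : (Dm I * P0 M sd).rank ≤ (P0 M sd).rank := Matrix.rank_mul_le_right _ _
  have a3 : (Dm I * P0 M sd * Dm I).rank ≤ (P0 M sd * Dm I).rank := by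
    rw [Matrix.mul_assoc]
    exact Matrix.rank_mul_le_right _ _
  have a4 : (P0 M sd * Dm I).rank ≤ (P0 M sd).rank := Matrix.rank_mul_le_left _ _
  rw [← rk_row M sd h2 I, ← rk_col M sd h1 h2 I]
  constructor
  · intro h
    constructor <;> omega
  · rintro ⟨h3, h4⟩
    have h5 := (rk_col M sd h1 h2 I).1 h4
    have e1 := col_span M sd h1 h2 I
    have e2 := col_span M sd h1 h2 fun _ => true
    rw [Dm_one, mul_one, all_true] at e2
    unfold Spn at h5
    rw [← e1, ← e2, ← Matrix.range_mulVecLin, ← Matrix.range_mulVecLin] at h5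
    rw [← h3, Matrix.mul_assoc]
    show Module.finrank (ZMod 2) (LinearMap.range (Dm I * (P0 M sd * Dm I)).mulVecLin) =
      Module.finrank (ZMod 2) (LinearMap.range (Dm I * P0 M sd).mulVecLin)
    rw [Matrix.mulVecLin_mul (Dm I) (P0 M sd * Dm I), Matrix.mulVecLin_mul (Dm I) (P0 M sd),
      LinearMap.range_comp, LinearMap.range_comp, h5]

theorem rk_pos {n : ℕ} (M : Matrix (Fin n) (Fin n) (ZMod 2)) (sd : Fin n → Bool)
    (h1 : ∀ i j, M i j = M j i) (h2 : ∀ i j, sd i = sd j → M i j = 0) {i j : Fin n}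
    (h : M i j ≠ 0) : 0 < rkI M sd (fun _ => true) := by
  rw [rk_eq]
  by_contra hc
  have h0 : (P0 M sd).rank = 0 := by
    have : ¬ 0 < (P0 M sd).rank := hc
    omega
  rw [Matrix.rank_eq_finrank_span_row, Submodule.finrank_eq_zero, Submodule.span_eq_bot] at h0
  have hz : ∀ a b, sd a = true → sd b = false → M a b = 0 := by
    intro a b ha hb
    have h3 := congrFun (h0 ((P0 M sd).row a) ⟨a, rfl⟩) b
    have h4 : (P0 M sd) a b = 0 := h3
    rwa [P0_apply, if_pos ⟨ha, hb⟩] at h4
  cases hi : sd i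
  · cases hj : sd j
    · exact h (h2 i j (by rw [hi, hj]))
    · exact h (by rw [h1]; exact hz j i hj hi)
  · cases hj : sd j
    · exact h (hz i j hi hj)
    · exact h (h2 i j (by rw [hi, hj]))

end Pool.Agent.EVT
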