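import Pool.Agent.EVT.Defs
import Pool.Agent.Helper77.CR.Defs2

/-!
# EVT module RD: twist-reduced patterns have no labelling with at most two jumps

* `wfS_of`, `sides_len`: `wfP` (in `Helper9/FA/ZDefs.lean`) and `labels` by induction on `S`.
* `lb_lab`: induction on the labelling, `r x` is the real number `0` or `1` for `x : ZMod 2`.  A vertex
  with jump `0`: `s = t`, `Lab.box`; with jump `1`: `smo` replaces it by a maximum below a minimum:
  `Lab.cap` (label `s`) below `Lab.cup` (label `s + 1`).  If all labels at the maxima are `0` then all labels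
  above a piece are `0` (induction), so all labels below it; at a vertex with jump `1` both
  `s = 0` and `s + 1 = 0`, which is impossible.
* `red_lb`: `Red S` for the list `b.map (fun x => if x = 0 then none else some true)`, which contains
  `some true` at most twice and `some false` never, says `Conn (smo .. S)`, so all labels at the maxima
  are `0`.
-/

namespace Pool.Agent.EVT

open Finset
open Pool.Agent.Helper9.FA (Item labels wfP)
open Pool.Agent.Helper9.TW (Lab Conn)
open Pool.Agent.Helper77.CR (smo Red)

theorem wfS_of {n m : ℕ} {S : List (Item Unit)} (h : wfP n S m) : wfS n S m := by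
  induction S generalizing n with
  | nil => exact h
  | cons a S ih =>
    cases a with
    | cup k => exact ⟨h.1, ih h.2⟩
    | cap k => exact ⟨h.1, ih h.2⟩
    | box k a => exact ⟨h.1, ih h.2⟩

theorem sides_len (S : List (Item Unit)) : (sides S).length = (labels S).length := by
  induction S with
  | nil => rfl
  | cons a S ih =>
    cases a with
    | cup k => exact ih
    | cap k => exact ih
    | box k a => simp only [sides, labels, List.length_cons, ih]

/-- `0` or `1` -/
noncomputable def rl (x : ZMod 2) : ℝ := if x = 0 then 0 else 1

private theorem rl_zero_rd {x : ZMod 2} (h : rl x = 0) : x = 0 := by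
  unfold rl at h
  by_contra hx
  rw [if_neg hx] at h
  exact one_ne_zero h

theorem lb_lab {S : List (Item Unit)} {b d u : List (ZMod 2)} (h : LB S b d u)
    (hd : ∀ x ∈ d, x = 0) :
    ∃ L, Lab (smo (b.map fun x => if x = 0 then none else some true) S) L (u.map rl) ∧
      ((∀ s ∈ L, s = 0) → (∀ x ∈ u, x = 0) ∧ ∀ x ∈ b, x = 0) := by
  induction h with
  | nil =>
    refine ⟨[], ?_, ?_⟩
    · simp only [List.map_nil, List.map_cons, rl, if_true]
      exact Lab.nil
    · intro _
      simp
  | @cup S b d l r s h ih =>
    obtain ⟨L, h1, h2⟩ := ih hd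
    refine ⟨L, ?_, ?_⟩
    · rw [List.map_append, List.map_cons, List.map_cons] at h1
      have := Lab.cup h1
      rw [List.length_map] at this
      rw [List.map_append]
      exact this
    · intro hL
      obtain ⟨h3, h4⟩ := h2 hL
      refine ⟨?_, h4⟩
      intro x hx
      apply h3
      simp only [List.mem_append, List.mem_cons] at hx ⊢
      tauto
  | @cap S b d l r s h ih =>
    obtain ⟨L, h1, h2⟩ := ih hd
    refine ⟨rl s :: L, ?_, ?_⟩
    · rw [List.map_append] at h1
      have := Lab.cap (s := rl s) h1
      rw [List.length_map] at this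
      rw [List.map_append, List.map_cons, List.map_cons]
      exact this
    · intro hL
      have hs : s = 0 := rl_zero_rd (hL _ List.mem_cons_self)
      obtain ⟨h3, h4⟩ := h2 (fun x hx => hL x (List.mem_cons_of_mem _ hx))
      refine ⟨?_, h4⟩
      intro x hx
      simp only [List.mem_append, List.mem_cons] at hx
      rcases hx with hx | hx | hx | hx
      · exact h3 x (List.mem_append_left _ hx)
      · rw [hx, hs]
      · rw [hx, hs]
      · exact h3 x (List.mem_append_right _ hx)
  | @box S b d l r s t x a h ih =>
    obtain ⟨L, h1, h2⟩ := ih (fun y hy => hd y (List.mem_cons_of_mem _ hy))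
    have hst : s = t := by
      have h3 : s + t = 0 := hd _ List.mem_cons_self
      have h4 : ∀ s t : ZMod 2, s + t = 0 → s = t := by decide
      exact h4 s t h3
    subst hst
    by_cases hx : x = 0
    · subst hx
      refine ⟨L, ?_, ?_⟩
      · rw [add_zero, List.map_append, List.map_cons, List.map_cons] at h1
        have := Lab.box (a := a) h1
        rw [List.length_map] at this
        rw [List.map_append, List.map_cons, List.map_cons, List.map_cons, if_pos rfl]
        exact this
      · intro hL
        obtain ⟨h3, h4⟩ := h2 hL
        rw [add_zero] at h3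
        refine ⟨h3, ?_⟩
        intro y hy
        rcases List.mem_cons.1 hy with hy | hy
        · exact hy
        · exact h4 y hy
    · have hx1 : x = 1 := by
        have : ∀ x : ZMod 2, x ≠ 0 → x = 1 := by decide
        exact this x hx
      subst hx1
      refine ⟨rl s :: L, ?_, ?_⟩
      · rw [List.map_append, List.map_cons, List.map_cons] at h1
        have h5 := Lab.cup h1
        have h6 := Lab.cap (s := rl s) h5
        rw [List.length_map] at h6
        rw [List.map_append, List.map_cons, List.map_cons, List.map_cons, if_neg hx]
        exact h6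
      · intro hL
        exfalso
        have hs : s = 0 := rl_zero_rd (hL _ List.mem_cons_self)
        obtain ⟨h3, h4⟩ := h2 (fun x hx => hL x (List.mem_cons_of_mem _ hx))
        have h5 : s + 1 = 0 := h3 _ (by simp)
        rw [hs, zero_add] at h5
        exact one_ne_zero h5

theorem red_lb {S : List (Item Unit)} (hR : Red S) {b d u : List (ZMod 2)} (h : LB S b d u)
    (hd : ∀ x ∈ d, x = 0) (hb : b.length = (labels S).length) (h2 : b.count 1 ≤ 2) :
    ∀ x ∈ b, x = 0 := by
  obtain ⟨L, h3, h4⟩ := lb_lab h hd
  have hC := hR (b.map fun x => if x = 0 then none else some true) (by rw [List.length_map, hb])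
    (Or.inl ⟨?_, ?_⟩)
  · exact (h4 (hC _ _ h3)).2
  · rw [List.count_eq_zero]
    intro hm
    obtain ⟨x, -, hx⟩ := List.mem_map.1 hm
    split_ifs at hx
    simp at hx
  · refine le_trans (le_of_eq ?_) h2
    clear h3 h4 h2 hb h
    induction b with
    | nil => rfl
    | cons x b ih =>
      rw [List.map_cons, List.count_cons, List.count_cons, ih]
      congr 1
      revert x
      decide

/-- in terms of functions -/
theorem red_fn {S : List (Item Unit)} (hR : Red S) {n : ℕ} (hn : (sides S).length = n)
    (x d : Fin n → ZMod 2) (h : LB S (List.ofFn x) (List.ofFn d) [0]) (hd : d = 0)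
    (i j : Fin n) (h2 : ∀ k, k ≠ i → k ≠ j → x k = 0) : x = 0 := by
  have h3 := red_lb hR h ?_ ?_ ?_
  · funext k
    exact h3 _ (List.mem_ofFn.2 ⟨k, rfl⟩)
  · intro y hy
    obtain ⟨k, rfl⟩ := List.mem_ofFn.1 hy
    rw [hd]
    rfl
  · rw [List.length_ofFn, ← hn, sides_len]
  · have h4 : (List.ofFn x).count 1 = (univ.filter (fun k => x k = 1)).card := by
      rw [List.ofFn_eq_map, List.count, List.countP_map, List.countP_eq_length_filter]
      rfl
    rw [h4]
    refine (Finset.card_le_card (t := {i, j}) ?_).trans Finset.card_le_two
    intro k hk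
    rw [Finset.mem_filter] at hk
    rw [Finset.mem_insert, Finset.mem_singleton]
    by_contra hcon
    rw [not_or] at hcon
    rw [h2 k hcon.1 hcon.2] at hk
    exact zero_ne_one hk.2

end Pool.Agent.EVT
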