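import Pool.Agent.EVT.LE
import Pool.Agent.EVT.RD

/-!
# EVT module RC: the alternating sum over the spanning sets of a side is not zero

`M` is a matrix with `LB S x (M x) [0]` for all `x` (module FE), `S` is twist-reduced.
* `row_ne`: `M i ≠ 0`: otherwise (`h1`) `M eᵢ = 0` for the unit vector `eᵢ`, contradiction to `red_fn`
  (`(M eᵢ) j = M j i = M i j`).
* `row_inj`: `M i ≠ M j` for `i ≠ j`: otherwise `M (eᵢ + eⱼ) = 0`, and `eᵢ + eⱼ ≠ 0`.
* `alt_ne`: `span_ne` for `v = M`, `A = Vs sd s`; `Spn M sd s (ind J)` for `J ⊆ Vs sd s` says that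
  `span (M '' J) = span (M '' Vs sd s)`.
-/

namespace Pool.Agent.EVT

open Finset
open Pool.Agent.Helper9.FA (Item)
open Pool.Agent.Helper77.CR (Red)

private theorem mulVec_single_rc {n : ℕ} (M : Matrix (Fin n) (Fin n) (ZMod 2))
    (h1 : ∀ i j, M i j = M j i) (i : Fin n) : M.mulVec (Pi.single i 1) = M i := by
  funext j
  rw [Matrix.mulVec_single_one]
  exact (h1 i j).symm

theorem row_ne {S : List (Item Unit)} (hR : Red S) {n : ℕ} (hn : (sides S).length = n)
    (M : Matrix (Fin n) (Fin n) (ZMod 2)) (h1 : ∀ i j, M i j = M j i)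
    (h3 : ∀ x : Fin n → ZMod 2, LB S (List.ofFn x) (List.ofFn (M.mulVec x)) [0]) (i : Fin n) :
    M i ≠ 0 := by
  intro h0
  have h4 := red_fn hR hn (Pi.single i 1) _ (h3 (Pi.single i 1))
    (by rw [mulVec_single_rc M h1, h0]) i i ?_
  · have := congrFun h4 i
    rw [Pi.single_eq_same] at this
    exact one_ne_zero this
  · intro k hk _
    rw [Pi.single_eq_of_ne hk]

theorem row_inj {S : List (Item Unit)} (hR : Red S) {n : ℕ} (hn : (sides S).length = n)
    (M : Matrix (Fin n) (Fin n) (ZMod 2)) (h1 : ∀ i j, M i j = M j i)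
    (h3 : ∀ x : Fin n → ZMod 2, LB S (List.ofFn x) (List.ofFn (M.mulVec x)) [0]) (i j : Fin n)
    (hij : i ≠ j) : M i ≠ M j := by
  intro h0
  have h4 := red_fn hR hn (Pi.single i 1 + Pi.single j 1) _ (h3 (Pi.single i 1 + Pi.single j 1))
    ?_ i j ?_
  · have := congrFun h4 i
    rw [Pi.add_apply, Pi.single_eq_same, Pi.single_eq_of_ne hij, add_zero] at this
    exact one_ne_zero this
  · rw [Matrix.mulVec_add, mulVec_single_rc M h1, mulVec_single_rc M h1, h0]
    funext k
    exact CharTwo.add_self_eq_zero _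
  · intro k hk hk'
    rw [Pi.add_apply, Pi.single_eq_of_ne hk, Pi.single_eq_of_ne hk', add_zero]

private theorem spn_rc {n : ℕ} (M : Matrix (Fin n) (Fin n) (ZMod 2)) (sd : Fin n → Bool) (s : Bool)
    (J : Finset (Fin n)) (hJ : J ⊆ Vs sd s) :
    Spn M sd s (ind J) ↔ Submodule.span (ZMod 2) (M '' (J : Set (Fin n))) =
      Submodule.span (ZMod 2) (M '' (Vs sd s : Set (Fin n))) := by
  have e1 : {x | ∃ i, ind J i = true ∧ sd i = s ∧ x = M i} = M '' (J : Set (Fin n)) := by
    ext x
    constructor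
    · rintro ⟨i, h1, -, rfl⟩
      exact ⟨i, by simpa [ind] using h1, rfl⟩
    · rintro ⟨i, h1, rfl⟩
      have h2 : sd i = s := by
        have := hJ (Finset.mem_coe.1 h1)
        simpa [Vs] using this
      exact ⟨i, by simpa [ind] using h1, h2, rfl⟩
  have e2 : {x | ∃ i, sd i = s ∧ x = M i} = M '' (Vs sd s : Set (Fin n)) := by
    ext x
    constructor
    · rintro ⟨i, h1, rfl⟩
      exact ⟨i, by simpa [Vs] using h1, rfl⟩
    · rintro ⟨i, h1, rfl⟩
      exact ⟨i, by simpa [Vs] using h1, rfl⟩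
  unfold Spn
  rw [e1, e2]

theorem alt_ne {S : List (Item Unit)} (hR : Red S) {n : ℕ} (hn : (sides S).length = n)
    (M : Matrix (Fin n) (Fin n) (ZMod 2)) (h1 : ∀ i j, M i j = M j i)
    (h3 : ∀ x : Fin n → ZMod 2, LB S (List.ofFn x) (List.ofFn (M.mulVec x)) [0])
    (sd : Fin n → Bool) (s : Bool) :
    spS M sd s (fun _ b => if b = true then (2 : ℤ) else -1) ≠ 0 := by
  classical
  have h4 := span_ne (fun i => M i) (Vs sd s) (fun i _ => row_ne hR hn M h1 h3 i)
    (fun i _ j _ hij => row_inj hR hn M h1 h3 i j hij)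
  have h5 : spS M sd s (fun _ b => if b = true then (2 : ℤ) else -1) =
      (-1) ^ (Vs sd s).card * ∑ J ∈ (Vs sd s).powerset.filter (fun J : Finset (Fin n) =>
        Submodule.span (ZMod 2) ((fun i => M i) '' (J : Set (Fin n))) =
        Submodule.span (ZMod 2) ((fun i => M i) '' (Vs sd s : Set (Fin n)))), (-2 : ℤ) ^ J.card := by
    rw [spS, Finset.mul_sum]
    apply Finset.sum_congr
    · apply Finset.filter_congr
      intro J hJ
      exact spn_rc M sd s J (Finset.mem_powerset.1 hJ)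
    · intro J hJ
      have hJ' := Finset.mem_powerset.1 (Finset.mem_filter.1 hJ).1
      rw [if_pos rfl, if_neg (by decide), Finset.prod_const, Finset.prod_const,
        Finset.card_sdiff_of_subset hJ']
      have h6 : (Vs sd s).card = ((Vs sd s).card - J.card) + J.card := by
        have := Finset.card_le_card hJ'
        omega
      conv_rhs => rw [h6]
      rw [pow_add, show (-2 : ℤ) = (-1) * 2 by norm_num, mul_pow, mul_assoc, ← mul_assoc ((-1) ^ J.card),
        ← mul_pow, neg_one_mul, neg_neg, one_pow, one_mul, mul_comm]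
  rw [h5]
  apply mul_ne_zero (pow_ne_zero _ (by norm_num))
  exact h4

end Pool.Agent.EVT
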