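import Pool.Agent.EVT.Defs

/-!
# EVT module GE: change of the ring, singular diagrams

Compare `Pool/Agent/Helper77/ST/RNat.lean`, `RVassA.lean`, `RVassB.lean`.
* `map_RT`: induction on the position and the diagram, `map_sum`, `map_mul`.
* `alt_RT`: induction on `S`, generalizing `D`; `F.RT (D ++ [(k, p)]) f = F.sl p k (F.RT D f)`, and
  `F.sRT S (g - h) = F.sRT S g - F.sRT S h` (linearity of `F.sRT`).
* `sRT_dvd`: induction on `S`.  For a double point: `F.sl .pos k f w - F.sl .neg k f w` is divisible
  by `x` (induction on `k`; at `a :: b :: w` it is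
  `∑ c, ∑ d, (pos a b c d - neg a b c d) * f (c :: d :: w)`), so it is `x * h w` for a function `h`
  (choice), and `F.sRT S (x • h) = x • F.sRT S h`.
-/

namespace Pool.Agent.EVT

open Finset
open Pool.Agent.Helper9.Kashaev (Piece Diagram)
open Pool.Agent.Helper77.ST (SPiece SDiagram dbls alt)

variable {A ι : Type*} [CommRing A] [Fintype ι] [DecidableEq ι]

private theorem ge_map_pc {B : Type*} [CommRing B] (φ : A →+* B) (F : FD A ι) (p : Piece)
    (f : List ι → A) (w : List ι) :
    φ (F.pc p f w) = (F.map φ).pc p (fun u => φ (f u)) w := by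
  cases p with
  | cup =>
    rcases w with _ | ⟨a, _ | ⟨b, w⟩⟩
    · simp [FD.pc]
    · simp [FD.pc]
    · simp only [FD.pc, FD.map]
      split_ifs
      · rw [map_mul]
      · exact map_zero φ
  | cap => simp only [FD.pc, FD.map, map_sum, map_mul]
  | pos =>
    rcases w with _ | ⟨a, _ | ⟨b, w⟩⟩
    · simp [FD.pc]
    · simp [FD.pc]
    · simp only [FD.pc, FD.map, map_sum, map_mul]
  | neg =>
    rcases w with _ | ⟨a, _ | ⟨b, w⟩⟩
    · simp [FD.pc]
    · simp [FD.pc]
    · simp only [FD.pc, FD.map, map_sum, map_mul]

private theorem ge_map_sl {B : Type*} [CommRing B] (φ : A →+* B) (F : FD A ι) (p : Piece) :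
    ∀ (k : ℕ) (f : List ι → A) (w : List ι),
      φ (F.sl p k f w) = (F.map φ).sl p k (fun u => φ (f u)) w := by
  intro k
  induction k with
  | zero =>
    intro f w
    simp only [FD.sl]
    exact ge_map_pc φ F p f w
  | succ k ih =>
    intro f w
    cases w with
    | nil => simp only [FD.sl, map_zero]
    | cons x w =>
      simp only [FD.sl]
      exact ih _ w

theorem FD.map_RT {B : Type*} [CommRing B] (φ : A →+* B) (F : FD A ι) (D : Diagram)
    (f : List ι → A) (w : List ι) :
    φ (F.RT D f w) = (F.map φ).RT D (fun u => φ (f u)) w := by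
  induction D generalizing f with
  | nil => rfl
  | cons s D ih =>
    simp only [FD.RT]
    rw [ih]
    congr 1
    funext u
    exact ge_map_sl φ F s.2 s.1 f u

private theorem ge_pc_sub (F : FD A ι) (p : Piece) (f g : List ι → A) (w : List ι) :
    F.pc p (fun u => f u - g u) w = F.pc p f w - F.pc p g w := by
  cases p with
  | cup =>
    rcases w with _ | ⟨a, _ | ⟨b, w⟩⟩
    · simp [FD.pc]
    · simp [FD.pc]
    · simp only [FD.pc]
      split_ifs
      · ring
      · ring
  | cap =>
    simp only [FD.pc]
    rw [← sum_sub_distrib]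
    exact sum_congr rfl fun _ _ => by ring
  | pos =>
    rcases w with _ | ⟨a, _ | ⟨b, w⟩⟩
    · simp [FD.pc]
    · simp [FD.pc]
    · simp only [FD.pc]
      rw [← sum_sub_distrib]
      refine sum_congr rfl fun _ _ => ?_
      rw [← sum_sub_distrib]
      exact sum_congr rfl fun _ _ => by ring
  | neg =>
    rcases w with _ | ⟨a, _ | ⟨b, w⟩⟩
    · simp [FD.pc]
    · simp [FD.pc]
    · simp only [FD.pc]
      rw [← sum_sub_distrib]
      refine sum_congr rfl fun _ _ => ?_
      rw [← sum_sub_distrib]
      exact sum_congr rfl fun _ _ => by ring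

private theorem ge_pc_mul (F : FD A ι) (p : Piece) (x : A) (f : List ι → A) (w : List ι) :
    F.pc p (fun u => x * f u) w = x * F.pc p f w := by
  cases p with
  | cup =>
    rcases w with _ | ⟨a, _ | ⟨b, w⟩⟩
    · simp [FD.pc]
    · simp [FD.pc]
    · simp only [FD.pc]
      split_ifs
      · ring
      · ring
  | cap =>
    simp only [FD.pc]
    rw [mul_sum]
    exact sum_congr rfl fun _ _ => by ring
  | pos =>
    rcases w with _ | ⟨a, _ | ⟨b, w⟩⟩
    · simp [FD.pc]
    · simp [FD.pc]
    · simp only [FD.pc]
      rw [mul_sum]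
      refine sum_congr rfl fun _ _ => ?_
      rw [mul_sum]
      exact sum_congr rfl fun _ _ => by ring
  | neg =>
    rcases w with _ | ⟨a, _ | ⟨b, w⟩⟩
    · simp [FD.pc]
    · simp [FD.pc]
    · simp only [FD.pc]
      rw [mul_sum]
      refine sum_congr rfl fun _ _ => ?_
      rw [mul_sum]
      exact sum_congr rfl fun _ _ => by ring

private theorem ge_sl_sub (F : FD A ι) (p : Piece) : ∀ (k : ℕ) (f g : List ι → A) (w : List ι),
    F.sl p k (fun u => f u - g u) w = F.sl p k f w - F.sl p k g w := by
  intro k
  induction k with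
  | zero =>
    intro f g w
    simp only [FD.sl]
    exact ge_pc_sub F p f g w
  | succ k ih =>
    intro f g w
    cases w with
    | nil => simp only [FD.sl, sub_self]
    | cons x w =>
      simp only [FD.sl]
      exact ih _ _ w

private theorem ge_sl_mul (F : FD A ι) (p : Piece) (x : A) :
    ∀ (k : ℕ) (f : List ι → A) (w : List ι),
      F.sl p k (fun u => x * f u) w = x * F.sl p k f w := by
  intro k
  induction k with
  | zero =>
    intro f w
    simp only [FD.sl]
    exact ge_pc_mul F p x f w
  | succ k ih =>
    intro f w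
    cases w with
    | nil => simp only [FD.sl, mul_zero]
    | cons y w =>
      simp only [FD.sl]
      exact ih _ w

private theorem ge_sRT_sub (F : FD A ι) (S : SDiagram) : ∀ (f g : List ι → A) (w : List ι),
    F.sRT S (fun u => f u - g u) w = F.sRT S f w - F.sRT S g w := by
  induction S with
  | nil => intro f g w; rfl
  | cons s S ih =>
    intro f g w
    obtain ⟨k, s⟩ := s
    cases s with
    | reg p =>
      simp only [FD.sRT]
      rw [← ih]
      congr 1
      funext u
      exact ge_sl_sub F p k f g u
    | dbl =>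
      simp only [FD.sRT]
      rw [← ih]
      congr 1
      funext u
      rw [ge_sl_sub, ge_sl_sub]
      ring

private theorem ge_sRT_mul (F : FD A ι) (x : A) (S : SDiagram) :
    ∀ (f : List ι → A) (w : List ι),
      F.sRT S (fun u => x * f u) w = x * F.sRT S f w := by
  induction S with
  | nil => intro f w; rfl
  | cons s S ih =>
    intro f w
    obtain ⟨k, s⟩ := s
    cases s with
    | reg p =>
      simp only [FD.sRT]
      rw [← ih]
      congr 1
      funext u
      exact ge_sl_mul F p x k f u
    | dbl =>
      simp only [FD.sRT]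
      rw [← ih]
      congr 1
      funext u
      rw [ge_sl_mul, ge_sl_mul]
      ring

private theorem ge_RT_snoc (F : FD A ι) (k : ℕ) (p : Piece) (D : Diagram) :
    ∀ f : List ι → A, F.RT (D ++ [(k, p)]) f = F.sl p k (F.RT D f) := by
  induction D with
  | nil => intro f; rfl
  | cons s D ih =>
    intro f
    rw [List.cons_append]
    simp only [FD.RT]
    exact ih _

theorem FD.alt_RT (F : FD A ι) (f : List ι → A) (w : List ι) (D : Diagram) (S : SDiagram) :
    alt (fun D' => F.RT D' f w) D S = F.sRT S (F.RT D f) w := by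
  induction S generalizing D with
  | nil => rfl
  | cons s S ih =>
    obtain ⟨k, s⟩ := s
    cases s with
    | reg p =>
      simp only [alt, FD.sRT]
      rw [ih, ge_RT_snoc]
    | dbl =>
      simp only [alt, FD.sRT]
      rw [ih, ih, ge_RT_snoc, ge_RT_snoc, ge_sRT_sub]

private theorem ge_dbl_dvd (F : FD A ι) (x : A)
    (hx : ∀ a b c d, x ∣ F.pos a b c d - F.neg a b c d) :
    ∀ (k : ℕ) (f : List ι → A) (w : List ι), x ∣ F.sl .pos k f w - F.sl .neg k f w := by
  intro k
  induction k with
  | zero =>
    intro f w
    simp only [FD.sl]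
    rcases w with _ | ⟨a, _ | ⟨b, w⟩⟩
    · simp [FD.pc]
    · simp [FD.pc]
    · simp only [FD.pc]
      rw [← sum_sub_distrib]
      refine dvd_sum fun c _ => ?_
      rw [← sum_sub_distrib]
      refine dvd_sum fun d _ => ?_
      rw [← sub_mul]
      exact Dvd.dvd.mul_right (hx a b c d) _
  | succ k ih =>
    intro f w
    cases w with
    | nil => simp only [FD.sl, sub_self, dvd_zero]
    | cons y w =>
      simp only [FD.sl]
      exact ih _ w

theorem FD.sRT_dvd (F : FD A ι) (x : A) (hx : ∀ a b c d, x ∣ F.pos a b c d - F.neg a b c d)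
    (S : SDiagram) (f : List ι → A) (w : List ι) : x ^ dbls S ∣ F.sRT S f w := by
  induction S generalizing f with
  | nil =>
    simp only [dbls, pow_zero]
    exact one_dvd _
  | cons s S ih =>
    obtain ⟨k, s⟩ := s
    cases s with
    | reg p =>
      simp only [dbls, FD.sRT]
      exact ih _
    | dbl =>
      simp only [dbls, FD.sRT]
      choose h hh using ge_dbl_dvd F x hx k f
      have e1 : (fun w => F.sl .pos k f w - F.sl .neg k f w) = fun u => x * h u := by
        funext u
        exact hh u
      rw [e1, ge_sRT_mul, pow_succ']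
      exact mul_dvd_mul_left x (ih h)

end Pool.Agent.EVT
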