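import Pool.Agent.EVT.GA

/-!
# EVT module GC: distant pieces change places

Copy of `Pool/Agent/Helper77/ST/MFar.lean` (there for a special state sum, with `F.pc` instead of
`piece P`): first `k = 0` by cases of `p` (`F.pc p` acts on the first letters, `F.sl q l` with
`l ≥ nout p` on the rest; linearity of `F.sl q l` for finite sums of guarded terms), then
induction on `k`.
-/

namespace Pool.Agent.EVT

open Finset
open Pool.Agent.Helper9.Kashaev (Piece Diagram)
open Pool.Agent.Helper77.ST (wf nin nout)

variable {A ι : Type*} [CommRing A] [Fintype ι] [DecidableEq ι]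

private lemma mfar_nil (F : FD A ι) (q : Piece) {l : ℕ} (hl : 1 ≤ l) (f : List ι → A) :
    F.sl q l f [] = 0 := by
  obtain ⟨l, rfl⟩ := Nat.exists_eq_add_of_le' hl
  rfl

private lemma mfar_cons (F : FD A ι) (q : Piece) {l : ℕ} (hl : 1 ≤ l) (f : List ι → A) (x : ι)
    (w : List ι) : F.sl q l f (x :: w) = F.sl q (l - 1) (fun u => f (x :: u)) w := by
  obtain ⟨l, rfl⟩ := Nat.exists_eq_add_of_le' hl
  rfl

private lemma mfar_sum (F : FD A ι) (q : Piece) (l : ℕ) (c : ι → ι → A)
    (h : ι → ι → List ι → A) (w : List ι) :
    F.sl q l (fun u => ∑ x, ∑ y, c x y * h x y u) w = ∑ x, ∑ y, c x y * F.sl q l (h x y) w := by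
  have h1 := F.sl_lin q l (univ : Finset ι) (fun _ => 1) (fun x u => ∑ y, c x y * h x y u) w
  simp only [one_mul] at h1
  rw [h1]
  exact sum_congr rfl fun x _ => F.sl_lin q l univ (c x) (h x) w

private lemma mfar_guard (F : FD A ι) (q : Piece) (l : ℕ) (c : Prop) [Decidable c] (a : A)
    (h : List ι → A) (w : List ι) :
    F.sl q l (fun u => if c then a * h u else 0) w = if c then a * F.sl q l h w else 0 := by
  have h1 := F.sl_lin q l (univ : Finset Unit) (fun _ => if c then a else 0) (fun _ => h) w
  simp only [univ_unique, sum_singleton] at h1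
  by_cases hc : c
  · simp only [if_pos hc] at h1 ⊢
    exact h1
  · simp only [if_neg hc, zero_mul] at h1 ⊢
    exact h1

private lemma mfar_base (F : FD A ι) (p q : Piece) {l : ℕ} (h : nout p ≤ l) (g : List ι → A)
    (w : List ι) :
    F.sl q l (F.pc p g) w = F.pc p (F.sl q (l + nin p - nout p) g) w := by
  cases p with
  | cap =>
    simp only [nin, nout, Nat.sub_zero]
    have h1 := F.sl_lin q l (univ : Finset ι) (fun a => F.cap a)
      (fun a u => g (a :: F.dual a :: u)) w
    refine Eq.trans h1 ?_
    simp only [FD.pc]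
    refine sum_congr rfl fun a _ => ?_
    rw [mfar_cons F q (by omega), mfar_cons F q (by omega)]
    rfl
  | cup =>
    simp only [nout] at h
    rcases w with _ | ⟨a, _ | ⟨b, w⟩⟩
    · rw [mfar_nil F q (by omega)]; rfl
    · rw [mfar_cons F q (by omega), mfar_nil F q (by omega)]; rfl
    · rw [mfar_cons F q (by omega), mfar_cons F q (by omega)]
      simp only [FD.pc]
      rw [mfar_guard]
      rfl
  | pos =>
    simp only [nout] at h
    rcases w with _ | ⟨a, _ | ⟨b, w⟩⟩
    · rw [mfar_nil F q (by omega)]; rfl
    · rw [mfar_cons F q (by omega), mfar_nil F q (by omega)]; rfl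
    · rw [mfar_cons F q (by omega), mfar_cons F q (by omega)]
      simp only [FD.pc]
      rw [mfar_sum]
      refine sum_congr rfl fun x _ => sum_congr rfl fun y _ => ?_
      simp only [nin, nout, Nat.add_sub_cancel]
      rw [mfar_cons F q (by omega), mfar_cons F q (by omega)]
  | neg =>
    simp only [nout] at h
    rcases w with _ | ⟨a, _ | ⟨b, w⟩⟩
    · rw [mfar_nil F q (by omega)]; rfl
    · rw [mfar_cons F q (by omega), mfar_nil F q (by omega)]; rfl
    · rw [mfar_cons F q (by omega), mfar_cons F q (by omega)]
      simp only [FD.pc]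
      rw [mfar_sum]
      refine sum_congr rfl fun x _ => sum_congr rfl fun y _ => ?_
      simp only [nin, nout, Nat.add_sub_cancel]
      rw [mfar_cons F q (by omega), mfar_cons F q (by omega)]

private lemma mfar_slice (F : FD A ι) (p q : Piece) : ∀ (k l : ℕ) (_ : k + nout p ≤ l)
    (g : List ι → A) (w : List ι),
    F.sl q l (F.sl p k g) w = F.sl p k (F.sl q (l + nin p - nout p) g) w := by
  intro k
  induction k with
  | zero =>
    intro l h g w
    have h1 : F.sl p 0 g = F.pc p g := rfl
    rw [h1, mfar_base F p q (by omega)]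
    rfl
  | succ k ih =>
    intro l h g w
    rcases w with _ | ⟨x, w⟩
    · rw [mfar_nil F q (by omega), mfar_nil F p (by omega)]
    · rw [mfar_cons F q (by omega)]
      have h1 : (fun u => F.sl p (k + 1) g (x :: u)) = F.sl p k (fun u => g (x :: u)) := rfl
      have h2 : F.sl p (k + 1) (F.sl q (l + nin p - nout p) g) (x :: w)
          = F.sl p k (fun u => F.sl q (l + nin p - nout p) g (x :: u)) w := rfl
      have h3 : (fun u => F.sl q (l + nin p - nout p) g (x :: u))
          = F.sl q (l - 1 + nin p - nout p) (fun u => g (x :: u)) := by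
        funext u
        rw [mfar_cons F q (by omega)]
        congr 1
        omega
      rw [h1, h2, h3]
      exact ih (l - 1) (by omega) _ w

theorem FD.far (F : FD A ι) {k l : ℕ} {p q : Piece} (h : k + nout p ≤ l) (f : List ι → A)
    (w : List ι) : F.RT [(k, p), (l, q)] f w = F.RT [(l + nin p - nout p, q), (k, p)] f w :=
  mfar_slice F p q k l h f w

end Pool.Agent.EVT
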