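import Pool.Agent.EVT.GA

/-!
# EVT module GD: the local moves from the conditions `FD.Inv`

Each one is a computation at the first letters of the word (unfold `FD.RT`, `FD.sl`, `FD.pc`).

* `zig1`: at `x :: w`: `∑ a, cap a * (if a = dual x then cup x * f (dual a :: w) else 0)`
  `= cap (dual x) * cup x * f (dual (dual x) :: w)`; `hF.zig x`, `hF.dd x`.
* `zig2`: at `x :: w`: `∑ a, cap a * (if x = dual (dual a) then cup (dual a) * f (a :: w) else 0)`: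
  only `a = x`; `hF.zig (dual x)`.
* `cup1p`: at `a :: b :: w`: `∑ c, ∑ d, pos a b c d * (if d = dual c then cup c * f w else 0)`,
  then `hF.cup1p`.
* `cap1p`: at `w`: `∑ a, cap a * ∑ c, ∑ d, pos a (dual a) c d * f (c :: d :: w)`, exchange sums,
  `hF.cap1p`, again collapse the sum over `d`.
* `r2pn`, `r2np`: `hF.pn`, `hF.np` (first piece `pos`: the operator is `neg ∘ pos`).
* `r3`: at `t₁ :: t₂ :: t₃ :: w` both sides are `∑ s₁ s₂ s₃ (...) * f (s₁ :: s₂ :: s₃ :: w)` with the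
  two sides of `hF.r3`.
* `cup2p`: at `a :: b :: c :: w`. Left: `[(1, cup), (0, pos)]`:
  `∑ x ∑ y, pos a b x y * (if c = dual y then cup y * f (x :: w) else 0)` = (only `y = dual c`)
  `∑ x, pos a b x (dual c) * cup (dual c) * f (x :: w)`. Right: `[(0, cup), (1, neg)]`:
  `∑ y ∑ x, neg b c y x * (if y = dual a then cup a * f (x :: w) else 0)`
  `= ∑ x, neg b c (dual a) x * cup a * f (x :: w)`; `hF.rotp a b c x`.  `cup2n`: `hF.rotn`.
* `cap2p`: at `c :: w`. Left `[(0, pos), (1, cap)]`: `∑ d, cap d * ∑ s₁ ∑ s₂, pos c d s₁ s₂ *`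
  `f (s₁ :: s₂ :: dual d :: w)`; right `[(1, neg), (0, cap)]`: `∑ a, cap a * ∑ s₂ ∑ s₃,`
  `neg (dual a) c s₂ s₃ * f (a :: s₂ :: s₃ :: w)`.  Rename `s₃ = dual d` and `a = s₁`: needed
  `cap (dual s₃) * pos c (dual s₃) s₁ s₂ = cap s₁ * neg (dual s₁) c s₂ s₃`; this is `hF.rotn`
  at `(dual s₁, c, dual s₃, s₂)`:
  `cup s₃ * neg (dual s₁) c s₂ s₃ = cup (dual s₁) * pos c (dual s₃) s₁ s₂`,
  multiplied by `cap (dual s₃) * cap s₁` (`hF.zig`).  `cap2n`: `hF.rotp`.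
-/

namespace Pool.Agent.EVT

open Finset
open Pool.Agent.Helper9.Kashaev (Piece Diagram)
open Pool.Agent.Helper77.ST (wf nin nout)

variable {A ι : Type*} [CommRing A] [Fintype ι] [DecidableEq ι] {F : FD A ι}

theorem FD.Inv.zig1 (hF : F.Inv) (f : List ι → A) (w : List ι) (hw : 1 ≤ w.length) :
    F.RT [(0, .cup), (1, .cap)] f w = F.RT [] f w := by
  rcases w with _ | ⟨x, w⟩
  · simp at hw
  · simp only [FD.RT, FD.sl, FD.pc, mul_ite, mul_zero]
    rw [sum_ite_eq' univ (F.dual x), if_pos (mem_univ _), hF.dd, ← mul_assoc, hF.zig, one_mul]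

theorem FD.Inv.zig2 (hF : F.Inv) (f : List ι → A) (w : List ι) (hw : 1 ≤ w.length) :
    F.RT [(1, .cup), (0, .cap)] f w = F.RT [] f w := by
  rcases w with _ | ⟨x, w⟩
  · simp at hw
  · simp only [FD.RT, FD.sl, FD.pc, hF.dd, mul_ite, mul_zero]
    rw [sum_ite_eq univ x, if_pos (mem_univ _)]
    have h := hF.zig (F.dual x)
    rw [hF.dd] at h
    rw [← mul_assoc, h, one_mul]

private theorem cup1 (X : ι → ι → ι → ι → A)
    (hX : ∀ a b, ∑ c, X a b c (F.dual c) * F.cup c = if b = F.dual a then F.cup a else 0)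
    (a b : ι) (y : A) :
    ∑ c, ∑ d, X a b c d * (if d = F.dual c then F.cup c * y else 0) =
      if b = F.dual a then F.cup a * y else 0 := by
  have h1 : ∀ c, ∑ d, X a b c d * (if d = F.dual c then F.cup c * y else 0) =
      X a b c (F.dual c) * F.cup c * y := by
    intro c
    simp only [mul_ite, mul_zero]
    rw [sum_ite_eq' univ (F.dual c), if_pos (mem_univ _)]
    ring
  rw [sum_congr rfl fun c _ => h1 c, ← sum_mul, hX a b]
  split_ifs
  · rfl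
  · rw [zero_mul]

theorem FD.Inv.m_cup1p (hF : F.Inv) (f : List ι → A) (w : List ι) (hw : 2 ≤ w.length) :
    F.RT [(0, .cup), (0, .pos)] f w = F.RT [(0, .cup)] f w := by
  rcases w with _ | ⟨a, _ | ⟨b, w⟩⟩
  · simp at hw
  · simp at hw
  · exact cup1 F.pos hF.cup1p a b (f w)

theorem FD.Inv.m_cup1n (hF : F.Inv) (f : List ι → A) (w : List ι) (hw : 2 ≤ w.length) :
    F.RT [(0, .cup), (0, .neg)] f w = F.RT [(0, .cup)] f w := by
  rcases w with _ | ⟨a, _ | ⟨b, w⟩⟩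
  · simp at hw
  · simp at hw
  · exact cup1 F.neg hF.cup1n a b (f w)

private theorem cap1 (X : ι → ι → ι → ι → A)
    (hX : ∀ c d, ∑ a, F.cap a * X a (F.dual a) c d = if d = F.dual c then F.cap c else 0)
    (g : ι → ι → A) :
    ∑ a, F.cap a * ∑ c, ∑ d, X a (F.dual a) c d * g c d = ∑ a, F.cap a * g a (F.dual a) := by
  have h1 : ∑ a, F.cap a * ∑ c, ∑ d, X a (F.dual a) c d * g c d =
      ∑ c, ∑ d, (∑ a, F.cap a * X a (F.dual a) c d) * g c d := by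
    simp only [mul_sum, sum_mul]
    rw [sum_comm]
    refine sum_congr rfl fun c _ => ?_
    rw [sum_comm]
    exact sum_congr rfl fun d _ => sum_congr rfl fun a _ => by ring
  rw [h1]
  refine sum_congr rfl fun c _ => ?_
  simp only [hX, ite_mul, zero_mul]
  rw [sum_ite_eq' univ (F.dual c), if_pos (mem_univ _)]

theorem FD.Inv.m_cap1p (hF : F.Inv) (f : List ι → A) (w : List ι) :
    F.RT [(0, .pos), (0, .cap)] f w = F.RT [(0, .cap)] f w :=
  cap1 F.pos hF.cap1p fun c d => f (c :: d :: w)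

theorem FD.Inv.m_cap1n (hF : F.Inv) (f : List ι → A) (w : List ι) :
    F.RT [(0, .neg), (0, .cap)] f w = F.RT [(0, .cap)] f w :=
  cap1 F.neg hF.cap1n fun c d => f (c :: d :: w)

private theorem r2 (X Y : ι → ι → ι → ι → A)
    (h : ∀ a b c d, ∑ x, ∑ y, X a b x y * Y x y c d = if a = c ∧ b = d then 1 else 0)
    (g : ι → ι → A) (a b : ι) :
    ∑ x, ∑ y, X a b x y * ∑ c, ∑ d, Y x y c d * g c d = g a b := by
  have h1 : ∑ x, ∑ y, X a b x y * ∑ c, ∑ d, Y x y c d * g c d =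
      ∑ c, ∑ d, (∑ x, ∑ y, X a b x y * Y x y c d) * g c d := by
    simp only [mul_sum, sum_mul]
    have e1 : ∀ x, ∑ y, ∑ c, ∑ d, X a b x y * (Y x y c d * g c d) =
        ∑ c, ∑ d, ∑ y, X a b x y * Y x y c d * g c d := by
      intro x
      rw [sum_comm]
      refine sum_congr rfl fun c _ => ?_
      rw [sum_comm]
      exact sum_congr rfl fun d _ => sum_congr rfl fun y _ => by ring
    rw [sum_congr rfl fun x _ => e1 x, sum_comm]
    refine sum_congr rfl fun c _ => ?_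
    rw [sum_comm]
  rw [h1]
  simp only [h]
  rw [sum_eq_single a, sum_eq_single b]
  · simp
  · intro d _ hd
    rw [if_neg (fun h => hd h.2.symm), zero_mul]
  · intro h
    exact absurd (mem_univ _) h
  · intro c _ hc
    refine sum_eq_zero fun d _ => ?_
    rw [if_neg (fun h => hc h.1.symm), zero_mul]
  · intro h
    exact absurd (mem_univ _) h

theorem FD.Inv.r2pn (hF : F.Inv) (f : List ι → A) (w : List ι) (hw : 2 ≤ w.length) :
    F.RT [(0, .pos), (0, .neg)] f w = F.RT [] f w := by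
  rcases w with _ | ⟨a, _ | ⟨b, w⟩⟩
  · simp at hw
  · simp at hw
  · exact r2 F.neg F.pos hF.pn (fun c d => f (c :: d :: w)) a b

theorem FD.Inv.r2np (hF : F.Inv) (f : List ι → A) (w : List ι) (hw : 2 ≤ w.length) :
    F.RT [(0, .neg), (0, .pos)] f w = F.RT [] f w := by
  rcases w with _ | ⟨a, _ | ⟨b, w⟩⟩
  · simp at hw
  · simp at hw
  · exact r2 F.pos F.neg hF.np (fun c d => f (c :: d :: w)) a b

private theorem comm2 (G : ι → ι → ι → A) :
    ∑ x, ∑ y, ∑ z, G x y z = ∑ z, ∑ x, ∑ y, G x y z := by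
  rw [sum_congr rfl fun x (_ : x ∈ univ) => sum_comm (f := fun y z => G x y z), sum_comm]

private theorem comm3 (G : ι → ι → ι → ι → A) :
    ∑ u, ∑ x, ∑ y, ∑ z, G u x y z = ∑ z, ∑ u, ∑ x, ∑ y, G u x y z := by
  rw [sum_congr rfl fun u (_ : u ∈ univ) => comm2 (G u), sum_comm]

private theorem comm4 (G : ι → ι → ι → ι → ι → A) :
    ∑ v, ∑ u, ∑ x, ∑ y, ∑ z, G v u x y z = ∑ z, ∑ v, ∑ u, ∑ x, ∑ y, G v u x y z := by
  rw [sum_congr rfl fun u (_ : u ∈ univ) => comm3 (G u), sum_comm]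

private theorem r3l (P : ι → ι → ι → ι → A) (g : ι → ι → ι → A) (t₁ t₂ t₃ : ι) :
    ∑ u, ∑ v, P t₁ t₂ u v * ∑ x, ∑ s₃, P v t₃ x s₃ * ∑ s₁, ∑ s₂, P u x s₁ s₂ * g s₁ s₂ s₃ =
      ∑ s₁, ∑ s₂, ∑ s₃, (∑ u, ∑ v, ∑ x, P t₁ t₂ u v * P v t₃ x s₃ * P u x s₁ s₂) *
        g s₁ s₂ s₃ := by
  simp only [mul_sum, sum_mul]
  rw [comm4]
  refine sum_congr rfl fun s₁ _ => ?_
  rw [comm4]
  refine sum_congr rfl fun s₂ _ => ?_
  rw [comm3]
  exact sum_congr rfl fun s₃ _ => sum_congr rfl fun u _ => sum_congr rfl fun v _ =>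
    sum_congr rfl fun x _ => by ring

private theorem r3r (P : ι → ι → ι → ι → A) (g : ι → ι → ι → A) (t₁ t₂ t₃ : ι) :
    ∑ u, ∑ v, P t₂ t₃ u v * ∑ s₁, ∑ x, P t₁ u s₁ x * ∑ s₂, ∑ s₃, P x v s₂ s₃ * g s₁ s₂ s₃ =
      ∑ s₁, ∑ s₂, ∑ s₃, (∑ u, ∑ v, ∑ x, P t₂ t₃ u v * P t₁ u s₁ x * P x v s₂ s₃) *
        g s₁ s₂ s₃ := by
  simp only [mul_sum, sum_mul]
  rw [comm2]
  refine sum_congr rfl fun s₁ _ => ?_
  rw [comm3]
  refine sum_congr rfl fun s₂ _ => ?_
  rw [comm3]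
  exact sum_congr rfl fun s₃ _ => sum_congr rfl fun u _ => sum_congr rfl fun v _ =>
    sum_congr rfl fun x _ => by ring

theorem FD.Inv.m_r3 (hF : F.Inv) (f : List ι → A) (w : List ι) (hw : 3 ≤ w.length) :
    F.RT [(0, .pos), (1, .pos), (0, .pos)] f w = F.RT [(1, .pos), (0, .pos), (1, .pos)] f w := by
  rcases w with _ | ⟨t₁, _ | ⟨t₂, _ | ⟨t₃, w⟩⟩⟩
  · simp at hw
  · simp at hw
  · simp at hw
  · have h1 : F.RT [(0, .pos), (1, .pos), (0, .pos)] f (t₁ :: t₂ :: t₃ :: w) =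
        ∑ u, ∑ v, F.pos t₁ t₂ u v * ∑ x, ∑ s₃, F.pos v t₃ x s₃ *
          ∑ s₁, ∑ s₂, F.pos u x s₁ s₂ * f (s₁ :: s₂ :: s₃ :: w) := rfl
    have h2 : F.RT [(1, .pos), (0, .pos), (1, .pos)] f (t₁ :: t₂ :: t₃ :: w) =
        ∑ u, ∑ v, F.pos t₂ t₃ u v * ∑ s₁, ∑ x, F.pos t₁ u s₁ x *
          ∑ s₂, ∑ s₃, F.pos x v s₂ s₃ * f (s₁ :: s₂ :: s₃ :: w) := rfl
    rw [h1, h2, r3l F.pos (fun s₁ s₂ s₃ => f (s₁ :: s₂ :: s₃ :: w)),
      r3r F.pos (fun s₁ s₂ s₃ => f (s₁ :: s₂ :: s₃ :: w))]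
    simp only [hF.r3]

private theorem cup2 (hdd : ∀ a, F.dual (F.dual a) = a) (X Y : ι → ι → ι → ι → A)
    (hrot : ∀ a b c x, F.cup (F.dual c) * X a b x (F.dual c) = F.cup a * Y b c (F.dual a) x)
    (g : ι → A) (a b c : ι) :
    ∑ x, ∑ y, X a b x y * (if c = F.dual y then F.cup y * g x else 0) =
      ∑ y, ∑ x, Y b c y x * (if y = F.dual a then F.cup a * g x else 0) := by
  have h1 : ∀ x, ∑ y, X a b x y * (if c = F.dual y then F.cup y * g x else 0) =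
      F.cup (F.dual c) * X a b x (F.dual c) * g x := by
    intro x
    rw [sum_eq_single (F.dual c)]
    · rw [if_pos (hdd c).symm]
      ring
    · intro y _ hy
      rw [if_neg, mul_zero]
      intro h
      exact hy (by rw [h, hdd])
    · intro h
      exact absurd (mem_univ _) h
  have h2 : ∑ y, ∑ x, Y b c y x * (if y = F.dual a then F.cup a * g x else 0) =
      ∑ x, F.cup a * Y b c (F.dual a) x * g x := by
    rw [sum_eq_single (F.dual a)]
    · refine sum_congr rfl fun x _ => ?_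
      rw [if_pos rfl]
      ring
    · intro y _ hy
      refine sum_eq_zero fun x _ => ?_
      rw [if_neg hy, mul_zero]
    · intro h
      exact absurd (mem_univ _) h
  rw [h2, sum_congr rfl fun x _ => h1 x]
  exact sum_congr rfl fun x _ => by rw [hrot]

theorem FD.Inv.cup2p (hF : F.Inv) (f : List ι → A) (w : List ι) (hw : 3 ≤ w.length) :
    F.RT [(1, .cup), (0, .pos)] f w = F.RT [(0, .cup), (1, .neg)] f w := by
  rcases w with _ | ⟨a, _ | ⟨b, _ | ⟨c, w⟩⟩⟩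
  · simp at hw
  · simp at hw
  · simp at hw
  · exact cup2 hF.dd F.pos F.neg hF.rotp (fun x => f (x :: w)) a b c

theorem FD.Inv.cup2n (hF : F.Inv) (f : List ι → A) (w : List ι) (hw : 3 ≤ w.length) :
    F.RT [(1, .cup), (0, .neg)] f w = F.RT [(0, .cup), (1, .pos)] f w := by
  rcases w with _ | ⟨a, _ | ⟨b, _ | ⟨c, w⟩⟩⟩
  · simp at hw
  · simp at hw
  · simp at hw
  · exact cup2 hF.dd F.neg F.pos hF.rotn (fun x => f (x :: w)) a b c

private theorem cap2 (hdd : ∀ a, F.dual (F.dual a) = a)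
    (hzig : ∀ a, F.cap (F.dual a) * F.cup a = 1) (X Y : ι → ι → ι → ι → A)
    (hrot : ∀ a b c x, F.cup (F.dual c) * Y a b x (F.dual c) = F.cup a * X b c (F.dual a) x)
    (g : ι → ι → ι → A) (c : ι) :
    ∑ d, F.cap d * ∑ s₁, ∑ s₂, X c d s₁ s₂ * g s₁ s₂ (F.dual d) =
      ∑ a, F.cap a * ∑ s₂, ∑ s₃, Y (F.dual a) c s₂ s₃ * g a s₂ s₃ := by
  have h1 : ∑ d, F.cap d * ∑ s₁, ∑ s₂, X c d s₁ s₂ * g s₁ s₂ (F.dual d) =
      ∑ s₃, F.cap (F.dual s₃) * ∑ s₁, ∑ s₂, X c (F.dual s₃) s₁ s₂ * g s₁ s₂ s₃ := by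
    refine (Equiv.sum_comp (Function.Involutive.toPerm F.dual hdd)
      (fun d => F.cap d * ∑ s₁, ∑ s₂, X c d s₁ s₂ * g s₁ s₂ (F.dual d))).symm.trans ?_
    refine sum_congr rfl fun s₃ _ => ?_
    simp only [Function.Involutive.coe_toPerm, hdd]
  rw [h1]
  simp only [mul_sum]
  rw [sum_comm]
  refine sum_congr rfl fun s₁ _ => ?_
  rw [sum_comm]
  refine sum_congr rfl fun s₂ _ => sum_congr rfl fun s₃ _ => ?_
  have e1 := hrot (F.dual s₁) c (F.dual s₃) s₂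
  have e2 := hzig s₃
  have e3 := hzig (F.dual s₁)
  rw [hdd, hdd] at e1
  rw [hdd] at e3
  linear_combination (-(F.cap (F.dual s₃) * X c (F.dual s₃) s₁ s₂ * g s₁ s₂ s₃)) * e3 +
    (-(F.cap (F.dual s₃) * F.cap s₁ * g s₁ s₂ s₃)) * e1 +
    (F.cap s₁ * Y (F.dual s₁) c s₂ s₃ * g s₁ s₂ s₃) * e2

theorem FD.Inv.cap2p (hF : F.Inv) (f : List ι → A) (w : List ι) (hw : 1 ≤ w.length) :
    F.RT [(0, .pos), (1, .cap)] f w = F.RT [(1, .neg), (0, .cap)] f w := by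
  rcases w with _ | ⟨c, w⟩
  · simp at hw
  · exact cap2 hF.dd hF.zig F.pos F.neg hF.rotn (fun s₁ s₂ s₃ => f (s₁ :: s₂ :: s₃ :: w)) c

theorem FD.Inv.cap2n (hF : F.Inv) (f : List ι → A) (w : List ι) (hw : 1 ≤ w.length) :
    F.RT [(0, .neg), (1, .cap)] f w = F.RT [(1, .pos), (0, .cap)] f w := by
  rcases w with _ | ⟨c, w⟩
  · simp at hw
  · exact cap2 hF.dd hF.zig F.neg F.pos hF.rotp (fun s₁ s₂ s₃ => f (s₁ :: s₂ :: s₃ :: w)) c

end Pool.Agent.EVT
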