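import Pool.Agent.EVT.GA
import Pool.Agent.EVT.GC
import Pool.Agent.EVT.GD

/-!
# EVT module GF: invariance under isotopy

As `Pool/Agent/Helper77/ST/MInv.lean` (without framing factors).
* `move`: cases of `Move`; each one is `FD.RT_local` for one of the local identities of module GD
  (`sh k [(0, p), (1, q)] = [(k, p), (k + 1, q)]` by `simp [sh]`), or `FD.far`.
* `step`: split `wf 1 (A ++ a ++ B) 1`, `RT_append`, `move` for the middle and `RT_congr` for `B`.
* `isotopic`: induction on `Relation.EqvGen`.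
-/

namespace Pool.Agent.EVT

open Finset
open Pool.Agent.Helper9.Kashaev (Piece Diagram)
open Pool.Agent.Helper77.ST (wf nin nout Move Step Isotopic)

variable {A ι : Type*} [CommRing A] [Fintype ι] [DecidableEq ι] {F : FD A ι}

private theorem split {n m : ℕ} {A B : Diagram} (h : wf n (A ++ B) m) :
    ∃ l, wf n A l ∧ wf l B m := by
  induction A generalizing n with
  | nil => exact ⟨n, rfl, h⟩
  | cons s A ih =>
    obtain ⟨k, p⟩ := s
    cases p with
    | cup => obtain ⟨l, h1, h2⟩ := ih h.2; exact ⟨l, ⟨h.1, h1⟩, h2⟩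
    | cap => obtain ⟨l, h1, h2⟩ := ih h.2; exact ⟨l, ⟨h.1, h1⟩, h2⟩
    | pos => obtain ⟨l, h1, h2⟩ := ih h.2; exact ⟨l, ⟨h.1, h1⟩, h2⟩
    | neg => obtain ⟨l, h1, h2⟩ := ih h.2; exact ⟨l, ⟨h.1, h1⟩, h2⟩

private theorem uniq {n m m' : ℕ} {A : Diagram} (h : wf n A m) (h' : wf n A m') : m = m' := by
  induction A generalizing n with
  | nil => simp only [wf] at h h'; omega
  | cons s A ih =>
    obtain ⟨k, p⟩ := s
    cases p with
    | cup => exact ih h.2 h'.2
    | cap => exact ih h.2 h'.2
    | pos => exact ih h.2 h'.2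
    | neg => exact ih h.2 h'.2

theorem FD.Inv.move (hF : F.Inv) {a b : Diagram} (h : Move a b) {n m m' : ℕ} (h1 : wf n a m)
    (h2 : wf n b m') (f : List ι → A) (w : List ι) (hw : w.length = m) :
    F.RT a f w = F.RT b f w := by
  cases h with
  | zig1 k =>
    simp only [wf] at h1
    exact F.RT_local (m := 1) (D := [(0, .cup), (1, .cap)]) (D' := []) hF.zig1 k f w (by omega)
  | zig2 k =>
    simp only [wf] at h1
    exact F.RT_local (m := 1) (D := [(1, .cup), (0, .cap)]) (D' := []) hF.zig2 k f w (by omega)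
  | cup1p k =>
    simp only [wf] at h1
    exact F.RT_local (m := 2) (D := [(0, .cup), (0, .pos)]) (D' := [(0, .cup)]) hF.m_cup1p k f w
      (by omega)
  | cup1n k =>
    simp only [wf] at h1
    exact F.RT_local (m := 2) (D := [(0, .cup), (0, .neg)]) (D' := [(0, .cup)]) hF.m_cup1n k f w
      (by omega)
  | cap1p k =>
    simp only [wf] at h1
    exact F.RT_local (m := 0) (D := [(0, .pos), (0, .cap)]) (D' := [(0, .cap)])
      (fun f w _ => hF.m_cap1p f w) k f w (by omega)
  | cap1n k =>
    simp only [wf] at h1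
    exact F.RT_local (m := 0) (D := [(0, .neg), (0, .cap)]) (D' := [(0, .cap)])
      (fun f w _ => hF.m_cap1n f w) k f w (by omega)
  | r2pn k =>
    simp only [wf] at h1
    exact F.RT_local (m := 2) (D := [(0, .pos), (0, .neg)]) (D' := []) hF.r2pn k f w (by omega)
  | r2np k =>
    simp only [wf] at h1
    exact F.RT_local (m := 2) (D := [(0, .neg), (0, .pos)]) (D' := []) hF.r2np k f w (by omega)
  | r3 k =>
    simp only [wf] at h1
    exact F.RT_local (m := 3) (D := [(0, .pos), (1, .pos), (0, .pos)])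
      (D' := [(1, .pos), (0, .pos), (1, .pos)]) hF.m_r3 k f w (by omega)
  | cup2p k =>
    simp only [wf] at h1
    exact F.RT_local (m := 3) (D := [(1, .cup), (0, .pos)]) (D' := [(0, .cup), (1, .neg)])
      hF.cup2p k f w (by omega)
  | cup2n k =>
    simp only [wf] at h1
    exact F.RT_local (m := 3) (D := [(1, .cup), (0, .neg)]) (D' := [(0, .cup), (1, .pos)])
      hF.cup2n k f w (by omega)
  | cap2p k =>
    simp only [wf] at h1
    exact F.RT_local (m := 1) (D := [(0, .pos), (1, .cap)]) (D' := [(1, .neg), (0, .cap)])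
      hF.cap2p k f w (by omega)
  | cap2n k =>
    simp only [wf] at h1
    exact F.RT_local (m := 1) (D := [(0, .neg), (1, .cap)]) (D' := [(1, .pos), (0, .cap)])
      hF.cap2n k f w (by omega)
  | far k l p q h => exact F.far h f w

theorem FD.Inv.step (hF : F.Inv) {D D' : Diagram} (h : Step D D') (f : List ι → A) (w : List ι)
    (hw : w.length = 1) : F.RT D f w = F.RT D' f w := by
  obtain ⟨C, B, hm, h1, h2⟩ := h
  obtain ⟨m, g1, gB⟩ := split h1
  obtain ⟨n, g2, g3⟩ := split g1
  obtain ⟨m', g1', -⟩ := split h2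
  obtain ⟨n', g2', g3'⟩ := split g1'
  obtain rfl := uniq g2 g2'
  rw [F.RT_append, F.RT_append, F.RT_append, F.RT_append]
  exact F.RT_congr gB (fun u hu => hF.move hm g3 g3' (F.RT C f) u hu) w hw

theorem FD.Inv.isotopic (hF : F.Inv) {D D' : Diagram} (h : Isotopic D D') (f : List ι → A)
    (w : List ι) (hw : w.length = 1) : F.RT D f w = F.RT D' f w := by
  induction h with
  | rel D D' h => exact hF.step h f w hw
  | refl D => rfl
  | symm D D' _ ih => exact ih.symm
  | trans D D' D'' _ _ ih ih' => exact ih.trans ih'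

end Pool.Agent.EVT
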