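import Pool.Agent.EVT.WB

/-!
# EVT module WD: the crossings are inverse to each other (Reidemeister 2), for all orientations

By cases of the orientations of `a, b, c, d` (and of the summation labels `x, y`; in most cases the
terms are `0` by the definition of `xW`).
* `a b = U U`: only `c d = U U`, `x y = U U`: `nB_mul_pB`.  `a b = D D`: the same with the order of
  the arguments reversed: `∑ x y, xB s' y x b a * xB s d c y x` (exchange `x` and `y`).
* `a b = U D` (upper labels), `c d = U D`, `x y = D U`: for `wf_pn` the term is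
  `(κ b * κ⁻¹ x * pB q x a y b) * nB q y d x c`.  By `xB_cons` for the first factor `{x, a} = {y, b}`.
  If `a ≠ b` then `x = b`, `y = a`, and the term is `pB q b a a b * nB q a d b c`
  `= q ^ (-N) * (q ^ N if d = b, c = a)`.
  If `a = b` then `y = x`, and the second factor is zero unless `c = d`; the term is
  `κ a * κ⁻¹ x * pB q x a x a * nB q x c x c`, where `pB q x a x a` is `q ^ (1 - N)` for `x = a`,
  `z q ^ (-N)` for `x < a`, `0` for `x > a`, and `nB q x c x c` is `q ^ (N - 1)` for `x = c`,
  `- z q ^ N` for `x > c`, `0` for `x < c`.  So the sum is `0` for `c > a`, `1` for `c = a`, and for `c < a`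
  it is `- z q + q ^ (2 (a - c) - 1) z - z * ∑_{c < x < a} z q ^ (2 (a - x))`, which is `0` since the
  geometric sum is `q ^ (2 (a - c) - 1) - q`.
* `a b = D U`, `c d = D U`, `x y = U D`: similarly, now the factor `κ d * κ⁻¹ c`-like comes from the
  second factor.
* `wf_np`: the same with `pB` and `nB` exchanged.
All identities were checked by computer for `N = 1, 2, 3`.
-/

namespace Pool.Agent.EVT

open Finset

variable {A : Type*} [CommRing A]

theorem K_sum {N : ℕ} (u : Fin N → A) (α β γ δ : A) (a c : Fin N) :
    ∑ x, u x * (((if x = a then α else 0) + (if x < a then β else 0)) *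
      ((if x = c then γ else 0) - (if c < x then δ else 0))) =
      (if a = c then u a * (α * γ) else 0) +
        (if c < a then (u c * (β * γ) - u a * (α * δ) -
          β * δ * ∑ x, (if c < x ∧ x < a then u x else 0)) else 0) := by
  rcases lt_trichotomy a c with h | h | h
  · rw [if_neg h.ne, if_neg h.not_gt, add_zero]
    apply Finset.sum_eq_zero
    intro x _
    rcases lt_trichotomy x a with h1 | h1 | h1
    · have h2 := h1.trans h
      simp [h2.ne, h2.not_gt]
    · subst h1
      simp [h.ne, h.not_gt]
    · simp [h1.ne', h1.not_gt]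
  · subst h
    rw [if_pos rfl, if_neg (lt_irrefl a), add_zero, Finset.sum_eq_single a]
    · simp
    · intro x _ hx
      rcases lt_or_gt_of_ne hx with h1 | h1
      · simp [h1.ne, h1.not_gt]
      · simp [h1.ne', h1.not_gt]
    · intro h
      exact absurd (Finset.mem_univ a) h
  · rw [if_neg h.ne', if_pos h, zero_add]
    have key : ∀ x : Fin N, u x * (((if x = a then α else 0) + (if x < a then β else 0)) *
        ((if x = c then γ else 0) - (if c < x then δ else 0))) =
        (if x = c then u x * (β * γ) else 0) - (if x = a then u x * (α * δ) else 0) -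
          β * δ * (if c < x ∧ x < a then u x else 0) := by
      intro x
      rcases lt_trichotomy x c with h1 | h1 | h1
      · have h2 := h1.trans h
        simp [h1.ne, h1.not_gt, h2.ne]
      · subst h1
        simp [h.ne, h]
      · rcases lt_trichotomy x a with h2 | h2 | h2
        · simp [h1.ne', h1, h2.ne, h2]
          ring
        · subst h2
          simp [h.ne', h]
        · simp [h1.ne', h1, h2.ne', h2.not_gt]
    rw [Finset.sum_congr rfl (fun x _ => key x), Finset.sum_sub_distrib, Finset.sum_sub_distrib,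
      Finset.sum_ite_eq', Finset.sum_ite_eq', if_pos (Finset.mem_univ _),
      if_pos (Finset.mem_univ _), Finset.mul_sum]

theorem tele_lt' {N : ℕ} (g : ℕ → A) (i : Fin N) :
    ∑ t : Fin N, (if t < i then g (t + 1) - g t else 0) = g i - g 0 := by
  have h1 : ∑ t : Fin N, (if t < i then g (t + 1) - g t else 0) =
      ∑ t ∈ range N, (if t < (i : ℕ) then g (t + 1) - g t else 0) := by
    rw [← Fin.sum_univ_eq_sum_range (fun t => if t < (i : ℕ) then g (t + 1) - g t else 0) N]
    rfl
  have h2 : ∀ M, (i : ℕ) ≤ M → ∑ t ∈ range M, (if t < (i : ℕ) then g (t + 1) - g t else 0) =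
      g i - g 0 := by
    intro M hM
    induction M, hM using Nat.le_induction with
    | base =>
      rw [← Finset.sum_range_sub g]
      apply Finset.sum_congr rfl
      intro t ht
      rw [if_pos (Finset.mem_range.mp ht)]
    | succ M hM ih =>
      rw [Finset.sum_range_succ, ih, if_neg (by omega), add_zero]
  rw [h1, h2 N i.2.le]

theorem tele_mid {N : ℕ} (g : ℕ → A) (c a : Fin N) (h : c < a) :
    ∑ t : Fin N, (if c < t ∧ t < a then g (t + 1) - g t else 0) = g a - g (c + 1) := by
  have e : ∀ t : Fin N, (if c < t ∧ t < a then g (t + 1) - g t else 0) =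
      (if t < a then g (t + 1) - g t else 0) - (if t < c then g (t + 1) - g t else 0) -
        (if t = c then g (t + 1) - g t else 0) := by
    intro t
    rcases lt_trichotomy t c with h1 | h1 | h1
    · have h2 := h1.trans h
      simp [h1.not_gt, h2, h1, h1.ne]
    · subst h1
      simp [h]
    · simp [h1, h1.ne', h1.not_gt]
  rw [Finset.sum_congr rfl (fun t _ => e t), Finset.sum_sub_distrib, Finset.sum_sub_distrib,
    tele_lt', tele_lt', Finset.sum_ite_eq', if_pos (Finset.mem_univ _)]
  ring

theorem L3 {N : ℕ} (q : Aˣ) (c a : Fin N) (h : c < a) :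
    kapi q c * zp q (-1) - kapi q a * zp q 1 -
      zz q * ∑ x, (if c < x ∧ x < a then kapi q x else 0) = 0 := by
  have e : ∀ x : Fin N, zz q * (if c < x ∧ x < a then kapi q x else 0) =
      (if c < x ∧ x < a then -zp q (N - 2 * (((x : ℕ) + 1 : ℕ) : ℤ)) -
        -zp q (N - 2 * ((x : ℕ) : ℤ)) else 0) := by
    intro x
    by_cases hx : c < x ∧ x < a
    · rw [if_pos hx, if_pos hx]
      unfold kapi
      rw [zz_mul]
      push_cast
      rw [show ((N : ℤ) - 2 * ((x : ℤ) + 1)) = N - 1 - 2 * (x : ℤ) - 1 by ring,
        show ((N : ℤ) - 2 * (x : ℤ)) = N - 1 - 2 * (x : ℤ) + 1 by ring]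
      ring
    · rw [if_neg hx, if_neg hx, mul_zero]
  rw [Finset.mul_sum, Finset.sum_congr rfl (fun x _ => e x),
    tele_mid (fun k : ℕ => -zp q (N - 2 * (k : ℤ))) c a h]
  unfold kapi
  rw [← zp_add, ← zp_add]
  push_cast
  rw [show ((N : ℤ) - 1 - 2 * (c : ℤ) + -1) = N - 2 * ((c : ℤ) + 1) by ring,
    show ((N : ℤ) - 1 - 2 * (a : ℤ) + 1) = N - 2 * (a : ℤ) by ring]
  ring

theorem L4 {N : ℕ} (q : Aˣ) (c a : Fin N) (h : c < a) :
    kap q a * zp q (-1) - kap q c * zp q 1 -
      zz q * ∑ x, (if c < x ∧ x < a then kap q x else 0) = 0 := by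
  have e : ∀ x : Fin N, zz q * (if c < x ∧ x < a then kap q x else 0) =
      (if c < x ∧ x < a then zp q (2 * (((x : ℕ) + 1 : ℕ) : ℤ) - N) -
        zp q (2 * ((x : ℕ) : ℤ) - N) else 0) := by
    intro x
    by_cases hx : c < x ∧ x < a
    · rw [if_pos hx, if_pos hx]
      unfold kap
      rw [zz_mul]
      push_cast
      rw [show (2 * ((x : ℤ) + 1) - (N : ℤ)) = 2 * (x : ℤ) + 1 - N + 1 by ring,
        show (2 * (x : ℤ) - (N : ℤ)) = 2 * (x : ℤ) + 1 - N - 1 by ring]
    · rw [if_neg hx, if_neg hx, mul_zero]
  rw [Finset.mul_sum, Finset.sum_congr rfl (fun x _ => e x),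
    tele_mid (fun k : ℕ => zp q (2 * (k : ℤ) - N)) c a h]
  unfold kap
  rw [← zp_add, ← zp_add]
  push_cast
  rw [show (2 * (a : ℤ) + 1 - (N : ℤ) + -1) = 2 * (a : ℤ) - N by ring,
    show (2 * (c : ℤ) + 1 - (N : ℤ) + 1) = 2 * ((c : ℤ) + 1) - N by ring]
  ring

theorem pB_dg {N : ℕ} (q : Aˣ) (i t : Fin N) :
    pB q t i t i = (if t = i then zp q (1 - N) else 0) + (if t < i then zp q (-N) * zz q else 0) := by
  unfold pB
  rcases lt_trichotomy t i with h | h | h
  · simp [h, h.ne, h.ne']
  · subst h
    simp
  · simp [h.not_gt, h.ne']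

theorem nB_dg {N : ℕ} (q : Aˣ) (i t : Fin N) :
    nB q t i t i = (if t = i then zp q (N - 1) else 0) - (if i < t then zp q N * zz q else 0) := by
  unfold nB
  rcases lt_trichotomy t i with h | h | h
  · simp [h.not_gt, h.ne]
  · subst h
    simp
  · simp [h, h.ne, h.ne']

theorem r1 (q : Aˣ) (N : ℕ) : zp q (1 - N) * zp q (N - 1) = 1 := by
  rw [← zp_add, show (1 - (N : ℤ)) + (N - 1) = 0 by ring, zp_zero]

theorem r2 (q : Aˣ) (N : ℕ) : zp q (-N) * zp q (N - 1) = zp q (-1) := by
  rw [← zp_add, show (-(N : ℤ)) + (N - 1) = -1 by ring]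

theorem r3 (q : Aˣ) (N : ℕ) : zp q (1 - N) * zp q N = zp q 1 := by
  rw [← zp_add, show (1 - (N : ℤ)) + N = 1 by ring]

theorem r4 (q : Aˣ) (N : ℕ) : zp q (-N) * zp q N = 1 := by
  rw [← zp_add, show (-(N : ℤ)) + N = 0 by ring, zp_zero]

theorem J3p {N : ℕ} (q : Aˣ) (a c : Fin N) :
    ∑ x, kapi q x * (pB q x a x a * nB q x c x c) = if a = c then kapi q a else 0 := by
  simp only [pB_dg, nB_dg]
  rw [K_sum]
  have h1 := r1 q N
  have h2 := r2 q N
  have h3 := r3 q N
  have h4 := r4 q N
  rw [h1, mul_one]
  by_cases h : c < a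
  · rw [if_pos h, if_neg h.ne']
    have hL := L3 q c a h
    linear_combination zz q * hL + kapi q c * zz q * h2 - kapi q a * zz q * h3 -
      zz q * zz q * (∑ x, if c < x ∧ x < a then kapi q x else 0) * h4
  · rw [if_neg h, add_zero]

theorem J4p {N : ℕ} (q : Aˣ) (a c : Fin N) :
    ∑ x, kap q x * (pB q a x a x * nB q c x c x) = if a = c then kap q a else 0 := by
  have e : ∀ x : Fin N, kap q x * (pB q a x a x * nB q c x c x) =
      kap q x * (((if x = c then zp q (N - 1) else 0) + (if x < c then -(zp q N * zz q) else 0)) *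
        ((if x = a then zp q (1 - N) else 0) - (if a < x then -(zp q (-N) * zz q) else 0))) := by
    intro x
    rw [pB_dg, nB_dg]
    simp only [eq_comm (a := a), eq_comm (a := c)]
    split_ifs <;> ring
  rw [Finset.sum_congr rfl (fun x _ => e x), K_sum]
  have h1 := r1 q N
  have h2 := r2 q N
  have h3 := r3 q N
  have h4 := r4 q N
  rw [mul_comm (zp q (N - 1)) (zp q (1 - N)), h1, mul_one]
  by_cases h : a < c
  · rw [if_pos h, if_neg h.ne', if_neg h.ne]
    have hL := L4 q a c h
    linear_combination zz q * hL + kap q c * zz q * h2 - kap q a * zz q * h3 -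
      zz q * zz q * (∑ x, if a < x ∧ x < c then kap q x else 0) * h4
  · rw [if_neg h, add_zero]
    by_cases h' : a = c
    · subst h'
      rfl
    · rw [if_neg h', if_neg (fun hh => h' hh.symm)]

theorem J3 {N : ℕ} (q : Aˣ) (s : Bool) (a c : Fin N) :
    ∑ x, kapi q x * (xB q s x a x a * xB q (!s) x c x c) = if a = c then kapi q a else 0 := by
  cases s
  · simp only [xB, Bool.not_false, if_true, Bool.false_eq_true, if_false]
    have := J3p q c a
    simp only [mul_comm (nB q _ _ _ _) (pB q _ _ _ _)]
    rw [this]
    by_cases h : a = c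
    · subst h
      rfl
    · rw [if_neg h, if_neg (fun hh => h hh.symm)]
  · simp only [xB, Bool.not_true, if_true, Bool.false_eq_true, if_false]
    exact J3p q a c

theorem J4 {N : ℕ} (q : Aˣ) (s : Bool) (a c : Fin N) :
    ∑ x, kap q x * (xB q s a x a x * xB q (!s) c x c x) = if a = c then kap q a else 0 := by
  cases s
  · simp only [xB, Bool.not_false, if_true, Bool.false_eq_true, if_false]
    have := J4p q c a
    simp only [mul_comm (nB q _ _ _ _) (pB q _ _ _ _)]
    rw [this]
    by_cases h : a = c
    · subst h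
      rfl
    · rw [if_neg h, if_neg (fun hh => h hh.symm)]
  · simp only [xB, Bool.not_true, if_true, Bool.false_eq_true, if_false]
    exact J4p q a c

theorem xB_off {N : ℕ} (q : Aˣ) (s : Bool) (i j i' j' : Fin N) (h : i ≠ j) (h' : i' ≠ j') :
    xB q s i j j i * xB q (!s) i' j' j' i' = 1 := by
  have h4 := r4 q N
  cases s
  · simp only [xB, Bool.not_false, if_true, Bool.false_eq_true, if_false, pB, nB, if_neg h,
      if_neg h']
    simp only [h, h', and_self, if_true, false_and, and_false, if_false]
    linear_combination h4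
  · simp only [xB, Bool.not_true, if_true, Bool.false_eq_true, if_false, pB, nB, if_neg h,
      if_neg h']
    simp only [h, h', and_self, if_true, false_and, and_false, if_false]
    linear_combination h4

theorem xB_mul {N : ℕ} (q : Aˣ) (s : Bool) (i j k l : Fin N) :
    ∑ x, ∑ y, xB q (!s) i j x y * xB q s x y k l = if i = k ∧ j = l then 1 else 0 := by
  cases s
  · simp only [xB, Bool.not_false, if_true, Bool.false_eq_true, if_false]
    exact pB_mul_nB q i j k l
  · simp only [xB, Bool.not_true, if_true, Bool.false_eq_true, if_false]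
    exact nB_mul_pB q i j k l

theorem I3 {N : ℕ} (q : Aˣ) (s : Bool) (a b c d : Fin N) :
    ∑ x, ∑ y, kap q b * kapi q x * xB q s x a y b * xB q (!s) y d x c =
      if a = c ∧ b = d then 1 else 0 := by
  by_cases hab : a = b
  · subst hab
    have e : ∀ x y : Fin N, kap q a * kapi q x * xB q s x a y a * xB q (!s) y d x c =
        if y = x then kap q a * kapi q x * xB q s x a x a * xB q (!s) x d x c else 0 := by
      intro x y
      by_cases hy : y = x
      · rw [if_pos hy, hy]
      · rw [if_neg hy]
        have : xB q s x a y a = 0 := by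
          by_contra h
          rcases xB_cons q s x a y a h with ⟨h1, _⟩ | ⟨h1, h2⟩
          · exact hy h1
          · exact hy (h1.trans h2)
        rw [this]
        ring
    rw [Finset.sum_congr rfl (fun x _ => Finset.sum_congr rfl (fun y _ => e x y))]
    simp only [Finset.sum_ite_eq', Finset.mem_univ, if_true]
    by_cases hcd : c = d
    · subst hcd
      have e2 : ∀ x : Fin N, kap q a * kapi q x * xB q s x a x a * xB q (!s) x c x c =
          kap q a * (kapi q x * (xB q s x a x a * xB q (!s) x c x c)) := fun x => by ring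
      rw [Finset.sum_congr rfl (fun x _ => e2 x), ← Finset.mul_sum, J3]
      by_cases h : a = c
      · rw [if_pos h, if_pos ⟨h, h⟩, kap_mul_kapi]
      · rw [if_neg h, if_neg (fun hh => h hh.1), mul_zero]
    · rw [if_neg (fun hh => hcd (hh.1.symm.trans hh.2))]
      apply Finset.sum_eq_zero
      intro x _
      have : xB q (!s) x d x c = 0 := by
        by_contra h
        rcases xB_cons q (!s) x d x c h with ⟨_, h1⟩ | ⟨h1, h2⟩
        · exact hcd h1
        · exact hcd (h2.trans h1)
      rw [this, mul_zero]
  · have e0 : ∀ x y : Fin N, (x ≠ b ∨ y ≠ a) → xB q s x a y b = 0 := by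
      intro x y hxy
      by_contra h
      rcases xB_cons q s x a y b h with ⟨_, h1⟩ | ⟨h1, h2⟩
      · exact hab h1.symm
      · rcases hxy with h3 | h3
        · exact h3 h2.symm
        · exact h3 h1
    rw [Finset.sum_eq_single b]
    · rw [Finset.sum_eq_single a]
      · by_cases h : a = c ∧ b = d
        · obtain ⟨h1, h2⟩ := h
          subst h1
          subst h2
          rw [if_pos ⟨rfl, rfl⟩]
          have h3 := xB_off q s b a a b (fun hh => hab hh.symm) hab
          have h4 := kap_mul_kapi q b
          linear_combination kap q b * kapi q b * h3 + h4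
        · rw [if_neg h]
          have : xB q (!s) a d b c = 0 := by
            by_contra hh
            rcases xB_cons q (!s) a d b c hh with ⟨h1, _⟩ | ⟨h1, h2⟩
            · exact hab h1.symm
            · exact h ⟨h2.symm, h1⟩
          rw [this, mul_zero]
      · intro y _ hy
        rw [e0 b y (Or.inr hy)]
        ring
      · intro h
        exact absurd (Finset.mem_univ _) h
    · intro x _ hx
      apply Finset.sum_eq_zero
      intro y _
      rw [e0 x y (Or.inl hx)]
      ring
    · intro h
      exact absurd (Finset.mem_univ _) h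

theorem I4 {N : ℕ} (q : Aˣ) (s : Bool) (a b c d : Fin N) :
    ∑ x, ∑ y, xB q s b y a x * (kap q y * kapi q c * xB q (!s) c x d y) =
      if a = c ∧ b = d then 1 else 0 := by
  by_cases hab : a = b
  · subst hab
    have e : ∀ x y : Fin N, xB q s a y a x * (kap q y * kapi q c * xB q (!s) c x d y) =
        if y = x then xB q s a x a x * (kap q x * kapi q c * xB q (!s) c x d x) else 0 := by
      intro x y
      by_cases hy : y = x
      · rw [if_pos hy, hy]
      · rw [if_neg hy]
        have : xB q s a y a x = 0 := by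
          by_contra h
          rcases xB_cons q s a y a x h with ⟨_, h1⟩ | ⟨h1, h2⟩
          · exact hy h1.symm
          · exact hy (h1.symm.trans h2.symm)
        rw [this]
        ring
    rw [Finset.sum_congr rfl (fun x _ => Finset.sum_congr rfl (fun y _ => e x y))]
    simp only [Finset.sum_ite_eq', Finset.mem_univ, if_true]
    by_cases hcd : c = d
    · subst hcd
      have e2 : ∀ x : Fin N, xB q s a x a x * (kap q x * kapi q c * xB q (!s) c x c x) =
          kapi q c * (kap q x * (xB q s a x a x * xB q (!s) c x c x)) := fun x => by ring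
      rw [Finset.sum_congr rfl (fun x _ => e2 x), ← Finset.mul_sum, J4]
      by_cases h : a = c
      · subst h
        rw [if_pos rfl, if_pos ⟨rfl, rfl⟩, mul_comm, kap_mul_kapi]
      · rw [if_neg h, if_neg (fun hh => h hh.1), mul_zero]
    · rw [if_neg (fun hh => hcd (hh.1.symm.trans hh.2))]
      apply Finset.sum_eq_zero
      intro x _
      have : xB q (!s) c x d x = 0 := by
        by_contra h
        rcases xB_cons q (!s) c x d x h with ⟨h1, _⟩ | ⟨h1, h2⟩
        · exact hcd h1.symm
        · exact hcd (h2.symm.trans h1.symm)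
      rw [this]
      ring
  · have e0 : ∀ x y : Fin N, (x ≠ b ∨ y ≠ a) → xB q s b y a x = 0 := by
      intro x y hxy
      by_contra h
      rcases xB_cons q s b y a x h with ⟨h1, _⟩ | ⟨h1, h2⟩
      · exact hab h1
      · rcases hxy with h3 | h3
        · exact h3 h2
        · exact h3 h1.symm
    rw [Finset.sum_eq_single b]
    · rw [Finset.sum_eq_single a]
      · by_cases h : a = c ∧ b = d
        · obtain ⟨h1, h2⟩ := h
          subst h1
          subst h2
          rw [if_pos ⟨rfl, rfl⟩]
          have h3 := xB_off q s b a a b (fun hh => hab hh.symm) hab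
          have h4 := kap_mul_kapi q a
          linear_combination kap q a * kapi q a * h3 + h4
        · rw [if_neg h]
          have : xB q (!s) c b d a = 0 := by
            by_contra hh
            rcases xB_cons q (!s) c b d a hh with ⟨_, h1⟩ | ⟨h1, h2⟩
            · exact hab h1
            · exact h ⟨h2, h1.symm⟩
          rw [this]
          ring
      · intro y _ hy
        rw [e0 b y (Or.inr hy)]
        ring
      · intro h
        exact absurd (Finset.mem_univ _) h
    · intro x _ hx
      apply Finset.sum_eq_zero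
      intro y _
      rw [e0 x y (Or.inl hx)]
      ring
    · intro h
      exact absurd (Finset.mem_univ _) h

theorem wf_r2_aux (N : ℕ) (q : Aˣ) (s : Bool) (a b c d : Bool × Fin N) :
    ∑ x, ∑ y, xW q (!s) a b x y * xW q s x y c d = if a = c ∧ b = d then 1 else 0 := by
  obtain ⟨a0, a⟩ := a
  obtain ⟨b0, b⟩ := b
  obtain ⟨c0, c⟩ := c
  obtain ⟨d0, d⟩ := d
  simp only [Fintype.sum_prod_type, Fintype.sum_bool]
  cases a0 <;> cases b0 <;> cases c0 <;> cases d0 <;>
    simp only [xW, mul_zero, zero_mul, Finset.sum_const_zero, Prod.mk.injEq, false_and, true_and,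
      and_false, add_zero, zero_add, reduceCtorEq, if_false, Bool.not_not, Finset.sum_add_distrib]
  · -- D D D D
    rw [Finset.sum_comm]
    have h := xB_mul q (!s) d c b a
    rw [Bool.not_not] at h
    have e : ∀ x y : Fin N, xB q (!s) x y b a * xB q s d c x y =
        xB q s d c x y * xB q (!s) x y b a := fun x y => mul_comm _ _
    simp only [e]
    rw [h]
    by_cases hh : a = c ∧ b = d
    · rw [if_pos hh, if_pos ⟨hh.2.symm, hh.1.symm⟩]
    · rw [if_neg hh, if_neg (fun h3 => hh ⟨h3.2.symm, h3.1.symm⟩)]
  · exact I4 q s a b c d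
  · exact I3 q s a b c d
  · exact xB_mul q s a b c d

theorem wf_pn (N : ℕ) (q : Aˣ) (a b c d : Bool × Fin N) :
    ∑ x, ∑ y, (WF N q).neg a b x y * (WF N q).pos x y c d = if a = c ∧ b = d then 1 else 0 :=
  wf_r2_aux N q true a b c d

theorem wf_np (N : ℕ) (q : Aˣ) (a b c d : Bool × Fin N) :
    ∑ x, ∑ y, (WF N q).pos a b x y * (WF N q).neg x y c d = if a = c ∧ b = d then 1 else 0 :=
  wf_r2_aux N q false a b c d

end Pool.Agent.EVT
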