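import Pool.Agent.EVT.WE

/-!
# EVT module WG: from the mixed moves back to the third Reidemeister move

Labels have a type `ty : ι → Bool`, and the crossings exchange the types.  `R3T A B C`: the move `R3`
for lower labels of types `A, B, C` (and upper labels of types `C, B, A`).

Work with functions of three labels and the operators
`o0 M f a b c = ∑ x, ∑ y, M a b x y * f x y c`, `o1 M f a b c = ∑ x, ∑ y, M b c x y * f a x y`.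
By `pn`, `np`: `o0 pos (o0 neg f) = f`, `o0 neg (o0 pos f) = f`, the same for `o1`.

`conjR`: let `E1at` hold for all lower labels of types `C, A, B` and upper labels of types `B, A, C`.
Let `f` vanish outside lower labels of types `A, B, C`, and `g = o0 pos (o1 pos f)`; it vanishes
outside types `C, A, B`.  `E1` for `g`: `o0 pos (o1 neg (o0 neg g)) = o1 neg (o0 neg (o1 pos g))`.  The
left side is `o0 pos f`.  Apply `o0 pos ∘ o1 pos`: `o0 pos (o1 pos (o0 pos f)) = o1 pos g`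
`= o1 pos (o0 pos (o1 pos f))`.  Take for `f` the indicator function of `(s₁, s₂, s₃)`.

`conjL`: let `E2at` hold for lower labels of types `B, C, A`, `f` of types `A, B, C` and
`g = o1 pos (o0 pos f)`.  `E2` for `g`: `o1 pos (o0 neg (o1 neg g)) = o0 neg (o1 neg (o0 pos g))`; the
left side is `o1 pos f`; apply `o1 pos ∘ o0 pos`.

`r3_all`: if a triple of lower labels and a triple of upper labels are not of types `A, B, C` and
`C, B, A` then both sides of `R3` are `0` by `typ`.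
-/

namespace Pool.Agent.EVT

open Finset

variable {A ι : Type*} [CommRing A] [Fintype ι] [DecidableEq ι]

set_option linter.unusedSectionVars false

/-- the operator of a crossing at the strands 0, 1 -/
private def o0 (M : ι → ι → ι → ι → A) (f : ι → ι → ι → A) (a b c : ι) : A :=
  ∑ x, ∑ y, M a b x y * f x y c

/-- the operator of a crossing at the strands 1, 2 -/
private def o1 (M : ι → ι → ι → ι → A) (f : ι → ι → ι → A) (a b c : ι) : A :=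
  ∑ x, ∑ y, M b c x y * f a x y

/-- the coefficients of `o0 M₁ (o1 M₂ (o0 M₃ f))` -/
private def cA (M₁ M₂ M₃ : ι → ι → ι → ι → A) (t₁ t₂ t₃ s₁ s₂ s₃ : ι) : A :=
  ∑ u, ∑ v, ∑ w, M₁ t₁ t₂ u v * M₂ v t₃ w s₃ * M₃ u w s₁ s₂

/-- the coefficients of `o1 M₁ (o0 M₂ (o1 M₃ f))` -/
private def cB (M₁ M₂ M₃ : ι → ι → ι → ι → A) (t₁ t₂ t₃ s₁ s₂ s₃ : ι) : A :=
  ∑ u, ∑ v, ∑ w, M₁ t₂ t₃ u v * M₂ t₁ u s₁ w * M₃ w v s₂ s₃

private theorem sum3_prod (K : ι → ι → ι → A) :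
    ∑ u, ∑ v, ∑ w, K u v w = ∑ p : ι × ι × ι, K p.1 p.2.1 p.2.2 := by
  rw [Fintype.sum_prod_type]
  refine sum_congr rfl fun u _ => ?_
  rw [Fintype.sum_prod_type]

private theorem sum3_comm (H : ι → ι → ι → ι → ι → ι → A) :
    ∑ u, ∑ v, ∑ w, ∑ a, ∑ b, ∑ c, H u v w a b c =
      ∑ a, ∑ b, ∑ c, ∑ u, ∑ v, ∑ w, H u v w a b c := by
  calc ∑ u, ∑ v, ∑ w, ∑ a, ∑ b, ∑ c, H u v w a b c
      = ∑ p : ι × ι × ι, ∑ q : ι × ι × ι, H p.1 p.2.1 p.2.2 q.1 q.2.1 q.2.2 := by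
        rw [sum3_prod (fun u v w => ∑ a, ∑ b, ∑ c, H u v w a b c)]
        refine sum_congr rfl fun p _ => ?_
        exact sum3_prod (fun a b c => H p.1 p.2.1 p.2.2 a b c)
    _ = ∑ q : ι × ι × ι, ∑ p : ι × ι × ι, H p.1 p.2.1 p.2.2 q.1 q.2.1 q.2.2 := sum_comm
    _ = ∑ a, ∑ b, ∑ c, ∑ u, ∑ v, ∑ w, H u v w a b c := by
        rw [sum3_prod (fun a b c => ∑ u, ∑ v, ∑ w, H u v w a b c)]
        refine sum_congr rfl fun q _ => ?_
        exact (sum3_prod (fun u v w => H u v w q.1 q.2.1 q.2.2)).symm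

private theorem o_cA (M₁ M₂ M₃ : ι → ι → ι → ι → A) (f : ι → ι → ι → A) (t₁ t₂ t₃ : ι) :
    o0 M₁ (o1 M₂ (o0 M₃ f)) t₁ t₂ t₃ =
      ∑ s₁, ∑ s₂, ∑ s₃, cA M₁ M₂ M₃ t₁ t₂ t₃ s₁ s₂ s₃ * f s₁ s₂ s₃ := by
  have h1 : o0 M₁ (o1 M₂ (o0 M₃ f)) t₁ t₂ t₃ = ∑ u, ∑ v, ∑ w, ∑ s₁, ∑ s₂, ∑ s₃,
      M₁ t₁ t₂ u v * M₂ v t₃ w s₃ * M₃ u w s₁ s₂ * f s₁ s₂ s₃ := by
    unfold o0 o1
    refine sum_congr rfl fun u _ => sum_congr rfl fun v _ => ?_
    rw [mul_sum]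
    refine sum_congr rfl fun w _ => ?_
    simp only [mul_sum]
    rw [sum_comm]
    refine sum_congr rfl fun s₁ _ => ?_
    rw [sum_comm]
    refine sum_congr rfl fun s₂ _ => sum_congr rfl fun s₃ _ => ?_
    ring
  rw [h1, sum3_comm]
  refine sum_congr rfl fun s₁ _ => sum_congr rfl fun s₂ _ => sum_congr rfl fun s₃ _ => ?_
  unfold cA
  simp only [sum_mul]

private theorem o_cB (M₁ M₂ M₃ : ι → ι → ι → ι → A) (f : ι → ι → ι → A) (t₁ t₂ t₃ : ι) :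
    o1 M₁ (o0 M₂ (o1 M₃ f)) t₁ t₂ t₃ =
      ∑ s₁, ∑ s₂, ∑ s₃, cB M₁ M₂ M₃ t₁ t₂ t₃ s₁ s₂ s₃ * f s₁ s₂ s₃ := by
  have h1 : o1 M₁ (o0 M₂ (o1 M₃ f)) t₁ t₂ t₃ = ∑ u, ∑ v, ∑ w, ∑ s₁, ∑ s₂, ∑ s₃,
      M₁ t₂ t₃ u v * M₂ t₁ u s₁ w * M₃ w v s₂ s₃ * f s₁ s₂ s₃ := by
    unfold o0 o1
    refine sum_congr rfl fun u _ => sum_congr rfl fun v _ => ?_
    simp only [mul_sum]
    rw [sum_comm]
    refine sum_congr rfl fun w _ => sum_congr rfl fun s₁ _ => sum_congr rfl fun s₂ _ =>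
      sum_congr rfl fun s₃ _ => ?_
    ring
  rw [h1, sum3_comm]
  refine sum_congr rfl fun s₁ _ => sum_congr rfl fun s₂ _ => sum_congr rfl fun s₃ _ => ?_
  unfold cB
  simp only [sum_mul]

/-- inverse operators -/
private theorem o0_inv {M M' : ι → ι → ι → ι → A}
    (h : ∀ a b c d, ∑ x, ∑ y, M a b x y * M' x y c d = if a = c ∧ b = d then 1 else 0)
    (f : ι → ι → ι → A) : o0 M (o0 M' f) = f := by
  funext a b c
  unfold o0
  have h1 : ∑ x, ∑ y, M a b x y * ∑ x', ∑ y', M' x y x' y' * f x' y' c =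
      ∑ x', ∑ y', (∑ x, ∑ y, M a b x y * M' x y x' y') * f x' y' c := by
    simp only [mul_sum, sum_mul]
    calc ∑ x, ∑ y, ∑ x', ∑ y', M a b x y * (M' x y x' y' * f x' y' c)
        = ∑ x, ∑ x', ∑ y, ∑ y', M a b x y * (M' x y x' y' * f x' y' c) :=
          sum_congr rfl fun x _ => sum_comm
      _ = ∑ x', ∑ x, ∑ y, ∑ y', M a b x y * (M' x y x' y' * f x' y' c) := sum_comm
      _ = ∑ x', ∑ x, ∑ y', ∑ y, M a b x y * (M' x y x' y' * f x' y' c) :=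
          sum_congr rfl fun x' _ => sum_congr rfl fun x _ => sum_comm
      _ = ∑ x', ∑ y', ∑ x, ∑ y, M a b x y * (M' x y x' y' * f x' y' c) :=
          sum_congr rfl fun x' _ => sum_comm
      _ = ∑ x', ∑ y', ∑ x, ∑ y, M a b x y * M' x y x' y' * f x' y' c :=
          sum_congr rfl fun x' _ => sum_congr rfl fun y' _ => sum_congr rfl fun x _ =>
            sum_congr rfl fun y _ => by ring
  rw [h1]
  simp only [h]
  rw [sum_eq_single a]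
  · rw [sum_eq_single b]
    · simp
    · intro y _ hy
      rw [if_neg (fun h => hy h.2.symm), zero_mul]
    · intro hn
      exact absurd (mem_univ _) hn
  · intro x _ hx
    refine sum_eq_zero fun y _ => ?_
    rw [if_neg (fun h => hx h.1.symm), zero_mul]
  · intro hn
    exact absurd (mem_univ _) hn

private theorem o1_inv {M M' : ι → ι → ι → ι → A}
    (h : ∀ a b c d, ∑ x, ∑ y, M a b x y * M' x y c d = if a = c ∧ b = d then 1 else 0)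
    (f : ι → ι → ι → A) : o1 M (o1 M' f) = f := by
  funext a b c
  have h1 := congrFun (congrFun (congrFun (o0_inv h (fun x y z => f z x y)) b) c) a
  exact h1

/-- crossings exchange the types -/
private def Ty (ty : ι → Bool) (M : ι → ι → ι → ι → A) : Prop :=
  ∀ a b c d, M a b c d ≠ 0 → ty a = ty d ∧ ty b = ty c

private theorem cA_ty {ty : ι → Bool} {M₁ M₂ M₃ : ι → ι → ι → ι → A} (h₁ : Ty ty M₁)
    (h₂ : Ty ty M₂) (h₃ : Ty ty M₃) {t₁ t₂ t₃ s₁ s₂ s₃ : ι}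
    (h : ¬ (ty t₁ = ty s₃ ∧ ty t₂ = ty s₂ ∧ ty t₃ = ty s₁)) :
    cA M₁ M₂ M₃ t₁ t₂ t₃ s₁ s₂ s₃ = 0 := by
  unfold cA
  refine sum_eq_zero fun u _ => sum_eq_zero fun v _ => sum_eq_zero fun w _ => ?_
  by_contra hne
  have e3 : M₃ u w s₁ s₂ ≠ 0 := fun h0 => hne (by rw [h0, mul_zero])
  have e2 : M₂ v t₃ w s₃ ≠ 0 := fun h0 => hne (by rw [h0, mul_zero, zero_mul])
  have e1 : M₁ t₁ t₂ u v ≠ 0 := fun h0 => hne (by rw [h0, zero_mul, zero_mul])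
  have a1 := h₁ _ _ _ _ e1
  have a2 := h₂ _ _ _ _ e2
  have a3 := h₃ _ _ _ _ e3
  exact h ⟨a1.1.trans a2.1, a1.2.trans a3.1, a2.2.trans a3.2⟩

private theorem cB_ty {ty : ι → Bool} {M₁ M₂ M₃ : ι → ι → ι → ι → A} (h₁ : Ty ty M₁)
    (h₂ : Ty ty M₂) (h₃ : Ty ty M₃) {t₁ t₂ t₃ s₁ s₂ s₃ : ι}
    (h : ¬ (ty t₁ = ty s₃ ∧ ty t₂ = ty s₂ ∧ ty t₃ = ty s₁)) :
    cB M₁ M₂ M₃ t₁ t₂ t₃ s₁ s₂ s₃ = 0 := by
  unfold cB
  refine sum_eq_zero fun u _ => sum_eq_zero fun v _ => sum_eq_zero fun w _ => ?_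
  by_contra hne
  have e3 : M₃ w v s₂ s₃ ≠ 0 := fun h0 => hne (by rw [h0, mul_zero])
  have e2 : M₂ t₁ u s₁ w ≠ 0 := fun h0 => hne (by rw [h0, mul_zero, zero_mul])
  have e1 : M₁ t₂ t₃ u v ≠ 0 := fun h0 => hne (by rw [h0, zero_mul, zero_mul])
  have a1 := h₁ _ _ _ _ e1
  have a2 := h₂ _ _ _ _ e2
  have a3 := h₃ _ _ _ _ e3
  exact h ⟨a2.1.trans a3.1, a1.1.trans a3.2, a1.2.trans a2.2⟩

/-- `f` vanishes outside of the types `a, b, c` -/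
private def Su (ty : ι → Bool) (a b c : Bool) (f : ι → ι → ι → A) : Prop :=
  ∀ x y z, f x y z ≠ 0 → ty x = a ∧ ty y = b ∧ ty z = c

private theorem Su.o0 {ty : ι → Bool} {a b c : Bool} {f : ι → ι → ι → A}
    {M : ι → ι → ι → ι → A} (hM : Ty ty M) (hf : Su ty a b c f) : Su ty b a c (o0 M f) := by
  intro x y z h
  obtain ⟨x', -, h1⟩ := exists_ne_zero_of_sum_ne_zero h
  obtain ⟨y', -, h2⟩ := exists_ne_zero_of_sum_ne_zero h1
  have h3 := hM x y x' y' (fun h0 => h2 (by rw [h0, zero_mul]))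
  have h4 := hf x' y' z (fun h0 => h2 (by rw [h0, mul_zero]))
  exact ⟨h3.1.trans h4.2.1, h3.2.trans h4.1, h4.2.2⟩

private theorem Su.o1 {ty : ι → Bool} {a b c : Bool} {f : ι → ι → ι → A}
    {M : ι → ι → ι → ι → A} (hM : Ty ty M) (hf : Su ty a b c f) : Su ty a c b (o1 M f) := by
  intro x y z h
  obtain ⟨x', -, h1⟩ := exists_ne_zero_of_sum_ne_zero h
  obtain ⟨y', -, h2⟩ := exists_ne_zero_of_sum_ne_zero h1
  have h3 := hM y z x' y' (fun h0 => h2 (by rw [h0, zero_mul]))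
  have h4 := hf x x' y' (fun h0 => h2 (by rw [h0, mul_zero]))
  exact ⟨h4.1, h3.1.trans h4.2.2, h3.2.trans h4.2.1⟩

/-- equality of operators on functions with given types from the equality of coefficients -/
private theorem op_eq {ty : ι → Bool} {a b c : Bool} {P Q : ι → ι → ι → ι → ι → ι → A}
    (h : ∀ t₁ t₂ t₃ s₁ s₂ s₃, ty s₁ = a → ty s₂ = b → ty s₃ = c →
      P t₁ t₂ t₃ s₁ s₂ s₃ = Q t₁ t₂ t₃ s₁ s₂ s₃) {f : ι → ι → ι → A} (hf : Su ty a b c f)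
    (t₁ t₂ t₃ : ι) :
    ∑ s₁, ∑ s₂, ∑ s₃, P t₁ t₂ t₃ s₁ s₂ s₃ * f s₁ s₂ s₃ =
      ∑ s₁, ∑ s₂, ∑ s₃, Q t₁ t₂ t₃ s₁ s₂ s₃ * f s₁ s₂ s₃ := by
  refine sum_congr rfl fun s₁ _ => sum_congr rfl fun s₂ _ => sum_congr rfl fun s₃ _ => ?_
  by_cases h0 : f s₁ s₂ s₃ = 0
  · rw [h0, mul_zero, mul_zero]
  · obtain ⟨h1, h2, h3⟩ := hf _ _ _ h0
    rw [h t₁ t₂ t₃ s₁ s₂ s₃ h1 h2 h3]

/-- the indicator function -/
private def dlt (A : Type*) [CommRing A] (s₁ s₂ s₃ : ι) (x y z : ι) : A :=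
  if x = s₁ ∧ y = s₂ ∧ z = s₃ then 1 else 0

private theorem sum_dlt (P : ι → ι → ι → A) (s₁ s₂ s₃ : ι) :
    ∑ x, ∑ y, ∑ z, P x y z * dlt A s₁ s₂ s₃ x y z = P s₁ s₂ s₃ := by
  rw [sum_eq_single s₁]
  · rw [sum_eq_single s₂]
    · rw [sum_eq_single s₃]
      · simp [dlt]
      · intro z _ hz
        rw [dlt, if_neg (fun h => hz h.2.2), mul_zero]
      · intro hn
        exact absurd (mem_univ _) hn
    · intro y _ hy
      refine sum_eq_zero fun z _ => ?_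
      rw [dlt, if_neg (fun h => hy h.2.1), mul_zero]
    · intro hn
      exact absurd (mem_univ _) hn
  · intro x _ hx
    refine sum_eq_zero fun y _ => sum_eq_zero fun z _ => ?_
    rw [dlt, if_neg (fun h => hx h.1), mul_zero]
  · intro hn
    exact absurd (mem_univ _) hn

private theorem su_dlt {ty : ι → Bool} {a b c : Bool} {s₁ s₂ s₃ : ι} (h₁ : ty s₁ = a)
    (h₂ : ty s₂ = b) (h₃ : ty s₃ = c) : Su ty a b c (dlt A s₁ s₂ s₃) := by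
  intro x y z h
  by_cases h0 : x = s₁ ∧ y = s₂ ∧ z = s₃
  · obtain ⟨rfl, rfl, rfl⟩ := h0
    exact ⟨h₁, h₂, h₃⟩
  · rw [dlt, if_neg h0] at h
    exact absurd rfl h

/-- the move `R3` for lower labels of types `a, b, c` -/
def R3T (F : FD A ι) (ty : ι → Bool) (a b c : Bool) : Prop :=
  ∀ t₁ t₂ t₃ s₁ s₂ s₃ : ι, ty s₁ = a → ty s₂ = b → ty s₃ = c → ty t₁ = c → ty t₂ = b → ty t₃ = a →
    R3at F t₁ t₂ t₃ s₁ s₂ s₃

theorem conjR (F : FD A ι) (ty : ι → Bool)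
    (typ : ∀ a b c d, F.pos a b c d ≠ 0 → ty a = ty d ∧ ty b = ty c)
    (tyn : ∀ a b c d, F.neg a b c d ≠ 0 → ty a = ty d ∧ ty b = ty c)
    (pn : ∀ a b c d, ∑ x, ∑ y, F.neg a b x y * F.pos x y c d = if a = c ∧ b = d then 1 else 0)
    (np : ∀ a b c d, ∑ x, ∑ y, F.pos a b x y * F.neg x y c d = if a = c ∧ b = d then 1 else 0)
    (a b c : Bool)
    (h : ∀ t₁ t₂ t₃ s₁ s₂ s₃ : ι, ty s₁ = c → ty s₂ = a → ty s₃ = b → ty t₁ = b → ty t₂ = a →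
      ty t₃ = c → E1at F t₁ t₂ t₃ s₁ s₂ s₃) : R3T F ty a b c := by
  intro t₁ t₂ t₃ s₁ s₂ s₃ h1 h2 h3 _ _ _
  have typ' : Ty ty F.pos := typ
  have tyn' : Ty ty F.neg := tyn
  have hf : Su ty a b c (dlt A s₁ s₂ s₃) := su_dlt h1 h2 h3
  have hg : Su ty c a b (o0 F.pos (o1 F.pos (dlt A s₁ s₂ s₃))) := (hf.o1 typ').o0 typ'
  have hE : o0 F.pos (o1 F.neg (o0 F.neg (o0 F.pos (o1 F.pos (dlt A s₁ s₂ s₃))))) =
      o1 F.neg (o0 F.neg (o1 F.pos (o0 F.pos (o1 F.pos (dlt A s₁ s₂ s₃))))) := by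
    funext x y z
    rw [o_cA, o_cB]
    refine op_eq (P := cA F.pos F.neg F.neg) (Q := cB F.neg F.neg F.pos) (fun t₁ t₂ t₃ s₁ s₂ s₃
      e1 e2 e3 => ?_) hg x y z
    by_cases ht : ty t₁ = ty s₃ ∧ ty t₂ = ty s₂ ∧ ty t₃ = ty s₁
    · obtain ⟨ht1, ht2, ht3⟩ := ht
      exact h t₁ t₂ t₃ s₁ s₂ s₃ e1 e2 e3 (ht1.trans e3) (ht2.trans e2) (ht3.trans e1)
    · rw [cA_ty typ' tyn' tyn' ht, cB_ty tyn' tyn' typ' ht]
  rw [o0_inv pn, o1_inv pn] at hE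
  have hE2 := congrArg (fun f => o0 F.pos (o1 F.pos f)) hE
  rw [o1_inv np, o0_inv np] at hE2
  have hE3 := congrFun (congrFun (congrFun hE2 t₁) t₂) t₃
  rw [o_cA, o_cB, sum_dlt, sum_dlt] at hE3
  exact hE3

theorem conjL (F : FD A ι) (ty : ι → Bool)
    (typ : ∀ a b c d, F.pos a b c d ≠ 0 → ty a = ty d ∧ ty b = ty c)
    (tyn : ∀ a b c d, F.neg a b c d ≠ 0 → ty a = ty d ∧ ty b = ty c)
    (pn : ∀ a b c d, ∑ x, ∑ y, F.neg a b x y * F.pos x y c d = if a = c ∧ b = d then 1 else 0)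
    (np : ∀ a b c d, ∑ x, ∑ y, F.pos a b x y * F.neg x y c d = if a = c ∧ b = d then 1 else 0)
    (a b c : Bool)
    (h : ∀ t₁ t₂ t₃ s₁ s₂ s₃ : ι, ty s₁ = b → ty s₂ = c → ty s₃ = a → ty t₁ = a → ty t₂ = c →
      ty t₃ = b → E2at F t₁ t₂ t₃ s₁ s₂ s₃) : R3T F ty a b c := by
  intro t₁ t₂ t₃ s₁ s₂ s₃ h1 h2 h3 _ _ _
  have typ' : Ty ty F.pos := typ
  have tyn' : Ty ty F.neg := tyn
  have hf : Su ty a b c (dlt A s₁ s₂ s₃) := su_dlt h1 h2 h3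
  have hg : Su ty b c a (o1 F.pos (o0 F.pos (dlt A s₁ s₂ s₃))) := (hf.o0 typ').o1 typ'
  have hE : o1 F.pos (o0 F.neg (o1 F.neg (o1 F.pos (o0 F.pos (dlt A s₁ s₂ s₃))))) =
      o0 F.neg (o1 F.neg (o0 F.pos (o1 F.pos (o0 F.pos (dlt A s₁ s₂ s₃))))) := by
    funext x y z
    rw [o_cA, o_cB]
    refine op_eq (P := cB F.pos F.neg F.neg) (Q := cA F.neg F.neg F.pos) (fun t₁ t₂ t₃ s₁ s₂ s₃
      e1 e2 e3 => ?_) hg x y z
    by_cases ht : ty t₁ = ty s₃ ∧ ty t₂ = ty s₂ ∧ ty t₃ = ty s₁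
    · obtain ⟨ht1, ht2, ht3⟩ := ht
      exact h t₁ t₂ t₃ s₁ s₂ s₃ e1 e2 e3 (ht1.trans e3) (ht2.trans e2) (ht3.trans e1)
    · rw [cB_ty typ' tyn' tyn' ht, cA_ty tyn' tyn' typ' ht]
  rw [o1_inv pn, o0_inv pn] at hE
  have hE2 := congrArg (fun f => o1 F.pos (o0 F.pos f)) hE
  rw [o0_inv np, o1_inv np] at hE2
  have hE3 := congrFun (congrFun (congrFun hE2 t₁) t₂) t₃
  rw [o_cA, o_cB, sum_dlt, sum_dlt] at hE3
  exact hE3.symm

theorem r3_all (F : FD A ι) (ty : ι → Bool)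
    (typ : ∀ a b c d, F.pos a b c d ≠ 0 → ty a = ty d ∧ ty b = ty c)
    (h : ∀ a b c, R3T F ty a b c) (t₁ t₂ t₃ s₁ s₂ s₃ : ι) : R3at F t₁ t₂ t₃ s₁ s₂ s₃ := by
  have typ' : Ty ty F.pos := typ
  by_cases ht : ty t₁ = ty s₃ ∧ ty t₂ = ty s₂ ∧ ty t₃ = ty s₁
  · obtain ⟨ht1, ht2, ht3⟩ := ht
    exact h (ty s₁) (ty s₂) (ty s₃) t₁ t₂ t₃ s₁ s₂ s₃ rfl rfl rfl ht1 ht2 ht3
  · have h1 := cA_ty typ' typ' typ' ht
    have h2 := cB_ty typ' typ' typ' ht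
    unfold R3at
    exact h1.trans h2.symm

end Pool.Agent.EVT
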