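import Pool.Agent.EVT.WB
import Pool.Agent.EVT.WD
import Pool.Agent.EVT.WG

/-!
# EVT module WH: the third Reidemeister move for all orientations

Types: `ty a = a.1`.  `typ`, `tyn` by the definition of `xW` (cases).
* `R3T true true true` is `r3B`; `R3T false false false` is `r3B` for the reversed labels
  (`pos (false, a) (false, b) (false, c) (false, d) = pB q d c b a`: the left side of `R3` at
  `(t; s)` is the right side of `r3B` at `(s₃ s₂ s₁; t₃ t₂ t₁)` and conversely).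
* right step: `R3T a b c` implies `R3T a b (!c)`: by `bendR` the move `E1` holds for lower labels of
  types `(!c, a, b)` (dual labels have the other type); `conjR`.
* left step: `R3T a b c` implies `R3T (!a) b c`: `bendL` and `conjL`.
* All eight types: from `UUU`: right step `UUD`, left steps `DUU`, `DUD`; from `DDD`: `DDU`, `UDD`,
  `UDU`.  Then `r3_all`.
-/

namespace Pool.Agent.EVT

open Finset

variable {A : Type*} [CommRing A]

theorem wf_ty (N : ℕ) (q : Aˣ) (s : Bool) (a b c d : Bool × Fin N) (h : xW q s a b c d ≠ 0) :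
    a.1 = d.1 ∧ b.1 = c.1 := by
  obtain ⟨a1, a2⟩ := a
  obtain ⟨b1, b2⟩ := b
  obtain ⟨c1, c2⟩ := c
  obtain ⟨d1, d2⟩ := d
  cases a1 <;> cases b1 <;> cases c1 <;> cases d1 <;> simp_all [xW]

/-- a sum over labels whose terms vanish for one type -/
theorem WH_sum_true {N : ℕ} (g : Bool × Fin N → A) (h : ∀ i, g (false, i) = 0) :
    ∑ x, g x = ∑ i, g (true, i) := by
  rw [Fintype.sum_prod_type, Fintype.sum_bool, Finset.sum_eq_zero (fun i _ => h i), add_zero]

theorem WH_sum_false {N : ℕ} (g : Bool × Fin N → A) (h : ∀ i, g (true, i) = 0) :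
    ∑ x, g x = ∑ i, g (false, i) := by
  rw [Fintype.sum_prod_type, Fintype.sum_bool, Finset.sum_eq_zero (fun i _ => h i), zero_add]

theorem WH_tri_true {N : ℕ} (g : Bool × Fin N → Bool × Fin N → Bool × Fin N → A)
    (h1 : ∀ i v w, g (false, i) v w = 0) (h2 : ∀ i v w, g v (false, i) w = 0)
    (h3 : ∀ i v w, g v w (false, i) = 0) :
    ∑ u, ∑ v, ∑ w, g u v w = ∑ u, ∑ v, ∑ w, g (true, u) (true, v) (true, w) := by
  rw [WH_sum_true (fun u => ∑ v, ∑ w, g u v w) (fun i => by simp [h1])]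
  refine Finset.sum_congr rfl fun u _ => ?_
  rw [WH_sum_true (fun v => ∑ w, g (true, u) v w) (fun i => by simp [h2])]
  refine Finset.sum_congr rfl fun v _ => ?_
  rw [WH_sum_true (fun w => g (true, u) (true, v) w) (fun i => by simp [h3])]

theorem WH_tri_false {N : ℕ} (g : Bool × Fin N → Bool × Fin N → Bool × Fin N → A)
    (h1 : ∀ i v w, g (true, i) v w = 0) (h2 : ∀ i v w, g v (true, i) w = 0)
    (h3 : ∀ i v w, g v w (true, i) = 0) :
    ∑ u, ∑ v, ∑ w, g u v w = ∑ u, ∑ v, ∑ w, g (false, u) (false, v) (false, w) := by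
  rw [WH_sum_false (fun u => ∑ v, ∑ w, g u v w) (fun i => by simp [h1])]
  refine Finset.sum_congr rfl fun u _ => ?_
  rw [WH_sum_false (fun v => ∑ w, g (false, u) v w) (fun i => by simp [h2])]
  refine Finset.sum_congr rfl fun v _ => ?_
  rw [WH_sum_false (fun w => g (false, u) (false, v) w) (fun i => by simp [h3])]

theorem WH_UUU (N : ℕ) (q : Aˣ) : R3T (WF N q) (fun a : Bool × Fin N => a.1) true true true := by
  rintro ⟨t1, t₁⟩ ⟨t2, t₂⟩ ⟨t3, t₃⟩ ⟨s1, s₁⟩ ⟨s2, s₂⟩ ⟨s3, s₃⟩ h1 h2 h3 h4 h5 h6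
  dsimp only at h1 h2 h3 h4 h5 h6
  subst h1 h2 h3 h4 h5 h6
  unfold R3at
  have e : (WF N q).pos = xW q true := rfl
  rw [e]
  rw [WH_tri_true (fun u v w => xW q true (true, t₁) (true, t₂) u v *
      xW q true v (true, t₃) w (true, s₃) * xW q true u w (true, s₁) (true, s₂)),
    WH_tri_true (fun u v w => xW q true (true, t₂) (true, t₃) u v *
      xW q true (true, t₁) u (true, s₁) w * xW q true w v (true, s₂) (true, s₃))]
  · exact r3B q t₁ t₂ t₃ s₁ s₂ s₃
  all_goals
    rintro i ⟨v, v'⟩ ⟨w, w'⟩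
    cases v <;> cases w <;> simp [xW]

theorem WH_rot {N : ℕ} (g : Fin N → Fin N → Fin N → A) :
    ∑ u, ∑ v, ∑ w, g u v w = ∑ u, ∑ v, ∑ w, g v w u := by
  rw [Finset.sum_comm' (s := univ) (t := fun _ => univ) (s' := fun _ => univ) (t' := univ)
    (by simp)]
  refine (Finset.sum_congr rfl fun v _ => ?_ : _ = ∑ v, ∑ w, ∑ u, g u v w).trans ?_
  · exact Finset.sum_comm
  · rw [Finset.sum_comm]
    refine (Finset.sum_congr rfl fun w _ => Finset.sum_comm : _ = ∑ w, ∑ u, ∑ v, g u v w).trans ?_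
    rfl

theorem WH_DDD (N : ℕ) (q : Aˣ) : R3T (WF N q) (fun a : Bool × Fin N => a.1) false false false := by
  rintro ⟨t1, t₁⟩ ⟨t2, t₂⟩ ⟨t3, t₃⟩ ⟨s1, s₁⟩ ⟨s2, s₂⟩ ⟨s3, s₃⟩ h1 h2 h3 h4 h5 h6
  dsimp only at h1 h2 h3 h4 h5 h6
  subst h1 h2 h3 h4 h5 h6
  unfold R3at
  have e : (WF N q).pos = xW q true := rfl
  rw [e]
  rw [WH_tri_false (fun u v w => xW q true (false, t₁) (false, t₂) u v *
      xW q true v (false, t₃) w (false, s₃) * xW q true u w (false, s₁) (false, s₂)),
    WH_tri_false (fun u v w => xW q true (false, t₂) (false, t₃) u v *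
      xW q true (false, t₁) u (false, s₁) w * xW q true w v (false, s₂) (false, s₃))]
  · have h := r3B q s₃ s₂ s₁ t₃ t₂ t₁
    have hL : ∑ u, ∑ v, ∑ w, xW q true (false, t₁) (false, t₂) (false, u) (false, v) *
        xW q true (false, v) (false, t₃) (false, w) (false, s₃) *
          xW q true (false, u) (false, w) (false, s₁) (false, s₂) =
        ∑ u, ∑ v, ∑ w, pB q s₂ s₁ u v * pB q s₃ u t₃ w * pB q w v t₂ t₁ := by
      rw [WH_rot (fun u v w => xW q true (false, t₁) (false, t₂) (false, u) (false, v) *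
        xW q true (false, v) (false, t₃) (false, w) (false, s₃) *
          xW q true (false, u) (false, w) (false, s₁) (false, s₂))]
      refine Finset.sum_congr rfl fun u _ => Finset.sum_congr rfl fun v _ =>
        Finset.sum_congr rfl fun w _ => ?_
      simp only [xW, xB, if_true]
      ring
    have hR : ∑ u, ∑ v, ∑ w, xW q true (false, t₂) (false, t₃) (false, u) (false, v) *
        xW q true (false, t₁) (false, u) (false, s₁) (false, w) *
          xW q true (false, w) (false, v) (false, s₂) (false, s₃) =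
        ∑ u, ∑ v, ∑ w, pB q s₃ s₂ u v * pB q v s₁ w t₁ * pB q u w t₃ t₂ := by
      rw [WH_rot (fun u v w => pB q s₃ s₂ u v * pB q v s₁ w t₁ * pB q u w t₃ t₂)]
      refine Finset.sum_congr rfl fun u _ => Finset.sum_congr rfl fun v _ =>
        Finset.sum_congr rfl fun w _ => ?_
      simp only [xW, xB, if_true]
      ring
    rw [hL, hR, h]
  all_goals
    rintro i ⟨v, v'⟩ ⟨w, w'⟩
    cases v <;> cases w <;> simp [xW]

theorem wf_r3 (N : ℕ) (q : Aˣ) (t₁ t₂ t₃ s₁ s₂ s₃ : Bool × Fin N) :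
    ∑ u, ∑ v, ∑ w, (WF N q).pos t₁ t₂ u v * (WF N q).pos v t₃ w s₃ * (WF N q).pos u w s₁ s₂ =
      ∑ u, ∑ v, ∑ w, (WF N q).pos t₂ t₃ u v * (WF N q).pos t₁ u s₁ w *
        (WF N q).pos w v s₂ s₃ := by
  set F := WF N q with hF
  let ty : Bool × Fin N → Bool := fun a => a.1
  have typ : ∀ a b c d, F.pos a b c d ≠ 0 → ty a = ty d ∧ ty b = ty c := wf_ty N q true
  have tyn : ∀ a b c d, F.neg a b c d ≠ 0 → ty a = ty d ∧ ty b = ty c := wf_ty N q false
  have hd : ∀ a, ty (F.dual a) = !(ty a) := fun a => rfl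
  have hR : ∀ a b c, R3T F ty a b c → R3T F ty a b (!c) := by
    intro a b c h
    refine conjR F ty typ tyn (wf_pn N q) (wf_np N q) a b (!c) ?_
    intro t₁ t₂ t₃ s₁ s₂ s₃ h1 h2 h3 h4 h5 h6
    refine bendR F (wf_dd N q) (wf_zig N q) (wf_rotp N q) t₁ t₂ t₃ s₁ s₂ s₃ ?_
    refine h _ _ _ _ _ _ h2 h3 ?_ ?_ h4 h5
    · rw [hd, h6, Bool.not_not]
    · rw [hd, h1, Bool.not_not]
  have hL : ∀ a b c, R3T F ty a b c → R3T F ty (!a) b c := by
    intro a b c h
    refine conjL F ty typ tyn (wf_pn N q) (wf_np N q) (!a) b c ?_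
    intro t₁ t₂ t₃ s₁ s₂ s₃ h1 h2 h3 h4 h5 h6
    refine bendL F (wf_dd N q) (wf_zig N q) (wf_rotn N q) t₁ t₂ t₃ s₁ s₂ s₃ ?_
    refine h _ _ _ _ _ _ ?_ h1 h2 h5 h6 ?_
    · rw [hd, h4, Bool.not_not]
    · rw [hd, h3, Bool.not_not]
  have uuu : R3T F ty true true true := WH_UUU N q
  have ddd : R3T F ty false false false := WH_DDD N q
  have uud : R3T F ty true true false := hR _ _ _ uuu
  have duu : R3T F ty false true true := hL _ _ _ uuu
  have dud : R3T F ty false true false := hL _ _ _ uud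
  have ddu : R3T F ty false false true := hR _ _ _ ddd
  have udd : R3T F ty true false false := hL _ _ _ ddd
  have udu : R3T F ty true false true := hL _ _ _ ddu
  refine r3_all F ty typ ?_ t₁ t₂ t₃ s₁ s₂ s₃
  intro a b c
  cases a <;> cases b <;> cases c <;> assumption

end Pool.Agent.EVT
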