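import Pool.Agent.EVT.WC
import Pool.Agent.EVT.WH
import Pool.Agent.EVT.GF
import Pool.Agent.EVT.GE
import Pool.Agent.Helper77.ST.RLau

/-!
# EVT module WI: isotopy invariants and Vassiliev invariants

Compare `Pool/Agent/Helper77/ST/RVass.lean`.
* `wf_inv`: collect the modules WB, WC, WD, WH.
* `WF_map`: `FD.ext`-like (structure equality), `map_zp`: `φ (zp q x) = zp (Units.map φ q) x`.
* `val_map`: `FD.map_RT`, `WF_map`, `φ (ket A w u) = ket B w u`.
* `val_isotopic`: `FD.Inv.isotopic`.
* `val_nil`: `RT [] f = f`.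
* `VI N j D` is the coefficient number `j` of the value at `q = 1 + X`.  `vi_vassiliev`: invariance by
  `val_isotopic`; finiteness: `alt` commutes with the coefficient (`alt_coeff` in
  `Helper77/ST/RVass.lean`, copy it), `FD.alt_RT`, `FD.sRT_dvd` with `x = X`,
  `PowerSeries.X_pow_dvd_iff`.  The condition `X ∣ pos - neg`: the constant coefficient is `0`, since
  by `WF_map` for `PowerSeries.constantCoeff` it is the difference for `q = 1` over `ℚ`, where
  `zz 1 = 0`, all powers are `1`, so `pB 1 = nB 1` and `xW 1 true = xW 1 false`.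
* `val_tU_eq`: if all coefficients agree then the values at `psU` agree, and by
  `ST.laurent_ps` (injectivity of `T ↦ 1 + X`) and `val_map` those at `tU`.
* `val_real`: `val_map` for `LaurentPolynomial.eval₂ (algebraMap ℚ ℝ) q`, which sends `tU` to `q`
  (compare `eval_tU` in `Helper77/ST/RVass.lean`).
-/

namespace Pool.Agent.EVT

open Finset
open Pool.Agent.Helper9.Kashaev (Piece Diagram)
open Pool.Agent.Helper77
open Pool.Agent.Helper77.ST (Isotopic SDiagram dbls alt IsVassiliev tU psU)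

theorem wf_inv {A : Type*} [CommRing A] (N : ℕ) (q : Aˣ) : (WF N q).Inv where
  dd := wf_dd N q
  zig := wf_zig N q
  cup1p := wf_cup1p N q
  cup1n := wf_cup1n N q
  cap1p := wf_cap1p N q
  cap1n := wf_cap1n N q
  pn := wf_pn N q
  np := wf_np N q
  r3 := wf_r3 N q
  rotp := wf_rotp N q
  rotn := wf_rotn N q

theorem wi_map_zp {A B : Type*} [CommRing A] [CommRing B] (φ : A →+* B) (q : Aˣ) (x : ℤ) :
    φ (zp q x) = zp (Units.map (φ : A →* B) q) x := by
  unfold zp
  rw [← map_zpow]
  rfl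

theorem wi_map_zz {A B : Type*} [CommRing A] [CommRing B] (φ : A →+* B) (q : Aˣ) :
    φ (zz q) = zz (Units.map (φ : A →* B) q) := by
  unfold zz
  rw [map_sub, wi_map_zp, wi_map_zp]

theorem wi_map_pB {A B : Type*} [CommRing A] [CommRing B] (φ : A →+* B) {N : ℕ} (q : Aˣ)
    (i j k l : Fin N) : φ (pB q i j k l) = pB (Units.map (φ : A →* B) q) i j k l := by
  unfold pB
  simp only [apply_ite φ, map_mul, map_add, map_zero, map_one, wi_map_zp, wi_map_zz]

theorem wi_map_nB {A B : Type*} [CommRing A] [CommRing B] (φ : A →+* B) {N : ℕ} (q : Aˣ)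
    (i j k l : Fin N) : φ (nB q i j k l) = nB (Units.map (φ : A →* B) q) i j k l := by
  unfold nB
  simp only [apply_ite φ, map_mul, map_sub, map_zero, map_one, wi_map_zp, wi_map_zz]

theorem wi_map_xB {A B : Type*} [CommRing A] [CommRing B] (φ : A →+* B) {N : ℕ} (q : Aˣ)
    (s : Bool) (i j k l : Fin N) :
    φ (xB q s i j k l) = xB (Units.map (φ : A →* B) q) s i j k l := by
  unfold xB
  split
  · exact wi_map_pB φ q i j k l
  · exact wi_map_nB φ q i j k l

theorem wi_map_xW {A B : Type*} [CommRing A] [CommRing B] (φ : A →+* B) {N : ℕ} (q : Aˣ)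
    (s : Bool) (a b c d : Bool × Fin N) :
    φ (xW q s a b c d) = xW (Units.map (φ : A →* B) q) s a b c d := by
  obtain ⟨a1, a2⟩ := a
  obtain ⟨b1, b2⟩ := b
  obtain ⟨c1, c2⟩ := c
  obtain ⟨d1, d2⟩ := d
  cases a1 <;> cases b1 <;> cases c1 <;> cases d1 <;>
    simp [xW, wi_map_xB, kap, kapi, wi_map_zp]

theorem WF_map {A B : Type*} [CommRing A] [CommRing B] (φ : A →+* B) (N : ℕ) (q : Aˣ) :
    (WF N q).map φ = WF N (Units.map (φ : A →* B) q) := by
  unfold WF FD.map
  simp only [FD.mk.injEq, true_and]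
  refine ⟨?_, ?_, ?_, ?_⟩
  · funext a
    simp only [apply_ite φ, map_one, kap, wi_map_zp]
  · funext a
    simp only [apply_ite φ, map_one, kapi, wi_map_zp]
  · funext a b c d
    exact wi_map_xW φ q true a b c d
  · funext a b c d
    exact wi_map_xW φ q false a b c d

theorem val_map {A B : Type*} [CommRing A] [CommRing B] (φ : A →+* B) (N : ℕ) [NeZero N] (q : Aˣ)
    (D : Diagram) : φ (val N q D) = val N (Units.map (φ : A →* B) q) D := by
  unfold val
  rw [FD.map_RT, WF_map]
  congr 1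
  funext u
  unfold ket
  simp only [apply_ite φ, map_one, map_zero]

theorem val_isotopic {A : Type*} [CommRing A] (N : ℕ) [NeZero N] (q : Aˣ) {D D' : Diagram}
    (h : Isotopic D D') : val N q D = val N q D' :=
  (wf_inv N q).isotopic h _ _ rfl

theorem val_nil {A : Type*} [CommRing A] (N : ℕ) [NeZero N] (q : Aˣ) : val N q [] = 1 := by
  unfold val ket FD.RT
  simp

/-- a coefficient of the value at `q = 1 + X` -/
noncomputable def VI (N : ℕ) [NeZero N] (j : ℕ) (D : Diagram) : ℚ :=
  PowerSeries.coeff j (val N psU D)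

theorem vi_isotopic (N : ℕ) [NeZero N] (j : ℕ) {D D' : Diagram} (h : Isotopic D D') :
    VI N j D = VI N j D' := by
  unfold VI
  rw [val_isotopic N psU h]

theorem wi_alt_coeff (j : ℕ) (Φ : Diagram → PowerSeries ℚ) : ∀ (S : SDiagram) (D : Diagram),
    alt (fun D => PowerSeries.coeff j (Φ D)) D S = PowerSeries.coeff j (alt Φ D S) := by
  intro S
  induction S with
  | nil => intro D; rfl
  | cons s S ih =>
    obtain ⟨k, p⟩ := s
    intro D
    cases p with
    | reg p => exact ih _
    | dbl =>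
      simp only [alt]
      rw [ih, ih, map_sub]

theorem wi_one_zp (x : ℤ) : zp (1 : ℚˣ) x = 1 := by
  unfold zp
  simp

theorem wi_one_xB {N : ℕ} (i j k l : Fin N) (s t : Bool) :
    xB (1 : ℚˣ) s i j k l = xB 1 t i j k l := by
  have h : pB (1 : ℚˣ) i j k l = nB 1 i j k l := by
    unfold pB nB zz
    simp [wi_one_zp]
  cases s <;> cases t <;> simp [xB, h]

theorem wi_one_xW {N : ℕ} (a b c d : Bool × Fin N) :
    xW (1 : ℚˣ) true a b c d = xW 1 false a b c d := by
  obtain ⟨a1, a2⟩ := a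
  obtain ⟨b1, b2⟩ := b
  obtain ⟨c1, c2⟩ := c
  obtain ⟨d1, d2⟩ := d
  cases a1 <;> cases b1 <;> cases c1 <;> cases d1 <;>
    simp [xW, wi_one_xB _ _ _ _ true false]

theorem wi_dvd (N : ℕ) (a b c d : Bool × Fin N) :
    (PowerSeries.X : PowerSeries ℚ) ∣ (WF N psU).pos a b c d - (WF N psU).neg a b c d := by
  rw [PowerSeries.X_dvd_iff]
  change PowerSeries.constantCoeff (xW psU true a b c d - xW psU false a b c d) = 0
  rw [map_sub, wi_map_xW, wi_map_xW]
  have h : Units.map ((PowerSeries.constantCoeff (R := ℚ) : PowerSeries ℚ →+* ℚ) :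
      PowerSeries ℚ →* ℚ) psU = 1 := by
    ext
    change PowerSeries.constantCoeff (1 + PowerSeries.X : PowerSeries ℚ) = 1
    simp
  rw [h, wi_one_xW, sub_self]

theorem vi_alt (N : ℕ) [NeZero N] (j : ℕ) (D : Diagram) (S : SDiagram) (h : j < dbls S) :
    alt (VI N j) D S = 0 := by
  have h1 : alt (VI N j) D S = PowerSeries.coeff j (alt (val N psU) D S) :=
    wi_alt_coeff j (val N psU) S D
  have h2 : alt (val N psU) D S = (WF N psU).sRT S ((WF N psU).RT D
      (ket (PowerSeries ℚ) [(true, 0)])) [(true, 0)] :=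
    (WF N psU).alt_RT (ket (PowerSeries ℚ) [(true, 0)]) [(true, 0)] D S
  rw [h1, h2]
  exact PowerSeries.X_pow_dvd_iff.mp ((WF N psU).sRT_dvd PowerSeries.X (wi_dvd N) S _ _) j h

theorem vi_vassiliev (N : ℕ) [NeZero N] (j : ℕ) : IsVassiliev j (VI N j) where
  inv := fun _ _ _ _ h => vi_isotopic N j h
  fin := fun S _ hS => vi_alt N j [] S hS

theorem wi_eval_tU {S : Type*} [CommRing S] (f : ℚ →+* S) (x : Sˣ) :
    Units.map (LaurentPolynomial.eval₂ f x : LaurentPolynomial ℚ →* S) tU = x := by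
  ext
  show LaurentPolynomial.eval₂ f x (LaurentPolynomial.T 1) = x
  rw [LaurentPolynomial.eval₂_T, zpow_one]

theorem val_tU_eq (N : ℕ) [NeZero N] {D D' : Diagram} (h : ∀ j, VI N j D = VI N j D') :
    val N tU D = val N tU D' := by
  apply ST.laurent_ps
  rw [val_map, val_map, wi_eval_tU]
  ext j
  exact h j

theorem val_real_eq (N : ℕ) [NeZero N] {D D' : Diagram} (h : ∀ j, VI N j D = VI N j D')
    (q : ℝˣ) : val N q D = val N q D' := by
  have h1 := congrArg (LaurentPolynomial.eval₂ (algebraMap ℚ ℝ) q) (val_tU_eq N h)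
  rwa [val_map, val_map, wi_eval_tU] at h1

end Pool.Agent.EVT
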