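import Pool.Agent.EVT.LD
import Pool.Agent.EVT.WI
import Pool.Agent.EVT.FE
import Pool.Agent.EVT.RA
import Pool.Agent.EVT.RB
import Pool.Agent.EVT.RC
import Pool.Agent.EVT.NC

/-!
# Evenly twisted knots: assembly of the modules
-/

namespace Pool.Agent.EVT

open Finset
open Pool.Agent.Helper9.Kashaev (Piece Diagram)
open Pool.Agent.Helper9.FA (Item twists labels wfP)
open Pool.Agent.Helper77.ST (IsKnot tw)
open Pool.Agent.Helper77.CR (Red)

/-- the sides of the vertices as a function -/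
def sdf (S : List (Item Unit)) {n : ℕ} (hn : (sides S).length = n) (i : Fin n) : Bool :=
  (sides S)[i]'(hn ▸ i.2)

theorem wtQ_ofFn {A : Type*} [CommRing A] (N : ℕ) (q : Aˣ) {n : ℕ} (k : Fin n → ℤ) :
    wtQ N q (List.ofFn k) = List.ofFn fun i => (zp q (2 * N * k i), cc N q (k i)) := by
  simp [wtQ, List.map_ofFn, Function.comp_def]

theorem state_eq (S : List (Item Unit)) (hS : wfS 1 S 1) {n : ℕ} (hn : (sides S).length = n)
    (k : Fin n → ℤ) (hK : IsKnot (tw S (dbl2 (List.ofFn k))))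
    (M : Matrix (Fin n) (Fin n) (ZMod 2)) (h1 : ∀ i j, M i j = M j i)
    (h2 : ∀ i j, sdf S hn i = sdf S hn j → M i j = 0)
    (h4 : ∀ I : Fin n → Bool, 2 ^ lp (sm S (List.ofFn I)) =
      (univ.filter fun x : Fin n → ZMod 2 =>
        (∀ i, I i = false → x i = 0) ∧ ∀ i, I i = true → M.mulVec x i = 0).card)
    (N : ℕ) [NeZero N] (q : ℝˣ) (hd : dl N q ≠ 0) :
    val N q (tw S (dbl2 (List.ofFn k))) =
      ∑ I : Fin n → Bool, (∏ i, if I i = true then 1 - zp q (2 * N * k i) else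
        zp q (2 * N * k i)) * ((dl N q ^ 2)⁻¹) ^ rkI M (sdf S hn) I := by
  rw [val_lift N q S _ (by simp [hn]) hK, wtQ_ofFn,
    ev_lp (TQ_ok N q) S hS n hn _ _ _ (by simp)]
  refine Finset.sum_congr rfl fun I _ => ?_
  have hl := rk_add M (sdf S hn) h1 h2 I _ (h4 I)
  have e1 : (∏ i, if I i = true then (1 : ℝ) - zp q (2 * N * k i) else zp q (2 * N * k i)) =
      (∏ i, if I i = true then cc N q (k i) else zp q (2 * N * k i)) *
        dl N q ^ (univ.filter fun i => I i = true).card := by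
    rw [← Finset.prod_const, Finset.prod_filter, ← Finset.prod_mul_distrib]
    refine Finset.prod_congr rfl fun i _ => ?_
    by_cases hi : I i = true
    · simp only [hi, if_true]
      rw [cc_mul]
    · simp [hi]
  simp only []
  rw [e1, ← hl, pow_add, pow_mul]
  have e2 : (dl N q ^ 2) ^ rkI M (sdf S hn) I * ((dl N q ^ 2)⁻¹) ^ rkI M (sdf S hn) I = 1 := by
    rw [← mul_pow, mul_inv_cancel₀ (pow_ne_zero 2 hd), one_pow]
  have e3 : ket ℝ [(0 : Fin N)] [0] = 1 := by simp [ket]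
  rw [e3, mul_one, mul_assoc, mul_assoc, e2, mul_one]

theorem exists_VI (S : List (Item Unit)) (hS : wfP 1 S 1) (hR : Red S) {n : ℕ} (h0 : 0 < n)
    (hn : (sides S).length = n) (u : Bool → ℕ) (k t : Fin n → ℤ)
    (hk : ∀ i, k i = 2 ^ u (sdf S hn i) * (2 * t i + 1))
    (hK : IsKnot (tw S (dbl2 (List.ofFn k)))) :
    ∃ N j : ℕ, VI (N + 1) j (tw S (dbl2 (List.ofFn k))) ≠ VI (N + 1) j [] := by
  classical
  by_contra hcon
  push Not at hcon
  have hS' := wfS_of hS
  have hk0 : ∀ x ∈ List.ofFn k, x ≠ 0 := by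
    intro x hx
    obtain ⟨i, rfl⟩ := List.mem_ofFn.mp hx
    rw [hk]
    exact mul_ne_zero (pow_ne_zero _ two_ne_zero) (by omega)
  have hA : ArcP 1 [0] S := arc_tw S (List.ofFn k) 1 [0] (by simp [hn]) hk0 hK
  obtain ⟨M, h1, h2, h3, h4⟩ := exists_matrix S hS' hA n hn
  have h2' : ∀ i j, sdf S hn i = sdf S hn j → M i j = 0 := h2
  have hpos : 0 < rkI M (sdf S hn) (fun _ => true) := by
    have h5 := row_ne hR hn M h1 h3 ⟨0, h0⟩
    obtain ⟨j, hj⟩ : ∃ j, M ⟨0, h0⟩ j ≠ 0 := by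
      by_contra hc
      push Not at hc
      exact h5 (funext hc)
    exact rk_pos M _ h1 h2' hj
  refine no_zero M (sdf S hn) (fun s => alt_ne hR hn M h1 h3 (sdf S hn) s) u k t hk ?_
  intro x hx
  obtain ⟨q, hq1, hq2, hq3⟩ := exists_q x hx
  have h6 := top_coeff (fun I : Fin n → Bool => rkI M (sdf S hn) I) _ hpos
    (fun I => ∏ i, if I i = true then (1 : ℝ) - x ^ k i else x ^ k i) _ hq3 (by
      intro N
      have h7 := state_eq S hS' hn k hK M h1 h2' h4 (N + 1) (q N) (hq2 N).ne'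
      rw [val_real_eq (N + 1) (hcon N) (q N), val_nil] at h7
      refine Eq.trans ?_ h7.symm
      refine Finset.sum_congr rfl fun I _ => ?_
      congr 1
      refine Finset.prod_congr rfl fun i _ => ?_
      rw [hq1 N (k i)])
  rw [← sum_split]
  rw [← h6]
  refine Finset.sum_congr ?_ fun I _ => rfl
  ext I
  simp only [Finset.mem_filter, Finset.mem_univ, true_and]
  exact (rk_iff M _ h1 h2' I).symm

end Pool.Agent.EVT
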