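import Pool.Agent.EVT.RH

/-!
# EVT module NF: the value for `[N] ^ 2 = 2`

Put `s' = !s`.  By `card_half` (module RH), with `m(I) = #{i | I i, sd i = s}`:
`(1 / 2) ^ rkI M sd I = (1 / 2) ^ m(I) * #{x supported on I ∩ s, (M x) i = 0 for i ∈ I ∩ s'}`.  So the left side
is the sum over all pairs `(I, x)`, `x` supported on the side `s`, of
`∏ i, (if I i then 1 - y i else y i) * (1 / 2) ^ m(I) * [x i ≠ 0 → I i] * [I i, i ∈ s' → (M x) i = 0]`.
Exchange the sums; for fixed `x` the sum over `I` is a product over all `i` of sums over `I i : Bool`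
(`Finset.prod_univ_sum`, `Fintype.piFinset`):
* `i ∈ s`, `x i ≠ 0`: only `I i = true`: `(1 - y i) / 2`;
* `i ∈ s`, `x i = 0`: `(1 - y i) / 2 + y i = (1 + y i) / 2`;
* `i ∈ s'`, `(M x) i = 0`: `(1 - y i) + y i = 1`;
* `i ∈ s'`, `(M x) i ≠ 0`: only `I i = false`: `y i`.
-/

namespace Pool.Agent.EVT

open Finset

/-- the factor of `i` -/
private noncomputable def nf_g {n : ℕ} (M : Matrix (Fin n) (Fin n) (ZMod 2)) (sd : Fin n → Bool)
    (s : Bool) (y : Fin n → ℝ) (x : Fin n → ZMod 2) (i : Fin n) (b : Bool) : ℝ :=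
  (if b = true then 1 - y i else y i) * (if b = true ∧ sd i = s then 1 / 2 else 1) *
    ((if b = false ∧ x i ≠ 0 then 0 else 1) *
      (if b = true ∧ sd i ≠ s ∧ M.mulVec x i ≠ 0 then 0 else 1))

private theorem nf_ind {n : ℕ} (p : Fin n → Prop) [DecidablePred p] :
    (∏ i : Fin n, if p i then (0 : ℝ) else 1) = if ∀ i, ¬ p i then 1 else 0 := by
  by_cases h : ∀ i, ¬ p i
  · rw [if_pos h]
    exact Finset.prod_eq_one fun i _ => if_neg (h i)
  · rw [if_neg h]
    push Not at h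
    obtain ⟨i, hi⟩ := h
    exact Finset.prod_eq_zero (mem_univ i) (if_pos hi)

private theorem nf_term {n : ℕ} (M : Matrix (Fin n) (Fin n) (ZMod 2)) (sd : Fin n → Bool)
    (h1 : ∀ i j, M i j = M j i) (s : Bool) (y : Fin n → ℝ) (I : Fin n → Bool) :
    (∏ i, if I i = true then 1 - y i else y i) * (1 / 2) ^ rkI M sd I =
      ∑ x ∈ univ.filter (fun x : Fin n → ZMod 2 => ∀ i, sd i ≠ s → x i = 0),
        ∏ i, nf_g M sd s y x i (I i) := by
  have hc := card_half M sd h1 s I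
  have hc' : ((univ.filter fun x : Fin n → ZMod 2 => (∀ i, I i = false ∨ sd i ≠ s → x i = 0) ∧
      ∀ i, I i = true → sd i ≠ s → M.mulVec x i = 0).card : ℝ) * 2 ^ rkI M sd I =
        2 ^ (univ.filter fun i => I i = true ∧ sd i = s).card := by
    exact_mod_cast hc
  have h3 : ((1 : ℝ) / 2) ^ rkI M sd I =
      (1 / 2) ^ (univ.filter fun i => I i = true ∧ sd i = s).card *
      ((univ.filter fun x : Fin n → ZMod 2 => (∀ i, I i = false ∨ sd i ≠ s → x i = 0) ∧
      ∀ i, I i = true → sd i ≠ s → M.mulVec x i = 0).card : ℝ) := by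
    have e1 : ((1 : ℝ) / 2) ^ rkI M sd I * 2 ^ rkI M sd I = 1 := by
      rw [← mul_pow]; norm_num
    have e2 : ((1 : ℝ) / 2) ^ (univ.filter fun i => I i = true ∧ sd i = s).card *
        2 ^ (univ.filter fun i => I i = true ∧ sd i = s).card = 1 := by
      rw [← mul_pow]; norm_num
    have e3 : (2 : ℝ) ^ rkI M sd I ≠ 0 := by positivity
    apply mul_right_cancel₀ e3
    rw [e1, mul_assoc, hc', e2]
  have h4 : ((univ.filter fun x : Fin n → ZMod 2 => (∀ i, I i = false ∨ sd i ≠ s → x i = 0) ∧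
      ∀ i, I i = true → sd i ≠ s → M.mulVec x i = 0).card : ℝ) =
      ∑ x ∈ univ.filter (fun x : Fin n → ZMod 2 => ∀ i, sd i ≠ s → x i = 0),
        ((if ∀ i, ¬ (I i = false ∧ x i ≠ 0) then 1 else 0) *
          (if ∀ i, ¬ (I i = true ∧ sd i ≠ s ∧ M.mulVec x i ≠ 0) then 1 else 0)) := by
    rw [Finset.card_filter, Nat.cast_sum, Finset.sum_filter]
    refine Finset.sum_congr rfl fun x _ => ?_
    have hiff : ((∀ i, I i = false ∨ sd i ≠ s → x i = 0) ∧
        ∀ i, I i = true → sd i ≠ s → M.mulVec x i = 0) ↔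
        (∀ i, sd i ≠ s → x i = 0) ∧ (∀ i, ¬ (I i = false ∧ x i ≠ 0)) ∧
          ∀ i, ¬ (I i = true ∧ sd i ≠ s ∧ M.mulVec x i ≠ 0) := by
      constructor
      · rintro ⟨ha, hb⟩
        exact ⟨fun i hi => ha i (Or.inr hi), fun i hi => hi.2 (ha i (Or.inl hi.1)),
          fun i hi => hi.2.2 (hb i hi.1 hi.2.1)⟩
      · rintro ⟨ha, hb, hd⟩
        refine ⟨fun i hi => ?_, fun i h5 h6 => ?_⟩
        · rcases hi with hi | hi
          · by_contra h7
            exact hb i ⟨hi, h7⟩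
          · exact ha i hi
        · by_contra h7
          exact hd i ⟨h5, h6, h7⟩
    by_cases hA : ∀ i, sd i ≠ s → x i = 0
    · by_cases hB : ∀ i, ¬ (I i = false ∧ x i ≠ 0)
      · by_cases hC : ∀ i, ¬ (I i = true ∧ sd i ≠ s ∧ M.mulVec x i ≠ 0)
        · rw [if_pos (hiff.mpr ⟨hA, hB, hC⟩), if_pos hA, if_pos hB, if_pos hC]
          norm_num
        · rw [if_neg (fun h => hC (hiff.mp h).2.2), if_pos hA, if_neg hC]
          norm_num
      · rw [if_neg (fun h => hB (hiff.mp h).2.1), if_pos hA, if_neg hB]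
        norm_num
    · rw [if_neg (fun h => hA (hiff.mp h).1), if_neg hA]
      norm_num
  rw [h3, h4, Finset.mul_sum, Finset.mul_sum]
  refine Finset.sum_congr rfl fun x _ => ?_
  have h5 : ((1 : ℝ) / 2) ^ (univ.filter fun i => I i = true ∧ sd i = s).card =
      ∏ i, if I i = true ∧ sd i = s then (1 : ℝ) / 2 else 1 := by
    rw [Finset.prod_ite, Finset.prod_const, Finset.prod_const_one, mul_one]
  unfold nf_g
  rw [Finset.prod_mul_distrib, Finset.prod_mul_distrib, Finset.prod_mul_distrib, h5,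
    nf_ind (fun i => I i = false ∧ x i ≠ 0),
    nf_ind (fun i => I i = true ∧ sd i ≠ s ∧ M.mulVec x i ≠ 0)]
  ring

theorem half_sum {n : ℕ} (M : Matrix (Fin n) (Fin n) (ZMod 2)) (sd : Fin n → Bool)
    (h1 : ∀ i j, M i j = M j i) (s : Bool) (y : Fin n → ℝ) :
    ∑ I : Fin n → Bool, (∏ i, if I i = true then 1 - y i else y i) * (1 / 2) ^ rkI M sd I =
      ∑ x ∈ univ.filter (fun x : Fin n → ZMod 2 => ∀ i, sd i ≠ s → x i = 0),
        ∏ i, if sd i = s then (if x i = 0 then (1 + y i) / 2 else (1 - y i) / 2)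
          else (if M.mulVec x i = 0 then 1 else y i) := by
  rw [Finset.sum_congr rfl fun I _ => nf_term M sd h1 s y I, Finset.sum_comm]
  refine Finset.sum_congr rfl fun x hx => ?_
  have hx' : ∀ i, sd i ≠ s → x i = 0 := (mem_filter.mp hx).2
  have h2 : ∑ I : Fin n → Bool, ∏ i, nf_g M sd s y x i (I i) =
      ∏ i, ∑ b : Bool, nf_g M sd s y x i b := by
    rw [Finset.prod_univ_sum, Fintype.piFinset_univ]
  rw [h2]
  refine Finset.prod_congr rfl fun i _ => ?_
  rw [Fintype.sum_bool]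
  unfold nf_g
  by_cases hs : sd i = s
  · by_cases h0 : x i = 0
    · simp [hs, h0]
      ring
    · simp [hs, h0]
      ring
  · have h0 := hx' i hs
    by_cases hm : M.mulVec x i = 0
    · simp [hs, h0, hm]
    · simp [hs, h0, hm]

end Pool.Agent.EVT
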