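import Pool.Agent.EVT.Defs3
import Mathlib.Analysis.SpecialFunctions.Pow.Real

/-!
# EVT module NG: one side with weights of one sign

`char_zero`: (independence of characters) Let `χ a = (-1) ^ a` for `a : ZMod 2`.  For `i₀` in the set multiply
the equation by `χ (M i₀ ⬝ᵥ x)` and sum over all `x : Fin n → ZMod 2`.  `[(M x) i ≠ 0] = (1 - χ (M i ⬝ᵥ x)) / 2`,
and `∑ x, χ (v ⬝ᵥ x) = 0` for `v ≠ 0`, `= 2 ^ n` for `v = 0`.  For `i ≠ i₀` the sum is
`(0 - 0) / 2` (`M i₀ ≠ 0`, `M i₀ + M i ≠ 0`), for `i = i₀` it is `(0 - 2 ^ n) / 2`.  So `k i₀ = 0`.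

`sign_case`: for `x` supported on the side `s` put `K x = ∑ k i` over the `i` with `sd i ≠ s`, `(M x) i ≠ 0`, and
`p_X(x) = ∏ i (sd i = s), (1 ± X ^ k i) / 2`.  The hypothesis is `∑ x, p_X(x) * X ^ K x = 1` for all `X > 1`.
* `0 < p_X(x)`, since `X ^ k i < 1` for `k i < 0`; `∑ x, p_X(x) = 1` (product of sums, `(1 + y) / 2 + (1 - y) / 2 = 1`).
* For `X ≥ 2`: `X ^ k i ≤ 1 / 2`, so `p_X(x) ≥ (1 / 4) ^ n`.  If `K x ≥ 1` for one `x` then the sum is at least
  `(1 / 4) ^ n * X`, contradiction for `X = 2 * 4 ^ n`.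
* So `K x ≤ 0` for all `x`, and for `X = 2`: `∑ x, p (1 - 2 ^ K x) = 0` with non-negative terms, so
  `K x = 0` for all `x` supported on the side `s`.
* The rows `M i` with `sd i ≠ s` vanish outside the side `s` (`h2`), so `K x = 0` for all `x`
  (replace `x` by its restriction to the side `s`), and `char_zero` for the set `{i | sd i ≠ s}`
  gives `k i = 0` there, contradiction.
-/

namespace Pool.Agent.EVT

open Finset

/-- the sign character -/
private def ng_chi (a : ZMod 2) : ℤ := if a = 0 then 1 else -1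

private theorem ng_chi_add : ∀ a b : ZMod 2, ng_chi (a + b) = ng_chi a * ng_chi b := by
  unfold ng_chi
  decide

private theorem ng_S_ne {n : ℕ} (v : Fin n → ZMod 2) (hv : v ≠ 0) :
    ∑ x : Fin n → ZMod 2, ng_chi (v ⬝ᵥ x) = 0 := by
  obtain ⟨j, hj⟩ : ∃ j, v j ≠ 0 := by
    by_contra h
    push Not at h
    exact hv (funext h)
  have hj1 : v j = 1 := ((by decide : ∀ c : ZMod 2, c = 0 ∨ c = 1) (v j)).resolve_left hj
  have h := Equiv.sum_comp (Equiv.addRight (Pi.single j (1 : ZMod 2) : Fin n → ZMod 2))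
    (fun x : Fin n → ZMod 2 => ng_chi (v ⬝ᵥ x))
  have h2 : ∀ x : Fin n → ZMod 2,
      ng_chi (v ⬝ᵥ (Equiv.addRight (Pi.single j (1 : ZMod 2) : Fin n → ZMod 2)) x) =
        - ng_chi (v ⬝ᵥ x) := by
    intro x
    rw [Equiv.coe_addRight, dotProduct_add, dotProduct_single, hj1, mul_one, ng_chi_add]
    have : ng_chi 1 = -1 := rfl
    rw [this]
    ring
  rw [Finset.sum_congr rfl fun x _ => h2 x, Finset.sum_neg_distrib] at h
  linarith

theorem char_zero {n : ℕ} (M : Matrix (Fin n) (Fin n) (ZMod 2)) (B : Finset (Fin n))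
    (hne : ∀ i ∈ B, M i ≠ 0) (hinj : ∀ i ∈ B, ∀ j ∈ B, i ≠ j → M i ≠ M j) (k : Fin n → ℤ)
    (h : ∀ x : Fin n → ZMod 2, ∑ i ∈ B, (if M.mulVec x i = 0 then 0 else k i) = 0) :
    ∀ i ∈ B, k i = 0 := by
  intro i₀ hi₀
  have hself : ∀ v : Fin n → ZMod 2, v + v = 0 := fun v => by
    funext j
    exact (by decide : ∀ c : ZMod 2, c + c = 0) (v j)
  have h1 : ∀ x : Fin n → ZMod 2,
      ∑ i ∈ B, k i * (ng_chi (M i₀ ⬝ᵥ x) - ng_chi ((M i + M i₀) ⬝ᵥ x)) = 0 := by
    intro x
    have h2 := h x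
    have h3 : ∀ i ∈ B, k i * (ng_chi (M i₀ ⬝ᵥ x) - ng_chi ((M i + M i₀) ⬝ᵥ x)) =
        2 * ng_chi (M i₀ ⬝ᵥ x) * (if M.mulVec x i = 0 then 0 else k i) := by
      intro i _
      rw [add_dotProduct, ng_chi_add]
      have h4 : M.mulVec x i = M i ⬝ᵥ x := rfl
      rw [h4]
      by_cases h5 : M i ⬝ᵥ x = 0
      · rw [if_pos h5, h5]
        have : ng_chi 0 = 1 := rfl
        rw [this]
        ring
      · rw [if_neg h5]
        have : ng_chi (M i ⬝ᵥ x) = -1 := if_neg h5
        rw [this]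
        ring
    rw [Finset.sum_congr rfl h3, ← Finset.mul_sum, h2, mul_zero]
  have h5 : ∑ x : Fin n → ZMod 2,
      ∑ i ∈ B, k i * (ng_chi (M i₀ ⬝ᵥ x) - ng_chi ((M i + M i₀) ⬝ᵥ x)) = 0 :=
    Finset.sum_eq_zero fun x _ => h1 x
  rw [Finset.sum_comm] at h5
  have h6 : ∀ i ∈ B, ∑ x : Fin n → ZMod 2,
      k i * (ng_chi (M i₀ ⬝ᵥ x) - ng_chi ((M i + M i₀) ⬝ᵥ x)) =
        if i = i₀ then - (k i₀ * 2 ^ n) else 0 := by
    intro i hi
    rw [← Finset.mul_sum, Finset.sum_sub_distrib, ng_S_ne _ (hne i₀ hi₀)]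
    by_cases h7 : i = i₀
    · rw [if_pos h7, h7, hself]
      have h8 : ∑ x : Fin n → ZMod 2, ng_chi ((0 : Fin n → ZMod 2) ⬝ᵥ x) = 2 ^ n := by
        have h9 : ∀ x : Fin n → ZMod 2, ng_chi ((0 : Fin n → ZMod 2) ⬝ᵥ x) = 1 := by
          intro x
          rw [zero_dotProduct]
          rfl
        rw [Finset.sum_congr rfl fun x _ => h9 x, Finset.sum_const, Finset.card_univ,
          Fintype.card_fun, ZMod.card, Fintype.card_fin]
        simp
      rw [h8]
      ring
    · rw [if_neg h7, ng_S_ne]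
      · ring
      · intro h8
        refine hinj i hi i₀ hi₀ h7 ?_
        have h9 : M i + M i₀ = M i₀ + M i₀ := by rw [h8, hself]
        exact add_right_cancel h9
  rw [Finset.sum_congr rfl h6, Finset.sum_ite_eq' B i₀, if_pos hi₀] at h5
  have h7 : (2 : ℤ) ^ n ≠ 0 := by positivity
  have h8 : k i₀ * 2 ^ n = 0 := by linarith
  exact (mul_eq_zero.mp h8).resolve_right h7

/-- the exponent -/
private def ng_K {n : ℕ} (M : Matrix (Fin n) (Fin n) (ZMod 2)) (sd : Fin n → Bool) (s : Bool)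
    (k : Fin n → ℤ) (x : Fin n → ZMod 2) : ℤ :=
  ∑ i ∈ univ.filter (fun i => ¬ sd i = s), (if M.mulVec x i = 0 then 0 else k i)

/-- the coefficient -/
private noncomputable def ng_p {n : ℕ} (sd : Fin n → Bool) (s : Bool)
    (y : Fin n → ℝ) (x : Fin n → ZMod 2) : ℝ :=
  ∏ i ∈ univ.filter (fun i => sd i = s), (if x i = 0 then (1 + y i) / 2 else (1 - y i) / 2)

private theorem ng_prod {n : ℕ} (M : Matrix (Fin n) (Fin n) (ZMod 2)) (sd : Fin n → Bool)
    (s : Bool) (k : Fin n → ℤ) (X : ℝ) (hX : 0 < X) (x : Fin n → ZMod 2) :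
    ∏ i, (if sd i = s then (if x i = 0 then (1 + X ^ k i) / 2 else (1 - X ^ k i) / 2)
          else (if M.mulVec x i = 0 then 1 else X ^ k i)) =
      ng_p sd s (fun i => X ^ k i) x * X ^ ng_K M sd s k x := by
  rw [Finset.prod_ite]
  unfold ng_p ng_K
  congr 1
  generalize univ.filter (fun i => ¬ sd i = s) = B
  induction B using Finset.induction_on with
  | empty => simp
  | insert a B ha ih =>
    rw [Finset.prod_insert ha, Finset.sum_insert ha, ih, zpow_add₀ hX.ne']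
    congr 1
    by_cases h : M.mulVec x a = 0
    · rw [if_pos h, if_pos h, zpow_zero]
    · rw [if_neg h, if_neg h]

private theorem ng_p_sum {n : ℕ} (sd : Fin n → Bool) (s : Bool) (y : Fin n → ℝ) :
    ∑ x ∈ univ.filter (fun x : Fin n → ZMod 2 => ∀ i, sd i ≠ s → x i = 0), ng_p sd s y x = 1 := by
  have h1 : (univ.filter fun x : Fin n → ZMod 2 => ∀ i, sd i ≠ s → x i = 0) =
      Fintype.piFinset (fun i : Fin n => if sd i = s then (univ : Finset (ZMod 2)) else {0}) := by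
    ext x
    simp only [mem_filter, mem_univ, true_and, Fintype.mem_piFinset]
    refine forall_congr' fun j => ?_
    by_cases hc : sd j = s <;> simp [hc]
  have h2 : ∀ x : Fin n → ZMod 2, ng_p sd s y x =
      ∏ i, (if sd i = s then (if x i = 0 then (1 + y i) / 2 else (1 - y i) / 2) else 1) := by
    intro x
    rw [Finset.prod_ite, Finset.prod_const_one, mul_one]
    rfl
  rw [Finset.sum_congr rfl fun x _ => h2 x, h1]
  have h3 := Finset.prod_univ_sum
    (fun i : Fin n => if sd i = s then (univ : Finset (ZMod 2)) else {0})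
    (fun (i : Fin n) (c : ZMod 2) =>
      if sd i = s then (if c = 0 then (1 + y i) / 2 else (1 - y i) / 2) else (1 : ℝ))
  rw [← h3]
  refine Finset.prod_eq_one fun i _ => ?_
  by_cases hs : sd i = s
  · simp only [hs, if_true]
    have h4 : (univ : Finset (ZMod 2)) = {0, 1} := by decide
    rw [h4, Finset.sum_pair (by decide), if_pos rfl, if_neg (by decide)]
    ring
  · simp only [hs, if_false]
    simp

private theorem ng_p_lower {n : ℕ} (sd : Fin n → Bool) (s : Bool) (k : Fin n → ℤ)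
    (hk : ∀ i, sd i = s → k i < 0) (X : ℝ) (hX : 2 ≤ X) (x : Fin n → ZMod 2) :
    (1 / 4) ^ n ≤ ng_p sd s (fun i => X ^ k i) x := by
  have hX0 : 0 < X := by linarith
  have h1 : ∀ i, sd i = s → X ^ k i ≤ 1 / 2 := by
    intro i hi
    have h2 : k i ≤ -1 := by have := hk i hi; omega
    calc X ^ k i ≤ X ^ (-1 : ℤ) := zpow_le_zpow_right₀ (by linarith) h2
      _ = X⁻¹ := by rw [zpow_neg_one]
      _ ≤ 1 / 2 := by
        rw [one_div]
        exact inv_anti₀ (by norm_num) hX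
  have h2 : ∀ i, 0 < X ^ k i := fun i => zpow_pos hX0 _
  unfold ng_p
  calc ((1 : ℝ) / 4) ^ n ≤ (1 / 4) ^ (univ.filter (fun i => sd i = s)).card := by
        apply pow_le_pow_of_le_one (by norm_num) (by norm_num)
        calc (univ.filter (fun i => sd i = s)).card ≤ (univ : Finset (Fin n)).card :=
              Finset.card_filter_le _ _
          _ = n := by simp
    _ = ∏ i ∈ univ.filter (fun i => sd i = s), ((1 : ℝ) / 4) := by rw [Finset.prod_const]
    _ ≤ _ := by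
        apply Finset.prod_le_prod
        · intro i _
          norm_num
        · intro i hi
          have hi' := (mem_filter.mp hi).2
          have h3 := h1 i hi'
          have h4 := h2 i
          split_ifs <;> linarith

theorem sign_case {n : ℕ} (M : Matrix (Fin n) (Fin n) (ZMod 2)) (sd : Fin n → Bool)
    (h2 : ∀ i j, sd i = sd j → M i j = 0) (hne : ∀ i, M i ≠ 0)
    (hinj : ∀ i j, i ≠ j → M i ≠ M j) (s : Bool) (k : Fin n → ℤ) (hk : ∀ i, sd i = s → k i < 0)
    (hk' : ∃ i, sd i ≠ s ∧ k i ≠ 0)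
    (h : ∀ X : ℝ, 1 < X →
      ∑ x ∈ univ.filter (fun x : Fin n → ZMod 2 => ∀ i, sd i ≠ s → x i = 0),
        ∏ i, (if sd i = s then (if x i = 0 then (1 + X ^ k i) / 2 else (1 - X ^ k i) / 2)
          else (if M.mulVec x i = 0 then 1 else X ^ k i)) = 1) : False := by
  have hsum : ∀ X : ℝ, 2 ≤ X →
      ∑ x ∈ univ.filter (fun x : Fin n → ZMod 2 => ∀ i, sd i ≠ s → x i = 0),
        ng_p sd s (fun i => X ^ k i) x * X ^ ng_K M sd s k x = 1 := by
    intro X hX
    rw [← h X (by linarith)]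
    refine Finset.sum_congr rfl fun x _ => ?_
    rw [ng_prod M sd s k X (by linarith)]
  have hpos : ∀ X : ℝ, 2 ≤ X → ∀ x, 0 < ng_p sd s (fun i => X ^ k i) x := by
    intro X hX x
    exact lt_of_lt_of_le (by positivity) (ng_p_lower sd s k hk X hX x)
  -- no positive exponent
  have hK1 : ∀ x : Fin n → ZMod 2, (∀ i, sd i ≠ s → x i = 0) → ng_K M sd s k x ≤ 0 := by
    intro x₀ hx₀
    by_contra hcon
    push Not at hcon
    have h4 : (1 : ℝ) ≤ 4 ^ n := one_le_pow₀ (by norm_num)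
    have hX : (2 : ℝ) ≤ 2 * 4 ^ n := by linarith
    have h5 := hsum (2 * 4 ^ n) hX
    have hX0 : (0 : ℝ) < 2 * 4 ^ n := by linarith
    have h6 : ng_p sd s (fun i => (2 * 4 ^ n : ℝ) ^ k i) x₀ * (2 * 4 ^ n) ^ ng_K M sd s k x₀ ≤
        ∑ x ∈ univ.filter (fun x : Fin n → ZMod 2 => ∀ i, sd i ≠ s → x i = 0),
        ng_p sd s (fun i => (2 * 4 ^ n : ℝ) ^ k i) x * (2 * 4 ^ n) ^ ng_K M sd s k x := by
      apply Finset.single_le_sum (f := fun x =>
        ng_p sd s (fun i => (2 * 4 ^ n : ℝ) ^ k i) x * (2 * 4 ^ n) ^ ng_K M sd s k x)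
      · intro x _
        exact mul_nonneg (hpos _ hX x).le (zpow_nonneg hX0.le _)
      · exact mem_filter.mpr ⟨mem_univ _, hx₀⟩
    rw [h5] at h6
    have h7 : (2 * 4 ^ n : ℝ) ≤ (2 * 4 ^ n) ^ ng_K M sd s k x₀ := by
      calc (2 * 4 ^ n : ℝ) = (2 * 4 ^ n) ^ (1 : ℤ) := by rw [zpow_one]
        _ ≤ _ := zpow_le_zpow_right₀ (by linarith) (by omega)
    have h8 := ng_p_lower sd s k hk (2 * 4 ^ n) hX x₀
    have h9 : ((1 : ℝ) / 4) ^ n * (2 * 4 ^ n) ≤
        ng_p sd s (fun i => (2 * 4 ^ n : ℝ) ^ k i) x₀ * (2 * 4 ^ n) ^ ng_K M sd s k x₀ :=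
      mul_le_mul h8 h7 hX0.le (hpos _ hX x₀).le
    have h10 : ((1 : ℝ) / 4) ^ n * (2 * 4 ^ n) = 2 := by
      have : ((1 : ℝ) / 4) ^ n * 4 ^ n = 1 := by
        rw [← mul_pow]; norm_num
      linear_combination 2 * this
    linarith
  -- all exponents vanish
  have hK2 : ∀ x : Fin n → ZMod 2, (∀ i, sd i ≠ s → x i = 0) → ng_K M sd s k x = 0 := by
    have h5 := hsum 2 le_rfl
    have h6 := ng_p_sum sd s (fun i => (2 : ℝ) ^ k i)
    have h7 : ∑ x ∈ univ.filter (fun x : Fin n → ZMod 2 => ∀ i, sd i ≠ s → x i = 0),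
        ng_p sd s (fun i => (2 : ℝ) ^ k i) x * (1 - 2 ^ ng_K M sd s k x) = 0 := by
      have h8 : ∀ x ∈ univ.filter (fun x : Fin n → ZMod 2 => ∀ i, sd i ≠ s → x i = 0),
          ng_p sd s (fun i => (2 : ℝ) ^ k i) x * (1 - 2 ^ ng_K M sd s k x) =
          ng_p sd s (fun i => (2 : ℝ) ^ k i) x -
            ng_p sd s (fun i => (2 : ℝ) ^ k i) x * 2 ^ ng_K M sd s k x := by
        intro x _
        ring
      rw [Finset.sum_congr rfl h8, Finset.sum_sub_distrib, h5, h6, sub_self]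
    have h9 : ∀ x ∈ univ.filter (fun x : Fin n → ZMod 2 => ∀ i, sd i ≠ s → x i = 0),
        0 ≤ ng_p sd s (fun i => (2 : ℝ) ^ k i) x * (1 - 2 ^ ng_K M sd s k x) := by
      intro x hx
      have hx' := (mem_filter.mp hx).2
      refine mul_nonneg (hpos 2 le_rfl x).le ?_
      have : (2 : ℝ) ^ ng_K M sd s k x ≤ 1 := zpow_le_one_of_nonpos₀ (by norm_num) (hK1 x hx')
      linarith
    have h10 := (Finset.sum_eq_zero_iff_of_nonneg h9).mp h7
    intro x hx
    have h11 := h10 x (mem_filter.mpr ⟨mem_univ _, hx⟩)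
    have h12 := (mul_eq_zero.mp h11).resolve_left (hpos 2 le_rfl x).ne'
    by_contra hcon
    have h13 : ng_K M sd s k x < 0 := lt_of_le_of_ne (hK1 x hx) hcon
    have h14 : (2 : ℝ) ^ ng_K M sd s k x < 1 := zpow_lt_one_of_neg₀ (by norm_num) h13
    linarith
  have hK3 : ∀ x : Fin n → ZMod 2,
      ∑ i ∈ univ.filter (fun i => ¬ sd i = s), (if M.mulVec x i = 0 then 0 else k i) = 0 := by
    intro x
    have h5 := hK2 (fun i => if sd i = s then x i else 0) (fun i hi => if_neg hi)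
    unfold ng_K at h5
    refine Eq.trans (Finset.sum_congr rfl fun i hi => ?_) h5
    have hi' := (mem_filter.mp hi).2
    have h6 : M.mulVec x i = M.mulVec (fun i => if sd i = s then x i else 0) i := by
      simp only [Matrix.mulVec, dotProduct]
      refine Finset.sum_congr rfl fun j _ => ?_
      by_cases hj : sd j = s
      · rw [if_pos hj]
      · have h7 : sd i = sd j := by
          revert hi' hj
          cases sd i <;> cases sd j <;> cases s <;> simp
        rw [h2 i j h7, zero_mul, zero_mul]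
    rw [h6]
  obtain ⟨i, hi, hki⟩ := hk'
  exact hki (char_zero M (univ.filter fun i => ¬ sd i = s) (fun i _ => hne i)
    (fun i _ j _ hij => hinj i j hij) k hK3 i (mem_filter.mpr ⟨mem_univ _, hi⟩))

end Pool.Agent.EVT
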