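import Pool.Agent.EVT.FINa
import Pool.Agent.EVT.NF
import Pool.Agent.EVT.NG

/-!
# Evenly twisted knots: one side with twist regions of one sign
-/

namespace Pool.Agent.EVT

open Finset
open Pool.Agent.Helper9.Kashaev (Piece Diagram)
open Pool.Agent.Helper9.FA (Item twists labels wfP)
open Pool.Agent.Helper77.ST (IsKnot tw)
open Pool.Agent.Helper77.CR (Red)

theorem poly_eval {κ : Type*} [Fintype κ] (r : κ → ℕ) (w : κ → ℝ) (T : ℕ → ℝ)
    (hT : (Set.range T).Infinite) (h : ∀ N, ∑ I, w I * T N ^ r I = 1) (t : ℝ) :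
    ∑ I, w I * t ^ r I = 1 := by
  set P : Polynomial ℝ := ∑ I, Polynomial.C (w I) * Polynomial.X ^ r I - 1 with hP
  have h0 : P = 0 := by
    apply Polynomial.eq_zero_of_infinite_isRoot
    refine hT.mono ?_
    rintro _ ⟨N, rfl⟩
    simp only [hP, Set.mem_ofPred_eq, Polynomial.IsRoot.def, Polynomial.eval_sub,
      Polynomial.eval_finsetSum, Polynomial.eval_mul, Polynomial.eval_C, Polynomial.eval_pow,
      Polynomial.eval_X, Polynomial.eval_one, h N, sub_self]
  have h1 := congrArg (Polynomial.eval t) h0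
  simpa only [hP, Polynomial.eval_sub, Polynomial.eval_finsetSum, Polynomial.eval_mul,
    Polynomial.eval_C, Polynomial.eval_pow, Polynomial.eval_X, Polynomial.eval_one,
    Polynomial.eval_zero, sub_eq_zero] using h1

theorem zp_inv' {A : Type*} [CommRing A] (q : Aˣ) (m : ℤ) : zp q⁻¹ m = zp q (-m) := by
  simp [zp]

theorem dl_inv {A : Type*} [CommRing A] (N : ℕ) (q : Aˣ) : dl N q⁻¹ = dl N q := by
  rw [← sum_kapi N q]
  refine Finset.sum_congr rfl fun i _ => ?_
  simp only [kap, kapi, zp_inv']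
  congr 1
  ring

/-- the values of a knot with the invariants of the unknot, as polynomials in `[N] ^ (-2)` -/
theorem poly_id (S : List (Item Unit)) (hS : wfS 1 S 1) {n : ℕ} (hn : (sides S).length = n)
    (k : Fin n → ℤ) (hK : IsKnot (tw S (dbl2 (List.ofFn k))))
    (hcon : ∀ N j : ℕ, VI (N + 1) j (tw S (dbl2 (List.ofFn k))) = VI (N + 1) j [])
    (M : Matrix (Fin n) (Fin n) (ZMod 2)) (h1 : ∀ i j, M i j = M j i)
    (h2 : ∀ i j, sdf S hn i = sdf S hn j → M i j = 0)
    (h4 : ∀ I : Fin n → Bool, 2 ^ lp (sm S (List.ofFn I)) =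
      (univ.filter fun x : Fin n → ZMod 2 =>
        (∀ i, I i = false → x i = 0) ∧ ∀ i, I i = true → M.mulVec x i = 0).card)
    (e : ℤ) (he : e = 1 ∨ e = -1) (x : ℝ) (hx : 1 < x) (T : ℝ) :
    ∑ I : Fin n → Bool, (∏ i, if I i = true then 1 - x ^ (e * k i) else x ^ (e * k i)) *
      T ^ rkI M (sdf S hn) I = 1 := by
  obtain ⟨q, hq1, hq2, hq3⟩ := exists_q x hx
  refine poly_eval (fun I : Fin n → Bool => rkI M (sdf S hn) I) _ _ hq3 ?_ T
  intro N
  have hd : ∀ N, dl (N + 1) (if e = 1 then q N else (q N)⁻¹) = dl (N + 1) (q N) := by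
    intro N
    split_ifs
    · rfl
    · exact dl_inv _ _
  have hz : ∀ (N : ℕ) (m : ℤ), zp (if e = 1 then q N else (q N)⁻¹) (2 * ((N + 1 : ℕ) : ℤ) * m) =
      x ^ (e * m) := by
    intro N m
    rcases he with he | he
    · rw [if_pos he, hq1, he, one_mul]
    · have h3 : ¬ e = 1 := by rw [he]; norm_num
      rw [if_neg h3, zp_inv', he, ← hq1 N (-1 * m)]
      congr 1
      ring
  have h7 := state_eq S hS hn k hK M h1 h2 h4 (N + 1) (if e = 1 then q N else (q N)⁻¹)
    (by rw [hd]; exact (hq2 N).ne')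
  rw [val_real_eq (N + 1) (hcon N) _, val_nil] at h7
  refine Eq.trans ?_ h7.symm
  refine Finset.sum_congr rfl fun I _ => ?_
  simp only [hd]
  congr 1
  refine Finset.prod_congr rfl fun i _ => ?_
  rw [hz N (k i)]

theorem exists_VI_sign (S : List (Item Unit)) (hS : wfP 1 S 1) (hR : Red S) {n : ℕ} (h0 : 0 < n)
    (hn : (sides S).length = n) (s : Bool) (e : ℤ) (he : e = 1 ∨ e = -1) (k : Fin n → ℤ)
    (hk0 : ∀ i, k i ≠ 0) (hk : ∀ i, sdf S hn i = s → e * k i < 0)
    (hK : IsKnot (tw S (dbl2 (List.ofFn k)))) :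
    ∃ N j : ℕ, VI (N + 1) j (tw S (dbl2 (List.ofFn k))) ≠ VI (N + 1) j [] := by
  classical
  by_contra hcon
  push Not at hcon
  have hS' := wfS_of hS
  have hA : ArcP 1 [0] S := arc_tw S (List.ofFn k) 1 [0] (by simp [hn]) (by
    intro x hx
    obtain ⟨i, rfl⟩ := List.mem_ofFn.mp hx
    exact hk0 i) hK
  obtain ⟨M, h1, h2, h3, h4⟩ := exists_matrix S hS' hA n hn
  have h2' : ∀ i j, sdf S hn i = sdf S hn j → M i j = 0 := h2
  have hne : ∀ i, M i ≠ 0 := fun i => row_ne hR hn M h1 h3 i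
  have hex : ∃ i, sdf S hn i ≠ s ∧ e * k i ≠ 0 := by
    have h5 : ∃ i, sdf S hn i ≠ s := by
      by_contra hc
      push Not at hc
      exact hne ⟨0, h0⟩ (funext fun j => h2' _ _ (by rw [hc, hc]))
    obtain ⟨i, hi⟩ := h5
    refine ⟨i, hi, mul_ne_zero ?_ (hk0 i)⟩
    rcases he with he | he <;> rw [he] <;> norm_num
  refine sign_case M (sdf S hn) h2' hne (fun i j hij => row_inj hR hn M h1 h3 i j hij) s
    (fun i => e * k i) hk hex ?_
  intro X hX
  have h6 := poly_id S hS' hn k hK hcon M h1 h2' h4 e he X hX (1 / 2)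
  rw [half_sum M (sdf S hn) h1 s (fun i => X ^ (e * k i))] at h6
  exact h6

end Pool.Agent.EVT
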