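import Pool.Agent.EVT.Defs

/-!
# EVT module GA: linearity, composition, locality of the operators `FD.RT`

The same facts for a special state sum are in `Pool/Agent/Helper77/ST` (`GSupp`, `GWf`, `MLoc`).
Everything is by induction on the position `k` or on the diagram.

* `sl_lin`: induction on `k`; `k = 0`: cases of the piece and of the word, `Finset.sum_comm`,
  `mul_sum`, `ring`.
* `RT_lin`: induction on the diagram with `sl_lin`.
* `sl_congr`: if `p` at position `k` goes from `n` to `m` strands then the value at a word of length `m`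
  uses only values at words of length `n`; induction on `k`.
* `RT_congr`: induction on `D`.
* `RT_sh`: induction on `D` (`F.sl p (k + 1) f (x :: w) = F.sl p k (fun u => f (x :: u)) w` by `rfl`).
* `RT_local`: induction on `k` with `RT_sh`; `sh 0 D = D`.
-/

namespace Pool.Agent.EVT

open Finset
open Pool.Agent.Helper9.Kashaev (Piece Diagram)
open Pool.Agent.Helper77.ST (wf nin nout)

variable {A ι : Type*} [CommRing A] [Fintype ι] [DecidableEq ι]

private theorem sum3_comm {κ : Type*} (s : Finset κ) (g : ι → ι → κ → A) :
    ∑ x : ι, ∑ y : ι, ∑ j ∈ s, g x y j = ∑ j ∈ s, ∑ x : ι, ∑ y : ι, g x y j := by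
  have h1 : ∑ x : ι, ∑ y : ι, ∑ j ∈ s, g x y j = ∑ x : ι, ∑ j ∈ s, ∑ y : ι, g x y j :=
    sum_congr rfl fun x _ => sum_comm
  rw [h1, sum_comm]

theorem FD.sl_lin (F : FD A ι) (p : Piece) (k : ℕ) {κ : Type*} (s : Finset κ) (c : κ → A)
    (h : κ → List ι → A) (w : List ι) :
    F.sl p k (fun u => ∑ j ∈ s, c j * h j u) w = ∑ j ∈ s, c j * F.sl p k (h j) w := by
  induction k generalizing h w with
  | zero =>
    cases p with
    | cup =>
      rcases w with _ | ⟨a, _ | ⟨b, w⟩⟩
      · simp [FD.sl, FD.pc]
      · simp [FD.sl, FD.pc]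
      · simp only [FD.sl, FD.pc]
        by_cases hb : b = F.dual a
        · simp only [if_pos hb, mul_sum]
          exact sum_congr rfl fun j _ => by ring
        · simp only [if_neg hb, mul_zero, sum_const_zero]
    | cap =>
      simp only [FD.sl, FD.pc, mul_sum]
      rw [sum_comm]
      exact sum_congr rfl fun j _ => sum_congr rfl fun a _ => by ring
    | pos =>
      rcases w with _ | ⟨a, _ | ⟨b, w⟩⟩
      · simp [FD.sl, FD.pc]
      · simp [FD.sl, FD.pc]
      · simp only [FD.sl, FD.pc, mul_sum]
        rw [sum3_comm]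
        exact sum_congr rfl fun j _ => sum_congr rfl fun x _ => sum_congr rfl fun y _ => by ring
    | neg =>
      rcases w with _ | ⟨a, _ | ⟨b, w⟩⟩
      · simp [FD.sl, FD.pc]
      · simp [FD.sl, FD.pc]
      · simp only [FD.sl, FD.pc, mul_sum]
        rw [sum3_comm]
        exact sum_congr rfl fun j _ => sum_congr rfl fun x _ => sum_congr rfl fun y _ => by ring
  | succ k ih =>
    rcases w with _ | ⟨x, w⟩
    · simp [FD.sl]
    · exact ih (fun j u => h j (x :: u)) w

theorem FD.RT_lin (F : FD A ι) (D : Diagram) {κ : Type*} (s : Finset κ) (c : κ → A)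
    (h : κ → List ι → A) (w : List ι) :
    F.RT D (fun u => ∑ j ∈ s, c j * h j u) w = ∑ j ∈ s, c j * F.RT D (h j) w := by
  induction D generalizing h with
  | nil => rfl
  | cons t D ih =>
    have h1 : F.sl t.2 t.1 (fun u => ∑ j ∈ s, c j * h j u) =
        fun u => ∑ j ∈ s, c j * F.sl t.2 t.1 (h j) u :=
      funext fun u => F.sl_lin t.2 t.1 s c h u
    change F.RT D (F.sl t.2 t.1 (fun u => ∑ j ∈ s, c j * h j u)) w = _
    rw [h1]
    exact ih fun j => F.sl t.2 t.1 (h j)

theorem FD.RT_append (F : FD A ι) (D D' : Diagram) (f : List ι → A) :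
    F.RT (D ++ D') f = F.RT D' (F.RT D f) := by
  induction D generalizing f with
  | nil => rfl
  | cons t D ih => exact ih _

theorem FD.sl_congr (F : FD A ι) (p : Piece) {k n : ℕ} (h : k + nin p ≤ n) {f g : List ι → A}
    (hfg : ∀ u : List ι, u.length = n → f u = g u) (w : List ι)
    (hw : w.length + nin p = n + nout p) : F.sl p k f w = F.sl p k g w := by
  induction k generalizing n f g w with
  | zero =>
    cases p with
    | cup =>
      simp only [nin, nout] at h hw
      rcases w with _ | ⟨a, _ | ⟨b, w⟩⟩
      · rfl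
      · rfl
      · simp only [List.length_cons] at hw
        simp only [FD.sl, FD.pc]
        rw [hfg w (by omega)]
    | cap =>
      simp only [nin, nout] at h hw
      simp only [FD.sl, FD.pc]
      refine sum_congr rfl fun a _ => ?_
      rw [hfg]
      simp only [List.length_cons]
      omega
    | pos =>
      simp only [nin, nout] at h hw
      rcases w with _ | ⟨a, _ | ⟨b, w⟩⟩
      · rfl
      · rfl
      · simp only [List.length_cons] at hw
        simp only [FD.sl, FD.pc]
        refine sum_congr rfl fun x _ => sum_congr rfl fun y _ => ?_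
        rw [hfg]
        simp only [List.length_cons]
        omega
    | neg =>
      simp only [nin, nout] at h hw
      rcases w with _ | ⟨a, _ | ⟨b, w⟩⟩
      · rfl
      · rfl
      · simp only [List.length_cons] at hw
        simp only [FD.sl, FD.pc]
        refine sum_congr rfl fun x _ => sum_congr rfl fun y _ => ?_
        rw [hfg]
        simp only [List.length_cons]
        omega
  | succ k ih =>
    rcases w with _ | ⟨x, w⟩
    · rfl
    · simp only [List.length_cons] at hw
      obtain ⟨n, rfl⟩ : ∃ n', n = n' + 1 := ⟨n - 1, by omega⟩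
      exact ih (n := n) (by omega) (fun u hu => hfg (x :: u) (by simp [hu])) w (by omega)

theorem FD.RT_congr (F : FD A ι) {n m : ℕ} {D : Diagram} (h : wf n D m) {f g : List ι → A}
    (hfg : ∀ u : List ι, u.length = n → f u = g u) (w : List ι) (hw : w.length = m) :
    F.RT D f w = F.RT D g w := by
  induction D generalizing n f g with
  | nil =>
    simp only [wf] at h
    subst h
    exact hfg w hw
  | cons t D ih =>
    obtain ⟨k, p⟩ := t
    cases p with
    | cup =>
      refine ih (n := n + 2) h.2 fun u hu => ?_
      exact F.sl_congr .cup (n := n) h.1 hfg u (by simp only [nin, nout]; omega)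
    | cap =>
      have h1 : k + 2 ≤ n := h.1
      refine ih (n := n - 2) h.2 fun u hu => ?_
      exact F.sl_congr .cap (n := n) h.1 hfg u (by simp only [nin, nout]; omega)
    | pos =>
      refine ih (n := n) h.2 fun u hu => ?_
      exact F.sl_congr .pos (n := n) h.1 hfg u (by simp only [nin, nout]; omega)
    | neg =>
      refine ih (n := n) h.2 fun u hu => ?_
      exact F.sl_congr .neg (n := n) h.1 hfg u (by simp only [nin, nout]; omega)

theorem FD.RT_sh (F : FD A ι) (k : ℕ) (D : Diagram) (f : List ι → A) (x : ι) (w : List ι) :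
    F.RT (sh (k + 1) D) f (x :: w) = F.RT (sh k D) (fun u => f (x :: u)) w := by
  induction D generalizing f with
  | nil => rfl
  | cons t D ih =>
    have h1 : F.RT (sh (k + 1) (t :: D)) f = F.RT (sh (k + 1) D) (F.sl t.2 (k + 1 + t.1) f) := rfl
    have h2 : F.RT (sh k (t :: D)) (fun u => f (x :: u)) =
        F.RT (sh k D) (F.sl t.2 (k + t.1) (fun u => f (x :: u))) := rfl
    rw [h1, h2, ih, show k + 1 + t.1 = (k + t.1) + 1 by omega]
    rfl

theorem FD.RT_local (F : FD A ι) {m : ℕ} {D D' : Diagram}
    (H : ∀ (f : List ι → A) (w : List ι), m ≤ w.length → F.RT D f w = F.RT D' f w)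
    (k : ℕ) (f : List ι → A) (w : List ι) (hw : k + m ≤ w.length) :
    F.RT (sh k D) f w = F.RT (sh k D') f w := by
  induction k generalizing f w with
  | zero =>
    have h0 : ∀ D : Diagram, sh 0 D = D := fun D => by simp [sh]
    rw [h0, h0]
    exact H f w (by omega)
  | succ k ih =>
    rcases w with _ | ⟨x, w⟩
    · simp only [List.length_nil] at hw
      omega
    · rw [F.RT_sh, F.RT_sh]
      simp only [List.length_cons] at hw
      exact ih _ w (by omega)

end Pool.Agent.EVT
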