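import Pool.Agent.EVT.WC
import Pool.Agent.EVT.WD
import Pool.Agent.EVT.GD
import Pool.Agent.EVT.Defs2
import Pool.Agent.EVT.WH
import Pool.Agent.EVT.GA

/-!
# EVT module LA: full twists of two antiparallel strands

Let `F = WF N q`, `X = q ^ (2 N)`, `E f (a :: b :: w) = if b = dual a then cup a * ∑ i, cap (a.1, i) *`
`f ((a.1, i) :: (!a.1, i) :: w) else 0` (a maximum below a minimum, with fixed orientation).
* `cc_mul`: `cc k * [N] = 1 - X ^ k`, from `zz q * dl N q = zp q N - zp q (-N)` (telescoping) and the
  geometric sum.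
* `cc_succ`: `cc (k + 1) = X * cc k + cc 1`.
* `skein`: for `a.1 ≠ b.1`: `pos f (a :: b :: w) = X * neg f (a :: b :: w) - z * q ^ N * E' f`, where `E'` goes
  from orientations `(b.1, a.1)` to `(a.1, b.1)`: `E' f (a :: b :: w) = if b = dual a then cup a *`
  `∑ i, cap (!a.1, i) * f ((!a.1, i) :: (a.1, i) :: w) else 0`.  Compare the entries of `xW q true` and
  `xW q false` (`pB q i j k l * q ^ N - nB q i j k l * q ^ (-N) = z` for `k = i`, `l = j`, else `0`).
* `two_pos`: `pos (pos f) (a :: b :: w) = X * f (a :: b :: w) + cc 1 * E f (a :: b :: w)`: apply `skein` to the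
  upper crossing; `neg (pos f) = f` (`wf_pn`), and `E' (pos f) = E f` (a curl at a maximum,
  `wf_cap1p`; the orientations are respected, so the sum over one orientation suffices).
* `two_neg`: `neg (neg f) = X⁻¹ f + cc (-1) * E f`, similarly, or by inverting `two_pos`
  (`E E = [N] E`).
* `twist_even`: induction on `|k|` (`twists 0 (2 k)` is a list of `2 |k|` equal crossings,
  `FD.RT_append`; `E (X ^ k f + cc k E f) = (X ^ k + cc k [N]) E f = E f`).
* `twist_flags`: an odd number of crossings exchanges the first two orientations, so an even number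
  preserves them (`wf_ty`-like; use the definition of `xW`).
All formulas were checked by computer for `N = 1, 2, 3`, `|k| ≤ 3`.
-/

namespace Pool.Agent.EVT

open Finset
open Pool.Agent.Helper9.Kashaev (Piece Diagram)
open Pool.Agent.Helper9.FA (Item twists)

variable {A : Type*} [CommRing A]

theorem zz_mul_dl (N : ℕ) (q : Aˣ) : zz q * dl N q = zp q N - zp q (-N) := by
  have h : ∀ n : ℕ, zz q * ∑ i ∈ range n, zp q (2 * (i : ℤ) + 1 - N) =
      zp q (2 * n - N) - zp q (-N) := by
    intro n
    induction n with
    | zero => simp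
    | succ n ih =>
      rw [Finset.sum_range_succ, mul_add, ih, zz_mul]
      have e1 : 2 * (n : ℤ) + 1 - N + 1 = 2 * ((n + 1 : ℕ) : ℤ) - N := by push_cast; ring
      have e2 : 2 * (n : ℤ) + 1 - N - 1 = 2 * n - N := by ring
      rw [e1, e2]
      ring
  unfold dl kap
  rw [Fin.sum_univ_eq_sum_range (fun i => zp q (2 * (i : ℤ) + 1 - N)) N, h N]
  congr 2
  ring

theorem la_geom (q : Aˣ) (y : ℤ) (n : ℕ) :
    (1 - zp q y) * ∑ i ∈ range n, zp q (y * i) = 1 - zp q (y * n) := by
  induction n with
  | zero => simp [zp_zero]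
  | succ n ih =>
    rw [Finset.sum_range_succ, mul_add, ih, sub_mul, one_mul, ← zp_add]
    have e : y + y * (n : ℤ) = y * ((n + 1 : ℕ) : ℤ) := by push_cast; ring
    rw [e]
    ring

theorem cc_mul (N : ℕ) (q : Aˣ) (k : ℤ) : cc N q k * dl N q = 1 - zp q (2 * N * k) := by
  cases k with
  | ofNat m =>
    change -(zz q * zp q N * ∑ i ∈ range m, zp q (2 * N * i)) * dl N q = 1 - zp q (2 * N * m)
    have h1 : -(zz q * zp q N * ∑ i ∈ range m, zp q (2 * N * i)) * dl N q =
        -((zz q * dl N q) * zp q N) * ∑ i ∈ range m, zp q (2 * N * i) := by ring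
    have h2 : -((zp q N - zp q (-N)) * zp q N) = 1 - zp q (2 * N) := by
      rw [sub_mul, ← zp_add, zp_neg_mul]
      have : (N : ℤ) + N = 2 * N := by ring
      rw [this]
      ring
    rw [h1, zz_mul_dl, h2, la_geom]
  | negSucc m =>
    change zz q * zp q (-N) * (∑ i ∈ range (m + 1), zp q (-(2 * N * i))) * dl N q =
      1 - zp q (2 * N * Int.negSucc m)
    have h1 : zz q * zp q (-N) * (∑ i ∈ range (m + 1), zp q (-(2 * N * i))) * dl N q =
        ((zz q * dl N q) * zp q (-N)) * ∑ i ∈ range (m + 1), zp q (-(2 * N) * i) := by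
      simp only [neg_mul]
      ring
    have h2 : (zp q N - zp q (-N)) * zp q (-N) = 1 - zp q (-(2 * N)) := by
      rw [sub_mul, ← zp_add, ← zp_add, add_neg_cancel, zp_zero]
      congr 2
      ring
    rw [h1, zz_mul_dl, h2, la_geom]
    congr 2
    rw [Int.negSucc_eq]
    push_cast
    ring

theorem la_cc_zero (N : ℕ) (q : Aˣ) : cc N q 0 = 0 := by
  change -(zz q * zp q N * ∑ i ∈ range 0, zp q (2 * N * i)) = 0
  simp

theorem la_cc_one (N : ℕ) (q : Aˣ) : cc N q 1 = -(zz q * zp q N) := by
  change -(zz q * zp q N * ∑ i ∈ range 1, zp q (2 * N * i)) = _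
  simp [zp_zero]

theorem la_cc_neg_one (N : ℕ) (q : Aˣ) : cc N q (-1) = zz q * zp q (-N) := by
  change zz q * zp q (-N) * ∑ i ∈ range 1, zp q (-(2 * N * i)) = _
  simp [zp_zero]

theorem cc_succ (N : ℕ) (q : Aˣ) (k : ℤ) :
    cc N q (k + 1) = zp q (2 * N) * cc N q k + cc N q 1 := by
  rw [la_cc_one]
  cases k with
  | ofNat m =>
    change -(zz q * zp q N * ∑ i ∈ range (m + 1), zp q (2 * N * i)) =
      zp q (2 * N) * -(zz q * zp q N * ∑ i ∈ range m, zp q (2 * N * i)) + -(zz q * zp q N)
    have h : ∑ i ∈ range (m + 1), zp q (2 * N * i) =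
        zp q (2 * N) * ∑ i ∈ range m, zp q (2 * N * i) + 1 := by
      rw [Finset.sum_range_succ', Finset.mul_sum]
      congr 1
      · refine Finset.sum_congr rfl fun i _ => ?_
        rw [← zp_add]
        congr 1
        push_cast
        ring
      · simp [zp_zero]
    rw [h]
    ring
  | negSucc m =>
    cases m with
    | zero =>
      have h0 : (Int.negSucc 0 : ℤ) = -1 := rfl
      rw [h0, neg_add_cancel, la_cc_zero, la_cc_neg_one]
      have h : zp q (2 * N) * (zz q * zp q (-N)) = zz q * (zp q (2 * N) * zp q (-N)) := by ring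
      rw [h, ← zp_add]
      have e : 2 * (N : ℤ) + -N = N := by ring
      rw [e]
      ring
    | succ m =>
      have h0 : (Int.negSucc (m + 1) : ℤ) + 1 = Int.negSucc m := by
        rw [Int.negSucc_eq, Int.negSucc_eq]
        push_cast
        ring
      rw [h0]
      change zz q * zp q (-N) * (∑ i ∈ range (m + 1), zp q (-(2 * N * i))) =
        zp q (2 * N) * (zz q * zp q (-N) * ∑ i ∈ range (m + 1 + 1), zp q (-(2 * N * i))) +
          -(zz q * zp q N)
      have h : zp q (2 * N) * ∑ i ∈ range (m + 1 + 1), zp q (-(2 * N * i)) =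
          ∑ i ∈ range (m + 1), zp q (-(2 * N * i)) + zp q (2 * N) := by
        rw [Finset.sum_range_succ', mul_add, Finset.mul_sum]
        congr 1
        · refine Finset.sum_congr rfl fun i _ => ?_
          rw [← zp_add]
          congr 1
          push_cast
          ring
        · simp [zp_zero]
      have h2 : zp q (2 * N) * (zz q * zp q (-N) * ∑ i ∈ range (m + 1 + 1), zp q (-(2 * N * i))) =
          zz q * zp q (-N) * (zp q (2 * N) * ∑ i ∈ range (m + 1 + 1), zp q (-(2 * N * i))) := by ring
      rw [h2, h]
      have h3 : zz q * zp q (-N) * (∑ i ∈ range (m + 1), zp q (-(2 * N * i)) + zp q (2 * N)) =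
          zz q * zp q (-N) * (∑ i ∈ range (m + 1), zp q (-(2 * N * i))) +
            zz q * (zp q (-N) * zp q (2 * N)) := by ring
      rw [h3, ← zp_add]
      have e : -(N : ℤ) + 2 * N = N := by ring
      rw [e]
      ring

/-- the sign of a crossing -/
def la_e (s : Bool) : ℤ := if s then 1 else -1

theorem la_skB (N : ℕ) (q : Aˣ) (i j k l : Fin N) :
    nB q i j k l = zp q (2 * N) * pB q i j k l + cc N q 1 * (if k = i ∧ l = j then 1 else 0) := by
  rw [la_cc_one]
  unfold nB pB
  by_cases hij : i = j
  · subst hij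
    by_cases h : k = i ∧ l = i
    · simp only [if_true, if_pos h]
      rw [← zp_add, neg_mul, zz_mul]
      have e1 : (2 * N : ℤ) + (1 - N) = N + 1 := by ring
      rw [e1]
      ring
    · simp only [if_true, if_neg h]
      ring
  · simp only [if_neg hij]
    have h1 : zp q (2 * N) * (zp q (-N) * ((if k = j ∧ l = i then 1 else 0) +
        if i < j ∧ k = i ∧ l = j then zz q else 0)) = (zp q (2 * N) * zp q (-N)) *
        ((if k = j ∧ l = i then 1 else 0) + if i < j ∧ k = i ∧ l = j then zz q else 0) := by ring
    rw [h1, ← zp_add]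
    have e1 : (2 * N : ℤ) + -N = N := by ring
    rw [e1]
    by_cases h : k = i ∧ l = j
    · obtain ⟨rfl, rfl⟩ := h
      rcases lt_or_gt_of_ne hij with hlt | hlt
      · have h2 : ¬ l < k := not_lt.2 hlt.le
        simp [hlt, h2, hij]
        ring
      · have h2 : ¬ k < l := not_lt.2 hlt.le
        simp [hlt, h2, hij]
        ring
    · simp [h]

theorem la_skB' (N : ℕ) (q : Aˣ) (i j k l : Fin N) :
    pB q i j k l = zp q (-(2 * N)) * nB q i j k l +
      cc N q (-1) * (if k = i ∧ l = j then 1 else 0) := by
  rw [la_skB, mul_add, ← mul_assoc, zp_neg_mul, one_mul, la_cc_neg_one, la_cc_one, ← mul_assoc]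
  have h : zp q (-(2 * N)) * -(zz q * zp q N) = -(zz q * (zp q (-(2 * N)) * zp q N)) := by ring
  rw [h, ← zp_add]
  have e : -(2 * (N : ℤ)) + N = -N := by ring
  rw [e]
  ring

theorem la_skX (N : ℕ) (q : Aˣ) (s : Bool) (i j k l : Fin N) :
    xB q (!s) i j k l = zp q (2 * N * la_e s) * xB q s i j k l +
      cc N q (la_e s) * (if k = i ∧ l = j then 1 else 0) := by
  cases s
  · have := la_skB' N q i j k l
    simpa [xB, la_e] using this
  · have := la_skB N q i j k l
    simpa [xB, la_e] using this

/-- the skein relation -/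
theorem la_skein (N : ℕ) (q : Aˣ) (s : Bool) (a b c d : Bool × Fin N) (hab : a.1 ≠ b.1) :
    xW q s a b c d = zp q (2 * N * la_e s) * xW q (!s) a b c d +
      cc N q (la_e s) * (if b = (WF N q).dual a ∧ c.1 = !a.1 ∧ d = (WF N q).dual c then
        (WF N q).cup a * (WF N q).cap c else 0) := by
  obtain ⟨a1, a2⟩ := a
  obtain ⟨b1, b2⟩ := b
  obtain ⟨c1, c2⟩ := c
  obtain ⟨d1, d2⟩ := d
  cases a1 <;> cases b1
  · exact absurd rfl hab
  · cases c1 <;> cases d1
    · simp [xW, WF]
    · simp [xW, WF]
    · simp only [xW, WF, Bool.not_not, Prod.mk.injEq, Bool.not_false, true_and]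
      rw [la_skX N q s b2 d2 a2 c2]
      congr 2
      by_cases h : a2 = b2 ∧ c2 = d2
      · rw [if_pos h, if_pos ⟨h.1.symm, by simp, h.2.symm⟩]
        simp
      · rw [if_neg h, if_neg fun h' => h ⟨h'.1.symm, h'.2.2.symm⟩]
    · simp [xW, WF]
  · cases c1 <;> cases d1
    · simp [xW, WF]
    · simp only [xW, WF, Bool.not_not, Prod.mk.injEq, Bool.not_true, true_and]
      rw [la_skX N q s c2 a2 d2 b2, mul_add]
      congr 1
      · ring
      · by_cases h : d2 = c2 ∧ b2 = a2
        · rw [if_pos h, if_pos ⟨h.2, by simp, by simp [h.1]⟩, h.2]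
          simp
          ring
        · rw [if_neg h, if_neg fun h' => h ⟨by simpa using h'.2.2, h'.1⟩]
          ring
    · simp [xW, WF]
    · simp [xW, WF]
  · exact absurd rfl hab

/-- a maximum below a minimum, with fixed orientations -/
def la_E (N : ℕ) (q : Aˣ) (g : Bool × Fin N → Bool × Fin N → A) (a b : Bool × Fin N) : A :=
  if b = (WF N q).dual a then (WF N q).cup a *
    ∑ i : Fin N, (WF N q).cap (a.1, i) * g (a.1, i) (!a.1, i) else 0

/-- one crossing -/
def la_P (N : ℕ) (q : Aˣ) (s : Bool) (g : Bool × Fin N → Bool × Fin N → A)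
    (a b : Bool × Fin N) : A := ∑ c, ∑ d, xW q s a b c d * g c d

theorem la_inv (N : ℕ) (q : Aˣ) (s : Bool) (a b c d : Bool × Fin N) :
    ∑ x, ∑ y, xW q (!s) a b x y * xW q s x y c d = if a = c ∧ b = d then 1 else 0 := by
  cases s
  · exact wf_np N q a b c d
  · exact wf_pn N q a b c d

theorem la_cap1 (N : ℕ) (q : Aˣ) (s : Bool) (c d : Bool × Fin N) :
    ∑ a, (WF N q).cap a * xW q s a ((WF N q).dual a) c d =
      if d = (WF N q).dual c then (WF N q).cap c else 0 := by
  cases s
  · exact wf_cap1n N q c d
  · exact wf_cap1p N q c d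

theorem la_cancel (N : ℕ) (q : Aˣ) (s : Bool) (g : Bool × Fin N → Bool × Fin N → A)
    (a b : Bool × Fin N) : la_P N q (!s) (la_P N q s g) a b = g a b := by
  unfold la_P
  have h : ∀ x y : Bool × Fin N, xW q (!s) a b x y * ∑ c, ∑ d, xW q s x y c d * g c d =
      ∑ c, ∑ d, xW q (!s) a b x y * xW q s x y c d * g c d := by
    intro x y
    rw [Finset.mul_sum]
    refine Finset.sum_congr rfl fun c _ => ?_
    rw [Finset.mul_sum]
    refine Finset.sum_congr rfl fun d _ => ?_
    ring
  simp only [h]
  calc ∑ x, ∑ y, ∑ c, ∑ d, xW q (!s) a b x y * xW q s x y c d * g c d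
      = ∑ c, ∑ d, ∑ x, ∑ y, xW q (!s) a b x y * xW q s x y c d * g c d := by
        have h1 : ∀ x : Bool × Fin N,
            ∑ y, ∑ c, ∑ d, xW q (!s) a b x y * xW q s x y c d * g c d =
            ∑ c, ∑ d, ∑ y, xW q (!s) a b x y * xW q s x y c d * g c d := by
          intro x
          rw [Finset.sum_comm]
          refine Finset.sum_congr rfl fun c _ => ?_
          rw [Finset.sum_comm]
        simp only [h1]
        rw [Finset.sum_comm]
        refine Finset.sum_congr rfl fun c _ => ?_
        rw [Finset.sum_comm]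
    _ = ∑ c, ∑ d, (if a = c ∧ b = d then 1 else 0) * g c d := by
        refine Finset.sum_congr rfl fun c _ => Finset.sum_congr rfl fun d _ => ?_
        rw [← la_inv N q s a b c d, Finset.sum_mul]
        refine Finset.sum_congr rfl fun x _ => ?_
        rw [Finset.sum_mul]
    _ = g a b := by
        rw [Finset.sum_eq_single a, Finset.sum_eq_single b]
        · simp
        · intro d _ hd
          simp [Ne.symm hd]
        · simp
        · intro c _ hc
          simp [Ne.symm hc]
        · simp

theorem la_two (N : ℕ) (q : Aˣ) (s : Bool) (g : Bool × Fin N → Bool × Fin N → A)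
    (a b : Bool × Fin N) (hab : a.1 ≠ b.1) :
    la_P N q s (la_P N q s g) a b = zp q (2 * N * la_e s) * g a b +
      cc N q (la_e s) * la_E N q g a b := by
  have h1 : la_P N q s (la_P N q s g) a b =
      zp q (2 * N * la_e s) * la_P N q (!s) (la_P N q s g) a b +
        cc N q (la_e s) * ∑ c, ∑ d, (if b = (WF N q).dual a ∧ c.1 = !a.1 ∧
          d = (WF N q).dual c then (WF N q).cup a * (WF N q).cap c else 0) *
            la_P N q s g c d := by
    conv_lhs => unfold la_P
    conv_rhs => arg 1; arg 2; unfold la_P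
    rw [Finset.mul_sum, Finset.mul_sum, ← Finset.sum_add_distrib]
    refine Finset.sum_congr rfl fun c _ => ?_
    rw [Finset.mul_sum, Finset.mul_sum, ← Finset.sum_add_distrib]
    refine Finset.sum_congr rfl fun d _ => ?_
    rw [la_skein N q s a b c d hab]
    unfold la_P
    ring
  rw [h1, la_cancel]
  congr 2
  unfold la_E
  by_cases hb : b = (WF N q).dual a
  · rw [if_pos hb]
    simp only [hb, true_and]
    have h2 : ∀ c : Bool × Fin N, ∑ d, (if c.1 = !a.1 ∧ d = (WF N q).dual c then
        (WF N q).cup a * (WF N q).cap c else 0) * la_P N q s g c d =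
        if c.1 = !a.1 then (WF N q).cup a * ((WF N q).cap c * la_P N q s g c ((WF N q).dual c))
          else 0 := by
      intro c
      rw [Finset.sum_eq_single ((WF N q).dual c)]
      · by_cases hc : c.1 = !a.1
        · simp only [hc, and_self, if_true]
          ring
        · simp [hc]
      · intro d _ hd
        simp [hd]
      · simp
    simp only [h2]
    have h3 : ∀ c : Bool × Fin N, (if c.1 = !a.1 then (WF N q).cup a * ((WF N q).cap c *
        la_P N q s g c ((WF N q).dual c)) else 0) =
        (WF N q).cup a * ∑ x, ∑ y, (if x.1 = a.1 then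
          ((WF N q).cap c * xW q s c ((WF N q).dual c) x y) * g x y else 0) := by
      intro c
      by_cases hc : c.1 = !a.1
      · rw [if_pos hc]
        unfold la_P
        rw [Finset.mul_sum]
        congr 1
        refine Finset.sum_congr rfl fun x _ => ?_
        rw [Finset.mul_sum]
        refine Finset.sum_congr rfl fun y _ => ?_
        by_cases hx : x.1 = a.1
        · rw [if_pos hx]
          ring
        · rw [if_neg hx]
          have : xW q s c ((WF N q).dual c) x y = 0 := by
            by_contra h
            have h4 := (wf_ty N q s _ _ _ _ h).2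
            apply hx
            rw [← h4]
            change (!c.1) = a.1
            rw [hc, Bool.not_not]
          rw [this]
          ring
      · rw [if_neg hc]
        symm
        have : ∑ x, ∑ y, (if x.1 = a.1 then
          ((WF N q).cap c * xW q s c ((WF N q).dual c) x y) * g x y else 0) = 0 := by
          refine Finset.sum_eq_zero fun x _ => Finset.sum_eq_zero fun y _ => ?_
          by_cases hx : x.1 = a.1
          · rw [if_pos hx]
            have : xW q s c ((WF N q).dual c) x y = 0 := by
              by_contra h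
              have h4 := (wf_ty N q s _ _ _ _ h).2
              apply hc
              rw [← hx, ← h4]
              change c.1 = !(!c.1)
              rw [Bool.not_not]
            rw [this]
            ring
          · rw [if_neg hx]
        rw [this, mul_zero]
    simp only [h3]
    rw [← Finset.mul_sum]
    congr 1
    calc ∑ c, ∑ x, ∑ y, (if x.1 = a.1 then
          ((WF N q).cap c * xW q s c ((WF N q).dual c) x y) * g x y else 0)
        = ∑ x, ∑ y, ∑ c, (if x.1 = a.1 then
          ((WF N q).cap c * xW q s c ((WF N q).dual c) x y) * g x y else 0) := by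
          rw [Finset.sum_comm]
          refine Finset.sum_congr rfl fun x _ => ?_
          rw [Finset.sum_comm]
      _ = ∑ x : Bool × Fin N, (if x.1 = a.1 then (WF N q).cap x * g x ((WF N q).dual x) else 0) := by
          refine Finset.sum_congr rfl fun x _ => ?_
          by_cases hx : x.1 = a.1
          · simp only [hx, if_true]
            simp only [← Finset.sum_mul, la_cap1]
            rw [Finset.sum_eq_single ((WF N q).dual x)]
            · simp
            · intro y _ hy
              simp [hy]
            · simp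
          · simp [hx]
      _ = _ := by
          rw [Fintype.sum_prod_type, Finset.sum_eq_single a.1]
          · simp only [if_true]
            rfl
          · intro b' _ hb'
            simp [hb']
          · simp
  · rw [if_neg hb]
    simp [hb]

theorem la_loop (N : ℕ) (q : Aˣ) (b : Bool) :
    ∑ i : Fin N, (WF N q).cap (b, i) * (WF N q).cup (b, i) = dl N q := by
  cases b
  · rw [← sum_kapi]
    simp [WF]
  · simp [WF, dl]

theorem la_iter (N : ℕ) (q : Aˣ) (s : Bool) (n : ℕ) :
    ∀ (g : Bool × Fin N → Bool × Fin N → A) (a b : Bool × Fin N), a.1 ≠ b.1 →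
    (fun g' => la_P N q s (la_P N q s g'))^[n] g a b =
      zp q (2 * N * (la_e s * n)) * g a b + cc N q (la_e s * n) * la_E N q g a b := by
  induction n with
  | zero =>
    intro g a b _
    simp [zp_zero, la_cc_zero]
  | succ n ih =>
    intro g a b hab
    rw [Function.iterate_succ_apply, ih _ a b hab]
    have hE : la_E N q (la_P N q s (la_P N q s g)) a b =
        (zp q (2 * N * la_e s) + cc N q (la_e s) * dl N q) * la_E N q g a b := by
      unfold la_E
      by_cases hb : b = (WF N q).dual a
      · rw [if_pos hb, if_pos hb]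
        have h1 : ∀ i : Fin N, (WF N q).cap (a.1, i) *
            la_P N q s (la_P N q s g) (a.1, i) (!a.1, i) =
            zp q (2 * N * la_e s) * ((WF N q).cap (a.1, i) * g (a.1, i) (!a.1, i)) +
              ((WF N q).cap (a.1, i) * (WF N q).cup (a.1, i)) * (cc N q (la_e s) *
              ∑ j : Fin N, (WF N q).cap (a.1, j) * g (a.1, j) (!a.1, j)) := by
          intro i
          rw [la_two N q s g (a.1, i) (!a.1, i) (by simp)]
          unfold la_E
          have h9 : (((!a.1, i) : Bool × Fin N) = (WF N q).dual (a.1, i)) := rfl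
          simp only [if_pos h9]
          ring
        simp only [h1]
        rw [Finset.sum_add_distrib, ← Finset.mul_sum, ← Finset.sum_mul, la_loop]
        ring
      · rw [if_neg hb, if_neg hb, mul_zero]
    rw [hE, la_two N q s g a b hab]
    have hc : cc N q (la_e s * ((n + 1 : ℕ) : ℤ)) =
        zp q (2 * N * (la_e s * n)) * cc N q (la_e s) + cc N q (la_e s * n) *
          (zp q (2 * N * la_e s) + cc N q (la_e s) * dl N q) := by
      have hm := cc_mul N q (la_e s * n)
      have h5 : cc N q (la_e s * n) * (zp q (2 * N * la_e s) + cc N q (la_e s) * dl N q) =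
          cc N q (la_e s * n) * zp q (2 * N * la_e s) +
            (cc N q (la_e s * n) * dl N q) * cc N q (la_e s) := by ring
      rw [h5, hm]
      have h6 : cc N q (la_e s * ((n + 1 : ℕ) : ℤ)) =
          zp q (2 * N * la_e s) * cc N q (la_e s * n) + cc N q (la_e s) := by
        cases s
        · simp only [la_e, Bool.false_eq_true, if_false, neg_mul, one_mul]
          have h7 := cc_succ N q (-((n + 1 : ℕ) : ℤ))
          have h8 := cc_succ N q (-1)
          rw [neg_add_cancel, la_cc_zero] at h8
          have e1 : (-((n + 1 : ℕ) : ℤ)) + 1 = -n := by push_cast; ring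
          rw [e1] at h7
          have e2 : cc N q 1 = -(zp q (2 * N) * cc N q (-1)) := by
            rw [eq_neg_iff_add_eq_zero, add_comm]
            exact h8.symm
          rw [h7, e2]
          have e3 : (2 * (N : ℤ) * -1) = -(2 * N) := by ring
          rw [e3, mul_add, ← mul_assoc, zp_neg_mul, mul_neg, ← mul_assoc, zp_neg_mul]
          ring
        · simp only [la_e, if_true, one_mul, mul_one]
          push_cast
          exact cc_succ N q n
      rw [h6]
      ring
    rw [hc]
    have he : zp q (2 * N * (la_e s * ((n + 1 : ℕ) : ℤ))) =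
        zp q (2 * N * (la_e s * n)) * zp q (2 * N * la_e s) := by
      rw [← zp_add]
      congr 1
      push_cast
      ring
    rw [he]
    ring

/-- the crossing of sign `s` -/
def la_pc (s : Bool) : Piece := if s then .pos else .neg

theorem la_sl (N : ℕ) (q : Aˣ) (s : Bool) (f : List (Bool × Fin N) → A) (a b : Bool × Fin N)
    (w : List (Bool × Fin N)) : (WF N q).sl (la_pc s) 0 f (a :: b :: w) =
      la_P N q s (fun x y => f (x :: y :: w)) a b := by
  cases s <;> rfl

theorem la_rep (N : ℕ) (q : Aˣ) (s : Bool) (n : ℕ) (w : List (Bool × Fin N)) :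
    ∀ (f : List (Bool × Fin N) → A) (a b : Bool × Fin N),
    (WF N q).RT (List.replicate (2 * n) (0, la_pc s)) f (a :: b :: w) =
      (fun g' => la_P N q s (la_P N q s g'))^[n] (fun x y => f (x :: y :: w)) a b := by
  induction n with
  | zero => intro f a b; rfl
  | succ n ih =>
    intro f a b
    have e : 2 * (n + 1) = 2 * n + 1 + 1 := by ring
    rw [e, List.replicate_succ, List.replicate_succ]
    change (WF N q).RT (List.replicate (2 * n) (0, la_pc s))
      ((WF N q).sl (la_pc s) 0 ((WF N q).sl (la_pc s) 0 f)) (a :: b :: w) = _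
    rw [ih, Function.iterate_succ_apply]
    have h : (fun x y => (WF N q).sl (la_pc s) 0 ((WF N q).sl (la_pc s) 0 f) (x :: y :: w)) =
        la_P N q s (la_P N q s fun x y => f (x :: y :: w)) := by
      funext x y
      rw [la_sl]
      congr 1
      funext x' y'
      rw [la_sl]
    rw [h]

theorem la_twists (p : ℕ) (k : ℤ) : ∃ s : Bool, twists p (2 * k) =
    List.replicate (2 * k.natAbs) (p, la_pc s) ∧ la_e s * (k.natAbs : ℤ) = k := by
  refine ⟨decide (0 < k), ?_, ?_⟩
  · unfold twists
    rw [Int.natAbs_mul]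
    have h : (0 < 2 * k) ↔ 0 < k := by omega
    by_cases hk : 0 < k
    · simp [h, hk, la_pc]
    · simp [h, hk, la_pc]
  · unfold la_e
    by_cases hk : 0 < k
    · simp only [hk, decide_true, if_true]
      omega
    · simp only [hk, decide_false, Bool.false_eq_true, if_false]
      omega

theorem twist_even (N : ℕ) (q : Aˣ) (k : ℤ) (f : List (Bool × Fin N) → A)
    (a b : Bool × Fin N) (w : List (Bool × Fin N)) (hab : a.1 ≠ b.1) :
    (WF N q).RT (twists 0 (2 * k)) f (a :: b :: w) =
      zp q (2 * N * k) * f (a :: b :: w) +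
        cc N q k * (if b = (WF N q).dual a then (WF N q).cup a *
          ∑ i : Fin N, (WF N q).cap (a.1, i) * f ((a.1, i) :: (!a.1, i) :: w) else 0) := by
  obtain ⟨s, hs, hk⟩ := la_twists 0 k
  rw [hs, la_rep, la_iter N q s _ _ a b hab, hk]
  rfl

/-- exchange of two entries -/
def la_sw : ℕ → List Bool → List Bool
  | 0, a :: b :: w => b :: a :: w
  | 0, w => w
  | _ + 1, [] => []
  | k + 1, a :: w => a :: la_sw k w

theorem la_sw_sw : ∀ (p : ℕ) (w : List Bool), la_sw p (la_sw p w) = w
  | 0, [] => rfl
  | 0, [_] => rfl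
  | 0, _ :: _ :: _ => rfl
  | _ + 1, [] => rfl
  | p + 1, a :: w => by
    change a :: la_sw p (la_sw p w) = a :: w
    rw [la_sw_sw p w]

theorem la_sl_flags (N : ℕ) (q : Aˣ) (s : Bool) (p : ℕ) : ∀ (f : List (Bool × Fin N) → A)
    (w : List (Bool × Fin N)), (WF N q).sl (la_pc s) p f w ≠ 0 →
    ∃ w' : List (Bool × Fin N), f w' ≠ 0 ∧ w'.map Prod.fst = la_sw p (w.map Prod.fst) := by
  induction p with
  | zero =>
    intro f w h
    match w with
    | [] => cases s <;> exact absurd rfl h
    | [_] => cases s <;> exact absurd rfl h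
    | a :: b :: w =>
      rw [la_sl] at h
      obtain ⟨c, _, hc⟩ := Finset.exists_ne_zero_of_sum_ne_zero h
      obtain ⟨d, _, hd⟩ := Finset.exists_ne_zero_of_sum_ne_zero hc
      have h1 := left_ne_zero_of_mul hd
      have h2 := right_ne_zero_of_mul hd
      obtain ⟨h3, h4⟩ := wf_ty N q s a b c d h1
      refine ⟨c :: d :: w, h2, ?_⟩
      simp only [List.map_cons]
      rw [← h3, ← h4]
      rfl
  | succ p ih =>
    intro f w h
    match w with
    | [] => exact absurd rfl h
    | a :: w =>
      obtain ⟨w', h1, h2⟩ := ih (fun u => f (a :: u)) w h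
      refine ⟨a :: w', h1, ?_⟩
      simp only [List.map_cons]
      rw [h2]
      rfl

theorem twist_flags (N : ℕ) (q : Aˣ) (p : ℕ) (k : ℤ) (f : List (Bool × Fin N) → A)
    (w : List (Bool × Fin N)) (h : (WF N q).RT (twists p (2 * k)) f w ≠ 0) :
    ∃ w' : List (Bool × Fin N), f w' ≠ 0 ∧ w'.map Prod.fst = w.map Prod.fst := by
  obtain ⟨s, hs, -⟩ := la_twists p k
  rw [hs] at h
  generalize k.natAbs = n at h
  induction n generalizing f with
  | zero => exact ⟨w, h, rfl⟩
  | succ n ih =>
    have e : 2 * (n + 1) = 2 * n + 1 + 1 := by ring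
    rw [e, List.replicate_succ, List.replicate_succ] at h
    obtain ⟨w1, h1, e1⟩ := ih _ h
    obtain ⟨w2, h2, e2⟩ := la_sl_flags N q s p _ _ h1
    obtain ⟨w3, h3, e3⟩ := la_sl_flags N q s p _ _ h2
    exact ⟨w3, h3, by rw [e3, e2, la_sw_sw, e1]⟩

end Pool.Agent.EVT
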