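import Pool.Agent.EVT.LB0
import Pool.Agent.EVT.GA

/-!
# EVT module LC: minima and maxima for words with orientations

Let `F = WF N q`, `T = TQ N q`.
* `cup_lft`: for all `f`: `F.sl .cup k f (lft b u) = T.cu b k (fun u => f (lft b u)) u` (the parity of the
  first strand is `b`): induction on `k`; for `k = 0` at `i :: j :: u`: `dual (b, i) = (!b, i)`, so the
  conditions are `j = i`, the coefficients are `cup (b, i) = T.c b i` and the rest `lft (!!b) u`.
* `cup_su`: the support of `F.sl .cup k f`: a word with non-zero value is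
  `w₁ ++ a :: dual a :: w₂` with `w₁.length = k` and `f (w₁ ++ w₂) ≠ 0`; take `g'` equal to `g` except
  `g' c = a.1 ^^ (parity)`; `c` does not occur in `L`.
* `cap_su`: a word `w` with non-zero value comes from `w₁ ++ a :: dual a :: w₂`, `w = w₁ ++ w₂`, with
  `g x = g y` (the orientations at the positions `k`, `k + 1` are opposite); so the same `g` works for
  the new labels.  (If `m = y` then the new `m` is `x` and `g x = g y = false`.)
* `cap_lft`: `F.sl .cap k f (lft true u) = T.ca true k (fun u => f (lft true u)) u` if `f` is supported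
  on `L`: the left side is the sum over `a = (o, i)` of `cap a * f (w₁ ++ a :: dual a :: w₂)` with
  `w₁ ++ w₂ = lft true u`; the terms with `o` equal to the parity of `k` give the right side.  For the
  other `o` the value of `f` is `0`: otherwise `g x = g y = true`, so `x ≠ m`, and by `Cnt` the label `x`
  occurs at another position of `L`, different from `k`, `k + 1` (as `x ≠ y`), where the word
  `lft true u` has the alternating orientation, which gives `g x = false`.
-/

namespace Pool.Agent.EVT

open Finset
open Pool.Agent.Helper9.Kashaev (Piece Diagram)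
open Pool.Agent.Helper9.FA (Item twists)

variable {A : Type*} [CommRing A]

/-! ### words and flags -/

/-- the orientation with `n` strands to the left -/
def lc_par : Bool → ℕ → Bool
  | b, 0 => b
  | b, n + 1 => lc_par (!b) n

theorem lc_flg_append (g : ℕ → Bool) : ∀ (b : Bool) (L₁ L₂ : List ℕ),
    flg g b (L₁ ++ L₂) = flg g b L₁ ++ flg g (lc_par b L₁.length) L₂
  | _, [], _ => rfl
  | b, x :: L₁, L₂ => by
    change (b ^^ g x) :: flg g (!b) (L₁ ++ L₂) = _
    rw [lc_flg_append g (!b) L₁ L₂]
    rfl

theorem lc_flg_length (g : ℕ → Bool) : ∀ (b : Bool) (L : List ℕ), (flg g b L).length = L.length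
  | _, [] => rfl
  | b, x :: L => by
    change (flg g (!b) L).length + 1 = L.length + 1
    rw [lc_flg_length g (!b) L]

theorem lc_flg_congr {g g' : ℕ → Bool} : ∀ (b : Bool) (L : List ℕ), (∀ x ∈ L, g x = g' x) →
    flg g b L = flg g' b L
  | _, [], _ => rfl
  | b, x :: L, h => by
    change (b ^^ g x) :: flg g (!b) L = (b ^^ g' x) :: flg g' (!b) L
    rw [lc_flg_congr (!b) L (fun y hy => h y (List.mem_cons_of_mem _ hy)),
      h x List.mem_cons_self]

theorem lc_flg_map (g : ℕ → Bool) (r : ℕ → ℕ) : ∀ (b : Bool) (L : List ℕ),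
    (∀ x ∈ L, g (r x) = g x) → flg g b (L.map r) = flg g b L
  | _, [], _ => rfl
  | b, x :: L, h => by
    change (b ^^ g (r x)) :: flg g (!b) (L.map r) = (b ^^ g x) :: flg g (!b) L
    rw [lc_flg_map g r (!b) L (fun y hy => h y (List.mem_cons_of_mem _ hy)),
      h x List.mem_cons_self]

theorem lc_lft_append {N : ℕ} : ∀ (b : Bool) (u₁ u₂ : List (Fin N)),
    lft b (u₁ ++ u₂) = lft b u₁ ++ lft (lc_par b u₁.length) u₂
  | _, [], _ => rfl
  | b, x :: L₁, L₂ => by
    change (b, x) :: lft (!b) (L₁ ++ L₂) = _
    rw [lc_lft_append (!b) L₁ L₂]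
    rfl

theorem lc_lft_length {N : ℕ} : ∀ (b : Bool) (u : List (Fin N)), (lft b u).length = u.length
  | _, [] => rfl
  | b, x :: L => by
    change (lft (!b) L).length + 1 = L.length + 1
    rw [lc_lft_length (!b) L]

theorem lc_alt {N : ℕ} (g : ℕ → Bool) : ∀ (b : Bool) (L : List ℕ) (u : List (Fin N)),
    (lft b u).map Prod.fst = flg g b L → ∀ x ∈ L, g x = false
  | _, [], _, _ => fun x hx => absurd hx List.not_mem_nil
  | b, x :: L, [], h => absurd h (by simp [lft, flg])
  | b, x :: L, i :: u, h => by
    have h1 : b :: (lft (!b) u).map Prod.fst = (b ^^ g x) :: flg g (!b) L := h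
    injection h1 with h2 h3
    intro y hy
    rcases List.mem_cons.1 hy with rfl | hy
    · revert h2
      cases b <;> cases g y <;> simp
    · exact lc_alt g (!b) L u h3 y hy

/-! ### operators -/

theorem lc_cup {ι : Type*} [Fintype ι] [DecidableEq ι] (F : FD A ι) : ∀ (k : ℕ) (f : List ι → A)
    (w : List ι), F.sl .cup k f w ≠ 0 → ∃ w₁ a w₂, w = w₁ ++ a :: F.dual a :: w₂ ∧
      w₁.length = k ∧ f (w₁ ++ w₂) ≠ 0
  | 0, f, [] => fun h => absurd rfl h
  | 0, f, [_] => fun h => absurd rfl h
  | 0, f, a :: b :: w => fun h => by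
    have h' : (if b = F.dual a then F.cup a * f w else 0) ≠ 0 := h
    by_cases hb : b = F.dual a
    · rw [if_pos hb] at h'
      exact ⟨[], a, w, by rw [hb]; rfl, rfl, right_ne_zero_of_mul h'⟩
    · rw [if_neg hb] at h'
      exact absurd rfl h'
  | k + 1, f, [] => fun h => absurd rfl h
  | k + 1, f, x :: w => fun h => by
    obtain ⟨w₁, a, w₂, h1, h2, h3⟩ := lc_cup F k (fun u => f (x :: u)) w h
    exact ⟨x :: w₁, a, w₂, by rw [h1]; rfl, by rw [List.length_cons, h2], h3⟩

theorem lc_cap {ι : Type*} [Fintype ι] [DecidableEq ι] (F : FD A ι) : ∀ (k : ℕ) (f : List ι → A)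
    (w : List ι), F.sl .cap k f w = if k ≤ w.length then
      ∑ a, F.cap a * f (w.take k ++ a :: F.dual a :: w.drop k) else 0
  | 0, f, w => by
    rw [if_pos (Nat.zero_le _)]
    rfl
  | k + 1, f, [] => by
    rw [if_neg (by simp)]
    rfl
  | k + 1, f, x :: w => by
    change F.sl .cap k (fun u => f (x :: u)) w = _
    rw [lc_cap F k]
    by_cases h : k ≤ w.length
    · rw [if_pos h, if_pos (by simpa using h)]
      rfl
    · rw [if_neg h, if_neg (by simpa using h)]

theorem lc_ca {ι : Type*} [Fintype ι] [DecidableEq ι] (T : TL A ι) : ∀ (k : ℕ) (b : Bool)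
    (f : List ι → A) (w : List ι), T.ca b k f w = if k ≤ w.length then
      ∑ x, T.e (lc_par b k) x * f (w.take k ++ x :: x :: w.drop k) else 0
  | 0, b, f, w => by
    rw [if_pos (Nat.zero_le _)]
    rfl
  | k + 1, b, f, [] => by
    rw [if_neg (by simp)]
    rfl
  | k + 1, b, f, x :: w => by
    change T.ca (!b) k (fun u => f (x :: u)) w = _
    rw [lc_ca T k]
    by_cases h : k ≤ w.length
    · rw [if_pos h, if_pos (by simpa using h)]
      rfl
    · rw [if_neg h, if_neg (by simpa using h)]

theorem cup_lft (N : ℕ) (q : Aˣ) (k : ℕ) (b : Bool) (f : List (Bool × Fin N) → A)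
    (u : List (Fin N)) :
    (WF N q).sl .cup k f (lft b u) = (TQ N q).cu b k (fun u' => f (lft b u')) u := by
  induction k generalizing b f u with
  | zero =>
    match u with
    | [] => rfl
    | [_] => rfl
    | i :: j :: u =>
      change (if ((!b, j) : Bool × Fin N) = (!b, i) then
        (if b = true then kap q i else 1) * f (lft (!!b) u) else 0) =
        if i = j then (if b = true then kap q i else 1) * f (lft b u) else 0
      rw [Bool.not_not]
      by_cases h : i = j
      · rw [if_pos (by rw [h]), if_pos h]
      · rw [if_neg (fun h' => h (Prod.mk.inj h').2.symm), if_neg h]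
  | succ k ih =>
    match u with
    | [] => rfl
    | i :: u => exact ih (!b) (fun v => f ((b, i) :: v)) u

theorem lc_split {L R : List ℕ} {k x y : ℕ} (hd : L.drop k = x :: y :: R) :
    L = L.take k ++ x :: y :: R ∧ (L.take k).length = k := by
  refine ⟨by rw [← hd, List.take_append_drop], ?_⟩
  rw [List.length_take]
  have h : (L.drop k).length = L.length - k := List.length_drop
  rw [hd] at h
  simp only [List.length_cons] at h
  omega

theorem cup_su (N : ℕ) (q : Aˣ) {c m k : ℕ} {L : List ℕ} (hc : Cnt c L m) (hk : k ≤ L.length)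
    {f : List (Bool × Fin N) → A} (hf : SuL L m f) :
    SuL (L.take k ++ c :: c :: L.drop k) m ((WF N q).sl .cup k f) := by
  intro w hw
  obtain ⟨w₁, a, w₂, rfl, h2, h3⟩ := lc_cup (WF N q) k f w hw
  obtain ⟨g, hg, h4⟩ := hf _ h3
  have hl : (L.take k).length = k := by rw [List.length_take]; omega
  have hcL : c ∉ L := fun h => lt_irrefl c (hc.2.2 c h)
  have hmL : m ∈ L := List.count_pos_iff.1 (by rw [hc.1]; exact one_pos)
  have hmc : m ≠ c := fun h => hcL (h ▸ hmL)
  rw [← List.take_append_drop k L, lc_flg_append, hl, List.map_append] at h4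
  obtain ⟨h5, h6⟩ := List.append_inj h4 (by
    rw [List.length_map, lc_flg_length, h2, hl])
  refine ⟨fun z => if z = c then (a.1 ^^ lc_par true k) else g z, ?_, ?_⟩
  · simp only [if_neg hmc]
    exact hg
  · rw [lc_flg_append, hl, List.map_append, h5]
    congr 1
    · refine lc_flg_congr _ _ fun x hx => ?_
      have : x ≠ c := fun h => hcL (h ▸ List.mem_of_mem_take hx)
      simp only [if_neg this]
    · simp only [List.map_cons, flg, if_true]
      rw [Bool.not_not, h6]
      have e1 : a.1 = (lc_par true k ^^ (a.1 ^^ lc_par true k)) := by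
        cases a.1 <;> cases lc_par true k <;> rfl
      have e2 : ((WF N q).dual a).1 = (!lc_par true k ^^ (a.1 ^^ lc_par true k)) := by
        change (!a.1) = _
        cases a.1 <;> cases lc_par true k <;> rfl
      rw [← e1, ← e2]
      congr 2
      refine lc_flg_congr _ _ fun x hx => ?_
      have : x ≠ c := fun h => hcL (h ▸ List.mem_of_mem_drop hx)
      simp only [if_neg this]

theorem cap_su (N : ℕ) (q : Aˣ) {c m k x y : ℕ} {L R : List ℕ} (hc : Cnt c L m)
    (hd : L.drop k = x :: y :: R) (hxy : x ≠ y) {f : List (Bool × Fin N) → A} (hf : SuL L m f) :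
    SuL ((L.take k ++ R).map fun z => if z = y then x else z) (if m = y then x else m)
      ((WF N q).sl .cap k f) := by
  intro w hw
  rw [lc_cap] at hw
  obtain ⟨hL, hl⟩ := lc_split hd
  by_cases hkw : k ≤ w.length
  · rw [if_pos hkw] at hw
    obtain ⟨a, _, ha⟩ := Finset.exists_ne_zero_of_sum_ne_zero hw
    obtain ⟨g, hg, h4⟩ := hf _ (right_ne_zero_of_mul ha)
    rw [hL, lc_flg_append, hl, List.map_append] at h4
    obtain ⟨h5, h6⟩ := List.append_inj h4 (by
      rw [List.length_map, lc_flg_length, hl, List.length_take]
      omega)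
    simp only [List.map_cons, flg] at h6
    injection h6 with h7 h8
    injection h8 with h9 h10
    rw [Bool.not_not] at h10
    have hgxy : g x = g y := by
      have h9' : (!a.1) = (!lc_par true k ^^ g y) := h9
      revert h7 h9'
      cases a.1 <;> cases lc_par true k <;> cases g x <;> cases g y <;> simp
    refine ⟨g, ?_, ?_⟩
    · by_cases hm : m = y
      · rw [if_pos hm, hgxy, ← hm]
        exact hg
      · rw [if_neg hm]
        exact hg
    · rw [lc_flg_map g _ true _ (fun z _ => ?_), lc_flg_append, hl, ← h5, ← h10,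
        ← List.map_append, List.take_append_drop]
      by_cases hz : z = y
      · simp only [hz, if_true]
        exact hgxy
      · simp only [hz, if_false]
  · rw [if_neg hkw] at hw
    exact absurd rfl hw

theorem cap_lft (N : ℕ) (q : Aˣ) {c m k x y : ℕ} {L R : List ℕ} (hc : Cnt c L m)
    (hd : L.drop k = x :: y :: R) (hxy : x ≠ y) {f : List (Bool × Fin N) → A} (hf : SuL L m f)
    (u : List (Fin N)) :
    (WF N q).sl .cap k f (lft true u) = (TQ N q).ca true k (fun u' => f (lft true u')) u := by
  rw [lc_cap, lc_ca, lc_lft_length]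
  by_cases hk : k ≤ u.length
  · rw [if_pos hk, if_pos hk]
    have hul : (u.take k).length = k := by rw [List.length_take]; omega
    have hsp : lft true u = lft true (u.take k) ++ lft (lc_par true k) (u.drop k) := by
      conv_lhs => rw [← List.take_append_drop k u, lc_lft_append, hul]
    have hll : (lft true (u.take k)).length = k := by rw [lc_lft_length, hul]
    have ht : (lft true u).take k = lft true (u.take k) := by
      rw [hsp, List.take_left' hll]
    have hdr : (lft true u).drop k = lft (lc_par true k) (u.drop k) := by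
      rw [hsp, List.drop_left' hll]
    rw [ht, hdr, Fintype.sum_prod_type, Finset.sum_eq_single (lc_par true k)]
    · refine Finset.sum_congr rfl fun i _ => ?_
      rw [lc_lft_append, hul]
      have h1 : lft (lc_par true k) (i :: i :: u.drop k) =
          (lc_par true k, i) :: (!lc_par true k, i) :: lft (!!lc_par true k) (u.drop k) := rfl
      rw [h1, Bool.not_not]
      rfl
    · intro o _ ho
      refine Finset.sum_eq_zero fun i _ => ?_
      by_contra hne
      obtain ⟨g, hg, h4⟩ := hf _ (right_ne_zero_of_mul hne)
      obtain ⟨hL, hl⟩ := lc_split hd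
      rw [hL, lc_flg_append, hl, List.map_append] at h4
      obtain ⟨h5, h6⟩ := List.append_inj h4 (by
        rw [List.length_map, lc_flg_length, hl, hll])
      simp only [List.map_cons, flg] at h6
      injection h6 with h7 h8
      injection h8 with h9 h10
      rw [Bool.not_not] at h10
      have hgx : g x = true := by
        revert h7 ho
        cases o <;> cases lc_par true k <;> cases g x <;> simp
      have hmx : x ≠ m := by
        intro h
        rw [h, hg] at hgx
        exact absurd hgx (by simp)
      have hxL : x ∈ L := by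
        rw [hL]
        simp
      have hc2 := hc.2.1 x hxL hmx
      rw [hL, List.count_append, List.count_cons_self, List.count_cons_of_ne (Ne.symm hxy)] at hc2
      have h11 := lc_alt g true (L.take k) (u.take k) h5
      have h12 := lc_alt g (lc_par true k) R (u.drop k) h10
      have c1 : (L.take k).count x = 0 := by
        rw [List.count_eq_zero]
        intro h
        rw [h11 x h] at hgx
        exact absurd hgx (by simp)
      have c2 : R.count x = 0 := by
        rw [List.count_eq_zero]
        intro h
        rw [h12 x h] at hgx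
        exact absurd hgx (by simp)
      omega
    · intro h
      exact absurd (Finset.mem_univ _) h
  · rw [if_neg hk, if_neg hk]

end Pool.Agent.EVT
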