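import Pool.Agent.EVT.LA
import Pool.Agent.EVT.LC

/-!
# EVT module LD: the value of an evenly twisted knot as a planar state sum

* `box_lft`: for words with alternating orientation the two strands at `k`, `k + 1` are antiparallel:
  `twist_even` (for `k = 0`), and induction on `k` with `FD.RT_sh` (`twists (k + 1) a = sh 1 (twists k a)`;
  the statement is for all parities `b` of the first strand).  Note that
  `T.cu b k (T.ca b k f) u` at `k = 0`, `u = i :: j :: u'` is `if i = j then c b i * ∑ x, e b x * f (x :: x :: u')`,
  and `WF.cap (b, x) = e b x`, `WF.cup (b, i) = c b i`.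
* `box_su`: `twist_flags`.
* `lift`: induction on `S`, generalizing `c`, `L`, `m`, `f`, `ks`; the induction hypothesis is applied to
  `F.sl .cup k f`, `F.sl .cap k f` or `F.RT (twists k (2 x)) f`, with `cup_lft`, `cap_lft`, `box_lft` for the
  function on alternating words (`TL.ev` depends only on the function); at the end `L` has length `1`
  and both sides are `f [(true, i)]`.
* `val_lift`: `lift` for `c = 1`, `L = [0]`, `m = 0`, `f = ket [(true, 0)]`, with `arc_tw`.
-/

namespace Pool.Agent.EVT

open Finset
open Pool.Agent.Helper9.Kashaev (Piece Diagram)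
open Pool.Agent.Helper9.FA (Item twists)
open Pool.Agent.Helper77.ST (Arc IsKnot tw)

variable {A : Type*} [CommRing A]

private theorem twists_eq_sh (k : ℕ) (a : ℤ) : twists k a = sh k (twists 0 a) := by
  unfold twists sh
  rw [List.map_replicate]
  rfl

private theorem RT_twists_cons {ι : Type*} [Fintype ι] [DecidableEq ι] (F : FD A ι) (k : ℕ)
    (a : ℤ) (f : List ι → A) (x : ι) (w : List ι) :
    F.RT (twists (k + 1) a) f (x :: w) = F.RT (twists k a) (fun u => f (x :: u)) w := by
  rw [twists_eq_sh (k + 1), F.RT_sh, ← twists_eq_sh]

theorem box_lft (N : ℕ) (q : Aˣ) (k : ℕ) (b : Bool) (x : ℤ) (f : List (Bool × Fin N) → A)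
    (u : List (Fin N)) (hu : k + 2 ≤ u.length) :
    (WF N q).RT (twists k (2 * x)) f (lft b u) =
      zp q (2 * N * x) * f (lft b u) +
        cc N q x * (TQ N q).cu b k ((TQ N q).ca b k (fun u' => f (lft b u'))) u := by
  induction k generalizing b f u with
  | zero =>
    rcases u with _ | ⟨i, _ | ⟨j, u⟩⟩
    · simp at hu
    · simp at hu
    · have e : lft b (i :: j :: u) = (b, i) :: (!b, j) :: lft (!!b) u := rfl
      rw [e, twist_even N q x f (b, i) (!b, j) _ (by cases b <;> simp)]
      congr 2
      have hd : (WF N q).dual (b, i) = (!b, i) := rfl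
      rw [hd]
      have hcu : ∀ g : List (Fin N) → A, (TQ N q).cu b 0 g (i :: j :: u) =
          if i = j then (TQ N q).c b i * g u else 0 := fun g => rfl
      rw [hcu]
      by_cases hij : i = j
      · subst hij
        rw [if_pos rfl, if_pos rfl]
        have hca : ∀ g : List (Fin N) → A, (TQ N q).ca b 0 g u =
            ∑ x, (TQ N q).e b x * g (x :: x :: u) := by
          intro g
          cases u <;> rfl
        rw [hca]
        rfl
      · rw [if_neg hij, if_neg]
        intro h
        exact hij (congrArg Prod.snd h).symm
  | succ k ih =>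
    rcases u with _ | ⟨i, u⟩
    · simp at hu
    · have e : lft b (i :: u) = (b, i) :: lft (!b) u := rfl
      rw [e, RT_twists_cons, ih (!b) (fun v => f ((b, i) :: v)) u (by simpa using hu)]
      rfl

theorem box_su (N : ℕ) (q : Aˣ) (k : ℕ) (x : ℤ) {L : List ℕ} {m : ℕ}
    {f : List (Bool × Fin N) → A} (hf : SuL L m f) :
    SuL L m ((WF N q).RT (twists k (2 * x)) f) := by
  intro w hw
  obtain ⟨w', h1, h2⟩ := twist_flags N q k x f w hw
  obtain ⟨g, hg, hg'⟩ := hf w' h1
  exact ⟨g, hg, by rw [← h2, hg']⟩

private theorem cu_short {ι : Type*} [Fintype ι] [DecidableEq ι] (T : TL A ι) (b : Bool) (k : ℕ)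
    (f : List ι → A) (u : List ι) (hu : u.length < k + 2) : T.cu b k f u = 0 := by
  induction k generalizing b f u with
  | zero =>
    rcases u with _ | ⟨i, _ | ⟨j, u⟩⟩
    · rfl
    · rfl
    · simp at hu
  | succ k ih =>
    rcases u with _ | ⟨i, u⟩
    · rfl
    · exact ih (!b) _ u (by simp only [List.length_cons] at hu; omega)

private theorem flg_length (g : ℕ → Bool) (b : Bool) (L : List ℕ) :
    (flg g b L).length = L.length := by
  induction L generalizing b with
  | nil => rfl
  | cons x L ih => simp [flg, ih]

private theorem lft_length {N : ℕ} (b : Bool) (u : List (Fin N)) :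
    (lft b u).length = u.length := by
  induction u generalizing b with
  | nil => rfl
  | cons x L ih => simp [lft, ih]

private theorem su_length {N : ℕ} {L : List ℕ} {m : ℕ} {f : List (Bool × Fin N) → A}
    (hf : SuL L m f) {w : List (Bool × Fin N)} (hw : f w ≠ 0) : w.length = L.length := by
  obtain ⟨g, -, hg⟩ := hf w hw
  have := congrArg List.length hg
  rwa [List.length_map, flg_length] at this

theorem lift (N : ℕ) (q : Aˣ) (S : List (Item Unit)) (c m : ℕ) (L : List ℕ) (ks : List ℤ)
    (hl : ks.length = (sides S).length) (hS : ArcP c L S) (hc : Cnt c L m)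
    (f : List (Bool × Fin N) → A) (hf : SuL L m f) (i : Fin N) :
    (WF N q).RT (tw S (dbl2 ks)) f [(true, i)] =
      (TQ N q).ev S (wtQ N q ks) (fun u => f (lft true u)) [i] := by
  induction S generalizing c m L ks f with
  | nil => rfl
  | cons s S ih =>
    rcases s with k | k | ⟨k, a⟩
    · unfold ArcP at hS
      have h1 := ih (c + 1) m _ ks hl hS.2 (cnt_cup hc k) _ (cup_su N q hc hS.1 hf)
      have e : (fun u => (WF N q).sl .cup k f (lft true u)) =
          (TQ N q).cu true k (fun u => f (lft true u)) := by
        funext u
        exact cup_lft N q k true f u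
      rw [e] at h1
      exact h1
    · unfold ArcP at hS
      split at hS
      · rename_i x y R hd
        have h1 := ih c _ _ ks hl hS.2 (cnt_cap hc hd hS.1) _ (cap_su N q hc hd hS.1 hf)
        have e : (fun u => (WF N q).sl .cap k f (lft true u)) =
            (TQ N q).ca true k (fun u => f (lft true u)) := by
          funext u
          exact cap_lft N q hc hd hS.1 hf u
        rw [e] at h1
        exact h1
      · exact hS.elim
    · rcases ks with _ | ⟨x, ks⟩
      · simp [sides] at hl
      · have hl' : ks.length = (sides S).length := by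
          simp only [sides, List.length_cons] at hl
          omega
        unfold ArcP at hS
        have h1 := ih c m L ks hl' hS.2 hc _ (box_su N q k x hf)
        have e : (fun u => (WF N q).RT (twists k (2 * x)) f (lft true u)) =
            fun u => zp q (2 * N * x) * f (lft true u) +
              cc N q x * (TQ N q).cu true k ((TQ N q).ca true k (fun u' => f (lft true u'))) u := by
          funext u
          by_cases hu : k + 2 ≤ u.length
          · exact box_lft N q k true x f u hu
          · have a1 : (WF N q).RT (twists k (2 * x)) f (lft true u) = 0 := by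
              by_contra h
              have := su_length (box_su N q k x hf) h
              rw [lft_length] at this
              have := hS.1
              omega
            have a2 : f (lft true u) = 0 := by
              by_contra h
              have := su_length hf h
              rw [lft_length] at this
              have := hS.1
              omega
            rw [a1, a2, cu_short _ _ _ _ _ (by omega)]
            simp
        rw [e] at h1
        have e2 : tw (Item.box k a :: S) (dbl2 (x :: ks)) =
            twists k (2 * x) ++ tw S (dbl2 ks) := rfl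
        rw [e2, FD.RT_append]
        exact h1

private theorem rem_zero (N : ℕ) (q : Aˣ) (S : List (Item Unit)) (ks : List ℤ)
    (hl : ks.length = (sides S).length) :
    ∃ (S' : List (Item Unit)) (ks' : List ℤ), ks'.length = (sides S').length ∧
      (∀ x ∈ ks', x ≠ 0) ∧ tw S (dbl2 ks) = tw S' (dbl2 ks') ∧
      ∀ f : List (Fin N) → A, (TQ N q).ev S (wtQ N q ks) f = (TQ N q).ev S' (wtQ N q ks') f := by
  induction S generalizing ks with
  | nil =>
    rcases ks with _ | ⟨x, ks⟩
    · exact ⟨[], [], rfl, by simp, rfl, fun _ => rfl⟩
    · simp [sides] at hl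
  | cons s S ih =>
    rcases s with k | k | ⟨k, a⟩
    · obtain ⟨S', ks', h1, h2, h3, h4⟩ := ih ks hl
      refine ⟨.cup k :: S', ks', h1, h2, ?_, fun f => h4 _⟩
      simp only [tw]
      rw [h3]
    · obtain ⟨S', ks', h1, h2, h3, h4⟩ := ih ks hl
      refine ⟨.cap k :: S', ks', h1, h2, ?_, fun f => h4 _⟩
      simp only [tw]
      rw [h3]
    · rcases ks with _ | ⟨x, ks⟩
      · simp [sides] at hl
      · have hl' : ks.length = (sides S).length := by
          simp only [sides, List.length_cons] at hl
          omega
        obtain ⟨S', ks', h1, h2, h3, h4⟩ := ih ks hl'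
        have e2 : tw (Item.box k a :: S) (dbl2 (x :: ks)) =
            twists k (2 * x) ++ tw S (dbl2 ks) := rfl
        by_cases hx : x = 0
        · subst hx
          refine ⟨S', ks', h1, h2, ?_, fun f => ?_⟩
          · rw [e2, ← h3]
            rfl
          · rw [← h4]
            have e3 : (TQ N q).ev (.box k a :: S) (wtQ N q (0 :: ks)) f =
                (TQ N q).ev S (wtQ N q ks) (fun w => zp q (2 * N * 0) * f w +
                  cc N q 0 * (TQ N q).cu true k ((TQ N q).ca true k f) w) := rfl
            rw [e3]
            congr 1
            funext w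
            have e4 : cc N q 0 = 0 := by
              change -(zz q * zp q N * ∑ i ∈ range 0, zp q (2 * N * i)) = 0
              simp
            rw [e4, mul_zero, zero_mul, add_zero, zp_zero, one_mul]
        · refine ⟨.box k a :: S', x :: ks', ?_, ?_, ?_, fun f => h4 _⟩
          · simp only [sides, List.length_cons, h1]
          · intro y hy
            rcases List.mem_cons.1 hy with rfl | hy
            · exact hx
            · exact h2 y hy
          · rw [e2, h3]
            rfl

theorem val_lift (N : ℕ) [NeZero N] (q : Aˣ) (S : List (Item Unit)) (ks : List ℤ)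
    (hl : ks.length = (sides S).length) (hK : IsKnot (tw S (dbl2 ks))) :
    val N q (tw S (dbl2 ks)) = (TQ N q).ev S (wtQ N q ks) (ket A [0]) [0] := by
  obtain ⟨S', ks', h1, h2, h3, h4⟩ := rem_zero N q S ks hl
  rw [h4]
  rw [h3] at hK ⊢
  have hA : ArcP 1 [0] S' := arc_tw S' ks' 1 [0] h1 h2 hK
  have hf : SuL [0] 0 (ket A [((true, 0) : Bool × Fin N)]) := by
    intro w hw
    have hw' : w = [(true, 0)] := by
      by_contra h
      exact hw (if_neg h)
    refine ⟨fun _ => false, rfl, ?_⟩
    rw [hw']
    rfl
  have h5 := lift N q S' 1 0 [0] ks' h1 hA cnt_init _ hf 0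
  unfold val
  rw [h5]
  congr 1
  funext u
  unfold ket
  have hiff : lft true u = [((true, 0) : Bool × Fin N)] ↔ u = [0] := by
    constructor
    · intro h
      rcases u with _ | ⟨i, _ | ⟨j, u⟩⟩
      · simp [lft] at h
      · simpa [lft] using h
      · simp [lft] at h
    · rintro rfl
      rfl
  simp only [hiff]

end Pool.Agent.EVT
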