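import Pool.Agent.EVT.Defs3

/-!
# EVT module LE: the alternating sum over spanning sets has a strict sign

`V` is a vector space over `F₂`, `v : κ → V`.  For a subspace `U` and a finite set `A` put
`f U A = ∑ (-2) ^ #J` over the subsets `J` of `A` with `U ⊔ span (v J) = W`.

`split`: `f U (insert e A) = f U A - 2 * f (U ⊔ ⟨v e⟩) A` for `e ∉ A` (`Finset.powerset_insert`).

`pair`: if `g, h ∈ A`, `g ≠ h`, `v g + v h ∈ U` then `f U A = f U (A \ {g, h})`: for a subset `J` of `A \ {g, h}`
the subspaces `U ⊔ span` of `J ∪ {g}`, `J ∪ {h}`, `J ∪ {g, h}` are equal, and the coefficients are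
`-2 - 2 + 4 = 0` times `(-2) ^ #J`.  (Apply `split` three times.)

`pairs`: let all `v g ∉ U`, `g ∈ A`, and suppose that for each `g ∈ A` there is at most one `h ∈ A`, `h ≠ g` with
`v g + v h ∈ U`.  Then there is `A' ⊆ A` with `f U A = f U A'` such that `v g + v h ∉ U` for
`g ≠ h` in `A'`: induction on the cardinality with `pair`.

`sgn_span` (main induction on `#A`, for all `U`): suppose `v g ∉ U` and `v g + v h ∉ U` for `g ≠ h` in `A`, and
`U ⊔ span (v A) = W`.  Then `0 < (-1) ^ (finrank W - finrank U) * f U A` (in `ℤ`; with `finrank W + finrank U`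
in the exponent).  `A = ∅`: `U = W`, `f = 1`.  Otherwise `e ∈ A`, `A = insert e A₁`, `U' = U ⊔ ⟨v e⟩`, whose
dimension is one more.  `U' ⊔ span (v A₁) = W`.  `v g ∉ U'` for `g ∈ A₁` (`U' = U ∪ (U + v e)`, and
`v g + v e ∉ U`).  If `v g + v h ∈ U'`, `g ≠ h`, then `v g + v h + v e ∈ U`; for each `g` there is at most
one such `h` (`v h + v h' ∈ U`).  So by `pairs` `f U' A₁ = f U' A'`, and if `U' ⊔ span (v A') = W` then by
induction it has the strict sign of `U'`, otherwise it is `0` (no subset of `A'` spans).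
Now `f U A = f U A₁ - 2 f U' A₁`.
(a) `U ⊔ span (v A₁) = W`: the first term has the strict sign of `U` by induction, the second one this
sign or `0`.
(b) Otherwise the first term is `0`; there is no pair: `v g + v h + v e ∈ U` would imply
`v e ∈ U ⊔ span (v A₁)`; so `A₁` itself satisfies the hypotheses for `U'`, and the second term has the strict
sign.
`span_ne`: `U = ⊥`.
-/

namespace Pool.Agent.EVT

open Finset

variable {V κ : Type*} [AddCommGroup V] [Module (ZMod 2) V] [FiniteDimensional (ZMod 2) V]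
  [DecidableEq κ]

open Classical in
/-- the alternating sum -/
noncomputable def fU (v : κ → V) (W U : Submodule (ZMod 2) V) (A : Finset κ) : ℤ :=
  ∑ J ∈ A.powerset.filter (fun J : Finset κ =>
    U ⊔ Submodule.span (ZMod 2) (v '' (J : Set κ)) = W), (-2) ^ J.card

open Classical in
omit [FiniteDimensional (ZMod 2) V] [DecidableEq κ] in
private theorem fU_eq (v : κ → V) (W U : Submodule (ZMod 2) V) (A : Finset κ) :
    fU v W U A = ∑ J ∈ A.powerset, if U ⊔ Submodule.span (ZMod 2) (v '' (J : Set κ)) = W then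
      (-2 : ℤ) ^ J.card else 0 := by
  unfold fU
  rw [Finset.sum_filter]

omit [FiniteDimensional (ZMod 2) V] in
private theorem span_ins (v : κ → V) (U : Submodule (ZMod 2) V) (J : Finset κ) (e : κ) :
    U ⊔ Submodule.span (ZMod 2) (v '' ((insert e J : Finset κ) : Set κ)) =
      (U ⊔ Submodule.span (ZMod 2) {v e}) ⊔ Submodule.span (ZMod 2) (v '' (J : Set κ)) := by
  rw [Finset.coe_insert, Set.image_insert_eq, Submodule.span_insert, sup_assoc]

omit [FiniteDimensional (ZMod 2) V] in
theorem fU_split (v : κ → V) (W U : Submodule (ZMod 2) V) (A : Finset κ) (e : κ) (he : e ∉ A) :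
    fU v W U (insert e A) =
      fU v W U A - 2 * fU v W (U ⊔ Submodule.span (ZMod 2) {v e}) A := by
  classical
  rw [fU_eq, fU_eq, fU_eq, Finset.sum_powerset_insert he, sub_eq_add_neg, Finset.mul_sum,
    ← Finset.sum_neg_distrib]
  congr 1
  refine Finset.sum_congr rfl fun J hJ => ?_
  have heJ : e ∉ J := fun h => he (Finset.mem_powerset.1 hJ h)
  rw [span_ins, Finset.card_insert_of_notMem heJ]
  split_ifs
  · rw [pow_succ]
    ring
  · ring

omit [FiniteDimensional (ZMod 2) V] in
private theorem add_self0 (x : V) : x + x = 0 := by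
  have h : ((1 : ZMod 2) + 1) • x = 0 := by
    rw [show (1 : ZMod 2) + 1 = 0 from rfl, zero_smul]
  rwa [add_smul, one_smul] at h

omit [FiniteDimensional (ZMod 2) V] in
private theorem mem_sup_one {U : Submodule (ZMod 2) V} {x y : V}
    (h : x ∈ U ⊔ Submodule.span (ZMod 2) {y}) : x ∈ U ∨ x + y ∈ U := by
  rw [Submodule.mem_sup] at h
  obtain ⟨u, hu, w, hw, rfl⟩ := h
  obtain ⟨c, rfl⟩ := Submodule.mem_span_singleton.1 hw
  have hc : c = 0 ∨ c = 1 := (by decide : ∀ c : ZMod 2, c = 0 ∨ c = 1) c
  rcases hc with rfl | rfl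
  · left
    rw [zero_smul, add_zero]
    exact hu
  · right
    rw [one_smul, add_assoc, add_self0, add_zero]
    exact hu

omit [FiniteDimensional (ZMod 2) V] in
private theorem sup_pair {U : Submodule (ZMod 2) V} {x y : V} (h : x + y ∈ U) :
    U ⊔ Submodule.span (ZMod 2) {y} ≤ U ⊔ Submodule.span (ZMod 2) {x} := by
  refine sup_le le_sup_left ?_
  rw [Submodule.span_singleton_le_iff_mem]
  have h1 : y = (x + y) + x := by
    rw [add_comm x y, add_assoc, add_self0, add_zero]
  rw [h1]
  exact Submodule.add_mem _ (Submodule.mem_sup_left h)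
    (Submodule.mem_sup_right (Submodule.mem_span_singleton_self x))

omit [FiniteDimensional (ZMod 2) V] in
theorem fU_pair (v : κ → V) (W U : Submodule (ZMod 2) V) (A : Finset κ) {g h : κ} (hg : g ∈ A)
    (hh : h ∈ A) (hgh : g ≠ h) (hU : v g + v h ∈ U) :
    fU v W U A = fU v W U ((A.erase g).erase h) := by
  set B := (A.erase g).erase h with hB
  have hhB : h ∉ B := Finset.notMem_erase h _
  have hgB : g ∉ insert h B := by
    rw [Finset.mem_insert, not_or]
    exact ⟨hgh, fun hm => Finset.notMem_erase g A (Finset.mem_of_mem_erase hm)⟩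
  have hA : A = insert g (insert h B) := by
    rw [hB, Finset.insert_erase (Finset.mem_erase.2 ⟨hgh.symm, hh⟩), Finset.insert_erase hg]
  have h1 : U ⊔ Submodule.span (ZMod 2) {v g} = U ⊔ Submodule.span (ZMod 2) {v h} :=
    le_antisymm (sup_pair (by rwa [add_comm])) (sup_pair hU)
  have h2 : (U ⊔ Submodule.span (ZMod 2) {v g}) ⊔ Submodule.span (ZMod 2) {v h} =
      U ⊔ Submodule.span (ZMod 2) {v h} := by
    rw [h1, sup_assoc, sup_idem]
  rw [hA, fU_split v W U _ g hgB, fU_split v W U _ h hhB, fU_split v W _ _ h hhB, h2, h1]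
  ring

omit [FiniteDimensional (ZMod 2) V] in
private theorem fU_pairs0 (v : κ → V) (W U : Submodule (ZMod 2) V) (n : ℕ) :
    ∀ A : Finset κ, A.card = n →
    ∃ A' ⊆ A, fU v W U A = fU v W U A' ∧ ∀ g ∈ A', ∀ h ∈ A', g ≠ h → v g + v h ∉ U := by
  induction n using Nat.strong_induction_on with
  | _ n ih =>
    intro A hA
    by_cases hex : ∃ g ∈ A, ∃ h ∈ A, g ≠ h ∧ v g + v h ∈ U
    · obtain ⟨g, hg, h, hh, hgh, hU⟩ := hex
      have hlt : ((A.erase g).erase h).card < n := by
        rw [← hA]
        exact (Finset.card_le_card (Finset.erase_subset h _)).trans_lt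
          (Finset.card_erase_lt_of_mem hg)
      obtain ⟨A', hsub, hf, hno⟩ := ih _ hlt ((A.erase g).erase h) rfl
      refine ⟨A', (hsub.trans (Finset.erase_subset _ _)).trans (Finset.erase_subset _ _), ?_, hno⟩
      rw [fU_pair v W U A hg hh hgh hU, hf]
    · push Not at hex
      exact ⟨A, Finset.Subset.refl A, rfl, fun g hg h hh hgh => hex g hg h hh hgh⟩

theorem fU_pairs (v : κ → V) (W U : Submodule (ZMod 2) V) (A : Finset κ)
    (_h1 : ∀ g ∈ A, v g ∉ U)
    (_h2 : ∀ g ∈ A, ∀ h ∈ A, ∀ h' ∈ A, g ≠ h → g ≠ h' → v g + v h ∈ U → v g + v h' ∈ U → h = h') :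
    ∃ A' ⊆ A, fU v W U A = fU v W U A' ∧ ∀ g ∈ A', ∀ h ∈ A', g ≠ h → v g + v h ∉ U :=
  fU_pairs0 v W U A.card A rfl

omit [FiniteDimensional (ZMod 2) V] in
/-- nothing spans. -/
private theorem fU_zero (v : κ → V) (W U : Submodule (ZMod 2) V) (A : Finset κ)
    (h1 : U ⊔ Submodule.span (ZMod 2) (v '' (A : Set κ)) ≤ W)
    (h2 : U ⊔ Submodule.span (ZMod 2) (v '' (A : Set κ)) ≠ W) : fU v W U A = 0 := by
  classical
  rw [fU_eq]
  refine Finset.sum_eq_zero fun J hJ => if_neg fun h => h2 (le_antisymm h1 ?_)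
  rw [← h]
  refine sup_le_sup_left (Submodule.span_mono (Set.image_mono ?_)) _
  exact_mod_cast Finset.mem_powerset.1 hJ

private theorem finrank_sup_one {U : Submodule (ZMod 2) V} {x : V} (hx : x ∉ U) :
    Module.finrank (ZMod 2) (U ⊔ Submodule.span (ZMod 2) {x} : Submodule (ZMod 2) V) =
      Module.finrank (ZMod 2) U + 1 := by
  have hx0 : x ≠ 0 := by
    rintro rfl
    exact hx U.zero_mem
  have h1 := Submodule.finrank_sup_add_finrank_inf_eq U (Submodule.span (ZMod 2) {x})
  have h2 : U ⊓ Submodule.span (ZMod 2) {x} = ⊥ := by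
    rw [eq_bot_iff]
    rintro y ⟨hyU, hyx⟩
    obtain ⟨c, rfl⟩ := Submodule.mem_span_singleton.1 hyx
    have hc : c = 0 ∨ c = 1 := (by decide : ∀ c : ZMod 2, c = 0 ∨ c = 1) c
    rcases hc with rfl | rfl
    · simp
    · rw [one_smul] at hyU
      exact absurd hyU hx
  rw [h2, finrank_bot, add_zero, finrank_span_singleton hx0] at h1
  exact h1

private theorem sgn_span0 (v : κ → V) (W : Submodule (ZMod 2) V) (n : ℕ) :
    ∀ (A : Finset κ), A.card = n → ∀ U : Submodule (ZMod 2) V,
    (∀ g ∈ A, v g ∉ U) → (∀ g ∈ A, ∀ h ∈ A, g ≠ h → v g + v h ∉ U) →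
    U ⊔ Submodule.span (ZMod 2) (v '' (A : Set κ)) = W →
    0 < (-1 : ℤ) ^ (Module.finrank (ZMod 2) W + Module.finrank (ZMod 2) U) * fU v W U A := by
  induction n using Nat.strong_induction_on with
  | _ n ih =>
    intro A hA U h1 h2 h3
    rcases A.eq_empty_or_nonempty with rfl | ⟨e, he⟩
    · have hUW : U = W := by
        rw [← h3]
        simp
      have hf : fU v W U ∅ = 1 := by
        classical
        rw [fU_eq, Finset.powerset_empty, Finset.sum_singleton, if_pos h3]
        simp
      rw [hf, hUW, ← two_mul, pow_mul]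
      norm_num
    · set A₁ := A.erase e with hA₁
      have heA₁ : e ∉ A₁ := Finset.notMem_erase e A
      have hAi : A = insert e A₁ := (Finset.insert_erase he).symm
      have hlt : A₁.card < n := by
        rw [← hA]
        exact Finset.card_erase_lt_of_mem he
      have hsub : ∀ g ∈ A₁, g ∈ A := fun g hg => Finset.mem_of_mem_erase hg
      have hne : ∀ g ∈ A₁, g ≠ e := fun g hg => Finset.ne_of_mem_erase hg
      set U' := U ⊔ Submodule.span (ZMod 2) {v e} with hU'
      have hrk : Module.finrank (ZMod 2) U' = Module.finrank (ZMod 2) U + 1 :=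
        finrank_sup_one (h1 e he)
      have hsp : U' ⊔ Submodule.span (ZMod 2) (v '' (A₁ : Set κ)) = W := by
        rw [hU', ← span_ins, ← hAi]
        exact h3
      have hU'1 : ∀ g ∈ A₁, v g ∉ U' := by
        intro g hg hmem
        rcases mem_sup_one hmem with h | h
        · exact h1 g (hsub g hg) h
        · exact h2 g (hsub g hg) e he (hne g hg) h
      have hsign : (-1 : ℤ) ^ (Module.finrank (ZMod 2) W + Module.finrank (ZMod 2) U') =
          -(-1 : ℤ) ^ (Module.finrank (ZMod 2) W + Module.finrank (ZMod 2) U) := by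
        rw [hrk, ← add_assoc, pow_succ]
        ring
      -- the second term has the sign of `U'` or is zero
      have hB : 0 ≤ (-1 : ℤ) ^ (Module.finrank (ZMod 2) W + Module.finrank (ZMod 2) U') *
          fU v W U' A₁ := by
        obtain ⟨A', hs, hf, hno⟩ := fU_pairs0 v W U' A₁.card A₁ rfl
        rw [hf]
        by_cases hW : U' ⊔ Submodule.span (ZMod 2) (v '' (A' : Set κ)) = W
        · exact (ih A'.card ((Finset.card_le_card hs).trans_lt hlt) A' rfl U'
            (fun g hg => hU'1 g (hs hg)) hno hW).le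
        · rw [fU_zero v W U' A' ?_ hW, mul_zero]
          rw [← hsp]
          refine sup_le_sup_left (Submodule.span_mono (Set.image_mono ?_)) _
          exact_mod_cast hs
      rw [hAi, fU_split v W U A₁ e heA₁]
      by_cases ha : U ⊔ Submodule.span (ZMod 2) (v '' (A₁ : Set κ)) = W
      · have h4 := ih A₁.card hlt A₁ rfl U (fun g hg => h1 g (hsub g hg))
          (fun g hg h hh hgh => h2 g (hsub g hg) h (hsub h hh) hgh) ha
        rw [hsign] at hB
        linarith
      · have h5 : fU v W U A₁ = 0 := by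
          refine fU_zero v W U A₁ ?_ ha
          rw [← hsp]
          exact sup_le_sup_right le_sup_left _
        have h6 := ih A₁.card hlt A₁ rfl U' hU'1 (fun g hg h hh hgh hmem => by
          rcases mem_sup_one hmem with h7 | h7
          · exact h2 g (hsub g hg) h (hsub h hh) hgh h7
          · apply ha
            refine le_antisymm ?_ ?_
            · rw [← hsp]
              exact sup_le_sup_right le_sup_left _
            · rw [← hsp]
              refine sup_le (sup_le le_sup_left ?_) le_sup_right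
              rw [Submodule.span_singleton_le_iff_mem]
              have h8 : v e = (v g + v h + v e) + (v g + v h) := by
                rw [add_comm (v g + v h) (v e), add_assoc, add_self0, add_zero]
              rw [h8]
              refine Submodule.add_mem _ (Submodule.mem_sup_left h7)
                (Submodule.mem_sup_right (Submodule.add_mem _ ?_ ?_))
              · exact Submodule.subset_span ⟨g, hg, rfl⟩
              · exact Submodule.subset_span ⟨h, hh, rfl⟩) hsp
        rw [hsign] at h6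
        rw [h5]
        linarith

theorem sgn_span (v : κ → V) (W U : Submodule (ZMod 2) V) (A : Finset κ)
    (h1 : ∀ g ∈ A, v g ∉ U) (h2 : ∀ g ∈ A, ∀ h ∈ A, g ≠ h → v g + v h ∉ U)
    (h3 : U ⊔ Submodule.span (ZMod 2) (v '' (A : Set κ)) = W) :
    0 < (-1 : ℤ) ^ (Module.finrank (ZMod 2) W + Module.finrank (ZMod 2) U) * fU v W U A :=
  sgn_span0 v W A.card A rfl U h1 h2 h3

open Classical in
theorem span_ne (v : κ → V) (A : Finset κ) (h1 : ∀ g ∈ A, v g ≠ 0)
    (h2 : ∀ g ∈ A, ∀ h ∈ A, g ≠ h → v g ≠ v h) :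
    ∑ J ∈ A.powerset.filter (fun J : Finset κ => Submodule.span (ZMod 2) (v '' (J : Set κ)) =
      Submodule.span (ZMod 2) (v '' (A : Set κ))), (-2 : ℤ) ^ J.card ≠ 0 := by
  have h3 := sgn_span v (Submodule.span (ZMod 2) (v '' (A : Set κ))) ⊥ A
    (fun g hg hm => h1 g hg ((Submodule.mem_bot _).1 hm))
    (fun g hg h hh hgh hm => by
      apply h2 g hg h hh hgh
      have h4 := (Submodule.mem_bot _).1 hm
      calc v g = v g + (v h + v h) := by rw [add_self0, add_zero]
        _ = (v g + v h) + v h := by rw [add_assoc]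
        _ = v h := by rw [h4, zero_add]) (bot_sup_eq _)
  intro h0
  unfold fU at h3
  simp only [bot_sup_eq] at h3
  rw [h0, mul_zero] at h3
  exact lt_irrefl 0 h3

end Pool.Agent.EVT
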