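import Pool.Agent.EVT.Defs3
import Mathlib.Analysis.SpecialFunctions.Pow.Real

/-!
# EVT module NA: comparison of coefficients for `[N] → ∞`

* `top_coeff`: the polynomial `∑ I, C (w I) * X ^ r I - 1` has the infinitely many zeros `T N`, so it is zero
  (`Polynomial.eq_zero_of_infinite_isRoot`); its coefficient number `ρ > 0` is the sum.
* `exists_q`: `q N = x ^ (1 / (2 * (N + 1)))` (real power, a unit); `zp q (2 * (N + 1) * k) = x ^ k` (as
  `q ^ (2 (N + 1)) = x`), `dl (N + 1) (q N) = ∑ i : Fin (N + 1), q ^ (2 i + 1 - (N + 1))`, and every exponent is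
  at least `- N`, `1 < q`, so each term is at least `q ^ (- (N + 1)) = x ^ (- 1 / 2)`, so
  `dl (N + 1) (q N) ≥ (N + 1) * x ^ (- 1 / 2)`, which is positive and tends to infinity; so `(dl ^ 2)⁻¹` is
  positive and tends to `0`, and a sequence of positive numbers with limit `0` has infinitely many
  values.
-/

namespace Pool.Agent.EVT

open Finset

theorem top_coeff {κ : Type*} [Fintype κ] (r : κ → ℕ) (ρ : ℕ) (hρ : 0 < ρ)
    (w : κ → ℝ) (T : ℕ → ℝ) (hT : (Set.range T).Infinite)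
    (h : ∀ N, ∑ I, w I * T N ^ r I = 1) : ∑ I ∈ univ.filter (fun I => r I = ρ), w I = 0 := by
  have hP : (∑ I, Polynomial.C (w I) * Polynomial.X ^ r I - 1 : Polynomial ℝ) = 0 := by
    apply Polynomial.eq_zero_of_infinite_isRoot
    apply hT.mono
    rintro _ ⟨N, rfl⟩
    simp only [Set.mem_ofPred_eq, Polynomial.IsRoot.def, Polynomial.eval_sub,
      Polynomial.eval_finsetSum, Polynomial.eval_mul, Polynomial.eval_C, Polynomial.eval_pow,
      Polynomial.eval_X, Polynomial.eval_one, h N, sub_self]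
  have hc := congrArg (fun p => Polynomial.coeff p ρ) hP
  simp only [Polynomial.coeff_sub, Polynomial.finsetSum_coeff, Polynomial.coeff_C_mul,
    Polynomial.coeff_X_pow, Polynomial.coeff_one, Polynomial.coeff_zero] at hc
  rw [if_neg (by omega), sub_zero] at hc
  rw [Finset.sum_filter]
  refine Eq.trans ?_ hc
  apply Finset.sum_congr rfl
  intro I _
  by_cases hI : r I = ρ
  · rw [if_pos hI, if_pos hI.symm, mul_one]
  · rw [if_neg hI, if_neg (fun h' => hI h'.symm), mul_zero]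

theorem exists_q (x : ℝ) (hx : 1 < x) :
    ∃ q : ℕ → ℝˣ, (∀ (N : ℕ) (k : ℤ), zp (q N) (2 * ((N + 1 : ℕ) : ℤ) * k) = x ^ k) ∧
      (∀ N, 0 < dl (N + 1) (q N)) ∧
      (Set.range fun N => ((dl (N + 1) (q N)) ^ 2)⁻¹).Infinite := by
  have hx0 : 0 < x := by linarith
  have hpos : ∀ N : ℕ, 0 < x ^ (1 / (2 * ((N : ℝ) + 1))) := fun N => Real.rpow_pos_of_pos hx0 _
  let q : ℕ → ℝˣ := fun N => Units.mk0 (x ^ (1 / (2 * ((N : ℝ) + 1)))) (hpos N).ne'
  have hqv : ∀ N, ((q N : ℝˣ) : ℝ) = x ^ (1 / (2 * ((N : ℝ) + 1))) := fun N => rfl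
  have hzp : ∀ (N : ℕ) (k : ℤ), zp (q N) k = (x ^ (1 / (2 * ((N : ℝ) + 1)))) ^ k := by
    intro N k
    rw [zp, Units.val_zpow_eq_zpow_val, hqv]
  have hq1 : ∀ N : ℕ, 1 ≤ x ^ (1 / (2 * ((N : ℝ) + 1))) := by
    intro N
    apply Real.one_le_rpow hx.le
    positivity
  have hq2 : ∀ N : ℕ, (x ^ (1 / (2 * ((N : ℝ) + 1)))) ^ (2 * ((N + 1 : ℕ) : ℤ)) = x := by
    intro N
    rw [← Real.rpow_intCast, ← Real.rpow_mul hx0.le]
    have : (1 / (2 * ((N : ℝ) + 1)) * ((2 * ((N + 1 : ℕ) : ℤ) : ℤ) : ℝ)) = 1 := by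
      push_cast
      field_simp
    rw [this, Real.rpow_one]
  have hdl : ∀ N : ℕ, ((N : ℝ) + 1) * x⁻¹ ≤ dl (N + 1) (q N) := by
    intro N
    have h1 : ∀ i : Fin (N + 1), x⁻¹ ≤ kap (q N) i := by
      intro i
      rw [kap, hzp]
      calc x⁻¹ = (x ^ (1 / (2 * ((N : ℝ) + 1)))) ^ (2 * ((N + 1 : ℕ) : ℤ) * (-1)) := by
            rw [zpow_mul, hq2, zpow_neg_one]
        _ ≤ _ := by
            apply zpow_le_zpow_right₀ (hq1 N)
            push_cast
            have := i.2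
            omega
    rw [dl]
    calc ((N : ℝ) + 1) * x⁻¹ = ∑ _i : Fin (N + 1), x⁻¹ := by simp
      _ ≤ _ := Finset.sum_le_sum fun i _ => h1 i
  have hdp : ∀ N, 0 < dl (N + 1) (q N) := by
    intro N
    refine lt_of_lt_of_le ?_ (hdl N)
    positivity
  refine ⟨q, ?_, hdp, ?_⟩
  · intro N k
    rw [hzp, zpow_mul, hq2]
  · intro hfin
    obtain ⟨m, hm1, hm2⟩ : ∃ m, m ∈ Set.range (fun N => ((dl (N + 1) (q N)) ^ 2)⁻¹) ∧
        ∀ y ∈ Set.range (fun N => ((dl (N + 1) (q N)) ^ 2)⁻¹), m ≤ y := by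
      obtain ⟨m, hm1, hm2⟩ := Set.exists_min_image _ id hfin (Set.range_nonempty _)
      exact ⟨m, hm1, hm2⟩
    have hm0 : 0 < m := by
      obtain ⟨N, rfl⟩ := hm1
      have := hdp N
      positivity
    obtain ⟨N, hN⟩ := exists_nat_gt (max (x * m⁻¹ * x) 1)
    have h1 := hm2 _ ⟨N, rfl⟩
    simp only at h1
    have h2 := hdl N
    have h3 : m⁻¹ < (dl (N + 1) (q N)) ^ 2 := by
      have hN1 : x * m⁻¹ * x < N := lt_of_le_of_lt (le_max_left _ _) hN
      have hN2 : (1 : ℝ) < N := lt_of_le_of_lt (le_max_right _ _) hN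
      have h4 : (((N : ℝ) + 1) * x⁻¹) ^ 2 ≤ (dl (N + 1) (q N)) ^ 2 := by
        apply pow_le_pow_left₀ (by positivity) h2
      refine lt_of_lt_of_le ?_ h4
      rw [mul_pow, inv_pow, ← div_eq_mul_inv, lt_div_iff₀ (by positivity)]
      nlinarith
    have h5 : ((dl (N + 1) (q N)) ^ 2)⁻¹ < m := by
      rw [inv_lt_comm₀ (by have := hdp N; positivity) hm0]
      exact h3
    linarith

end Pool.Agent.EVT
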