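import Pool.Agent.EVT.NA

/-!
# EVT module NB: the sum over the sets which span both sides is a product

`w : Fin n → Bool → R`; in `sum_split` the sum is over the functions `I : Fin n → Bool`; such a function
corresponds to the pair `(J₁, J₂)` with `J₁ = {i | I i, sd i = true}`, `J₂ = {i | I i, sd i = false}`.
`Spn M sd s I` depends only on the values of `I` on `Vs sd s`: `Spn M sd s I ↔ Spn M sd s (ind J)` for the
corresponding `J ⊆ Vs sd s`.  The product over all `i` is the product over `Vs sd true` times that over
`Vs sd false` (`Finset.prod_filter_mul_prod_filter_not` or so), and the product over `Vs sd s` is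
the product over `J` times that over `Vs sd s \ J`.  Use `Finset.sum_bij'` or `Finset.sum_nbij'` from the
product of the two filtered powersets (`Finset.sum_mul_sum`, `Finset.sum_product'`).
-/

namespace Pool.Agent.EVT

open Finset

variable {n : ℕ} {R : Type*} [CommRing R]

private theorem spn_congr_nb (M : Matrix (Fin n) (Fin n) (ZMod 2)) (sd : Fin n → Bool) (s : Bool)
    {I I' : Fin n → Bool} (h : ∀ i, sd i = s → I i = I' i) : Spn M sd s I ↔ Spn M sd s I' := by
  have : {x | ∃ i, I i = true ∧ sd i = s ∧ x = M i} = {x | ∃ i, I' i = true ∧ sd i = s ∧ x = M i} := by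
    ext x
    constructor
    · rintro ⟨i, h1, h2, h3⟩
      exact ⟨i, by rw [← h i h2]; exact h1, h2, h3⟩
    · rintro ⟨i, h1, h2, h3⟩
      exact ⟨i, by rw [h i h2]; exact h1, h2, h3⟩
  unfold Spn
  rw [this]

theorem spn_ind (M : Matrix (Fin n) (Fin n) (ZMod 2)) (sd : Fin n → Bool) (s : Bool)
    (I : Fin n → Bool) :
    Spn M sd s I ↔ Spn M sd s (ind ((Vs sd s).filter fun i => I i = true)) := by
  apply spn_congr_nb
  intro i hi
  simp only [ind, Vs, Finset.mem_filter, Finset.mem_univ, true_and, hi]
  cases I i <;> simp

open Classical in
theorem sum_split (M : Matrix (Fin n) (Fin n) (ZMod 2)) (sd : Fin n → Bool) (w : Fin n → Bool → R) :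
    ∑ I ∈ univ.filter (fun I : Fin n → Bool => Spn M sd true I ∧ Spn M sd false I),
      ∏ i, w i (I i) = spS M sd true w * spS M sd false w := by
  rw [spS, spS, Finset.sum_mul_sum, ← Finset.sum_product']
  refine Finset.sum_nbij'
    (fun I => ((Vs sd true).filter (fun i => I i = true), (Vs sd false).filter (fun i => I i = true)))
    (fun p => ind (p.1 ∪ p.2)) ?_ ?_ ?_ ?_ ?_
  · intro I hI
    simp only [Finset.mem_filter, Finset.mem_univ, true_and] at hI
    simp only [Finset.mem_product, Finset.mem_filter, Finset.mem_powerset, Finset.filter_subset, true_and]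
    exact ⟨(spn_ind M sd true I).1 hI.1, (spn_ind M sd false I).1 hI.2⟩
  · intro p hp
    simp only [Finset.mem_product, Finset.mem_filter, Finset.mem_powerset] at hp
    obtain ⟨⟨h1, h2⟩, h3, h4⟩ := hp
    simp only [Finset.mem_filter, Finset.mem_univ, true_and]
    constructor
    · refine (spn_congr_nb M sd true ?_).1 h2
      intro i hi
      simp only [ind, Finset.mem_union]
      have : i ∉ p.2 := by
        intro hh
        have := h3 hh
        simp only [Vs, Finset.mem_filter, Finset.mem_univ, true_and, hi] at this
        exact absurd this (by decide)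
      simp [this]
    · refine (spn_congr_nb M sd false ?_).1 h4
      intro i hi
      simp only [ind, Finset.mem_union]
      have : i ∉ p.1 := by
        intro hh
        have := h1 hh
        simp only [Vs, Finset.mem_filter, Finset.mem_univ, true_and, hi] at this
        exact absurd this (by decide)
      simp [this]
  · intro I _
    funext i
    simp only [ind, Vs, Finset.mem_union, Finset.mem_filter, Finset.mem_univ, true_and]
    cases h : I i <;> cases h' : sd i <;> simp
  · rintro ⟨J1, J2⟩ hp
    simp only [Finset.mem_product, Finset.mem_filter, Finset.mem_powerset] at hp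
    obtain ⟨⟨h1, -⟩, h3, -⟩ := hp
    have e1 : ∀ i ∈ J1, sd i = true := by
      intro i hi
      have := h1 hi
      simpa [Vs] using this
    have e2 : ∀ i ∈ J2, sd i = false := by
      intro i hi
      have := h3 hi
      simpa [Vs] using this
    ext i
    · simp only [ind, Vs, Finset.mem_union, Finset.mem_filter, Finset.mem_univ, true_and,
        decide_eq_true_eq]
      constructor
      · rintro ⟨h5, h6 | h6⟩
        · exact h6
        · rw [e2 i h6] at h5
          exact absurd h5 (by decide)
      · intro h6
        exact ⟨e1 i h6, Or.inl h6⟩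
    · simp only [ind, Vs, Finset.mem_union, Finset.mem_filter, Finset.mem_univ, true_and,
        decide_eq_true_eq]
      constructor
      · rintro ⟨h5, h6 | h6⟩
        · rw [e1 i h6] at h5
          exact absurd h5 (by decide)
        · exact h6
      · intro h6
        exact ⟨e2 i h6, Or.inr h6⟩
  · intro I _
    have key : ∀ s, ∏ i ∈ Vs sd s, w i (I i) =
        (∏ i ∈ (Vs sd s).filter (fun i => I i = true), w i true) *
          ∏ i ∈ Vs sd s \ ((Vs sd s).filter (fun i => I i = true)), w i false := by
      intro s
      rw [← Finset.prod_filter_mul_prod_filter_not (Vs sd s) (fun i => I i = true)]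
      congr 1
      · apply Finset.prod_congr rfl
        intro i hi
        rw [(Finset.mem_filter.1 hi).2]
      · have : Vs sd s \ (Vs sd s).filter (fun i => I i = true) =
            (Vs sd s).filter (fun i => ¬ I i = true) := by
          ext i
          simp only [Finset.mem_sdiff, Finset.mem_filter]
          tauto
        rw [this]
        apply Finset.prod_congr rfl
        intro i hi
        have := (Finset.mem_filter.1 hi).2
        simp only [Bool.not_eq_true] at this
        rw [this]
    have hall : ∏ i, w i (I i) = (∏ i ∈ Vs sd true, w i (I i)) * ∏ i ∈ Vs sd false, w i (I i) := by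
      rw [← Finset.prod_filter_mul_prod_filter_not univ (fun i => sd i = true)]
      congr 1
      apply Finset.prod_congr _ (fun _ _ => rfl)
      ext i
      simp [Vs]
    rw [hall, key true, key false]

/-- multiplication of the weights by non-zero numbers -/
theorem spS_mul (M : Matrix (Fin n) (Fin n) (ZMod 2)) (sd : Fin n → Bool) (s : Bool)
    (w : Fin n → Bool → R) (c : Fin n → R) :
    spS M sd s (fun i b => c i * w i b) = (∏ i ∈ Vs sd s, c i) * spS M sd s w := by
  classical
  rw [spS, spS, Finset.mul_sum]
  apply Finset.sum_congr rfl
  intro J hJ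
  have hJ' := (Finset.mem_powerset.1 (Finset.mem_filter.1 hJ).1)
  rw [Finset.prod_mul_distrib, Finset.prod_mul_distrib, ← Finset.prod_sdiff hJ']
  ring

/-- change of the ring -/
theorem spS_map {R' : Type*} [CommRing R'] (φ : R →+* R') (M : Matrix (Fin n) (Fin n) (ZMod 2))
    (sd : Fin n → Bool) (s : Bool) (w : Fin n → Bool → R) :
    φ (spS M sd s w) = spS M sd s (fun i b => φ (w i b)) := by
  classical
  rw [spS, spS, map_sum]
  apply Finset.sum_congr rfl
  intro J _
  rw [map_mul, map_prod, map_prod]

/-- only the weights at the side `s` matter -/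
theorem spS_congr (M : Matrix (Fin n) (Fin n) (ZMod 2)) (sd : Fin n → Bool) (s : Bool)
    {w w' : Fin n → Bool → R} (h : ∀ i, sd i = s → ∀ b, w i b = w' i b) :
    spS M sd s w = spS M sd s w' := by
  classical
  rw [spS, spS]
  apply Finset.sum_congr rfl
  intro J hJ
  have hJ' := (Finset.mem_powerset.1 (Finset.mem_filter.1 hJ).1)
  have hs : ∀ i ∈ Vs sd s, sd i = s := by
    intro i hi
    simpa [Vs] using hi
  congr 1
  · exact Finset.prod_congr rfl fun i hi => h i (hs i (hJ' hi)) _
  · exact Finset.prod_congr rfl fun i hi => h i (hs i (Finset.mem_sdiff.1 hi).1) _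

end Pool.Agent.EVT
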