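import Pool.Agent.EVT.Defs3

/-!
# EVT module RH: rank and kernel of the two parts of a symmetric bipartite matrix

Let `P i j = M i j` for `i ∈ I` at the side `true` and `j ∈ I` at the side `false`, else `0`
(so `rkI M sd I = P.rank`).  `card_half` is rank-nullity for `P` (`s = false`) and for `Pᵀ` (`s = true`,
`Matrix.rank_transpose`; `M i j = M j i`):
* `s = false`: the functions `x` supported on `I ∩ {sd = false}` form a space of dimension
  `m = #{i | I i, sd i = false}`; `x ↦ P x` on this space has the same range as `P` on all functions (the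
  columns of `P` outside are `0`), so its kernel has dimension `m - P.rank`; the kernel consists of the `x`
  with `(M x) i = 0` for `i ∈ I`, `sd i = true` (the rows `i` of `M` and of `P` agree on the support of
  `x`).
* `s = true`: the same for `Pᵀ`.
* The number of elements of a space of dimension `d` is `2 ^ d` (`Module.card_eq_pow_finrank`).
-/

namespace Pool.Agent.EVT

open Finset

private theorem rh_cardW {n : ℕ} (c : Fin n → Prop) [DecidablePred c] :
    (univ.filter fun x : Fin n → ZMod 2 => ∀ j, ¬ c j → x j = 0).card =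
      2 ^ (univ.filter fun j => c j).card := by
  have h1 : (univ.filter fun x : Fin n → ZMod 2 => ∀ j, ¬ c j → x j = 0) =
      Fintype.piFinset (fun j : Fin n => if c j then (univ : Finset (ZMod 2)) else {0}) := by
    ext x
    simp only [mem_filter, mem_univ, true_and, Fintype.mem_piFinset]
    refine forall_congr' fun j => ?_
    by_cases hc : c j <;> simp [hc]
  rw [h1, Fintype.card_piFinset]
  have h2 : ∀ j : Fin n, (if c j then (univ : Finset (ZMod 2)) else {0}).card =
      if c j then 2 else 1 := by
    intro j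
    by_cases hc : c j
    · simp [hc]
    · simp [hc]
  rw [Finset.prod_congr rfl fun j _ => h2 j, Finset.prod_ite, Finset.prod_const, Finset.prod_const,
    one_pow, mul_one]

private theorem rh_pow (V : Type) [AddCommGroup V] [Module (ZMod 2) V] [Finite V] :
    Nat.card V = 2 ^ Module.finrank (ZMod 2) V := by
  have := Fintype.ofFinite V
  rw [Nat.card_eq_fintype_card, Module.card_eq_pow_finrank (K := ZMod 2) (V := V), ZMod.card]

private theorem rh_main {n : ℕ} (P : Matrix (Fin n) (Fin n) (ZMod 2)) (c : Fin n → Prop)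
    [DecidablePred c] (hP : ∀ i j, ¬ c j → P i j = 0) :
    (univ.filter fun x : Fin n → ZMod 2 => (∀ j, ¬ c j → x j = 0) ∧ ∀ i, P.mulVec x i = 0).card *
      2 ^ P.rank = 2 ^ (univ.filter fun j => c j).card := by
  let W : Submodule (ZMod 2) (Fin n → ZMod 2) :=
    { carrier := {x | ∀ j, ¬ c j → x j = 0}
      add_mem' := by
        intro a b ha hb j hj
        have h1 := ha j hj
        have h2 := hb j hj
        simp [h1, h2]
      zero_mem' := by
        intro j _
        rfl
      smul_mem' := by
        intro r a ha j hj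
        have h1 := ha j hj
        simp [h1] }
  have hW : ∀ x, x ∈ W ↔ ∀ j, ¬ c j → x j = 0 := fun x => Iff.rfl
  let f : W →ₗ[ZMod 2] (Fin n → ZMod 2) := P.mulVecLin.comp W.subtype
  have hf : ∀ x : W, f x = P.mulVec x := fun x => rfl
  have hr : LinearMap.range f = LinearMap.range P.mulVecLin := by
    apply le_antisymm
    · rintro y ⟨x, rfl⟩
      exact ⟨x, rfl⟩
    · rintro y ⟨x, rfl⟩
      refine ⟨⟨fun j => if c j then x j else 0, fun j hj => if_neg hj⟩, ?_⟩
      rw [hf, Matrix.mulVecLin_apply]
      funext i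
      simp only [Matrix.mulVec, dotProduct]
      refine Finset.sum_congr rfl fun j _ => ?_
      by_cases hc : c j
      · simp [hc]
      · simp [hc, hP i j hc]
  have hrk : P.rank = Module.finrank (ZMod 2) (LinearMap.range f) := by
    rw [hr]
    rfl
  have hcW : Nat.card W = 2 ^ (univ.filter fun j => c j).card := by
    rw [← rh_cardW c]
    exact Nat.subtype_card _ (by intro x; simp [hW])
  have hcK : Nat.card (LinearMap.ker f) =
      (univ.filter fun x : Fin n → ZMod 2 =>
        (∀ j, ¬ c j → x j = 0) ∧ ∀ i, P.mulVec x i = 0).card := by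
    rw [← Nat.subtype_card (p := fun x : Fin n → ZMod 2 => (∀ j, ¬ c j → x j = 0) ∧
      ∀ i, P.mulVec x i = 0) _ (by intro x; simp)]
    refine Nat.card_congr ⟨fun x => ⟨x.1.1, x.1.2, fun i => ?_⟩, fun x => ⟨⟨x.1, x.2.1⟩, ?_⟩,
      fun x => rfl, fun x => rfl⟩
    · have h := x.2
      rw [LinearMap.mem_ker, hf] at h
      exact congrFun h i
    · rw [LinearMap.mem_ker, hf]
      funext i
      exact x.2.2 i
  rw [← hcK, ← hcW, rh_pow, rh_pow, hrk, ← pow_add, add_comm, LinearMap.finrank_range_add_finrank_ker]

theorem card_half {n : ℕ} (M : Matrix (Fin n) (Fin n) (ZMod 2)) (sd : Fin n → Bool)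
    (h1 : ∀ i j, M i j = M j i) (s : Bool) (I : Fin n → Bool) :
    (univ.filter fun x : Fin n → ZMod 2 => (∀ i, I i = false ∨ sd i ≠ s → x i = 0) ∧
      ∀ i, I i = true → sd i ≠ s → M.mulVec x i = 0).card * 2 ^ rkI M sd I =
        2 ^ (univ.filter fun i => I i = true ∧ sd i = s).card := by
  set P : Matrix (Fin n) (Fin n) (ZMod 2) := Matrix.of fun i j =>
    if I i = true ∧ sd i = true ∧ I j = true ∧ sd j = false then M i j else 0 with hPdef
  have hP : ∀ i j, P i j = if I i = true ∧ sd i = true ∧ I j = true ∧ sd j = false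
    then M i j else 0 := fun i j => rfl
  have hrk : rkI M sd I = P.rank := rfl
  obtain ⟨Q, hQr, hQ⟩ : ∃ Q : Matrix (Fin n) (Fin n) (ZMod 2), Q.rank = P.rank ∧
      ∀ i j, Q i j = if I i = true ∧ sd i ≠ s ∧ I j = true ∧ sd j = s then M i j else 0 := by
    cases s with
    | false =>
      refine ⟨P, rfl, fun i j => ?_⟩
      rw [hP]
      simp
    | true =>
      refine ⟨P.transpose, Matrix.rank_transpose P, fun i j => ?_⟩
      rw [Matrix.transpose_apply, hP, h1 j i]
      refine if_congr ?_ rfl rfl
      simp only [ne_eq, Bool.not_eq_true]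
      tauto
  have h := rh_main Q (fun i => I i = true ∧ sd i = s) (by
    intro i j hj
    rw [hQ, if_neg]
    tauto)
  rw [hrk, ← hQr, ← h]
  congr 2
  ext x
  simp only [mem_filter, mem_univ, true_and]
  have h3 : (∀ i, I i = false ∨ sd i ≠ s → x i = 0) ↔ ∀ j, ¬ (I j = true ∧ sd j = s) → x j = 0 := by
    refine forall_congr' fun j => ?_
    have : (I j = false ∨ sd j ≠ s) ↔ ¬ (I j = true ∧ sd j = s) := by
      cases I j <;> simp
    rw [this]
  rw [h3]
  refine and_congr_right fun hx => forall_congr' fun i => ?_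
  by_cases hi : I i = true ∧ sd i ≠ s
  · have h4 : Q.mulVec x i = M.mulVec x i := by
      simp only [Matrix.mulVec, dotProduct]
      refine Finset.sum_congr rfl fun j _ => ?_
      by_cases hj : I j = true ∧ sd j = s
      · rw [hQ, if_pos ⟨hi.1, hi.2, hj.1, hj.2⟩]
      · rw [hx j hj, mul_zero, mul_zero]
    rw [h4]
    exact ⟨fun h => h hi.1 hi.2, fun h _ _ => h⟩
  · have h4 : Q.mulVec x i = 0 := by
      simp only [Matrix.mulVec, dotProduct]
      refine Finset.sum_eq_zero fun j _ => ?_
      rw [hQ, if_neg, zero_mul]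
      tauto
    rw [h4]
    constructor
    · intro _
      rfl
    · intro _ h5 h6
      exact absurd ⟨h5, h6⟩ hi

end Pool.Agent.EVT
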