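import Pool.Agent.EVT.FIN

/-!
# Evenly twisted knots are distinguished from the unknot by Vassiliev invariants

A pattern is a plane diagram with one strand at the bottom and at the top whose vertices are the twist
regions.  Let it be reduced and twist-reduced, with at least one vertex, and let every vertex be
replaced by a non-zero even number of crossings of any sign.  The two sides (checkerboard colours) of the
vertices are given by the parity of the number of strands to the left.  Suppose that the result is a
knot, and that either on one side all numbers of crossings have the same sign (no condition on the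
other side), or that on each side the largest power of `2` which divides the number of crossings is
constant.  Then a rational Vassiliev invariant distinguishes the knot from the unknot, of a
degree which depends only on the pattern.
-/

namespace Pool.Agent.Results.MP_5f6b43_gt.EvenlyTwisted

open Pool.Agent.Helper9.Kashaev (Diagram)
open Pool.Agent.Helper9.FA (Item labels wfP)
open Pool.Agent.Helper77.ST (IsKnot tw IsVassiliev)
open Pool.Agent.Helper77.CR (Red)

/-- the sides of the vertices: is the number of strands to the left even -/
def side : List (Item Unit) → List Bool
  | [] => []
  | .cup _ :: S => side S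
  | .cap _ :: S => side S
  | .box k _ :: S => (k % 2 == 0) :: side S

theorem side_eq (S : List (Item Unit)) : side S = Pool.Agent.EVT.sides S := by
  induction S with
  | nil => rfl
  | cons i S ih => cases i <;> simp [side, Pool.Agent.EVT.sides, ih]

theorem result (S : List (Item Unit)) (hS : wfP 1 S 1) (hR : Red S) (hne : labels S ≠ []) :
    ∃ d : ℕ, ∀ a : List ℤ, a.length = (labels S).length → (∀ x ∈ a, Even x ∧ x ≠ 0) →
      ((∃ (s : Bool) (e : ℤ), ∀ z ∈ (side S).zip a, z.1 = s → 0 < e * z.2) ∨
        (∃ u : Bool → ℕ, ∀ z ∈ (side S).zip a, ∃ t : ℤ, z.2 = 2 ^ u z.1 * (2 * t + 1))) →
      IsKnot (tw S a) → ∃ I, IsVassiliev d I ∧ I (tw S a) ≠ I [] := by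
  rw [side_eq]
  exact Pool.Agent.EVT.main S hS hR hne

end Pool.Agent.Results.MP_5f6b43_gt.EvenlyTwisted
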