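import Pool.Agent.EVT.WB

/-!
# EVT module WC: a curl can be removed (Reidemeister 1)

Geometric sums: `zz q * zp q (-(2 s)) = zp q (1 - 2 s) - zp q (1 - 2 (s + 1))` telescopes, so
`zz q * ∑_{s in Fin N, s > i} zp q (-(2 s)) = zp q (-1 - 2 i) - zp q (1 - 2 N)` and
`zz q * ∑_{s < i} zp q (-(2 s)) = zp q 1 - zp q (1 - 2 i)`, similarly with positive exponents.

`wf_cup1p` for `a = (true, i)`, `b = (false, j)`: only `c = (false, s)` contributes (types),
`∑ s, κ j * κ⁻¹ s * nB q s i s j`; the entry is `0` for `i ≠ j` (`xB_cons`), and for `i = j` it is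
`q ^ (N - 1)` for `s = i`, `- z q ^ N` for `s > i`, `0` for `s < i` (definition of `nB` with
`i := s`, `j := i`).  With `κ i * κ⁻¹ s = q ^ (2 (i - s))` the sum is
`q ^ (N - 1) - q ^ N * (q ^ (-1) - q ^ (2 i + 1 - 2 N)) = q ^ (2 i + 1 - N) = κ i = cup a`.
For `a = (false, i)`, `b = (true, j)`: only `c = (true, s)`:
`∑ s, xB (nB) q j s i s * κ s`, and the result has to be `1` for `i = j`: entries
`q ^ (N - 1)` for `s = i`, `- z q ^ N` for `s < i`.
If `a`, `b` have the same orientation both sides are `0`.
`wf_cup1n`: the same with `pB`: entries `q ^ (1 - N)`, `z q ^ (-N)` (for `s < i` resp. `s > i`).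
`wf_cap1p`, `wf_cap1n`: the same with the sum over the upper labels.
All four identities were checked by computer for `N = 1, 2, 3`.
-/

namespace Pool.Agent.EVT

open Finset

variable {A : Type*} [CommRing A]

theorem tele_lt {N : ℕ} (g : ℕ → A) (i : Fin N) :
    ∑ t : Fin N, (if t < i then g (t + 1) - g t else 0) = g i - g 0 := by
  have h1 : ∑ t : Fin N, (if t < i then g (t + 1) - g t else 0) =
      ∑ t ∈ range N, (if t < (i : ℕ) then g (t + 1) - g t else 0) := by
    rw [← Fin.sum_univ_eq_sum_range (fun t => if t < (i : ℕ) then g (t + 1) - g t else 0) N]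
    rfl
  have h2 : ∀ M, (i : ℕ) ≤ M → ∑ t ∈ range M, (if t < (i : ℕ) then g (t + 1) - g t else 0) =
      g i - g 0 := by
    intro M hM
    induction M, hM using Nat.le_induction with
    | base =>
      rw [← Finset.sum_range_sub g]
      apply Finset.sum_congr rfl
      intro t ht
      rw [if_pos (Finset.mem_range.mp ht)]
    | succ M hM ih =>
      rw [Finset.sum_range_succ, ih, if_neg (by omega), add_zero]
  rw [h1, h2 N i.2.le]

theorem tele_gt {N : ℕ} (g : ℕ → A) (i : Fin N) :
    ∑ t : Fin N, (if i < t then g (t + 1) - g t else 0) = g N - g (i + 1) := by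
  have h1 : ∑ t : Fin N, (if i < t then g (t + 1) - g t else 0) =
      ∑ t ∈ range N, (if (i : ℕ) < t then g (t + 1) - g t else 0) := by
    rw [← Fin.sum_univ_eq_sum_range (fun t => if (i : ℕ) < t then g (t + 1) - g t else 0) N]
    rfl
  have h2 : ∀ M, (i : ℕ) + 1 ≤ M →
      ∑ t ∈ range M, (if (i : ℕ) < t then g (t + 1) - g t else 0) = g M - g (i + 1) := by
    intro M hM
    induction M, hM using Nat.le_induction with
    | base =>
      rw [sub_self]
      apply Finset.sum_eq_zero
      intro t ht
      have := Finset.mem_range.mp ht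
      rw [if_neg (by omega)]
    | succ M hM ih =>
      rw [Finset.sum_range_succ, ih, if_pos (by omega)]
      ring
  rw [h1, h2 N (by omega)]

theorem pB_diag {N : ℕ} (q : Aˣ) (i t : Fin N) :
    pB q t i t i = (if t = i then zp q (1 - N) else 0) + (if t < i then zp q (-N) * zz q else 0) := by
  unfold pB
  rcases lt_trichotomy t i with h | h | h
  · simp [h, h.ne, h.ne']
  · subst h
    simp
  · simp [h.not_gt, h.ne']

theorem nB_diag {N : ℕ} (q : Aˣ) (i t : Fin N) :
    nB q t i t i = (if t = i then zp q (N - 1) else 0) - (if i < t then zp q N * zz q else 0) := by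
  unfold nB
  rcases lt_trichotomy t i with h | h | h
  · simp [h.not_gt, h.ne]
  · subst h
    simp
  · simp [h, h.ne, h.ne']

/-- the first geometric sum -/
theorem sum_B1 {N : ℕ} (q : Aˣ) (s : Bool) (i j : Fin N) :
    ∑ t, kapi q t * xB q s t i t j = if i = j then 1 else 0 := by
  by_cases hij : i = j
  · subst hij
    rw [if_pos rfl]
    cases s
    · simp only [xB, Bool.false_eq_true, if_false, nB_diag, mul_sub, mul_ite, mul_zero,
        Finset.sum_sub_distrib, Finset.sum_ite_eq', Finset.mem_univ, if_true]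
      have e : ∀ t : Fin N, kapi q t * (zp q N * zz q) =
          (fun k : ℕ => -zp q (2 * N - 2 * (k : ℤ))) (t + 1) -
            (fun k : ℕ => -zp q (2 * N - 2 * (k : ℤ))) t := by
        intro t
        have : kapi q t * (zp q N * zz q) = zz q * zp q (2 * N - 1 - 2 * (t : ℤ)) := by
          unfold kapi
          rw [show (2 * (N : ℤ) - 1 - 2 * (t : ℤ)) = (N - 1 - 2 * (t : ℤ)) + N by ring, zp_add]
          ring
        rw [this, zz_mul]
        push_cast
        rw [show (2 * (N : ℤ) - 2 * ((t : ℤ) + 1)) = 2 * N - 1 - 2 * (t : ℤ) - 1 by ring,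
          show (2 * (N : ℤ) - 2 * (t : ℤ)) = 2 * N - 1 - 2 * (t : ℤ) + 1 by ring]
        ring
      have T := tele_gt (fun k : ℕ => -zp q (2 * N - 2 * (k : ℤ))) i
      simp only [e]
      rw [T]
      unfold kapi
      rw [← zp_add, show (2 * (N : ℤ) - 2 * ((N : ℕ) : ℤ)) = 0 by ring, zp_zero]
      push_cast
      rw [show (2 * (N : ℤ) - 2 * ((i : ℤ) + 1)) = N - 1 - 2 * (i : ℤ) + (N - 1) by ring]
      ring
    · simp only [xB, if_true, pB_diag, mul_add, mul_ite, mul_zero,
        Finset.sum_add_distrib, Finset.sum_ite_eq', Finset.mem_univ, if_true]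
      have e : ∀ t : Fin N, kapi q t * (zp q (-N) * zz q) =
          (fun k : ℕ => -zp q (-(2 * (k : ℤ)))) (t + 1) -
            (fun k : ℕ => -zp q (-(2 * (k : ℤ)))) t := by
        intro t
        have : kapi q t * (zp q (-N) * zz q) = zz q * zp q (-1 - 2 * (t : ℤ)) := by
          unfold kapi
          rw [show (-1 - 2 * (t : ℤ)) = (N - 1 - 2 * (t : ℤ)) + -N by ring, zp_add]
          ring
        rw [this, zz_mul]
        push_cast
        rw [show (-(2 * ((t : ℤ) + 1))) = -1 - 2 * (t : ℤ) - 1 by ring,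
          show (-(2 * (t : ℤ))) = -1 - 2 * (t : ℤ) + 1 by ring]
        ring
      have T := tele_lt (fun k : ℕ => -zp q (-(2 * (k : ℤ)))) i
      simp only [e]
      rw [T]
      unfold kapi
      rw [← zp_add]
      push_cast
      rw [show (N - 1 - 2 * (i : ℤ) + (1 - N)) = -(2 * (i : ℤ)) by ring,
        neg_zero, zp_zero]
      ring
  · rw [if_neg hij]
    apply Finset.sum_eq_zero
    intro t _
    by_contra h
    have h2 : xB q s t i t j ≠ 0 := fun hh => h (by rw [hh, mul_zero])
    rcases xB_cons q s t i t j h2 with ⟨_, h3⟩ | ⟨h3, h4⟩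
    · exact hij h3.symm
    · exact hij (h3.symm.trans h4.symm)

/-- the second geometric sum -/
theorem sum_B2 {N : ℕ} (q : Aˣ) (s : Bool) (i j : Fin N) :
    ∑ t, xB q s i t j t * kap q t = if i = j then 1 else 0 := by
  by_cases hij : i = j
  · subst hij
    rw [if_pos rfl]
    cases s
    · have e0 : ∀ t : Fin N, xB q false i t i t * kap q t =
          (if t = i then zp q (N - 1) * kap q t else 0) -
            (if t < i then zp q N * zz q * kap q t else 0) := by
        intro t
        simp only [xB, Bool.false_eq_true, if_false, nB_diag, sub_mul, ite_mul, zero_mul]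
        simp only [eq_comm]
      simp only [e0, Finset.sum_sub_distrib, Finset.sum_ite_eq', Finset.mem_univ, if_true]
      have e : ∀ t : Fin N, zp q N * zz q * kap q t =
          (fun k : ℕ => zp q (2 * (k : ℤ))) (t + 1) - (fun k : ℕ => zp q (2 * (k : ℤ))) t := by
        intro t
        have : zp q N * zz q * kap q t = zz q * zp q (2 * (t : ℤ) + 1) := by
          unfold kap
          rw [show (2 * (t : ℤ) + 1) = (2 * (t : ℤ) + 1 - N) + N by ring, zp_add]
          ring_nf
        rw [this, zz_mul]
        push_cast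
        rw [show (2 * ((t : ℤ) + 1)) = 2 * (t : ℤ) + 1 + 1 by ring,
          show (2 * (t : ℤ) + 1 - 1) = 2 * (t : ℤ) by ring]
      have T := tele_lt (fun k : ℕ => zp q (2 * (k : ℤ))) i
      simp only [e]
      rw [T]
      unfold kap
      rw [← zp_add]
      push_cast
      rw [show ((N : ℤ) - 1 + (2 * (i : ℤ) + 1 - N)) = 2 * (i : ℤ) by ring,
        zp_zero]
      ring
    · have e0 : ∀ t : Fin N, xB q true i t i t * kap q t =
          (if t = i then zp q (1 - N) * kap q t else 0) +
            (if i < t then zp q (-N) * zz q * kap q t else 0) := by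
        intro t
        simp only [xB, if_true, pB_diag, add_mul, ite_mul, zero_mul]
        simp only [eq_comm]
      simp only [e0, Finset.sum_add_distrib, Finset.sum_ite_eq', Finset.mem_univ, if_true]
      have e : ∀ t : Fin N, zp q (-N) * zz q * kap q t =
          (fun k : ℕ => zp q (2 * (k : ℤ) - 2 * N)) (t + 1) -
            (fun k : ℕ => zp q (2 * (k : ℤ) - 2 * N)) t := by
        intro t
        have : zp q (-N) * zz q * kap q t = zz q * zp q (2 * (t : ℤ) + 1 - 2 * N) := by
          unfold kap
          rw [show (2 * (t : ℤ) + 1 - 2 * N) = (2 * (t : ℤ) + 1 - N) + -N by ring, zp_add]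
          ring
        rw [this, zz_mul]
        push_cast
        rw [show (2 * ((t : ℤ) + 1) - 2 * (N : ℤ)) = 2 * (t : ℤ) + 1 - 2 * N + 1 by ring,
          show (2 * (t : ℤ) + 1 - 2 * (N : ℤ) - 1) = 2 * (t : ℤ) - 2 * N by ring]
      have T := tele_gt (fun k : ℕ => zp q (2 * (k : ℤ) - 2 * N)) i
      simp only [e]
      rw [T]
      unfold kap
      rw [← zp_add]
      push_cast
      rw [show (1 - (N : ℤ) + (2 * (i : ℤ) + 1 - N)) = 2 * ((i : ℤ) + 1) - 2 * N by ring,
        show (2 * (N : ℤ) - 2 * N) = 0 by ring, zp_zero]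
      ring
  · rw [if_neg hij]
    apply Finset.sum_eq_zero
    intro t _
    by_contra h
    have h2 : xB q s i t j t ≠ 0 := fun hh => h (by rw [hh, zero_mul])
    rcases xB_cons q s i t j t h2 with ⟨h3, _⟩ | ⟨h3, h4⟩
    · exact hij h3.symm
    · exact hij (h4.symm.trans h3.symm)

theorem wf_cup1_aux (N : ℕ) (q : Aˣ) (s : Bool) (a b : Bool × Fin N) :
    ∑ c : Bool × Fin N, xW q s a b c (!c.1, c.2) * (if c.1 = true then kap q c.2 else 1) =
      if b = (!a.1, a.2) then (if a.1 = true then kap q a.2 else 1) else 0 := by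
  obtain ⟨a0, a⟩ := a
  obtain ⟨b0, b⟩ := b
  rw [Fintype.sum_prod_type, Fintype.sum_bool]
  cases a0 <;> cases b0 <;>
    simp only [xW, Bool.not_true, Bool.not_false, if_true, Bool.false_eq_true, if_false, mul_zero,
      zero_mul, Finset.sum_const_zero, mul_one, Prod.mk.injEq, false_and, true_and, add_zero,
      zero_add, reduceCtorEq]
  · rw [sum_B2]
  · have e : ∀ t, kap q b * kapi q t * xB q (!s) t a t b =
        kap q b * (kapi q t * xB q (!s) t a t b) := fun t => by ring
    simp only [e]
    rw [← Finset.mul_sum, sum_B1]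
    by_cases h : a = b
    · subst h
      simp
    · rw [if_neg h, if_neg (fun hh => h hh.symm), mul_zero]

theorem wf_cap1_aux (N : ℕ) (q : Aˣ) (s : Bool) (c d : Bool × Fin N) :
    ∑ a : Bool × Fin N, (if a.1 = true then 1 else kapi q a.2) * xW q s a (!a.1, a.2) c d =
      if d = (!c.1, c.2) then (if c.1 = true then 1 else kapi q c.2) else 0 := by
  obtain ⟨c0, c⟩ := c
  obtain ⟨d0, d⟩ := d
  rw [Fintype.sum_prod_type, Fintype.sum_bool]
  cases c0 <;> cases d0 <;>
    simp only [xW, Bool.not_true, Bool.not_false, if_true, Bool.false_eq_true, if_false, mul_zero,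
      zero_mul, Finset.sum_const_zero, one_mul, Prod.mk.injEq, false_and, true_and, add_zero,
      zero_add, reduceCtorEq]
  · have e : ∀ t, kap q t * kapi q c * xB q (!s) c t d t =
        kapi q c * (xB q (!s) c t d t * kap q t) := fun t => by ring
    simp only [e]
    rw [← Finset.mul_sum, sum_B2]
    by_cases h : c = d
    · subst h
      simp
    · rw [if_neg h, if_neg (fun hh => h hh.symm), mul_zero]
  · rw [sum_B1]

theorem wf_cup1p (N : ℕ) (q : Aˣ) (a b : Bool × Fin N) :
    ∑ c, (WF N q).pos a b c ((WF N q).dual c) * (WF N q).cup c =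
      if b = (WF N q).dual a then (WF N q).cup a else 0 :=
  wf_cup1_aux N q true a b

theorem wf_cup1n (N : ℕ) (q : Aˣ) (a b : Bool × Fin N) :
    ∑ c, (WF N q).neg a b c ((WF N q).dual c) * (WF N q).cup c =
      if b = (WF N q).dual a then (WF N q).cup a else 0 :=
  wf_cup1_aux N q false a b

theorem wf_cap1p (N : ℕ) (q : Aˣ) (c d : Bool × Fin N) :
    ∑ a, (WF N q).cap a * (WF N q).pos a ((WF N q).dual a) c d =
      if d = (WF N q).dual c then (WF N q).cap c else 0 :=
  wf_cap1_aux N q true c d

theorem wf_cap1n (N : ℕ) (q : Aˣ) (c d : Bool × Fin N) :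
    ∑ a, (WF N q).cap a * (WF N q).neg a ((WF N q).dual a) c d =
      if d = (WF N q).dual c then (WF N q).cap c else 0 :=
  wf_cap1_aux N q false c d

/-- `[N]` is also the value of the circle with the other orientation. -/
theorem sum_kapi (N : ℕ) (q : Aˣ) : ∑ i : Fin N, kapi q i = dl N q := by
  unfold dl
  rw [← Equiv.sum_comp Fin.revPerm]
  apply Finset.sum_congr rfl
  intro i _
  unfold kap kapi
  congr 1
  rw [Fin.revPerm_apply, Fin.val_rev]
  have := i.2
  omega

end Pool.Agent.EVT
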