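import Pool.Agent.EVT.Defs2
import Pool.Agent.EVT.WC

/-!
# EVT module TA: planar state sums, local relations

All by induction on the positions (`b` is general in all statements; going one strand to the right
changes `b` to `!b`).
* `cu_lin`, `ca_lin`, `cu_congr`, `ca_congr`, `pev_*`: linearity and dependence only on words of the
  right length.
* `zigR`: a minimum at `j` below a maximum at `j + 1`: `k = 0`: at `x :: w`:
  `∑ y, e (!b) y * (if x = y then c b x * f (y :: w) else 0) = e (!b) x * c b x * f (x :: w)`.
* `zigL`: a minimum at `k + 1` below a maximum at `k`; at `x :: w`: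
  `∑ y, e b y * (if y = x then c (!b) y * f (y :: w) else 0)`; `hT.zig (!b) x` (`!(!b) = b`).
* `circ`: `∑ x, e b x * c b x = δ`.
* `comR`: a minimum at `j` below a maximum at `k ≥ j + 2`; `comL`: `k + 2 ≤ j`.  Base cases `j = 0`
  resp. `k = 0`, where one of the operators acts at the first letters; note that
  `(k - 2) % 2 = k % 2`, the parity at position `k` above the minimum is the same as that at `k - 2`
  below it.
* `TQ_ok`, `T2_ok`: the two examples.
-/

namespace Pool.Agent.EVT

open Finset

variable {A ι : Type*} [CommRing A] [Fintype ι] [DecidableEq ι]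

private theorem cu_zero (T : TL A ι) (b : Bool) (f : List ι → A) (x y : ι) (w : List ι) :
    T.cu b 0 f (x :: y :: w) = if x = y then T.c b x * f w else 0 := rfl

private theorem cu_zero_nil (T : TL A ι) (b : Bool) (f : List ι → A) :
    T.cu b 0 f [] = 0 := rfl

private theorem cu_zero_one (T : TL A ι) (b : Bool) (f : List ι → A) (x : ι) :
    T.cu b 0 f [x] = 0 := rfl

private theorem cu_nil (T : TL A ι) (b : Bool) (k : ℕ) (f : List ι → A) :
    T.cu b k f [] = 0 := by
  cases k <;> rfl

private theorem cu_succ (T : TL A ι) (b : Bool) (k : ℕ) (f : List ι → A) (x : ι) (w : List ι) :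
    T.cu b (k + 1) f (x :: w) = T.cu (!b) k (fun u => f (x :: u)) w := rfl

private theorem ca_zero (T : TL A ι) (b : Bool) (f : List ι → A) (w : List ι) :
    T.ca b 0 f w = ∑ x, T.e b x * f (x :: x :: w) := by
  cases w <;> rfl

private theorem ca_succ_nil (T : TL A ι) (b : Bool) (k : ℕ) (f : List ι → A) :
    T.ca b (k + 1) f [] = 0 := rfl

private theorem ca_succ (T : TL A ι) (b : Bool) (k : ℕ) (f : List ι → A) (x : ι) (w : List ι) :
    T.ca b (k + 1) f (x :: w) = T.ca (!b) k (fun u => f (x :: u)) w := rfl

theorem TL.cu_lin (T : TL A ι) (b : Bool) (k : ℕ) {κ : Type*} (s : Finset κ) (c : κ → A)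
    (h : κ → List ι → A) (w : List ι) :
    T.cu b k (fun u => ∑ j ∈ s, c j * h j u) w = ∑ j ∈ s, c j * T.cu b k (h j) w := by
  induction k generalizing b h w with
  | zero =>
    rcases w with _ | ⟨x, _ | ⟨y, w⟩⟩
    · simp [cu_zero_nil]
    · simp [cu_zero_one]
    · simp only [cu_zero]
      split_ifs
      · rw [mul_sum]
        exact sum_congr rfl fun j _ => by ring
      · simp
  | succ k ih =>
    rcases w with _ | ⟨x, w⟩
    · simp [cu_nil]
    · simp only [cu_succ]
      exact ih (!b) (fun j u => h j (x :: u)) w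

theorem TL.ca_lin (T : TL A ι) (b : Bool) (k : ℕ) {κ : Type*} (s : Finset κ) (c : κ → A)
    (h : κ → List ι → A) (w : List ι) :
    T.ca b k (fun u => ∑ j ∈ s, c j * h j u) w = ∑ j ∈ s, c j * T.ca b k (h j) w := by
  induction k generalizing b h w with
  | zero =>
    simp only [ca_zero, mul_sum]
    rw [sum_comm]
    exact sum_congr rfl fun j _ => sum_congr rfl fun x _ => by ring
  | succ k ih =>
    rcases w with _ | ⟨x, w⟩
    · simp [ca_succ_nil]
    · simp only [ca_succ]
      exact ih (!b) (fun j u => h j (x :: u)) w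

theorem TL.cu_congr (T : TL A ι) (b : Bool) (k : ℕ) {f g : List ι → A} (w : List ι)
    (h : ∀ u : List ι, u.length + 2 = w.length → f u = g u) : T.cu b k f w = T.cu b k g w := by
  induction k generalizing b f g w with
  | zero =>
    rcases w with _ | ⟨x, _ | ⟨y, w⟩⟩
    · rfl
    · rfl
    · simp only [cu_zero]
      rw [h w (by simp)]
  | succ k ih =>
    rcases w with _ | ⟨x, w⟩
    · rfl
    · simp only [cu_succ]
      exact ih (!b) w fun u hu => h (x :: u) (by simp only [List.length_cons]; omega)

theorem TL.ca_congr (T : TL A ι) (b : Bool) (k : ℕ) {f g : List ι → A} (w : List ι)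
    (h : ∀ u : List ι, u.length = w.length + 2 → f u = g u) : T.ca b k f w = T.ca b k g w := by
  induction k generalizing b f g w with
  | zero =>
    simp only [ca_zero]
    exact sum_congr rfl fun x _ => by rw [h (x :: x :: w) (by simp)]
  | succ k ih =>
    rcases w with _ | ⟨x, w⟩
    · rfl
    · simp only [ca_succ]
      exact ih (!b) w fun u hu => h (x :: u) (by simp only [List.length_cons]; omega)

theorem TL.pev_append (T : TL A ι) (D D' : PD) (f : List ι → A) :
    T.pev (D ++ D') f = T.pev D' (T.pev D f) := by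
  induction D generalizing f with
  | nil => rfl
  | cons s D ih =>
    obtain ⟨_ | _, k⟩ := s
    · exact ih _
    · exact ih _

theorem TL.pev_lin (T : TL A ι) (D : PD) {κ : Type*} (s : Finset κ) (c : κ → A)
    (h : κ → List ι → A) (w : List ι) :
    T.pev D (fun u => ∑ j ∈ s, c j * h j u) w = ∑ j ∈ s, c j * T.pev D (h j) w := by
  induction D generalizing h with
  | nil => rfl
  | cons t D ih =>
    obtain ⟨_ | _, k⟩ := t
    · simp only [TL.pev]
      rw [← ih]
      congr 1
      funext u
      exact T.ca_lin true k s c h u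
    · simp only [TL.pev]
      rw [← ih]
      congr 1
      funext u
      exact T.cu_lin true k s c h u

theorem TL.pev_congr (T : TL A ι) {n m : ℕ} {D : PD} (hD : wfD n D m) {f g : List ι → A}
    (h : ∀ u : List ι, u.length = n → f u = g u) (w : List ι) (hw : w.length = m) :
    T.pev D f w = T.pev D g w := by
  induction D generalizing n f g with
  | nil =>
    simp only [wfD] at hD
    exact h w (by omega)
  | cons t D ih =>
    obtain ⟨_ | _, k⟩ := t
    · simp only [wfD] at hD
      simp only [TL.pev]
      exact ih hD.2 fun u hu => T.ca_congr true k u fun u' hu' => h u' (by omega)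
    · simp only [wfD] at hD
      simp only [TL.pev]
      exact ih hD.2 fun u hu => T.cu_congr true k u fun u' hu' => h u' (by omega)

theorem TL.Ok.zigR {T : TL A ι} {δ : A} (hT : T.Ok δ) (b : Bool) (j : ℕ) (f : List ι → A)
    (w : List ι) (hw : j + 1 ≤ w.length) : T.ca b (j + 1) (T.cu b j f) w = f w := by
  induction j generalizing b f w with
  | zero =>
    rcases w with _ | ⟨x, w⟩
    · simp at hw
    · simp only [ca_succ, ca_zero, cu_zero, mul_ite, mul_zero, sum_ite_eq, mem_univ, if_true]
      rw [← mul_assoc, hT.zig, one_mul]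
  | succ j ih =>
    rcases w with _ | ⟨x, w⟩
    · simp at hw
    · simp only [ca_succ, cu_succ]
      exact ih (!b) (fun u => f (x :: u)) w (by simpa using hw)

theorem TL.Ok.zigL {T : TL A ι} {δ : A} (hT : T.Ok δ) (b : Bool) (k : ℕ) (f : List ι → A)
    (w : List ι) (hw : k + 1 ≤ w.length) : T.ca b k (T.cu b (k + 1) f) w = f w := by
  induction k generalizing b f w with
  | zero =>
    rcases w with _ | ⟨x, w⟩
    · simp at hw
    · simp only [cu_succ, ca_zero, cu_zero, mul_ite, mul_zero, sum_ite_eq', mem_univ, if_true]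
      have := hT.zig (!b) x
      rw [Bool.not_not] at this
      rw [← mul_assoc, this, one_mul]
  | succ j ih =>
    rcases w with _ | ⟨x, w⟩
    · simp at hw
    · rw [ca_succ]
      exact ih (!b) (fun u => f (x :: u)) w (by simpa using hw)

theorem TL.Ok.circ {T : TL A ι} {δ : A} (hT : T.Ok δ) (b : Bool) (k : ℕ) (f : List ι → A)
    (w : List ι) (hw : k ≤ w.length) : T.ca b k (T.cu b k f) w = δ * f w := by
  induction k generalizing b f w with
  | zero =>
    simp only [ca_zero, cu_zero, if_true]
    rw [← hT.loop b, sum_mul]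
    exact sum_congr rfl fun x _ => by ring
  | succ j ih =>
    rcases w with _ | ⟨x, w⟩
    · simp at hw
    · rw [ca_succ]
      exact ih (!b) (fun u => f (x :: u)) w (by simpa using hw)

theorem TL.comR (T : TL A ι) (b : Bool) (j k : ℕ) (h : j + 2 ≤ k) (f : List ι → A) (w : List ι) :
    T.ca b k (T.cu b j f) w = T.cu b j (T.ca b (k - 2) f) w := by
  induction j generalizing b k f w with
  | zero =>
    obtain ⟨k, rfl⟩ : ∃ k', k = k' + 2 := ⟨k - 2, by omega⟩
    rw [Nat.add_sub_cancel]
    rcases w with _ | ⟨x, _ | ⟨y, w⟩⟩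
    · rfl
    · rfl
    · rw [cu_zero, ca_succ, ca_succ, Bool.not_not]
      simp only [cu_zero]
      split_ifs with hxy
      · have := T.ca_lin b k (univ : Finset Unit) (fun _ => T.c b x) (fun _ => f) w
        simpa using this
      · have := T.ca_lin b k (∅ : Finset Unit) (fun _ => T.c b x) (fun _ => f) w
        simpa using this
  | succ j ih =>
    obtain ⟨k, rfl⟩ : ∃ k', k = k' + 1 := ⟨k - 1, by omega⟩
    rcases w with _ | ⟨x, w⟩
    · rfl
    · rw [ca_succ, cu_succ]
      have e : k + 1 - 2 = (k - 2) + 1 := by omega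
      have := ih (!b) k (by omega) (fun u => f (x :: u)) w
      rw [e]
      simp only [cu_succ, ca_succ]
      exact this

theorem TL.comL (T : TL A ι) (b : Bool) (j k : ℕ) (h : k + 2 ≤ j) (f : List ι → A) (w : List ι) :
    T.ca b k (T.cu b j f) w = T.cu b (j - 2) (T.ca b k f) w := by
  induction k generalizing b j f w with
  | zero =>
    obtain ⟨j, rfl⟩ : ∃ j', j = j' + 2 := ⟨j - 2, by omega⟩
    rw [Nat.add_sub_cancel]
    have e : T.ca b 0 f = fun u => ∑ x, T.e b x * (fun u => f (x :: x :: u)) u := by
      funext u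
      rw [ca_zero]
    rw [ca_zero, e, T.cu_lin]
    refine sum_congr rfl fun x _ => ?_
    rw [cu_succ, cu_succ, Bool.not_not]
  | succ k ih =>
    obtain ⟨j, rfl⟩ : ∃ j', j = j' + 1 := ⟨j - 1, by omega⟩
    rcases w with _ | ⟨x, w⟩
    · rw [ca_succ_nil, cu_nil]
    · have e : j + 1 - 2 = (j - 2) + 1 := by omega
      have := ih (!b) j (by omega) (fun u => f (x :: u)) w
      rw [e]
      simp only [cu_succ, ca_succ]
      exact this

theorem TQ_ok (N : ℕ) (q : Aˣ) : (TQ N q).Ok (dl N q) := by
  refine ⟨?_, ?_⟩
  · intro b i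
    cases b
    · simp [TQ]
    · simp only [TQ, Bool.not_true, Bool.false_eq_true, if_false, if_true, kapi, kap, zp]
      rw [← Units.val_mul, ← zpow_add]
      have : (N : ℤ) - 1 - 2 * (i : ℤ) + (2 * (i : ℤ) + 1 - N) = 0 := by ring
      rw [this]
      simp
  · intro b
    cases b
    · simp only [TQ, Bool.false_eq_true, if_false, mul_one]
      exact sum_kapi N q
    · simp only [TQ, if_true, one_mul]
      rfl

theorem T2_ok : T2.Ok 2 := by
  refine ⟨?_, ?_⟩
  · intro b i
    simp [T2]
  · intro b
    simp [T2, ZMod.card]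

end Pool.Agent.EVT
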