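import Pool.Agent.EVT.TA

/-!
# EVT module TB: a maximum above some minima

`push k cs` removes a maximum with `k` strands to its left that lies directly above the minima `cs`
(the last one first; below them there is one strand).  By induction on `cs`; the four cases in the
definition of `push` are the relations `circ`, `zigR` / `zigL`, `comR`, `comL` of module TA (then the
induction hypothesis for the maximum above the remaining minima).
* `cups (j :: cs) = cups cs ++ [(true, j)]`, so
  `pev (cups (j :: cs) ++ [(false, k)]) f = ca true k (cu true j (pev (cups cs) f))`.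
* `push_wf`: in the case `j + 2 ≤ k` the condition for `push (k - 2) cs` is
  `k - 2 + 2 ≤ 1 + 2 * cs.length`; in the case `k + 2 ≤ j`: `k + 2 ≤ j ≤ 1 + 2 * cs.length`; the case `cs = []`:
  then `j ≤ 1`, `k + 2 ≤ 3`, so `k, j ≤ 1` and the first or second case applies.
* `push_rot`: `sgn (j + 1) = - sgn j`, `sgn (k - 2) = sgn k` for `2 ≤ k`.
Checked by computer on many examples.
-/

namespace Pool.Agent.EVT

open Finset

variable {A ι : Type*} [CommRing A] [Fintype ι] [DecidableEq ι]

theorem cups_cons (j : ℕ) (cs : List ℕ) : cups (j :: cs) = cups cs ++ [(true, j)] := by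
  simp [cups]

private theorem tb_eq (k : ℕ) (cs : List ℕ) :
    push k (k :: cs) = (cs, if k % 2 = 0 then (1, 0) else (0, 1)) := by
  rw [push, if_pos rfl]

private theorem tb_adj {k j : ℕ} (cs : List ℕ) (h : k = j + 1 ∨ k + 1 = j) :
    push k (j :: cs) = (cs, 0, 0) := by
  rw [push, if_neg (by omega), if_pos h]

private theorem tb_gt {k j : ℕ} (cs : List ℕ) (h : j + 2 ≤ k) :
    push k (j :: cs) = (j :: (push (k - 2) cs).1, (push (k - 2) cs).2) := by
  rw [push, if_neg (by omega), if_neg (by omega), if_pos (by omega)]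

private theorem tb_lt {k j : ℕ} (cs : List ℕ) (h : k + 2 ≤ j) :
    push k (j :: cs) = ((j - 2) :: (push k cs).1, (push k cs).2) := by
  rw [push, if_neg (by omega), if_neg (by omega), if_neg (by omega)]

private theorem tb_cases (k j : ℕ) :
    k = j ∨ (k = j + 1 ∨ k + 1 = j) ∨ j + 2 ≤ k ∨ k + 2 ≤ j := by omega

theorem push_wf (k : ℕ) (cs : List ℕ) (h : wfC cs) (hk : k + 2 ≤ 1 + 2 * cs.length) :
    wfC (push k cs).1 ∧ (push k cs).1.length + 1 = cs.length := by
  induction cs generalizing k with
  | nil => simp only [List.length_nil] at hk; omega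
  | cons j cs ih =>
    obtain ⟨h1, h2⟩ : j ≤ 1 + 2 * cs.length ∧ wfC cs := h
    rw [List.length_cons] at hk ⊢
    rcases tb_cases k j with hc | hc | hc | hc
    · subst hc
      rw [tb_eq]
      exact ⟨h2, rfl⟩
    · rw [tb_adj cs hc]
      exact ⟨h2, rfl⟩
    · obtain ⟨h3, h4⟩ := ih (k - 2) h2 (by omega)
      rw [tb_gt cs hc]
      refine ⟨⟨?_, h3⟩, ?_⟩
      · omega
      · change (j :: (push (k - 2) cs).1).length + 1 = cs.length + 1
        rw [List.length_cons, h4]
    · obtain ⟨h3, h4⟩ := ih k h2 (by omega)
      rw [tb_lt cs hc]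
      refine ⟨⟨?_, h3⟩, ?_⟩
      · omega
      · change ((j - 2) :: (push k cs).1).length + 1 = cs.length + 1
        rw [List.length_cons, h4]

private theorem tb_rot (j : ℕ) (cs : List ℕ) : rot (cups (j :: cs)) = rot (cups cs) + sgn j := by
  rw [cups_cons, rot, rot, List.map_append, List.sum_append]
  simp

theorem push_rot (k : ℕ) (cs : List ℕ) (h : wfC cs) (hk : k + 2 ≤ 1 + 2 * cs.length) :
    rot (cups cs) + sgn k =
      rot (cups (push k cs).1) + 2 * ((push k cs).2.1 - (push k cs).2.2 : ℤ) := by
  induction cs generalizing k with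
  | nil => simp only [List.length_nil] at hk; omega
  | cons j cs ih =>
    obtain ⟨h1, h2⟩ : j ≤ 1 + 2 * cs.length ∧ wfC cs := h
    rw [List.length_cons] at hk
    rw [tb_rot]
    rcases tb_cases k j with hc | hc | hc | hc
    · subst hc
      rw [tb_eq]
      by_cases hp : k % 2 = 0
      · rw [if_pos hp, sgn, if_pos hp]
        push_cast
        ring
      · rw [if_neg hp, sgn, if_neg hp]
        push_cast
        ring
    · rw [tb_adj cs hc]
      have e1 : sgn j + sgn k = 0 := by
        by_cases hp : k % 2 = 0
        · rw [sgn, sgn, if_pos hp, if_neg (by omega)]; norm_num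
        · rw [sgn, sgn, if_neg hp, if_pos (by omega)]; norm_num
      push_cast
      linarith
    · have h3 := ih (k - 2) h2 (by omega)
      have e1 : sgn (k - 2) = sgn k := by
        have e2 : (k - 2) % 2 = k % 2 := by omega
        rw [sgn, sgn, e2]
      rw [tb_gt cs hc, tb_rot]
      change rot (cups cs) + sgn j + sgn k = rot (cups (push (k - 2) cs).1) + sgn j +
        2 * (((push (k - 2) cs).2.1 : ℤ) - ((push (k - 2) cs).2.2 : ℤ))
      linarith
    · have h3 := ih k h2 (by omega)
      have e1 : sgn (j - 2) = sgn j := by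
        have e2 : (j - 2) % 2 = j % 2 := by omega
        rw [sgn, sgn, e2]
      rw [tb_lt cs hc, tb_rot]
      change rot (cups cs) + sgn j + sgn k = rot (cups (push k cs).1) + sgn (j - 2) +
        2 * (((push k cs).2.1 : ℤ) - ((push k cs).2.2 : ℤ))
      linarith

private theorem tb_cu_mul (T : TL A ι) (b : Bool) (k : ℕ) (x : A) (f : List ι → A) (w : List ι) :
    T.cu b k (fun u => x * f u) w = x * T.cu b k f w := by
  have h := T.cu_lin b k (Finset.range 1) (fun _ => x) (fun _ => f) w
  simpa using h

private theorem tb_cups_ev (T : TL A ι) (j : ℕ) (cs : List ℕ) (f : List ι → A) (w : List ι) :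
    T.pev (cups (j :: cs)) f w = T.cu true j (T.pev (cups cs) f) w := by
  rw [cups_cons, T.pev_append]
  rfl

private theorem tb_ca_ev (T : TL A ι) (k : ℕ) (D : PD) (f : List ι → A) (w : List ι) :
    T.pev (D ++ [(false, k)]) f w = T.ca true k (T.pev D f) w := by
  rw [T.pev_append]
  rfl

theorem push_ev {T : TL A ι} {δ : A} (hT : T.Ok δ) (k : ℕ) (cs : List ℕ) (h : wfC cs)
    (hk : k + 2 ≤ 1 + 2 * cs.length) (f : List ι → A) (w : List ι)
    (hw : w.length + 2 = 1 + 2 * cs.length) :
    T.pev (cups cs ++ [(false, k)]) f w =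
      δ ^ ((push k cs).2.1 + (push k cs).2.2) * T.pev (cups (push k cs).1) f w := by
  induction cs generalizing k w with
  | nil => simp only [List.length_nil] at hk; omega
  | cons j cs ih =>
    obtain ⟨h1, h2⟩ : j ≤ 1 + 2 * cs.length ∧ wfC cs := h
    rw [List.length_cons] at hk hw
    have e0 : T.pev (cups (j :: cs)) f = T.cu true j (T.pev (cups cs) f) := by
      funext u
      exact tb_cups_ev T j cs f u
    rw [tb_ca_ev, e0]
    rcases tb_cases k j with hc | hc | hc | hc
    · subst hc
      rw [tb_eq, hT.circ true k _ w (by omega)]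
      by_cases hp : k % 2 = 0
      · rw [if_pos hp]
        change δ * T.pev (cups cs) f w = δ ^ (1 + 0) * T.pev (cups cs) f w
        rw [add_zero, pow_one]
      · rw [if_neg hp]
        change δ * T.pev (cups cs) f w = δ ^ (0 + 1) * T.pev (cups cs) f w
        rw [zero_add, pow_one]
    · rw [tb_adj cs hc]
      change T.ca true k (T.cu true j (T.pev (cups cs) f)) w =
        δ ^ (0 + 0) * T.pev (cups cs) f w
      rw [add_zero, pow_zero, one_mul]
      rcases hc with hc | hc
      · rw [hc]
        exact hT.zigR true j _ w (by omega)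
      · rw [← hc]
        exact hT.zigL true k _ w (by omega)
    · rw [tb_gt cs hc, T.comR true j k hc]
      change T.cu true j (T.ca true (k - 2) (T.pev (cups cs) f)) w =
        δ ^ ((push (k - 2) cs).2.1 + (push (k - 2) cs).2.2) *
          T.pev (cups (j :: (push (k - 2) cs).1)) f w
      rw [tb_cups_ev, ← tb_cu_mul]
      refine T.cu_congr true j w fun u hu => ?_
      rw [← tb_ca_ev]
      exact ih (k - 2) h2 (by omega) u (by omega)
    · rw [tb_lt cs hc, T.comL true j k hc]
      change T.cu true (j - 2) (T.ca true k (T.pev (cups cs) f)) w =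
        δ ^ ((push k cs).2.1 + (push k cs).2.2) *
          T.pev (cups ((j - 2) :: (push k cs).1)) f w
      rw [tb_cups_ev, ← tb_cu_mul]
      refine T.cu_congr true (j - 2) w fun u hu => ?_
      rw [← tb_ca_ev]
      exact ih k h2 (by omega) u (by omega)

end Pool.Agent.EVT
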