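import Pool.Agent.EVT.TB

/-!
# EVT module TC: planar diagrams from one strand to one strand

By induction on `D` with module TB, generalizing `cs`.  For `D = []` in the case of one strand at the
top: `1 + 2 * cs.length = 1`, so `cs = []`.
* `sm_wf`, `sm_rot`: the smoothings of a pattern: induction on `S`.  A smoothed vertex adds a maximum
  and a minimum at the same position, so `2 * sgn k` to `rot`.
-/

namespace Pool.Agent.EVT

open Finset

variable {A ι : Type*} [CommRing A] [Fintype ι] [DecidableEq ι]
open Pool.Agent.Helper9.FA (Item)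

theorem run_wf (D : PD) (cs : List ℕ) (h : wfC cs) (hD : wfD (1 + 2 * cs.length) D 1) :
    (run D cs).1 = [] := by
  induction D generalizing cs with
  | nil =>
    have h1 : 1 + 2 * cs.length = 1 := hD
    change cs = []
    exact List.length_eq_zero_iff.1 (by omega)
  | cons s D ih =>
    obtain ⟨b, k⟩ := s
    cases b with
    | true =>
      obtain ⟨h1, h2⟩ : k ≤ 1 + 2 * cs.length ∧ wfD (1 + 2 * cs.length + 2) D 1 := hD
      change (run D (k :: cs)).1 = []
      refine ih (k :: cs) ⟨h1, h⟩ ?_
      have e1 : 1 + 2 * (k :: cs).length = 1 + 2 * cs.length + 2 := by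
        rw [List.length_cons]; omega
      rw [e1]
      exact h2
    | false =>
      obtain ⟨h1, h2⟩ : k + 2 ≤ 1 + 2 * cs.length ∧ wfD (1 + 2 * cs.length - 2) D 1 := hD
      obtain ⟨h3, h4⟩ := push_wf k cs h h1
      change (run D (push k cs).1).1 = []
      refine ih _ h3 ?_
      have e1 : 1 + 2 * (push k cs).1.length = 1 + 2 * cs.length - 2 := by omega
      rw [e1]
      exact h2

private theorem tc_rot_cons (s : Bool × ℕ) (D : PD) : rot (s :: D) = sgn s.2 + rot D := by
  rw [rot, rot, List.map_cons, List.sum_cons]

private theorem tc_rot_cups (j : ℕ) (cs : List ℕ) :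
    rot (cups (j :: cs)) = rot (cups cs) + sgn j := by
  rw [cups_cons, rot, rot, List.map_append, List.sum_append]
  simp

private theorem tc_nil {cs : List ℕ} (hD : wfD (1 + 2 * cs.length) [] 1) : cs = [] := by
  have h1 : 1 + 2 * cs.length = 1 := hD
  exact List.length_eq_zero_iff.1 (by omega)

theorem run_rot (D : PD) (cs : List ℕ) (h : wfC cs) (hD : wfD (1 + 2 * cs.length) D 1) :
    rot (cups cs) + rot D = 2 * ((run D cs).2.1 - (run D cs).2.2 : ℤ) := by
  induction D generalizing cs with
  | nil =>
    have h1 := tc_nil hD
    subst h1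
    simp [rot, cups, run]
  | cons s D ih =>
    obtain ⟨b, k⟩ := s
    cases b with
    | true =>
      obtain ⟨h1, h2⟩ : k ≤ 1 + 2 * cs.length ∧ wfD (1 + 2 * cs.length + 2) D 1 := hD
      have e1 : 1 + 2 * (k :: cs).length = 1 + 2 * cs.length + 2 := by
        rw [List.length_cons]; omega
      have h3 := ih (k :: cs) ⟨h1, h⟩ (by rw [e1]; exact h2)
      rw [tc_rot_cups] at h3
      rw [tc_rot_cons]
      change rot (cups cs) + (sgn k + rot D) =
        2 * (((run D (k :: cs)).2.1 : ℤ) - ((run D (k :: cs)).2.2 : ℤ))
      linarith
    | false =>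
      obtain ⟨h1, h2⟩ : k + 2 ≤ 1 + 2 * cs.length ∧ wfD (1 + 2 * cs.length - 2) D 1 := hD
      obtain ⟨h3, h4⟩ := push_wf k cs h h1
      have e1 : 1 + 2 * (push k cs).1.length = 1 + 2 * cs.length - 2 := by omega
      have h5 := ih _ h3 (by rw [e1]; exact h2)
      have h6 := push_rot k cs h h1
      rw [tc_rot_cons]
      change rot (cups cs) + (sgn k + rot D) =
        2 * ((((push k cs).2.1 + (run D (push k cs).1).2.1 : ℕ) : ℤ) -
          (((push k cs).2.2 + (run D (push k cs).1).2.2 : ℕ) : ℤ))
      push_cast
      linarith

private theorem tc_pev_mul (T : TL A ι) (D : PD) (x : A) (f : List ι → A) (w : List ι) :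
    T.pev D (fun u => x * f u) w = x * T.pev D f w := by
  have h := T.pev_lin D (Finset.range 1) (fun _ => x) (fun _ => f) w
  simpa using h

theorem run_ev {T : TL A ι} {δ : A} (hT : T.Ok δ) (D : PD) (cs : List ℕ) (h : wfC cs)
    (hD : wfD (1 + 2 * cs.length) D 1) (f : List ι → A) (w : List ι) (hw : w.length = 1) :
    T.pev (cups cs ++ D) f w = δ ^ ((run D cs).2.1 + (run D cs).2.2) * f w := by
  induction D generalizing cs with
  | nil =>
    have h1 := tc_nil hD
    subst h1
    change f w = δ ^ (0 + 0) * f w
    rw [add_zero, pow_zero, one_mul]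
  | cons s D ih =>
    obtain ⟨b, k⟩ := s
    cases b with
    | true =>
      obtain ⟨h1, h2⟩ : k ≤ 1 + 2 * cs.length ∧ wfD (1 + 2 * cs.length + 2) D 1 := hD
      have e1 : 1 + 2 * (k :: cs).length = 1 + 2 * cs.length + 2 := by
        rw [List.length_cons]; omega
      have h3 := ih (k :: cs) ⟨h1, h⟩ (by rw [e1]; exact h2)
      have e2 : cups (k :: cs) ++ D = cups cs ++ (true, k) :: D := by
        rw [cups_cons, List.append_assoc]
        rfl
      rw [e2] at h3
      exact h3
    | false =>
      obtain ⟨h1, h2⟩ : k + 2 ≤ 1 + 2 * cs.length ∧ wfD (1 + 2 * cs.length - 2) D 1 := hD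
      obtain ⟨h3, h4⟩ := push_wf k cs h h1
      have e1 : 1 + 2 * (push k cs).1.length = 1 + 2 * cs.length - 2 := by omega
      have h5 := ih _ h3 (by rw [e1]; exact h2)
      have e2 : cups cs ++ (false, k) :: D = (cups cs ++ [(false, k)]) ++ D := by
        rw [List.append_assoc]
        rfl
      change T.pev (cups cs ++ (false, k) :: D) f w =
        δ ^ (((push k cs).2.1 + (run D (push k cs).1).2.1) +
          ((push k cs).2.2 + (run D (push k cs).1).2.2)) * f w
      have e3 : ((push k cs).2.1 + (run D (push k cs).1).2.1) +
          ((push k cs).2.2 + (run D (push k cs).1).2.2) =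
          ((push k cs).2.1 + (push k cs).2.2) +
          ((run D (push k cs).1).2.1 + (run D (push k cs).1).2.2) := by ring
      rw [e3, pow_add, mul_assoc, ← h5, e2, T.pev_append (cups cs ++ [(false, k)]) D,
        T.pev_append (cups (push k cs).1) D, ← tc_pev_mul]
      refine T.pev_congr h2 (fun u hu => ?_) w hw
      exact push_ev hT k cs h h1 f u (by omega)

/-- the value of a planar diagram -/
theorem pev_lp {T : TL A ι} {δ : A} (hT : T.Ok δ) (D : PD) (hD : wfD 1 D 1) (f : List ι → A)
    (w : List ι) (hw : w.length = 1) : T.pev D f w = δ ^ lp D * f w :=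
  run_ev hT D [] trivial hD f w hw

/-- the number of closed curves is at least half of the absolute value of `rot` -/
theorem rot_le_lp (D : PD) (hD : wfD 1 D 1) : |rot D| ≤ 2 * (lp D : ℤ) := by
  have h := run_rot D [] trivial hD
  have e : rot (cups []) = 0 := by simp [rot, cups]
  rw [e, zero_add] at h
  rw [h, lp, abs_le]
  push_cast
  constructor <;> linarith [Int.natCast_nonneg (run D []).2.1, Int.natCast_nonneg (run D []).2.2]

theorem sm_wf (S : List (Item Unit)) (n : ℕ) (h : wfS n S 1) (I : List Bool) :
    wfD n (sm S I) 1 := by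
  induction S generalizing n I with
  | nil => exact h
  | cons s S ih =>
    cases s with
    | cup k =>
      obtain ⟨h1, h2⟩ : k ≤ n ∧ wfS (n + 2) S 1 := h
      exact ⟨h1, ih _ h2 I⟩
    | cap k =>
      obtain ⟨h1, h2⟩ : k + 2 ≤ n ∧ wfS (n - 2) S 1 := h
      exact ⟨h1, ih _ h2 I⟩
    | box k a =>
      obtain ⟨h1, h2⟩ : k + 2 ≤ n ∧ wfS n S 1 := h
      rcases I with _ | ⟨i, I⟩
      · exact ih _ h2 []
      · cases i with
        | true =>
          refine ⟨h1, by omega, ?_⟩
          have e : n - 2 + 2 = n := by omega
          rw [e]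
          exact ih _ h2 I
        | false => exact ih _ h2 I

/-- `rot` of a smoothing -/
theorem sm_rot (S : List (Item Unit)) (I : List Bool) (hI : I.length = (sides S).length) :
    rot (sm S I) = rot (sm S (List.replicate (sides S).length false)) +
      2 * (List.zipWith (fun (i s : Bool) => if i then (if s then (1 : ℤ) else -1) else 0)
        I (sides S)).sum := by
  induction S generalizing I with
  | nil =>
    have h1 : I = [] := List.length_eq_zero_iff.1 hI
    subst h1
    simp [sm, sides]
  | cons s S ih =>
    cases s with
    | cup k =>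
      have h1 := ih I hI
      change rot ((true, k) :: sm S I) =
        rot ((true, k) :: sm S (List.replicate (sides S).length false)) +
        2 * (List.zipWith (fun (i s : Bool) => if i then (if s then (1 : ℤ) else -1) else 0)
          I (sides S)).sum
      rw [tc_rot_cons, tc_rot_cons, h1]
      ring
    | cap k =>
      have h1 := ih I hI
      change rot ((false, k) :: sm S I) =
        rot ((false, k) :: sm S (List.replicate (sides S).length false)) +
        2 * (List.zipWith (fun (i s : Bool) => if i then (if s then (1 : ℤ) else -1) else 0)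
          I (sides S)).sum
      rw [tc_rot_cons, tc_rot_cons, h1]
      ring
    | box k a =>
      rcases I with _ | ⟨i, I⟩
      · simp [sides] at hI
      · have hI' : I.length = (sides S).length := by simpa [sides] using hI
        have h1 := ih I hI'
        have e1 : sides (Item.box k a :: S) = (k % 2 == 0) :: sides S := rfl
        rw [e1, List.length_cons, List.replicate_succ, List.zipWith_cons_cons, List.sum_cons]
        cases i with
        | true =>
          change rot ((false, k) :: (true, k) :: sm S I) =
            rot (sm S (List.replicate (sides S).length false)) +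
            2 * ((if (k % 2 == 0) = true then (1 : ℤ) else -1) + _)
          rw [tc_rot_cons, tc_rot_cons, h1]
          have e2 : (if (k % 2 == 0) = true then (1 : ℤ) else -1) = sgn k := by
            simp [sgn]
          rw [e2]
          ring
        | false =>
          change rot (sm S I) = rot (sm S (List.replicate (sides S).length false)) +
            2 * ((0 : ℤ) + _)
          rw [h1]
          ring

end Pool.Agent.EVT
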