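import Pool.Agent.EVT.LE

/-!
# EVT module VA: spans of families over `F₂`, a basis modulo a subspace
-/

namespace Pool.Agent.EVT

open Finset

variable {κ V : Type*} [AddCommGroup V] [Module (ZMod 2) V] [FiniteDimensional (ZMod 2) V]
  [DecidableEq κ]

/-- the span of a finite part of a family -/
def sp (v : κ → V) (J : Finset κ) : Submodule (ZMod 2) V :=
  Submodule.span (ZMod 2) (v '' (J : Set κ))

omit [FiniteDimensional (ZMod 2) V] in
theorem sp_union (v : κ → V) (J K : Finset κ) : sp v (J ∪ K) = sp v J ⊔ sp v K := by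
  rw [sp, sp, sp, Finset.coe_union, Set.image_union, Submodule.span_union]

omit [FiniteDimensional (ZMod 2) V] in
theorem sp_insert (v : κ → V) (J : Finset κ) (e : κ) :
    sp v (insert e J) = Submodule.span (ZMod 2) {v e} ⊔ sp v J := by
  rw [sp, sp, Finset.coe_insert, Set.image_insert_eq, Submodule.span_insert]

omit [FiniteDimensional (ZMod 2) V] [DecidableEq κ] in
theorem sp_mono (v : κ → V) {J K : Finset κ} (h : J ⊆ K) : sp v J ≤ sp v K :=
  Submodule.span_mono (Set.image_mono (by exact_mod_cast h))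

omit [FiniteDimensional (ZMod 2) V] [DecidableEq κ] in
theorem mem_sp (v : κ → V) {J : Finset κ} {e : κ} (h : e ∈ J) : v e ∈ sp v J :=
  Submodule.subset_span ⟨e, h, rfl⟩

omit [FiniteDimensional (ZMod 2) V] [DecidableEq κ] in
theorem finrank_sp_le (v : κ → V) (J : Finset κ) :
    Module.finrank (ZMod 2) (sp v J) ≤ J.card := by
  classical
  have h := finrank_span_finset_le_card (R := ZMod 2) (J.image v)
  rw [Finset.coe_image] at h
  exact h.trans Finset.card_image_le

omit [FiniteDimensional (ZMod 2) V] [DecidableEq κ] in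
theorem sp_empty (v : κ → V) : sp v ∅ = ⊥ := by
  rw [sp, Finset.coe_empty, Set.image_empty, Submodule.span_empty]

omit [DecidableEq κ] in
theorem finrank_sup_one' {U : Submodule (ZMod 2) V} {x : V} (hx : x ∉ U) :
    Module.finrank (ZMod 2) (U ⊔ Submodule.span (ZMod 2) {x} : Submodule (ZMod 2) V) =
      Module.finrank (ZMod 2) U + 1 := by
  have hx0 : x ≠ 0 := by
    rintro rfl
    exact hx U.zero_mem
  have h1 := Submodule.finrank_sup_add_finrank_inf_eq U (Submodule.span (ZMod 2) {x})
  have h2 : U ⊓ Submodule.span (ZMod 2) {x} = ⊥ := by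
    rw [eq_bot_iff]
    rintro y ⟨hyU, hyx⟩
    obtain ⟨c, rfl⟩ := Submodule.mem_span_singleton.1 hyx
    have hc : c = 0 ∨ c = 1 := (by decide : ∀ c : ZMod 2, c = 0 ∨ c = 1) c
    rcases hc with rfl | rfl
    · simp
    · rw [one_smul] at hyU
      exact absurd hyU hx
  rw [h2, finrank_bot, add_zero, finrank_span_singleton hx0] at h1
  exact h1

/-- a part of a family which is a basis of the span modulo a subspace -/
theorem exists_basis_mod (v : κ → V) (U : Submodule (ZMod 2) V) (E : Finset κ) :
    ∃ J ⊆ E, U ⊔ sp v J = U ⊔ sp v E ∧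
      Module.finrank (ZMod 2) (U ⊔ sp v E : Submodule (ZMod 2) V) =
        Module.finrank (ZMod 2) U + J.card := by
  induction E using Finset.induction_on with
  | empty => exact ⟨∅, Finset.Subset.refl _, rfl, by rw [sp_empty, sup_bot_eq, Finset.card_empty, add_zero]⟩
  | insert e E he ih =>
    obtain ⟨J, hJE, h1, h2⟩ := ih
    have h3 : U ⊔ sp v (insert e E) = (U ⊔ sp v E) ⊔ Submodule.span (ZMod 2) {v e} := by
      rw [sp_insert, sup_comm (Submodule.span (ZMod 2) {v e}), sup_assoc]
    by_cases hv : v e ∈ U ⊔ sp v E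
    · have h4 : (U ⊔ sp v E) ⊔ Submodule.span (ZMod 2) {v e} = U ⊔ sp v E := by
        rw [sup_eq_left, Submodule.span_singleton_le_iff_mem]
        exact hv
      rw [h3, h4]
      exact ⟨J, hJE.trans (Finset.subset_insert e E), h1, h2⟩
    · refine ⟨insert e J, Finset.insert_subset_insert e hJE, ?_, ?_⟩
      · rw [h3, ← h1, sp_insert, sup_comm (Submodule.span (ZMod 2) {v e}), sup_assoc]
      · rw [h3, finrank_sup_one' hv, h2, Finset.card_insert_of_notMem fun h => he (hJE h)]
        ring

omit [DecidableEq κ] in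
/-- dimensions of spanning sets -/
theorem dim_le (v : κ → V) {J D : Finset κ} (hJ : J ⊆ D) (K : Finset κ)
    {W : Submodule (ZMod 2) V} (h : sp v J ⊔ sp v K = W) :
    Module.finrank (ZMod 2) W ≤ Module.finrank (ZMod 2) (sp v J) + K.card ∧
    Module.finrank (ZMod 2) (sp v J) ≤ Module.finrank (ZMod 2) (sp v D) ∧
    (Module.finrank (ZMod 2) (sp v J) = Module.finrank (ZMod 2) (sp v D) → sp v J = sp v D) := by
  refine ⟨?_, Submodule.finrank_mono (sp_mono v hJ), fun h1 =>
    Submodule.eq_of_le_of_finrank_eq (sp_mono v hJ) h1⟩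
  rw [← h]
  exact (Submodule.finrank_add_le_finrank_add_finrank _ _).trans
    (Nat.add_le_add_left (finrank_sp_le v K) _)

end Pool.Agent.EVT
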