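import Pool.Agent.EVT.VA
import Mathlib.Analysis.Complex.Basic
import Mathlib.Analysis.SpecialFunctions.Complex.Circle

/-!
# EVT module VB: the sum over spanning sets as a polynomial

`k g = 2 ^ u * c g`, and all `k g` with `c g` even have the same sign (`0 < e * c g`).  The polynomial
`P = ∑ (∏_{g ∈ J} (X ^ (-k g)⁺ - X ^ (k g)⁺)) * ∏_{g ∉ J} X ^ (k g)⁺` over the spanning `J ⊆ A` is not zero: let
`ζ ^ (2 ^ u) = -1`, `D` the `g` with `c g` odd, `E` the others, `m` the codimension of the span of `D`.  The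
factors for `g ∈ E` have the zero `ζ`, so `P = (X - ζ) ^ m * Q`, and `Q(ζ)` is a product of a non-zero number, the
alternating sum `∑ (-2) ^ #J₁` over the `J₁ ⊆ D` which span the span of `D` (not zero by `span_ne`), and the sum of
`∏ k g` over the bases `J₂ ⊆ E` modulo the span of `D` (all terms have the same sign).
-/

namespace Pool.Agent.EVT

open Finset Polynomial

variable {κ V : Type*} [AddCommGroup V] [Module (ZMod 2) V] [FiniteDimensional (ZMod 2) V]
  [DecidableEq κ]

/-- the weight of an element of the set -/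
noncomputable def wt (k : ℤ) : ℂ[X] := X ^ (-k).toNat - X ^ k.toNat

/-- the weight of an element outside -/
noncomputable def wf (k : ℤ) : ℂ[X] := X ^ k.toNat

theorem wf_eval {z : ℂ} (hz : z ≠ 0) (k : ℤ) : (wf k).eval z = z ^ (-k).toNat * z ^ k := by
  rw [wf, eval_pow, eval_X, ← zpow_natCast, ← zpow_natCast, ← zpow_add₀ hz]
  congr 1
  have := Int.toNat_sub_toNat_neg k
  omega

theorem wt_eval {z : ℂ} (hz : z ≠ 0) (k : ℤ) : (wt k).eval z = z ^ (-k).toNat * (1 - z ^ k) := by
  have h := wf_eval hz k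
  rw [wf, eval_pow, eval_X] at h
  rw [wt, eval_sub, eval_pow, eval_pow, eval_X, h]
  ring

theorem wt_root {z : ℂ} (hz : z ≠ 0) (k : ℤ) (h : z ^ k = 1) :
    ∃ U : ℂ[X], wt k = (X - C z) * U ∧ U.eval z * z = -(k : ℂ) ∧ (wf k).eval z = 1 := by
  have h0 : z ^ (-k).toNat = 1 := by
    rcases le_total 0 k with hk | hk
    · rw [Int.toNat_of_nonpos (by omega), pow_zero]
    · have : z ^ (-k).toNat = z ^ (-k) := by
        rw [← zpow_natCast, Int.toNat_of_nonneg (by omega)]
      rw [this, zpow_neg, h, inv_one]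
  have h0' : z ^ k.toNat = 1 := by
    have := wf_eval hz k
    rw [wf, eval_pow, eval_X, h0, h, one_mul] at this
    exact this
  have hroot : (wt k).IsRoot z := by
    show (wt k).eval z = 0
    rw [wt_eval hz, h, sub_self, mul_zero]
  obtain ⟨U, hU⟩ := dvd_iff_isRoot.2 hroot
  refine ⟨U, hU, ?_, ?_⟩
  · have h1 : (derivative (wt k)).eval z = U.eval z := by
      rw [hU, derivative_mul, derivative_sub, derivative_X, derivative_C, sub_zero, one_mul, eval_add, eval_mul,
        eval_sub, eval_X, eval_C, sub_self, zero_mul, add_zero]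
    rw [← h1, wt, derivative_sub, derivative_X_pow, derivative_X_pow, eval_sub, eval_mul, eval_mul, eval_pow,
      eval_pow, eval_X, eval_C, eval_C, sub_mul]
    have h2 : ∀ m : ℕ, z ^ m = 1 → (m : ℂ) * z ^ (m - 1) * z = m := by
      intro m hm
      rcases Nat.eq_zero_or_pos m with rfl | hm0
      · simp
      · rw [mul_assoc, ← pow_succ, Nat.sub_add_cancel hm0, hm, mul_one]
    rw [h2 _ h0, h2 _ h0']
    have h3 := Int.toNat_sub_toNat_neg k
    have h4 : ((k.toNat : ℤ) : ℂ) - (((-k).toNat : ℤ) : ℂ) = k := by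
      rw [← Int.cast_sub, h3]
    push_cast at h4
    rw [← h4]
    ring
  · rw [wf_eval hz, h0, h, one_mul]

open Classical in
/-- the sum over the spanning sets -/
noncomputable def spP (v : κ → V) (A : Finset κ) (k : κ → ℤ) : ℂ[X] :=
  ∑ J ∈ A.powerset.filter (fun J => sp v J = sp v A),
    (∏ g ∈ J, wt (k g)) * ∏ g ∈ A \ J, wf (k g)

omit [FiniteDimensional (ZMod 2) V] in
theorem sum_powerset_union {R : Type*} [AddCommMonoid R] {D E : Finset κ} (h : Disjoint D E)
    (f : Finset κ → R) :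
    ∑ J ∈ (D ∪ E).powerset, f J = ∑ K ∈ E.powerset, ∑ J ∈ D.powerset, f (J ∪ K) := by
  rw [← Finset.sum_product']
  refine Finset.sum_nbij' (fun J => (J ∩ E, J ∩ D)) (fun p => p.2 ∪ p.1) ?_ ?_ ?_ ?_ ?_
  · intro J hJ
    simp only [Finset.mem_product, Finset.mem_powerset]
    exact ⟨Finset.inter_subset_right, Finset.inter_subset_right⟩
  · intro p hp
    simp only [Finset.mem_product, Finset.mem_powerset] at hp
    rw [Finset.mem_powerset]
    exact Finset.union_subset_union hp.2 hp.1
  · intro J hJ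
    rw [Finset.mem_powerset] at hJ
    show J ∩ D ∪ J ∩ E = J
    rw [← Finset.inter_union_distrib_left]
    exact Finset.inter_eq_left.2 hJ
  · intro p hp
    simp only [Finset.mem_product, Finset.mem_powerset] at hp
    obtain ⟨h1, h2⟩ := hp
    ext x
    · simp only [Finset.mem_inter, Finset.mem_union]
      constructor
      · rintro ⟨h3 | h3, h4⟩
        · exact absurd h4 (Finset.disjoint_left.1 h (h2 h3))
        · exact h3
      · intro h3
        exact ⟨Or.inr h3, h1 h3⟩
    · simp only [Finset.mem_inter, Finset.mem_union]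
      constructor
      · rintro ⟨h3 | h3, h4⟩
        · exact h3
        · exact absurd (h1 h3) (Finset.disjoint_left.1 h h4)
      · intro h3
        exact ⟨Or.inl h3, h2 h3⟩
  · intro J hJ
    rw [Finset.mem_powerset] at hJ
    show f J = f (J ∩ D ∪ J ∩ E)
    rw [← Finset.inter_union_distrib_left, Finset.inter_eq_left.2 hJ]

open Classical in
/-- the inner sum -/
private noncomputable def inS (v : κ → V) (A D K : Finset κ) (k : κ → ℤ) : ℂ[X] :=
  ∑ J ∈ D.powerset, if sp v (J ∪ K) = sp v A then (∏ g ∈ J, wt (k g)) * ∏ g ∈ D \ J, wf (k g) else 0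

omit [FiniteDimensional (ZMod 2) V] in
private theorem spP_eq (v : κ → V) {D E : Finset κ} (h : Disjoint D E) (k : κ → ℤ) :
    spP v (D ∪ E) k = ∑ K ∈ E.powerset,
      ((∏ g ∈ K, wt (k g)) * ∏ g ∈ E \ K, wf (k g)) * inS v (D ∪ E) D K k := by
  classical
  rw [spP, Finset.sum_filter, sum_powerset_union h]
  refine Finset.sum_congr rfl fun K hK => ?_
  rw [inS, Finset.mul_sum]
  refine Finset.sum_congr rfl fun J hJ => ?_
  rw [Finset.mem_powerset] at hK hJ
  have hd : Disjoint J K := Finset.disjoint_of_subset_left hJ (Finset.disjoint_of_subset_right hK h)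
  have h1 : (D ∪ E) \ (J ∪ K) = (D \ J) ∪ (E \ K) := by
    ext x
    simp only [Finset.mem_sdiff, Finset.mem_union]
    constructor
    · rintro ⟨h3 | h3, h4⟩
      · exact Or.inl ⟨h3, fun h5 => h4 (Or.inl h5)⟩
      · exact Or.inr ⟨h3, fun h5 => h4 (Or.inr h5)⟩
    · rintro (⟨h3, h4⟩ | ⟨h3, h4⟩)
      · refine ⟨Or.inl h3, ?_⟩
        rintro (h5 | h5)
        · exact h4 h5
        · exact Finset.disjoint_left.1 h h3 (hK h5)
      · refine ⟨Or.inr h3, ?_⟩
        rintro (h5 | h5)
        · exact Finset.disjoint_left.1 h (hJ h5) h3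
        · exact h4 h5
  have hd2 : Disjoint (D \ J) (E \ K) :=
    Finset.disjoint_of_subset_left Finset.sdiff_subset
      (Finset.disjoint_of_subset_right Finset.sdiff_subset h)
  split_ifs with h2
  · rw [Finset.prod_union hd, h1, Finset.prod_union hd2]
    ring
  · rw [mul_zero]

/-- the inner sum at the root of unity -/
private theorem inS_eval (v : κ → V) (A D K : Finset κ) (k : κ → ℤ) {z : ℂ} (hz : z ≠ 0)
    (hD : ∀ g ∈ D, z ^ k g = -1)
    (hK : Module.finrank (ZMod 2) (sp v A) = Module.finrank (ZMod 2) (sp v D) + K.card) :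
    (inS v A D K k).eval z =
      if sp v D ⊔ sp v K = sp v A then
        (∏ g ∈ D, z ^ (-k g).toNat) * (-1) ^ D.card * (fU v (sp v D) ⊥ D : ℂ) else 0 := by
  classical
  have h1 : ∀ J ⊆ D, (sp v (J ∪ K) = sp v A ↔ sp v D ⊔ sp v K = sp v A ∧ sp v J = sp v D) := by
    intro J hJ
    rw [sp_union]
    constructor
    · intro h
      obtain ⟨h2, h3, h4⟩ := dim_le v hJ K h
      have h5 : sp v J = sp v D := h4 (by omega)
      exact ⟨by rw [← h5, h], h5⟩
    · rintro ⟨h2, h3⟩
      rw [h3, h2]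
  rw [inS, eval_finsetSum]
  by_cases hs : sp v D ⊔ sp v K = sp v A
  · rw [if_pos hs, fU, Finset.sum_filter]
    push_cast
    rw [Finset.mul_sum]
    refine Finset.sum_congr rfl fun J hJ => ?_
    rw [Finset.mem_powerset] at hJ
    have h2 := h1 J hJ
    by_cases h3 : sp v J = sp v D
    · rw [if_pos (h2.2 ⟨hs, h3⟩), if_pos (by rw [bot_sup_eq]; exact h3)]
      rw [eval_mul, eval_prod, eval_prod]
      have h4 : ∏ g ∈ J, (wt (k g)).eval z = ∏ g ∈ J, (z ^ (-k g).toNat * 2) :=
        Finset.prod_congr rfl fun g hg => by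
          rw [wt_eval hz, hD g (hJ hg)]
          norm_num
      have h5 : ∏ g ∈ D \ J, (wf (k g)).eval z = ∏ g ∈ D \ J, (z ^ (-k g).toNat * (-1)) :=
        Finset.prod_congr rfl fun g hg => by
          rw [wf_eval hz, hD g (Finset.mem_sdiff.1 hg).1]
      rw [h4, h5, Finset.prod_mul_distrib, Finset.prod_mul_distrib, Finset.prod_const,
        Finset.prod_const, ← Finset.prod_sdiff hJ]
      have h6 : (-1 : ℂ) ^ (D \ J).card = (-1) ^ D.card * (-1) ^ J.card := by
        have h7 : D.card = (D \ J).card + J.card := (Finset.card_sdiff_add_card_eq_card hJ).symm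
        rw [h7, pow_add, mul_assoc, ← pow_add, ← two_mul, pow_mul]
        norm_num
      have h7 : (-2 : ℂ) ^ J.card = (-1) ^ J.card * 2 ^ J.card := by
        rw [← mul_pow]
        norm_num
      rw [h6, h7]
      ring
    · rw [if_neg (fun h => h3 (h2.1 h).2), if_neg (by rw [bot_sup_eq]; exact h3), eval_zero]
      simp
  · rw [if_neg hs]
    refine Finset.sum_eq_zero fun J hJ => ?_
    rw [if_neg (fun h => hs ((h1 J (Finset.mem_powerset.1 hJ)).1 h).1), eval_zero]

/-- too few elements -/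
private theorem inS_zero (v : κ → V) (A D K : Finset κ) (k : κ → ℤ)
    (hK : Module.finrank (ZMod 2) (sp v D) + K.card < Module.finrank (ZMod 2) (sp v A)) :
    inS v A D K k = 0 := by
  classical
  refine Finset.sum_eq_zero fun J hJ => ?_
  rw [if_neg]
  intro h
  rw [sp_union] at h
  obtain ⟨h2, h3, -⟩ := dim_le v (Finset.mem_powerset.1 hJ) K h
  omega

open Classical in
/-- the polynomial is not zero -/
theorem spP_ne (v : κ → V) (A : Finset κ) (h1 : ∀ g ∈ A, v g ≠ 0)
    (h2 : ∀ g ∈ A, ∀ h ∈ A, g ≠ h → v g ≠ v h) (u : ℕ) (k c : κ → ℤ)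
    (hk : ∀ g ∈ A, k g = 2 ^ u * c g) (e : ℤ) (he : ∀ g ∈ A, Even (c g) → 0 < e * c g) :
    spP v A k ≠ 0 := by
  intro hP
  -- the root of unity
  set z : ℂ := Complex.exp (Real.pi * Complex.I / 2 ^ u) with hz
  have hz0 : z ≠ 0 := Complex.exp_ne_zero _
  have hz1 : z ^ ((2 : ℤ) ^ u) = -1 := by
    have h3 : ((2 : ℤ) ^ u) = ((2 ^ u : ℕ) : ℤ) := by push_cast; rfl
    rw [h3, zpow_natCast, hz, ← Complex.exp_nat_mul]
    have : ((2 ^ u : ℕ) : ℂ) * (Real.pi * Complex.I / 2 ^ u) = Real.pi * Complex.I := by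
      push_cast
      field_simp
    rw [this, Complex.exp_pi_mul_I]
  set D := A.filter fun g => ¬ Even (c g) with hD
  set E := A.filter fun g => Even (c g) with hE
  have hdis : Disjoint D E := by
    rw [hD, hE]
    exact (Finset.disjoint_filter_filter_not A A _).symm
  have hun : D ∪ E = A := by
    rw [hD, hE, Finset.union_comm]
    exact Finset.filter_union_filter_not_eq _ A
  have hzD : ∀ g ∈ D, z ^ k g = -1 := by
    intro g hg
    rw [hD, Finset.mem_filter] at hg
    rw [hk g hg.1, zpow_mul, hz1]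
    exact Odd.neg_one_zpow (Int.not_even_iff_odd.1 hg.2)
  have hzE : ∀ g ∈ E, z ^ k g = 1 := by
    intro g hg
    rw [hE, Finset.mem_filter] at hg
    rw [hk g hg.1, zpow_mul, hz1]
    exact Even.neg_one_zpow hg.2
  choose! U hU1 hU2 hU3 using fun (g : κ) (hg : g ∈ E) => wt_root hz0 (k g) (hzE g hg)
  -- the codimension
  obtain ⟨J₀, hJ₀, hJ₁, hJ₂⟩ := exists_basis_mod v (sp v D) E
  rw [← sp_union v D E, hun] at hJ₁ hJ₂
  set m := J₀.card with hm
  -- division by the power of `X - z`
  have hfac : ∀ K ∈ E.powerset, ((∏ g ∈ K, wt (k g)) * ∏ g ∈ E \ K, wf (k g)) * inS v A D K k =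
      (X - C z) ^ m * (if K.card < m then 0 else (X - C z) ^ (K.card - m) *
        (((∏ g ∈ K, U g) * ∏ g ∈ E \ K, wf (k g)) * inS v A D K k)) := by
    intro K hK
    rw [Finset.mem_powerset] at hK
    split_ifs with hc
    · rw [inS_zero v A D K k (by omega)]
      simp
    · have h3 : ∏ g ∈ K, wt (k g) = (X - C z) ^ K.card * ∏ g ∈ K, U g := by
        rw [← Finset.prod_const, ← Finset.prod_mul_distrib]
        exact Finset.prod_congr rfl fun g hg => hU1 g (hK hg)
      have h4 : (X - C z) ^ K.card = (X - C z) ^ m * (X - C z) ^ (K.card - m) := by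
        rw [← pow_add]
        congr 1
        omega
      rw [h3, h4]
      ring
  rw [← hun, spP_eq v hdis, hun, Finset.sum_congr rfl hfac, ← Finset.mul_sum, mul_eq_zero] at hP
  have hP2 := hP.resolve_left (pow_ne_zero _ (X_sub_C_ne_zero z))
  have hP3 := congrArg (Polynomial.eval z) hP2
  rw [eval_zero, eval_finsetSum] at hP3
  -- the terms
  have hterm : ∀ K ∈ E.powerset, z ^ m * (if K.card < m then (0 : ℂ[X]) else (X - C z) ^ (K.card - m) *
        (((∏ g ∈ K, U g) * ∏ g ∈ E \ K, wf (k g)) * inS v A D K k)).eval z =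
      ((∏ g ∈ D, z ^ (-k g).toNat) * (-1) ^ D.card * (fU v (sp v D) ⊥ D : ℂ)) *
        (((if K.card = m ∧ sp v D ⊔ sp v K = sp v A then ∏ g ∈ K, (-k g) else 0 : ℤ)) : ℂ) := by
    intro K hK
    rw [Finset.mem_powerset] at hK
    rcases lt_trichotomy K.card m with hc | hc | hc
    · rw [if_pos hc, if_neg (by omega), eval_zero]
      simp
    · rw [if_neg (by omega), eval_mul, hc, Nat.sub_self, pow_zero, eval_one, one_mul, eval_mul, eval_mul,
        eval_prod, eval_prod, inS_eval v A D K k hz0 hzD (by rw [hc]; exact hJ₂)]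
      have h3 : ∏ g ∈ E \ K, (wf (k g)).eval z = 1 :=
        Finset.prod_eq_one fun g hg => hU3 g (Finset.mem_sdiff.1 hg).1
      have h4 : z ^ m * ∏ g ∈ K, (U g).eval z = ∏ g ∈ K, (-(k g : ℂ)) := by
        rw [← hc, ← Finset.prod_const, ← Finset.prod_mul_distrib]
        refine Finset.prod_congr rfl fun g hg => ?_
        rw [mul_comm]
        exact hU2 g (hK hg)
      rw [h3, mul_one]
      by_cases hs : sp v D ⊔ sp v K = sp v A
      · rw [if_pos hs, if_pos ⟨rfl, hs⟩, ← mul_assoc, h4]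
        push_cast
        ring
      · rw [if_neg hs, if_neg (fun h => hs h.2)]
        simp
    · rw [if_neg (by omega), if_neg (by omega), eval_mul, eval_pow, eval_sub, eval_X, eval_C, sub_self,
        zero_pow (by omega)]
      simp
  have hP4 := congrArg (fun t => z ^ m * t) hP3
  simp only [mul_zero] at hP4
  rw [Finset.mul_sum, Finset.sum_congr rfl hterm, ← Finset.mul_sum, ← Int.cast_sum, mul_eq_zero] at hP4
  have hne : (∏ g ∈ D, z ^ (-k g).toNat) * (-1) ^ D.card * (fU v (sp v D) ⊥ D : ℂ) ≠ 0 := by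
    refine mul_ne_zero (mul_ne_zero ?_ (pow_ne_zero _ (by norm_num))) ?_
    · rw [Finset.prod_ne_zero_iff]
      exact fun g _ => pow_ne_zero _ hz0
    · rw [Int.cast_ne_zero]
      have hDA : ∀ g ∈ D, g ∈ A := fun g hg => (Finset.mem_filter.1 hg).1
      have h3 := span_ne v D (fun g hg => h1 g (hDA g hg))
        (fun g hg h hh hgh => h2 g (hDA g hg) h (hDA h hh) hgh)
      rw [fU]
      simp only [bot_sup_eq]
      exact h3
  have hS := Int.cast_eq_zero.1 (hP4.resolve_left hne)
  -- all terms have the same sign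
  have hpos : 0 < ∑ K ∈ E.powerset, (-e) ^ m *
      (if K.card = m ∧ sp v D ⊔ sp v K = sp v A then ∏ g ∈ K, (-k g) else 0 : ℤ) := by
    have h5 : ∀ K ∈ E.powerset, 0 ≤ (-e) ^ m *
        (if K.card = m ∧ sp v D ⊔ sp v K = sp v A then ∏ g ∈ K, (-k g) else 0 : ℤ) ∧
        (K.card = m ∧ sp v D ⊔ sp v K = sp v A → 0 < (-e) ^ m *
        (if K.card = m ∧ sp v D ⊔ sp v K = sp v A then ∏ g ∈ K, (-k g) else 0 : ℤ)) := by
      intro K hK
      rw [Finset.mem_powerset] at hK
      have h6 : K.card = m → 0 < (-e) ^ m * ∏ g ∈ K, (-k g) := by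
        intro hc
        rw [← hc, ← Finset.prod_const, ← Finset.prod_mul_distrib]
        refine Finset.prod_pos fun g hg => ?_
        have h7 := hK hg
        rw [hE, Finset.mem_filter] at h7
        have h8 := he g h7.1 h7.2
        rw [hk g h7.1]
        have h9 : (0 : ℤ) < 2 ^ u := by positivity
        nlinarith
      split_ifs with hc
      · exact ⟨(h6 hc.1).le, fun _ => h6 hc.1⟩
      · exact ⟨by rw [mul_zero], fun h => absurd h hc⟩
    refine Finset.sum_pos' (fun K hK => (h5 K hK).1) ⟨J₀, Finset.mem_powerset.2 hJ₀, ?_⟩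
    exact (h5 J₀ (Finset.mem_powerset.2 hJ₀)).2 ⟨rfl, hJ₁⟩
  rw [← Finset.mul_sum, hS, mul_zero] at hpos
  exact lt_irrefl 0 hpos

end Pool.Agent.EVT
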