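import Pool.Agent.EVT.VB
import Pool.Agent.EVT.FIN

/-!
# EVT module VC: numbers of non-minimal valuation of one sign

On each side `s` all numbers are `k i = 2 ^ u s * c i`, and the numbers with `c i` even have the same sign.
-/

namespace Pool.Agent.EVT

open Finset
open Pool.Agent.Helper9.Kashaev (Piece Diagram)
open Pool.Agent.Helper9.FA (Item twists labels wfP)
open Pool.Agent.Helper77.ST (IsKnot tw IsVassiliev poly_of_diff tw_diff exists_finite_eqs)
open Pool.Agent.Helper77.CR (Red)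

variable {n : ℕ}

private theorem spn_vc (M : Matrix (Fin n) (Fin n) (ZMod 2)) (sd : Fin n → Bool) (s : Bool)
    (J : Finset (Fin n)) (hJ : J ⊆ Vs sd s) :
    Spn M sd s (ind J) ↔ sp (fun i => M i) J = sp (fun i => M i) (Vs sd s) := by
  have e1 : {x | ∃ i, ind J i = true ∧ sd i = s ∧ x = M i} = (fun i => M i) '' (J : Set (Fin n)) := by
    ext x
    constructor
    · rintro ⟨i, h1, -, rfl⟩
      exact ⟨i, by simpa [ind] using h1, rfl⟩
    · rintro ⟨i, h1, rfl⟩
      have h2 : sd i = s := by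
        have := hJ (Finset.mem_coe.1 h1)
        simpa [Vs] using this
      exact ⟨i, by simpa [ind] using h1, h2, rfl⟩
  have e2 : {x | ∃ i, sd i = s ∧ x = M i} = (fun i => M i) '' (Vs sd s : Set (Fin n)) := by
    ext x
    constructor
    · rintro ⟨i, h1, rfl⟩
      exact ⟨i, by simpa [Vs] using h1, rfl⟩
    · rintro ⟨i, h1, rfl⟩
      exact ⟨i, by simpa [Vs] using h1, rfl⟩
  unfold Spn sp
  rw [e1, e2]

/-- the weights as polynomials -/
private noncomputable def Wv (k : Fin n → ℤ) (i : Fin n) (b : Bool) : Polynomial ℂ :=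
  if b = true then wt (k i) else wf (k i)

private theorem spS_eq (M : Matrix (Fin n) (Fin n) (ZMod 2)) (sd : Fin n → Bool) (s : Bool)
    (k : Fin n → ℤ) : spS M sd s (Wv k) = spP (fun i => M i) (Vs sd s) k := by
  classical
  rw [spS, spP]
  apply Finset.sum_congr
  · apply Finset.filter_congr
    intro J hJ
    exact spn_vc M sd s J (Finset.mem_powerset.1 hJ)
  · intro J _
    simp [Wv]

private theorem eval_vc (M : Matrix (Fin n) (Fin n) (ZMod 2)) (sd : Fin n → Bool) (s : Bool)
    (k : Fin n → ℤ) (z : ℂ) (hz : z ≠ 0) (w : Fin n → Bool → ℂ)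
    (h1 : ∀ i, sd i = s → w i true = 1 - z ^ k i) (h2 : ∀ i, sd i = s → w i false = z ^ k i) :
    (spS M sd s (Wv k)).eval z = (∏ i ∈ Vs sd s, z ^ (-k i).toNat) * spS M sd s w := by
  have e1 : (spS M sd s (Wv k)).eval z = Polynomial.evalRingHom z (spS M sd s (Wv k)) := rfl
  rw [e1, spS_map, ← spS_mul]
  refine spS_congr M sd s fun i hi b => ?_
  rw [Polynomial.coe_evalRingHom]
  cases b
  · rw [h2 i hi]
    exact wf_eval hz (k i)
  · rw [h1 i hi]
    exact wt_eval hz (k i)

/-- no two such sums have product zero for all `x > 1` -/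
theorem no_zero2 (M : Matrix (Fin n) (Fin n) (ZMod 2)) (sd : Fin n → Bool)
    (hM : ∀ i, M i ≠ 0) (hM' : ∀ i j, i ≠ j → M i ≠ M j)
    (u : Bool → ℕ) (e : Bool → ℤ) (k c : Fin n → ℤ) (hk : ∀ i, k i = 2 ^ u (sd i) * c i)
    (he : ∀ i, Even (c i) → 0 < e (sd i) * c i)
    (h : ∀ x : ℝ, 1 < x →
      spS M sd true (fun i b => if b = true then 1 - x ^ k i else x ^ k i) *
        spS M sd false (fun i b => if b = true then 1 - x ^ k i else x ^ k i) = 0) : False := by
  have hev : ∀ (s : Bool) (x : ℝ), 1 < x → (spS M sd s (Wv k)).eval (x : ℂ) =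
      (∏ i ∈ Vs sd s, (x : ℂ) ^ (-k i).toNat) *
        ((spS M sd s (fun i b => if b = true then 1 - x ^ k i else x ^ k i) : ℝ) : ℂ) := by
    intro s x hx
    have hx0 : (x : ℂ) ≠ 0 := by
      rw [Ne, Complex.ofReal_eq_zero]
      linarith
    have e1 : ((spS M sd s (fun i b => if b = true then 1 - x ^ k i else x ^ k i) : ℝ) : ℂ) =
        spS M sd s (fun i b => ((if b = true then 1 - x ^ k i else x ^ k i : ℝ) : ℂ)) :=
      spS_map Complex.ofRealHom M sd s _
    rw [e1]
    refine eval_vc M sd s k x hx0 _ (fun i _ => ?_) (fun i _ => ?_)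
    · rw [if_pos rfl]
      push_cast
      rfl
    · rw [if_neg (by decide)]
      push_cast
      rfl
  have hprod : spS M sd true (Wv k) * spS M sd false (Wv k) = 0 := by
    apply Polynomial.eq_zero_of_infinite_isRoot
    refine Set.Infinite.mono (s := (fun x : ℝ => (x : ℂ)) '' Set.Ioi 1) ?_ ?_
    · rintro _ ⟨x, hx, rfl⟩
      show ((spS M sd true (Wv k) * spS M sd false (Wv k))).eval (x : ℂ) = 0
      rw [Polynomial.eval_mul, hev true x hx, hev false x hx]
      have h3 := h x hx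
      have h4 : ((spS M sd true (fun i b => if b = true then 1 - x ^ k i else x ^ k i) : ℝ) : ℂ) *
          ((spS M sd false (fun i b => if b = true then 1 - x ^ k i else x ^ k i) : ℝ) : ℂ) = 0 := by
        rw [← Complex.ofReal_mul, h3, Complex.ofReal_zero]
      rw [mul_mul_mul_comm, h4, mul_zero]
    · exact (Set.Ioi_infinite (1 : ℝ)).image (Complex.ofReal_injective.injOn)
  have hne : ∀ s, spS M sd s (Wv k) ≠ 0 := by
    intro s
    rw [spS_eq]
    refine spP_ne _ (Vs sd s) (fun i _ => hM i) (fun i _ j _ hij => hM' i j hij) (u s) k c ?_ (e s) ?_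
    · intro i hi
      have h3 : sd i = s := by simpa [Vs] using hi
      rw [hk i, h3]
    · intro i hi hi'
      have h3 : sd i = s := by simpa [Vs] using hi
      rw [← h3]
      exact he i hi'
  exact mul_ne_zero (hne true) (hne false) hprod

theorem exists_VI2 (S : List (Item Unit)) (hS : wfP 1 S 1) (hR : Red S) {n : ℕ} (h0 : 0 < n)
    (hn : (sides S).length = n) (u : Bool → ℕ) (e : Bool → ℤ) (k c : Fin n → ℤ)
    (hk0 : ∀ i, k i ≠ 0)
    (hk : ∀ i, k i = 2 ^ u (sdf S hn i) * c i)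
    (he : ∀ i, Even (c i) → 0 < e (sdf S hn i) * c i)
    (hK : IsKnot (tw S (dbl2 (List.ofFn k)))) :
    ∃ N j : ℕ, VI (N + 1) j (tw S (dbl2 (List.ofFn k))) ≠ VI (N + 1) j [] := by
  classical
  by_contra hcon
  push Not at hcon
  have hS' := wfS_of hS
  have hk1 : ∀ x ∈ List.ofFn k, x ≠ 0 := by
    intro x hx
    obtain ⟨i, rfl⟩ := List.mem_ofFn.mp hx
    exact hk0 i
  have hA : ArcP 1 [0] S := arc_tw S (List.ofFn k) 1 [0] (by simp [hn]) hk1 hK
  obtain ⟨M, h1, h2, h3, h4⟩ := exists_matrix S hS' hA n hn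
  have h2' : ∀ i j, sdf S hn i = sdf S hn j → M i j = 0 := h2
  have hpos : 0 < rkI M (sdf S hn) (fun _ => true) := by
    have h5 := row_ne hR hn M h1 h3 ⟨0, h0⟩
    obtain ⟨j, hj⟩ : ∃ j, M ⟨0, h0⟩ j ≠ 0 := by
      by_contra hc
      push Not at hc
      exact h5 (funext hc)
    exact rk_pos M _ h1 h2' hj
  refine no_zero2 M (sdf S hn) (fun i => row_ne hR hn M h1 h3 i)
    (fun i j hij => row_inj hR hn M h1 h3 i j hij) u e k c hk he ?_
  intro x hx
  obtain ⟨q, hq1, hq2, hq3⟩ := exists_q x hx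
  have h6 := top_coeff (fun I : Fin n → Bool => rkI M (sdf S hn) I) _ hpos
    (fun I => ∏ i, if I i = true then (1 : ℝ) - x ^ k i else x ^ k i) _ hq3 (by
      intro N
      have h7 := state_eq S hS' hn k hK M h1 h2' h4 (N + 1) (q N) (hq2 N).ne'
      rw [val_real_eq (N + 1) (hcon N) (q N), val_nil] at h7
      refine Eq.trans ?_ h7.symm
      refine Finset.sum_congr rfl fun I _ => ?_
      congr 1
      refine Finset.prod_congr rfl fun i _ => ?_
      rw [hq1 N (k i)])
  rw [← sum_split]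
  rw [← h6]
  refine Finset.sum_congr ?_ fun I _ => rfl
  ext I
  simp only [Finset.mem_filter, Finset.mem_univ, true_and]
  exact (rk_iff M _ h1 h2' I).symm

/-- knots with even numbers of crossings in all twist regions -/
theorem main2 (S : List (Item Unit)) (hS : wfP 1 S 1) (hR : Red S) (hne : labels S ≠ []) :
    ∃ d : ℕ, ∀ a : List ℤ, a.length = (labels S).length → (∀ x ∈ a, Even x ∧ x ≠ 0) →
      (∃ (u : Bool → ℕ) (e : Bool → ℤ), ∀ z ∈ (sides S).zip a, ∃ c : ℤ,
        z.2 = 2 ^ u z.1 * c ∧ (Even c → 0 < e z.1 * c)) →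
      IsKnot (tw S a) → ∃ I, IsVassiliev d I ∧ I (tw S a) ≠ I [] := by
  set n := (labels S).length with hn
  have hn' : (sides S).length = n := sides_len S
  have h0 : 0 < n := List.length_pos_iff.mpr hne
  choose p hp using fun x : ℕ × ℕ => vi_poly (x.1 + 1) x.2 S hS
  obtain ⟨F, hF⟩ := exists_finite_eqs (fun x : ℕ × ℕ =>
    p x - MvPolynomial.C (VI (x.1 + 1) x.2 []))
  refine ⟨F.sup Prod.snd, fun a hal hev hV hK => ?_⟩
  -- the numbers of full twists
  have hi1 : ∀ i : Fin n, (i : ℕ) < a.length := fun i => by rw [hal]; exact i.2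
  have hi2 : ∀ i : Fin n, (i : ℕ) < (sides S).length := fun i => by rw [hn']; exact i.2
  set k : Fin n → ℤ := fun i => (a[(i : ℕ)]'(hi1 i)) / 2 with hk
  have hak : ∀ i : Fin n, a[(i : ℕ)]'(hi1 i) = 2 * k i := by
    intro i
    have h3 := (hev _ (List.getElem_mem (hi1 i))).1
    simp only [hk]
    rw [Int.mul_ediv_cancel' h3.two_dvd]
  have hk0 : ∀ i, k i ≠ 0 := by
    intro i h3
    apply (hev _ (List.getElem_mem (hi1 i))).2
    rw [hak, h3, mul_zero]
  have ha : a = dbl2 (List.ofFn k) := by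
    apply List.ext_getElem
    · simp [dbl2, hal]
    · intro i h2 h3
      have h4 : i < n := by rw [← hal]; exact h2
      have h5 := hak ⟨i, h4⟩
      simp only [dbl2, List.getElem_map, List.getElem_ofFn]
      exact h5
  have hmem : ∀ i : Fin n, (sdf S hn' i, 2 * k i) ∈ (sides S).zip a := by
    intro i
    rw [← hak i, List.mem_iff_getElem]
    refine ⟨i, ?_, ?_⟩
    · rw [List.length_zip]
      exact lt_min (hi2 i) (hi1 i)
    · rw [List.getElem_zip]
      rfl
  have key : ∃ N j : ℕ, VI (N + 1) j (tw S (dbl2 (List.ofFn k))) ≠ VI (N + 1) j [] := by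
    have hK' : IsKnot (tw S (dbl2 (List.ofFn k))) := by rw [← ha]; exact hK
    obtain ⟨u, e, hu⟩ := hV
    choose c hc1 hc2 using fun i : Fin n => hu _ (hmem i)
    simp only at hc1 hc2
    have h4 : ∀ i, ∃ c' : ℤ, k i = 2 ^ (u (sdf S hn' i) - 1) * c' ∧
        (Even c' → 0 < e (sdf S hn' i) * c') := by
      intro i
      rcases Nat.eq_zero_or_pos (u (sdf S hn' i)) with h5 | h5
      · have h6 := hc1 i
        rw [h5, pow_zero, one_mul] at h6
        refine ⟨k i, by rw [h5]; simp, fun _ => ?_⟩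
        have h7 := hc2 i (by rw [← h6]; exact even_two_mul _)
        rw [← h6] at h7
        linarith
      · refine ⟨c i, ?_, hc2 i⟩
        have h6 : (2 : ℤ) ^ u (sdf S hn' i) = 2 * 2 ^ (u (sdf S hn' i) - 1) := by
          rw [← pow_succ']
          congr 1
          omega
        have h7 := hc1 i
        rw [h6, mul_assoc] at h7
        exact mul_left_cancel₀ two_ne_zero h7
    choose c' hc3 hc4 using h4
    exact exists_VI2 S hS hR h0 hn' (fun s => u s - 1) e k c' hk0 hc3 hc4 hK'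
  by_contra hcon
  push Not at hcon
  rw [ha] at hcon
  obtain ⟨N, j, hNj⟩ := key
  apply hNj
  have h2 := hF (fun i => (k i : ℚ)) (by
    intro x hx
    rw [map_sub, MvPolynomial.eval_C, ← hp, sub_eq_zero]
    exact hcon _ (mono (vi_vassiliev (x.1 + 1) x.2) (Finset.le_sup (f := Prod.snd) hx))) (N, j)
  rw [map_sub, MvPolynomial.eval_C, ← hp, sub_eq_zero] at h2
  exact h2

end Pool.Agent.EVT
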