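import Pool.Agent.EVT.Defs

/-!
# EVT module WA: the matrices of crossings of strands which go up

`pB`, `nB` are the braiding of the vector representation of quantum `gl(N)` and its inverse, times
`q ^ (-N)` and `q ^ N`.
* `zp_add`, `zp_neg_mul`, `zp_zero`: powers of a unit.
* `xB_cons`: if an entry is non-zero then `{i, j} = {k, l}` (unfold the definitions).
* `pB_mul_nB`, `nB_mul_pB`: write the operator `f ↦ ∑ k, ∑ l, pB q i j k l * f k l`: it is
  `zp q (1 - N) * f i i` if `i = j`, else `zp q (-N) * (f j i + if i < j then z * f i j)`; similarly for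
  `nB`.  Compose, cases `i = j`, `i < j`, `j < i`.  (For the matrix entries take
  `f k l = pB q k l c d`.)
* `r3B`: the same for functions `f` of three variables: both sides are explicit after the cases
  `t₁ < t₂`, `t₁ = t₂`, `t₁ > t₂`, `t₂ ? t₃`, `t₁ ? t₃` (13 cases; `z = q - q⁻¹`, `zz q * zp q 1`
  `= zp q 2 - 1` in the cases with two equal labels; `ring`).  Take for `f` the indicator function
  of `(s₁, s₂, s₃)`.
-/

namespace Pool.Agent.EVT

open Finset

variable {A : Type*} [CommRing A]

theorem zp_add (q : Aˣ) (x y : ℤ) : zp q (x + y) = zp q x * zp q y := by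
  unfold zp
  rw [zpow_add, Units.val_mul]

theorem zp_zero (q : Aˣ) : zp q 0 = 1 := by
  unfold zp
  rw [zpow_zero, Units.val_one]

theorem zp_neg_mul (q : Aˣ) (x : ℤ) : zp q (-x) * zp q x = 1 := by
  rw [← zp_add, neg_add_cancel, zp_zero]

theorem zz_mul (q : Aˣ) (x : ℤ) : zz q * zp q x = zp q (x + 1) - zp q (x - 1) := by
  unfold zz
  rw [sub_mul, ← zp_add, ← zp_add]
  congr 2 <;> ring

theorem kap_mul_kapi {N : ℕ} (q : Aˣ) (i : Fin N) : kap q i * kapi q i = 1 := by
  unfold kap kapi
  rw [← zp_add, show (2 * (i : ℤ) + 1 - N) + (N - 1 - 2 * (i : ℤ)) = 0 by ring, zp_zero]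

theorem xB_cons {N : ℕ} (q : Aˣ) (s : Bool) (i j k l : Fin N) (h : xB q s i j k l ≠ 0) :
    (k = i ∧ l = j) ∨ (k = j ∧ l = i) := by
  by_contra hcon
  push Not at hcon
  apply h
  obtain ⟨h1, h2⟩ := hcon
  cases s
  · simp only [xB, Bool.false_eq_true, if_false, nB]
    by_cases hij : i = j
    · subst hij
      rw [if_pos rfl, if_neg (fun hh => h1 hh.1 hh.2)]
    · rw [if_neg hij, if_neg (fun hh => h2 hh.1 hh.2), if_neg (fun hh => h1 hh.2.1 hh.2.2)]
      simp
  · simp only [xB, if_true, pB]
    by_cases hij : i = j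
    · subst hij
      rw [if_pos rfl, if_neg (fun hh => h1 hh.1 hh.2)]
    · rw [if_neg hij, if_neg (fun hh => h2 hh.1 hh.2), if_neg (fun hh => h1 hh.2.1 hh.2.2)]
      simp

theorem xB_kap {N : ℕ} (q : Aˣ) (s : Bool) (i j k l : Fin N) :
    kap q i * kap q j * xB q s i j k l = kap q k * kap q l * xB q s i j k l := by
  by_cases h : xB q s i j k l = 0
  · rw [h, mul_zero, mul_zero]
  · rcases xB_cons q s i j k l h with ⟨h1, h2⟩ | ⟨h1, h2⟩
    · rw [h1, h2]
    · rw [h1, h2, mul_comm (kap q j)]

/-- the operator of `pB` -/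
theorem sum_pB {N : ℕ} (q : Aˣ) (i j : Fin N) (f : Fin N → Fin N → A) :
    ∑ k, ∑ l, pB q i j k l * f k l =
      if i = j then zp q (1 - N) * f i i
      else zp q (-N) * (f j i + if i < j then zz q * f i j else 0) := by
  unfold pB
  by_cases hij : i = j
  · subst hij
    simp only [if_true, ite_and, ite_mul, zero_mul, Finset.sum_ite_eq', Finset.mem_univ,
      Finset.sum_ite_irrel, Finset.sum_const_zero]
  · simp only [if_neg hij, ite_and, mul_add, mul_ite, mul_one, mul_zero, add_mul, ite_mul, zero_mul,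
      Finset.sum_add_distrib, Finset.sum_ite_eq', Finset.mem_univ, Finset.sum_ite_irrel,
      Finset.sum_const_zero, if_true]
    split_ifs <;> ring

/-- the operator of `nB` -/
theorem sum_nB {N : ℕ} (q : Aˣ) (i j : Fin N) (f : Fin N → Fin N → A) :
    ∑ k, ∑ l, nB q i j k l * f k l =
      if i = j then zp q (N - 1) * f i i
      else zp q N * (f j i - if j < i then zz q * f i j else 0) := by
  unfold nB
  by_cases hij : i = j
  · subst hij
    simp only [if_true, ite_and, ite_mul, zero_mul, Finset.sum_ite_eq', Finset.mem_univ,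
      Finset.sum_ite_irrel, Finset.sum_const_zero]
  · simp only [if_neg hij, ite_and, mul_sub, mul_ite, mul_one, mul_zero, sub_mul, ite_mul, zero_mul,
      Finset.sum_sub_distrib, Finset.sum_ite_eq', Finset.mem_univ, Finset.sum_ite_irrel,
      Finset.sum_const_zero, if_true]
    split_ifs <;> ring

theorem nB_mul_pB {N : ℕ} (q : Aˣ) (i j k l : Fin N) :
    ∑ x, ∑ y, nB q i j x y * pB q x y k l = if i = k ∧ j = l then 1 else 0 := by
  rw [sum_nB q i j (fun x y => pB q x y k l)]
  have hR : (i = k ∧ j = l) ↔ (k = i ∧ l = j) := by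
    constructor <;> rintro ⟨h1, h2⟩ <;> exact ⟨h1.symm, h2.symm⟩
  simp only [hR]
  have e1 : zp q (N - 1) * zp q (1 - N) = 1 := by
    rw [← zp_add, show ((N : ℤ) - 1) + (1 - N) = 0 by ring, zp_zero]
  have e2 : zp q (N : ℤ) * zp q (-(N : ℤ)) = 1 := by
    rw [mul_comm, zp_neg_mul]
  rcases lt_trichotomy i j with hij | hij | hij
  · simp only [hij.ne, hij.ne', hij.not_gt, pB, if_false, false_and, add_zero, sub_zero]
    by_cases h : k = i ∧ l = j
    · rw [if_pos h]
      linear_combination e2
    · rw [if_neg h]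
      ring
  · subst hij
    simp only [if_true, pB]
    by_cases h : k = i ∧ l = i
    · rw [if_pos h, if_pos h, e1]
    · rw [if_neg h, if_neg h, mul_zero]
  · simp only [hij.ne, hij.ne', hij.not_gt, hij, pB, if_false, if_true, true_and, false_and,
      add_zero]
    by_cases h : k = i ∧ l = j
    · have h' : ¬ (k = j ∧ l = i) := fun hh => hij.ne (hh.1.symm.trans h.1)
      simp only [if_pos h, if_neg h']
      linear_combination e2
    · rw [if_neg h]
      split_ifs <;> ring

theorem pB_mul_nB {N : ℕ} (q : Aˣ) (i j k l : Fin N) :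
    ∑ x, ∑ y, pB q i j x y * nB q x y k l = if i = k ∧ j = l then 1 else 0 := by
  rw [sum_pB q i j (fun x y => nB q x y k l)]
  have hR : (i = k ∧ j = l) ↔ (k = i ∧ l = j) := by
    constructor <;> rintro ⟨h1, h2⟩ <;> exact ⟨h1.symm, h2.symm⟩
  simp only [hR]
  have e1 : zp q (N - 1) * zp q (1 - N) = 1 := by
    rw [← zp_add, show ((N : ℤ) - 1) + (1 - N) = 0 by ring, zp_zero]
  have e2 : zp q (N : ℤ) * zp q (-(N : ℤ)) = 1 := by
    rw [mul_comm, zp_neg_mul]
  rcases lt_trichotomy i j with hij | hij | hij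
  · simp only [hij.ne, hij.ne', hij.not_gt, hij, nB, if_false, if_true, true_and, false_and,
      sub_zero]
    by_cases h : k = i ∧ l = j
    · have h' : ¬ (k = j ∧ l = i) := fun hh => hij.ne (h.1.symm.trans hh.1)
      simp only [if_pos h, if_neg h']
      linear_combination e2
    · rw [if_neg h]
      split_ifs <;> ring
  · subst hij
    simp only [if_true, nB]
    by_cases h : k = i ∧ l = i
    · rw [if_pos h, if_pos h, mul_comm, e1]
    · rw [if_neg h, if_neg h, mul_zero]
  · simp only [hij.ne, hij.ne', hij.not_gt, nB, if_false, false_and, add_zero, sub_zero]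
    by_cases h : k = i ∧ l = j
    · rw [if_pos h]
      linear_combination e2
    · rw [if_neg h]
      ring

/-- the operator of `pB` at the first two variables -/
def opL {N : ℕ} (q : Aˣ) (f : Fin N → Fin N → Fin N → A) (a b c : Fin N) : A :=
  if a = b then zp q (1 - N) * f a a c
  else zp q (-N) * (f b a c + if a < b then zz q * f a b c else 0)

/-- the operator of `pB` at the last two variables -/
def opR {N : ℕ} (q : Aˣ) (f : Fin N → Fin N → Fin N → A) (a b c : Fin N) : A :=
  if b = c then zp q (1 - N) * f a b b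
  else zp q (-N) * (f a c b + if b < c then zz q * f a b c else 0)

theorem opL_eq {N : ℕ} (q : Aˣ) (f : Fin N → Fin N → Fin N → A) (a b c : Fin N) :
    opL q f a b c = ∑ k, ∑ l, pB q a b k l * f k l c :=
  (sum_pB q a b (fun k l => f k l c)).symm

theorem opR_eq {N : ℕ} (q : Aˣ) (f : Fin N → Fin N → Fin N → A) (a b c : Fin N) :
    opR q f a b c = ∑ k, ∑ l, pB q b c k l * f a k l :=
  (sum_pB q b c (fun k l => f a k l)).symm

theorem op_braid {N : ℕ} (q : Aˣ) (f : Fin N → Fin N → Fin N → A) (a b c : Fin N) :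
    opL q (opR q (opL q f)) a b c = opR q (opL q (opR q f)) a b c := by
  set P := zp q (1 - N) with hP
  set Q := zp q (-N) with hQ
  have h : P ^ 2 = Q ^ 2 + zz q * P * Q := by
    rw [hP, hQ, zz_mul, sub_mul, ← zp_add, ← zp_add, pow_two, pow_two, ← zp_add, ← zp_add,
      show (1 - (N : ℤ)) + (1 - N) = (1 - (N : ℤ) + 1) + (-N) by ring,
      show -(N : ℤ) + -N = (1 - (N : ℤ) - 1) + (-N) by ring]
    ring
  rcases lt_trichotomy a b with hab | hab | hab
  · rcases lt_trichotomy b c with hbc | hbc | hbc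
    · have hac := hab.trans hbc
      simp only [opL, opR, if_neg hab.ne, if_neg hab.ne', if_pos hab, if_neg hab.not_gt,
        if_neg hbc.ne, if_neg hbc.ne', if_pos hbc, if_neg hbc.not_gt,
        if_neg hac.ne, if_neg hac.ne', if_pos hac, if_neg hac.not_gt]
      ring
    · subst hbc
      simp only [opL, opR, if_neg hab.ne, if_neg hab.ne', if_pos hab, if_neg hab.not_gt,
        if_true, lt_irrefl, if_false]
      linear_combination (-(zz q * Q * f a b b)) * h
    · rcases lt_trichotomy a c with hac | hac | hac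
      · simp only [opL, opR, if_neg hab.ne, if_neg hab.ne', if_pos hab, if_neg hab.not_gt,
          if_neg hbc.ne, if_neg hbc.ne', if_pos hbc, if_neg hbc.not_gt,
          if_neg hac.ne, if_neg hac.ne', if_pos hac, if_neg hac.not_gt]
        ring
      · subst hac
        simp only [opL, opR, if_neg hab.ne, if_neg hab.ne', if_pos hab, if_neg hab.not_gt,
          if_true, lt_irrefl, if_false]
        ring
      · simp only [opL, opR, if_neg hab.ne, if_neg hab.ne', if_pos hab, if_neg hab.not_gt,
          if_neg hbc.ne, if_neg hbc.ne', if_pos hbc, if_neg hbc.not_gt,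
          if_neg hac.ne, if_neg hac.ne', if_pos hac, if_neg hac.not_gt]
        ring
  · subst hab
    rcases lt_trichotomy a c with hac | hac | hac
    · simp only [opL, opR, if_neg hac.ne, if_neg hac.ne', if_pos hac, if_neg hac.not_gt,
        if_true, lt_irrefl, if_false]
      linear_combination (zz q * Q * f a a c) * h
    · subst hac
      rfl
    · simp only [opL, opR, if_neg hac.ne, if_neg hac.ne', if_pos hac, if_neg hac.not_gt,
        if_true, lt_irrefl, if_false]
      ring
  · rcases lt_trichotomy b c with hbc | hbc | hbc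
    · rcases lt_trichotomy a c with hac | hac | hac
      · simp only [opL, opR, if_neg hab.ne, if_neg hab.ne', if_pos hab, if_neg hab.not_gt,
          if_neg hbc.ne, if_neg hbc.ne', if_pos hbc, if_neg hbc.not_gt,
          if_neg hac.ne, if_neg hac.ne', if_pos hac, if_neg hac.not_gt]
        ring
      · subst hac
        simp only [opL, opR, if_neg hab.ne, if_neg hab.ne', if_pos hab, if_neg hab.not_gt,
          if_true, lt_irrefl, if_false]
        ring
      · simp only [opL, opR, if_neg hab.ne, if_neg hab.ne', if_pos hab, if_neg hab.not_gt,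
          if_neg hbc.ne, if_neg hbc.ne', if_pos hbc, if_neg hbc.not_gt,
          if_neg hac.ne, if_neg hac.ne', if_pos hac, if_neg hac.not_gt]
        ring
    · subst hbc
      simp only [opL, opR, if_neg hab.ne, if_neg hab.ne', if_pos hab, if_neg hab.not_gt,
        if_true, lt_irrefl, if_false]
      ring
    · have hac := hbc.trans hab
      simp only [opL, opR, if_neg hab.ne, if_neg hab.ne', if_pos hab, if_neg hab.not_gt,
        if_neg hbc.ne, if_neg hbc.ne', if_pos hbc, if_neg hbc.not_gt,
        if_neg hac.ne, if_neg hac.ne', if_pos hac, if_neg hac.not_gt]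

theorem r3B {N : ℕ} (q : Aˣ) (t₁ t₂ t₃ s₁ s₂ s₃ : Fin N) :
    ∑ u, ∑ v, ∑ w, pB q t₁ t₂ u v * pB q v t₃ w s₃ * pB q u w s₁ s₂ =
      ∑ u, ∑ v, ∑ w, pB q t₂ t₃ u v * pB q t₁ u s₁ w * pB q w v s₂ s₃ := by
  set f : Fin N → Fin N → Fin N → A := fun a b c =>
    if a = s₁ then (if b = s₂ then (if c = s₃ then 1 else 0) else 0) else 0 with hf
  have h := op_braid q f t₁ t₂ t₃
  have e1 : opL q (opR q (opL q f)) t₁ t₂ t₃ =
      ∑ u, ∑ v, ∑ w, pB q t₁ t₂ u v * pB q v t₃ w s₃ * pB q u w s₁ s₂ := by
    rw [opL_eq]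
    refine Finset.sum_congr rfl fun u _ => Finset.sum_congr rfl fun v _ => ?_
    rw [opR_eq, Finset.mul_sum]
    refine Finset.sum_congr rfl fun w _ => ?_
    have : ∀ z, pB q v t₃ w z * opL q f u w z =
        if z = s₃ then pB q v t₃ w s₃ * pB q u w s₁ s₂ else 0 := by
      intro z
      rw [opL_eq]
      simp only [hf, mul_ite, mul_one, mul_zero, Finset.sum_ite_irrel, Finset.sum_ite_eq',
        Finset.mem_univ, if_true, Finset.sum_const_zero]
      by_cases hz : z = s₃
      · rw [if_pos hz, if_pos hz, hz]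
      · rw [if_neg hz, if_neg hz]
    rw [Finset.sum_congr rfl (fun z _ => this z), Finset.sum_ite_eq', if_pos (Finset.mem_univ _)]
    ring
  have e2 : opR q (opL q (opR q f)) t₁ t₂ t₃ =
      ∑ u, ∑ v, ∑ w, pB q t₂ t₃ u v * pB q t₁ u s₁ w * pB q w v s₂ s₃ := by
    rw [opR_eq]
    refine Finset.sum_congr rfl fun u _ => Finset.sum_congr rfl fun v _ => ?_
    rw [opL_eq, Finset.sum_comm, Finset.mul_sum]
    refine Finset.sum_congr rfl fun w _ => ?_
    have : ∀ k, pB q t₁ u k w * opR q f k w v =
        if k = s₁ then pB q t₁ u s₁ w * pB q w v s₂ s₃ else 0 := by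
      intro k
      rw [opR_eq]
      simp only [hf, mul_ite, mul_one, mul_zero, Finset.sum_ite_irrel, Finset.sum_ite_eq',
        Finset.mem_univ, if_true, Finset.sum_const_zero]
      by_cases hz : k = s₁
      · rw [if_pos hz, if_pos hz, hz]
      · rw [if_neg hz, if_neg hz]
    rw [Finset.sum_congr rfl (fun z _ => this z), Finset.sum_ite_eq', if_pos (Finset.mem_univ _)]
    ring
  rw [← e1, ← e2, h]

end Pool.Agent.EVT
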