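import Pool.Agent.EVT.WA

/-!
# EVT module WB: rotation of crossings, for all orientations

* `wf_dd`, `wf_zig`: cases of the orientation; `kap_mul_kapi`.
* `wf_rotp`, `wf_rotn`: cases of the orientations of `a`, `b`, `c`, `x` (16 cases, in most of them both
  sides are `0` by the definition of `xW`).  Non-zero cases (`U` up, `D` down), with `s` the sign:
  - `a b x = U U U`, `c = D`: `κ c * X s a b x c = κ a * (κ c * κ⁻¹ a * X s a b x c)`.
  - `a b x = U D D`, `c = D`: `κ c * (κ b * κ⁻¹ x * X (!s) x a c b) = κ a * X (!s) x a c b`, by `xB_kap`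
    (`κ x κ a = κ c κ b` if the entry is non-zero).
  - `a b x = D U U`, `c = U`: both sides `X (!s) b c a x`.
  - `a b x = D D D`, `c = U`: both sides `X s c x b a`.
  (`xW q (!s)` for the other sign, `!!s = s`.)
-/

namespace Pool.Agent.EVT

open Finset

variable {A : Type*} [CommRing A]

theorem wf_dd (N : ℕ) (q : Aˣ) (a : Bool × Fin N) : (WF N q).dual ((WF N q).dual a) = a := by
  obtain ⟨b, i⟩ := a
  simp [WF]

theorem wf_zig (N : ℕ) (q : Aˣ) (a : Bool × Fin N) :
    (WF N q).cap ((WF N q).dual a) * (WF N q).cup a = 1 := by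
  obtain ⟨b, i⟩ := a
  cases b
  · simp [WF]
  · simp only [WF, Bool.not_true, Bool.false_eq_true, if_false, if_true]
    rw [mul_comm, kap_mul_kapi]

theorem wf_rot_aux (N : ℕ) (q : Aˣ) (s : Bool) (a b c x : Bool × Fin N) :
    (if (!c.1) = true then kap q c.2 else 1) * xW q s a b x (!c.1, c.2) =
      (if a.1 = true then kap q a.2 else 1) * xW q (!s) b c (!a.1, a.2) x := by
  obtain ⟨a0, a⟩ := a
  obtain ⟨b0, b⟩ := b
  obtain ⟨c0, c⟩ := c
  obtain ⟨x0, x⟩ := x
  cases a0 <;> cases b0 <;> cases c0 <;> cases x0 <;>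
    simp only [xW, Bool.not_true, Bool.not_false, if_true, Bool.false_eq_true, if_false, mul_zero,
      Bool.not_not]
  · -- a = U, b = D, c = D, x = D
    have h := xB_kap q (!s) x a c b
    have h2 := kap_mul_kapi q x
    linear_combination (-(kapi q x)) * h + (kap q a * xB q (!s) x a c b) * h2
  · -- a = U, b = U, c = D, x = U
    have h2 := kap_mul_kapi q a
    linear_combination (-(kap q c * xB q s a b x c)) * h2

theorem wf_rotp (N : ℕ) (q : Aˣ) (a b c x : Bool × Fin N) :
    (WF N q).cup ((WF N q).dual c) * (WF N q).pos a b x ((WF N q).dual c) =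
      (WF N q).cup a * (WF N q).neg b c ((WF N q).dual a) x :=
  wf_rot_aux N q true a b c x

theorem wf_rotn (N : ℕ) (q : Aˣ) (a b c x : Bool × Fin N) :
    (WF N q).cup ((WF N q).dual c) * (WF N q).neg a b x ((WF N q).dual c) =
      (WF N q).cup a * (WF N q).pos b c ((WF N q).dual a) x :=
  wf_rot_aux N q false a b c x

end Pool.Agent.EVT
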