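import Pool.Agent.EVT.Defs

/-!
# EVT module WE: the third Reidemeister move and rotation of one strand

Let `pos`, `neg` satisfy the conditions `dd`, `zig`, `rotp`, `rotn` of `FD.Inv`.  Bending the third strand
turns the move `R3` (all crossings positive) into the mixed move `E1`, bending the first strand
turns it into `E2`.

`bendR`: `hF.rotp` at `(dual c, t, dual v, u)`:
`cup v * pos (dual c) t u v = cup (dual c) * neg t (dual v) c u`, so (with `v` replaced by `dual v`)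
`neg t v c u = (cup (dual v) / cup (dual c)) * pos (dual c) t u (dual v)`.  In the right side of `E1`
at `(T; S)`: `neg T₁ u S₁ w = (cup (dual u) / cup (dual S₁)) * pos (dual S₁) T₁ w (dual u)` and
`neg T₂ T₃ u v = (cup (dual T₃) / cup (dual u)) * pos (dual u) T₂ v (dual T₃)`; the factors `cup (dual u)`
cancel, and after the substitution `u ↦ dual u` (and a permutation of the names of the summation
labels) the right side is `cup (dual T₃) / cup (dual S₁)` times the left side of `R3` at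
`(dual S₁, T₁, T₂; S₂, S₃, dual T₃)`.  In the same way the left side of `E1` is the same factor times
the right side of `R3`.  (To avoid division multiply by `cup (dual S₁)`, which is a unit by `zig`.)

`bendL`: the same with `rotn` in the form
`neg t c s s' = ` a factor times `pos c (dual s') (dual t) s`: from `rotn` at `(t, c, dual s', s)`:
`cup s' * neg t c s s' = cup t * pos c (dual s') (dual t) s`.  Here the first strand of `R3` is bent to
the right: `E2` at `(T; S)` is a factor times `R3` at `(T₂, T₃, dual S₃; dual T₁, S₁, S₂)`.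
-/

namespace Pool.Agent.EVT

open Finset

variable {A ι : Type*} [CommRing A] [Fintype ι] [DecidableEq ι]

/-- the third Reidemeister move for given labels -/
def R3at (F : FD A ι) (t₁ t₂ t₃ s₁ s₂ s₃ : ι) : Prop :=
  ∑ u, ∑ v, ∑ w, F.pos t₁ t₂ u v * F.pos v t₃ w s₃ * F.pos u w s₁ s₂ =
    ∑ u, ∑ v, ∑ w, F.pos t₂ t₃ u v * F.pos t₁ u s₁ w * F.pos w v s₂ s₃

/-- `[(0, neg), (1, neg), (0, pos)] = [(1, pos), (0, neg), (1, neg)]` -/
def E1at (F : FD A ι) (t₁ t₂ t₃ s₁ s₂ s₃ : ι) : Prop :=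
  ∑ u, ∑ v, ∑ w, F.pos t₁ t₂ u v * F.neg v t₃ w s₃ * F.neg u w s₁ s₂ =
    ∑ u, ∑ v, ∑ w, F.neg t₂ t₃ u v * F.neg t₁ u s₁ w * F.pos w v s₂ s₃

/-- `[(1, neg), (0, neg), (1, pos)] = [(0, pos), (1, neg), (0, neg)]` -/
def E2at (F : FD A ι) (t₁ t₂ t₃ s₁ s₂ s₃ : ι) : Prop :=
  ∑ u, ∑ v, ∑ w, F.pos t₂ t₃ u v * F.neg t₁ u s₁ w * F.neg w v s₂ s₃ =
    ∑ u, ∑ v, ∑ w, F.neg t₁ t₂ u v * F.neg v t₃ w s₃ * F.pos u w s₁ s₂

/-- the permutation `dual` -/
private def weD (F : FD A ι) (dd : ∀ a, F.dual (F.dual a) = a) : ι ≃ ι :=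
  ⟨F.dual, F.dual, dd, dd⟩

theorem bendR (F : FD A ι) (dd : ∀ a, F.dual (F.dual a) = a)
    (zig : ∀ a, F.cap (F.dual a) * F.cup a = 1)
    (rotp : ∀ a b c x, F.cup (F.dual c) * F.pos a b x (F.dual c) =
      F.cup a * F.neg b c (F.dual a) x)
    (t₁ t₂ t₃ s₁ s₂ s₃ : ι) (h : R3at F (F.dual s₁) t₁ t₂ s₂ s₃ (F.dual t₃)) :
    E1at F t₁ t₂ t₃ s₁ s₂ s₃ := by
  have hz : ∀ w, F.cap w * F.cup (F.dual w) = 1 := by
    intro w
    have h1 := zig (F.dual w)
    rw [dd] at h1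
    exact h1
  have hN : ∀ b c s x, F.neg b c s x =
      F.cap s * F.cup (F.dual c) * F.pos (F.dual s) b x (F.dual c) := by
    intro b c s x
    have h1 := rotp (F.dual s) b c x
    rw [dd] at h1
    linear_combination (-F.cap s) * h1 - F.neg b c s x * hz s
  have e1 : ∑ u, ∑ v, ∑ w, F.pos t₁ t₂ u v * F.neg v t₃ w s₃ * F.neg u w s₁ s₂ =
      F.cup (F.dual t₃) * F.cap s₁ * ∑ u, ∑ v, ∑ w,
        F.pos t₁ t₂ u v * F.pos (F.dual s₁) u s₂ w * F.pos w v s₃ (F.dual t₃) := by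
    rw [mul_sum]
    refine sum_congr rfl fun u _ => ?_
    rw [mul_sum]
    refine sum_congr rfl fun v _ => ?_
    rw [mul_sum, ← Equiv.sum_comp (weD F dd)]
    refine sum_congr rfl fun w _ => ?_
    change F.pos t₁ t₂ u v * F.neg v t₃ (F.dual w) s₃ * F.neg u (F.dual w) s₁ s₂ =
      F.cup (F.dual t₃) * F.cap s₁ * (F.pos t₁ t₂ u v * F.pos (F.dual s₁) u s₂ w *
        F.pos w v s₃ (F.dual t₃))
    rw [hN, hN, dd]
    linear_combination (F.cup (F.dual t₃) * F.cap s₁ * (F.pos t₁ t₂ u v *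
      F.pos (F.dual s₁) u s₂ w * F.pos w v s₃ (F.dual t₃))) * zig w
  have e2 : ∑ u, ∑ v, ∑ w, F.neg t₂ t₃ u v * F.neg t₁ u s₁ w * F.pos w v s₂ s₃ =
      F.cup (F.dual t₃) * F.cap s₁ * ∑ u, ∑ v, ∑ w,
        F.pos (F.dual s₁) t₁ u v * F.pos v t₂ w (F.dual t₃) * F.pos u w s₂ s₃ := by
    have h1 : ∑ u, ∑ v, ∑ w,
        F.pos (F.dual s₁) t₁ u v * F.pos v t₂ w (F.dual t₃) * F.pos u w s₂ s₃ =
        ∑ u, ∑ v, ∑ w,
        F.pos (F.dual s₁) t₁ w u * F.pos u t₂ v (F.dual t₃) * F.pos w v s₂ s₃ := by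
      rw [sum_comm]
      refine sum_congr rfl fun u _ => ?_
      rw [sum_comm]
    rw [h1, mul_sum, ← Equiv.sum_comp (weD F dd)]
    refine sum_congr rfl fun u _ => ?_
    rw [mul_sum]
    refine sum_congr rfl fun v _ => ?_
    rw [mul_sum]
    refine sum_congr rfl fun w _ => ?_
    change F.neg t₂ t₃ (F.dual u) v * F.neg t₁ (F.dual u) s₁ w * F.pos w v s₂ s₃ =
      F.cup (F.dual t₃) * F.cap s₁ * (F.pos (F.dual s₁) t₁ w u * F.pos u t₂ v (F.dual t₃) *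
        F.pos w v s₂ s₃)
    rw [hN, hN, dd]
    linear_combination (F.cup (F.dual t₃) * F.cap s₁ * (F.pos (F.dual s₁) t₁ w u *
      F.pos u t₂ v (F.dual t₃) * F.pos w v s₂ s₃)) * zig u
  unfold R3at at h
  unfold E1at
  rw [e1, e2, h]

theorem bendL (F : FD A ι) (dd : ∀ a, F.dual (F.dual a) = a)
    (zig : ∀ a, F.cap (F.dual a) * F.cup a = 1)
    (rotn : ∀ a b c x, F.cup (F.dual c) * F.neg a b x (F.dual c) =
      F.cup a * F.pos b c (F.dual a) x)
    (t₁ t₂ t₃ s₁ s₂ s₃ : ι) (h : R3at F t₂ t₃ (F.dual s₃) (F.dual t₁) s₁ s₂) :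
    E2at F t₁ t₂ t₃ s₁ s₂ s₃ := by
  have hM : ∀ a b x d, F.neg a b x d =
      F.cap (F.dual d) * F.cup a * F.pos b (F.dual d) (F.dual a) x := by
    intro a b x d
    have h1 := rotn a b (F.dual d) x
    rw [dd] at h1
    linear_combination F.cap (F.dual d) * h1 - F.neg a b x d * zig d
  have hz : ∀ w, F.cap w * F.cup (F.dual w) = 1 := by
    intro w
    have h1 := zig (F.dual w)
    rw [dd] at h1
    exact h1
  have e1 : ∑ u, ∑ v, ∑ w, F.pos t₂ t₃ u v * F.neg t₁ u s₁ w * F.neg w v s₂ s₃ =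
      F.cup t₁ * F.cap (F.dual s₃) * ∑ u, ∑ v, ∑ w,
        F.pos t₂ t₃ u v * F.pos v (F.dual s₃) w s₂ * F.pos u w (F.dual t₁) s₁ := by
    rw [mul_sum]
    refine sum_congr rfl fun u _ => ?_
    rw [mul_sum]
    refine sum_congr rfl fun v _ => ?_
    rw [mul_sum, ← Equiv.sum_comp (weD F dd)]
    refine sum_congr rfl fun w _ => ?_
    change F.pos t₂ t₃ u v * F.neg t₁ u s₁ (F.dual w) * F.neg (F.dual w) v s₂ s₃ =
      F.cup t₁ * F.cap (F.dual s₃) * (F.pos t₂ t₃ u v * F.pos v (F.dual s₃) w s₂ *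
        F.pos u w (F.dual t₁) s₁)
    rw [hM, hM, dd]
    linear_combination (F.cup t₁ * F.cap (F.dual s₃) * (F.pos t₂ t₃ u v *
      F.pos v (F.dual s₃) w s₂ * F.pos u w (F.dual t₁) s₁)) * hz w
  have e2 : ∑ u, ∑ v, ∑ w, F.neg t₁ t₂ u v * F.neg v t₃ w s₃ * F.pos u w s₁ s₂ =
      F.cup t₁ * F.cap (F.dual s₃) * ∑ u, ∑ v, ∑ w,
        F.pos t₃ (F.dual s₃) u v * F.pos t₂ u (F.dual t₁) w * F.pos w v s₁ s₂ := by
    have h1 : ∑ u, ∑ v, ∑ w,
        F.pos t₃ (F.dual s₃) u v * F.pos t₂ u (F.dual t₁) w * F.pos w v s₁ s₂ =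
        ∑ u, ∑ v, ∑ w,
        F.pos t₃ (F.dual s₃) v w * F.pos t₂ v (F.dual t₁) u * F.pos u w s₁ s₂ := by
      have h2 : ∀ u, ∑ v, ∑ w,
          F.pos t₃ (F.dual s₃) u v * F.pos t₂ u (F.dual t₁) w * F.pos w v s₁ s₂ =
          ∑ w, ∑ v,
          F.pos t₃ (F.dual s₃) u v * F.pos t₂ u (F.dual t₁) w * F.pos w v s₁ s₂ := by
        intro u
        rw [sum_comm]
      rw [sum_congr rfl fun u _ => h2 u, sum_comm]
    rw [h1, mul_sum]
    refine sum_congr rfl fun u _ => ?_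
    rw [mul_sum, ← Equiv.sum_comp (weD F dd)]
    refine sum_congr rfl fun v _ => ?_
    rw [mul_sum]
    refine sum_congr rfl fun w _ => ?_
    change F.neg t₁ t₂ u (F.dual v) * F.neg (F.dual v) t₃ w s₃ * F.pos u w s₁ s₂ =
      F.cup t₁ * F.cap (F.dual s₃) * (F.pos t₃ (F.dual s₃) v w * F.pos t₂ v (F.dual t₁) u *
        F.pos u w s₁ s₂)
    rw [hM, hM, dd]
    linear_combination (F.cup t₁ * F.cap (F.dual s₃) * (F.pos t₃ (F.dual s₃) v w *
      F.pos t₂ v (F.dual t₁) u * F.pos u w s₁ s₂)) * hz v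
  unfold R3at at h
  unfold E2at
  rw [e1, e2, h]

end Pool.Agent.EVT
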