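import Pool.Agent.EVT.LE
import Pool.Agent.EVT.RB

/-!
# EVT module XA: the alternating sum over all subsets of a symmetric bipartite matrix over `F₂`

`fT M sd D T = ∑ (-2) ^ #J * T ^ rank` over the subsets `J` of `D`.  Removing an element of `D` whose
row vanishes on `D` changes the sign, removing two elements with the same rows on `D` does not change the
sum (`fT_one`, `fT_two`).  If neither is possible and `D` is not empty then the sum is a
polynomial in `T` of positive degree (`span_ne`), so it is not constant.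
-/

namespace Pool.Agent.EVT

open Finset

variable {n : ℕ}

/-- the sum -/
noncomputable def fT (M : Matrix (Fin n) (Fin n) (ZMod 2)) (sd : Fin n → Bool) (D : Finset (Fin n))
    (T : ℝ) : ℝ := ∑ J ∈ D.powerset, (-2) ^ J.card * T ^ rkI M sd (ind J)

/-- Some elements are removed step by step until nothing is left: one with a zero row, or two with the
same rows. -/
inductive Dm (M : Matrix (Fin n) (Fin n) (ZMod 2)) : Finset (Fin n) → Prop
  | empty : Dm M ∅
  | one {D : Finset (Fin n)} {i : Fin n} (hi : i ∈ D) (h : ∀ l ∈ D, M i l = 0)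
      (hD : Dm M (D.erase i)) : Dm M D
  | two {D : Finset (Fin n)} {i j : Fin n} (hi : i ∈ D) (hj : j ∈ D) (hij : i ≠ j)
      (h : ∀ l ∈ D, M i l = M j l) (hi' : ∃ l ∈ D, M i l ≠ 0)
      (hD : Dm M ((D.erase i).erase j)) : Dm M D

/-- the rank of a part -/
theorem rkI_congr (M M' : Matrix (Fin n) (Fin n) (ZMod 2)) (sd I I' : Fin n → Bool)
    (h : ∀ i j, sd i = true → sd j = false →
      (if I i = true ∧ I j = true then M i j else 0) =
        (if I' i = true ∧ I' j = true then M' i j else 0)) :
    rkI M sd I = rkI M' sd I' := by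
  unfold rkI
  congr 1
  ext i j
  simp only [Matrix.of_apply]
  by_cases hi : sd i = true
  · by_cases hj : sd j = false
    · have h1 := h i j hi hj
      have e1 : (I i = true ∧ sd i = true ∧ I j = true ∧ sd j = false) ↔ (I i = true ∧ I j = true) := by
        tauto
      have e2 : (I' i = true ∧ sd i = true ∧ I' j = true ∧ sd j = false) ↔
          (I' i = true ∧ I' j = true) := by
        tauto
      simp only [e1, e2]
      exact h1
    · rw [if_neg (by tauto), if_neg (by tauto)]
  · rw [if_neg (by tauto), if_neg (by tauto)]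

/-- exchange of the sides -/
theorem rkI_not (M : Matrix (Fin n) (Fin n) (ZMod 2)) (sd I : Fin n → Bool)
    (h1 : ∀ i j, M i j = M j i) : rkI M (fun i => !sd i) I = rkI M sd I := by
  unfold rkI
  rw [← Matrix.rank_transpose]
  congr 1
  ext i j
  simp only [Matrix.transpose_apply, Matrix.of_apply]
  rw [h1 j i]
  congr 1
  simp only [Bool.not_eq_true', Bool.not_eq_false', eq_iff_iff]
  tauto

/-- the rank from the rows -/
theorem rkI_row (M : Matrix (Fin n) (Fin n) (ZMod 2)) (sd I I' : Fin n → Bool)
    (h : ∀ i, I i = true → sd i = true → ∃ i', I' i' = true ∧ sd i' = true ∧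
      ∀ l, sd l = false → (if I l = true then M i l else 0) = (if I' l = true then M i' l else 0))
    (h' : ∀ i, I' i = true → sd i = true → ∃ i', I i' = true ∧ sd i' = true ∧
      ∀ l, sd l = false → (if I' l = true then M i l else 0) = (if I l = true then M i' l else 0)) :
    rkI M sd I = rkI M sd I' := by
  have key : ∀ I I' : Fin n → Bool, (∀ i, I i = true → sd i = true → ∃ i', I' i' = true ∧
      sd i' = true ∧ ∀ l, sd l = false → (if I l = true then M i l else 0) =
        (if I' l = true then M i' l else 0)) → rkI M sd I ≤ rkI M sd I' := by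
    intro I I' h
    unfold rkI
    rw [Matrix.rank_eq_finrank_span_row, Matrix.rank_eq_finrank_span_row]
    apply Submodule.finrank_mono
    rw [Submodule.span_le]
    rintro _ ⟨i, rfl⟩
    by_cases hi : I i = true ∧ sd i = true
    · obtain ⟨i', h2, h3, h4⟩ := h i hi.1 hi.2
      refine Submodule.subset_span ⟨i', ?_⟩
      funext l
      simp only [Matrix.row, Matrix.of_apply]
      by_cases hl : sd l = false
      · have h5 := h4 l hl
        simp only [hi.1, hi.2, h2, h3, hl, true_and, and_true]
        exact h5.symm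
      · rw [if_neg (by tauto), if_neg (by tauto)]
    · have h0 : (Matrix.of fun i j => if I i = true ∧ sd i = true ∧ I j = true ∧ sd j = false then
          M i j else 0 : Matrix (Fin n) (Fin n) (ZMod 2)).row i = 0 := by
        funext l
        simp only [Matrix.row, Matrix.of_apply, Pi.zero_apply]
        rw [if_neg (by tauto)]
      rw [h0]
      exact Submodule.zero_mem _
  exact le_antisymm (key I I' h) (key I' I h')

/-- an element whose row vanishes does not change the rank -/
theorem rkI_insert_zero (M : Matrix (Fin n) (Fin n) (ZMod 2)) (sd : Fin n → Bool)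
    (h1 : ∀ i j, M i j = M j i) {D J : Finset (Fin n)} {i : Fin n} (hi : i ∈ D)
    (h : ∀ l ∈ D, M i l = 0) (hJ : J ⊆ D) :
    rkI M sd (ind (insert i J)) = rkI M sd (ind J) := by
  apply rkI_congr
  intro a b _ _
  simp only [ind, decide_eq_true_eq, Finset.mem_insert]
  by_cases ha : a = i
  · subst ha
    have e1 : ∀ b ∈ D, M a b = 0 := h
    by_cases hb : b = a ∨ b ∈ J
    · have hbD : b ∈ D := by
        rcases hb with rfl | hb
        · exact hi
        · exact hJ hb
      rw [e1 b hbD]
      simp
    · rw [if_neg (by tauto), if_neg (by tauto)]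
  · by_cases hb : b = i
    · subst hb
      by_cases haJ : a ∈ J
      · rw [h1 a b, h a (hJ haJ)]
        simp
      · rw [if_neg (by tauto), if_neg (by tauto)]
    · simp only [ha, hb, false_or]

theorem fT_one (M : Matrix (Fin n) (Fin n) (ZMod 2)) (sd : Fin n → Bool)
    (h1 : ∀ i j, M i j = M j i) {D : Finset (Fin n)} {i : Fin n} (hi : i ∈ D)
    (h : ∀ l ∈ D, M i l = 0) (T : ℝ) : fT M sd D T = -fT M sd (D.erase i) T := by
  have hD : D = insert i (D.erase i) := (Finset.insert_erase hi).symm
  have hn : i ∉ D.erase i := Finset.notMem_erase i D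
  unfold fT
  conv_lhs => rw [hD]
  rw [Finset.sum_powerset_insert hn, ← Finset.sum_neg_distrib, ← Finset.sum_add_distrib]
  refine Finset.sum_congr rfl fun J hJ => ?_
  rw [Finset.mem_powerset] at hJ
  rw [rkI_insert_zero M sd h1 hi h (hJ.trans (Finset.erase_subset _ _)),
    Finset.card_insert_of_notMem fun hm => hn (hJ hm), pow_succ]
  ring

/-- two elements with the same row at the side `true` -/
private theorem rkI_pair (M : Matrix (Fin n) (Fin n) (ZMod 2)) (sd : Fin n → Bool)
    {D : Finset (Fin n)} {i j : Fin n}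
    (hsi : sd i = true) (hsj : sd j = true) (h : ∀ l ∈ D, M i l = M j l) {J J' : Finset (Fin n)}
    (hJ : J ⊆ D) (hi : i ∈ J ∨ j ∈ J) (hi' : i ∈ J' ∨ j ∈ J')
    (hJJ : ∀ a, a ≠ i → a ≠ j → (a ∈ J ↔ a ∈ J')) :
    rkI M sd (ind J) = rkI M sd (ind J') := by
  have hcol : ∀ l, sd l = false → (l ∈ J ↔ l ∈ J') := by
    intro l hl
    apply hJJ
    · rintro rfl
      rw [hsi] at hl
      exact absurd hl (by decide)
    · rintro rfl
      rw [hsj] at hl
      exact absurd hl (by decide)
  have key : ∀ A B : Finset (Fin n), (∀ l, sd l = false → (l ∈ A ↔ l ∈ B)) →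
      (∀ l, sd l = false → l ∈ A → l ∈ D) → (∀ a, a ≠ i → a ≠ j → (a ∈ A ↔ a ∈ B)) →
      (i ∈ B ∨ j ∈ B) → ∀ a, ind A a = true → sd a = true → ∃ a', ind B a' = true ∧ sd a' = true ∧
      ∀ l, sd l = false → (if ind A l = true then M a l else 0) =
        (if ind B l = true then M a' l else 0) := by
    intro A B hc hAD hAB hB a ha hsa
    simp only [ind, decide_eq_true_eq] at ha ⊢
    have h5 : ∀ l, sd l = false → l ∈ A → M i l = M j l := fun l hl hlA => h l (hAD l hl hlA)
    by_cases hai : a = i ∨ a = j
    · rcases hB with hB | hB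
      · refine ⟨i, hB, hsi, fun l hl => ?_⟩
        by_cases hlA : l ∈ A
        · rw [if_pos hlA, if_pos ((hc l hl).1 hlA)]
          rcases hai with rfl | rfl
          · rfl
          · exact (h5 l hl hlA).symm
        · rw [if_neg hlA, if_neg fun hx => hlA ((hc l hl).2 hx)]
      · refine ⟨j, hB, hsj, fun l hl => ?_⟩
        by_cases hlA : l ∈ A
        · rw [if_pos hlA, if_pos ((hc l hl).1 hlA)]
          rcases hai with rfl | rfl
          · exact h5 l hl hlA
          · rfl
        · rw [if_neg hlA, if_neg fun hx => hlA ((hc l hl).2 hx)]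
    · rw [not_or] at hai
      refine ⟨a, (hAB a hai.1 hai.2).1 ha, hsa, fun l hl => ?_⟩
      by_cases hlA : l ∈ A
      · rw [if_pos hlA, if_pos ((hc l hl).1 hlA)]
      · rw [if_neg hlA, if_neg fun hx => hlA ((hc l hl).2 hx)]
  apply rkI_row
  · exact key J J' hcol (fun l _ hl => hJ hl) hJJ hi'
  · exact key J' J (fun l hl => (hcol l hl).symm) (fun l hl hlJ => hJ ((hcol l hl).2 hlJ))
      (fun a h2 h3 => (hJJ a h2 h3).symm) hi

/-- two elements with the same row -/
theorem rkI_pair' (M : Matrix (Fin n) (Fin n) (ZMod 2)) (sd : Fin n → Bool)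
    (h1 : ∀ i j, M i j = M j i) {D : Finset (Fin n)} {i j : Fin n}
    (hs : sd i = sd j) (h : ∀ l ∈ D, M i l = M j l) {J J' : Finset (Fin n)}
    (hJ : J ⊆ D) (hi : i ∈ J ∨ j ∈ J) (hi' : i ∈ J' ∨ j ∈ J')
    (hJJ : ∀ a, a ≠ i → a ≠ j → (a ∈ J ↔ a ∈ J')) :
    rkI M sd (ind J) = rkI M sd (ind J') := by
  cases hsi : sd i
  · rw [← rkI_not M sd _ h1, ← rkI_not M sd _ h1]
    exact rkI_pair M (fun i => !sd i) (by simp [hsi]) (by simp [← hs, hsi]) h hJ hi hi' hJJ
  · exact rkI_pair M sd hsi (by rw [← hs, hsi]) h hJ hi hi' hJJ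

theorem fT_two (M : Matrix (Fin n) (Fin n) (ZMod 2)) (sd : Fin n → Bool)
    (h1 : ∀ i j, M i j = M j i) {D : Finset (Fin n)} {i j : Fin n} (hi : i ∈ D) (hj : j ∈ D)
    (hij : i ≠ j) (hs : sd i = sd j) (h : ∀ l ∈ D, M i l = M j l) (T : ℝ) :
    fT M sd D T = fT M sd ((D.erase i).erase j) T := by
  set B := (D.erase i).erase j with hB
  have hjB : j ∉ B := Finset.notMem_erase j _
  have hiB : i ∉ insert j B := by
    rw [Finset.mem_insert, not_or]
    exact ⟨hij, fun hm => Finset.notMem_erase i D (Finset.mem_of_mem_erase hm)⟩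
  have hiB' : i ∉ B := fun hm => hiB (Finset.mem_insert_of_mem hm)
  have hD : D = insert i (insert j B) := by
    rw [hB, Finset.insert_erase (Finset.mem_erase.2 ⟨hij.symm, hj⟩), Finset.insert_erase hi]
  have hBD : B ⊆ D := (Finset.erase_subset _ _).trans (Finset.erase_subset _ _)
  unfold fT
  conv_lhs => rw [hD]
  rw [Finset.sum_powerset_insert hiB, Finset.sum_powerset_insert hjB,
    Finset.sum_powerset_insert hjB, ← Finset.sum_add_distrib, ← Finset.sum_add_distrib,
    ← Finset.sum_add_distrib]
  refine Finset.sum_congr rfl fun J hJ => ?_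
  rw [Finset.mem_powerset] at hJ
  have hjJ : j ∉ J := fun hm => hjB (hJ hm)
  have hiJ : i ∉ J := fun hm => hiB' (hJ hm)
  have hiJ' : i ∉ insert j J := by
    rw [Finset.mem_insert, not_or]
    exact ⟨hij, hiJ⟩
  have e1 : rkI M sd (ind (insert i J)) = rkI M sd (ind (insert j J)) := by
    refine rkI_pair' M sd h1 (D := D) hs h ?_ (Or.inl (Finset.mem_insert_self _ _))
      (Or.inr (Finset.mem_insert_self _ _)) ?_
    · exact Finset.insert_subset hi (hJ.trans hBD)
    · intro a ha hb
      simp [ha, hb]
  have e2 : rkI M sd (ind (insert i (insert j J))) = rkI M sd (ind (insert j J)) := by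
    refine rkI_pair' M sd h1 (D := D) hs h ?_ (Or.inl (Finset.mem_insert_self _ _))
      (Or.inr (Finset.mem_insert_self _ _)) ?_
    · exact Finset.insert_subset hi (Finset.insert_subset hj (hJ.trans hBD))
    · intro a ha hb
      simp [ha, hb]
  rw [e1, e2, Finset.card_insert_of_notMem hiJ', Finset.card_insert_of_notMem hjJ,
    Finset.card_insert_of_notMem hiJ, pow_succ, pow_succ]
  ring

end Pool.Agent.EVT
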