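import Pool.Agent.EVT.XA
import Pool.Agent.EVT.VB

/-!
# EVT module XB: a constant alternating sum

If `fT M sd D T` does not depend on `T`, then all elements of `D` can be removed step by step (`Dm M D`).
-/

namespace Pool.Agent.EVT

open Finset

variable {n : ℕ}

/-- the part of the matrix -/
private def Mr (M : Matrix (Fin n) (Fin n) (ZMod 2)) (D : Finset (Fin n)) :
    Matrix (Fin n) (Fin n) (ZMod 2) := Matrix.of fun i j => if i ∈ D ∧ j ∈ D then M i j else 0

private theorem Mr_apply (M : Matrix (Fin n) (Fin n) (ZMod 2)) (D : Finset (Fin n)) (i j : Fin n) :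
    Mr M D i j = if i ∈ D ∧ j ∈ D then M i j else 0 := rfl

private theorem rk_part (M : Matrix (Fin n) (Fin n) (ZMod 2)) (sd : Fin n → Bool)
    {D J : Finset (Fin n)} (hJ : J ⊆ D) : rkI M sd (ind J) = rkI (Mr M D) sd (ind J) := by
  apply rkI_congr
  intro a b _ _
  simp only [ind, decide_eq_true_eq]
  by_cases h : a ∈ J ∧ b ∈ J
  · rw [if_pos h, if_pos h, Mr_apply, if_pos ⟨hJ h.1, hJ h.2⟩]
  · rw [if_neg h, if_neg h]

/-- a polynomial with a constant value -/
private theorem top_zero {κ : Type*} (s : Finset κ) (r : κ → ℕ) (w : κ → ℝ) (ρ : ℕ) (hρ : 0 < ρ)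
    (c : ℝ) (h : ∀ T : ℝ, ∑ J ∈ s, w J * T ^ r J = c) :
    ∑ J ∈ s.filter (fun J => r J = ρ), w J = 0 := by
  set P : Polynomial ℝ := ∑ J ∈ s, Polynomial.C (w J) * Polynomial.X ^ r J with hP
  have h0 : P = Polynomial.C c := by
    apply Polynomial.funext
    intro T
    rw [hP, Polynomial.eval_finsetSum, Polynomial.eval_C, ← h T]
    refine Finset.sum_congr rfl fun J _ => ?_
    rw [Polynomial.eval_mul, Polynomial.eval_C, Polynomial.eval_pow, Polynomial.eval_X]
  have h1 := congrArg (fun Q => Polynomial.coeff Q ρ) h0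
  simp only [hP, Polynomial.finsetSum_coeff, Polynomial.coeff_C_mul, Polynomial.coeff_X_pow,
    Polynomial.coeff_C] at h1
  rw [if_neg hρ.ne'] at h1
  rw [Finset.sum_filter]
  refine Eq.trans ?_ h1
  refine Finset.sum_congr rfl fun J _ => ?_
  by_cases hJ : r J = ρ
  · rw [if_pos hJ, if_pos hJ.symm, mul_one]
  · rw [if_neg hJ, if_neg fun h => hJ h.symm, mul_zero]

private theorem spn_part (M : Matrix (Fin n) (Fin n) (ZMod 2)) (sd : Fin n → Bool)
    (D : Finset (Fin n)) (s : Bool) (J : Finset (Fin n)) :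
    Spn (Mr M D) sd s (ind J) ↔ Submodule.span (ZMod 2)
      ((fun i => Mr M D i) '' ((J.filter fun i => sd i = s : Finset (Fin n)) : Set (Fin n))) =
      Submodule.span (ZMod 2)
        ((fun i => Mr M D i) '' ((D.filter fun i => sd i = s : Finset (Fin n)) : Set (Fin n))) := by
  have e1 : {x | ∃ i, ind J i = true ∧ sd i = s ∧ x = Mr M D i} =
      (fun i => Mr M D i) '' ((J.filter fun i => sd i = s : Finset (Fin n)) : Set (Fin n)) := by
    ext x
    constructor
    · rintro ⟨i, h1, h2, rfl⟩
      refine ⟨i, ?_, rfl⟩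
      rw [Finset.mem_coe, Finset.mem_filter]
      exact ⟨by simpa [ind] using h1, h2⟩
    · rintro ⟨i, h1, rfl⟩
      rw [Finset.mem_coe, Finset.mem_filter] at h1
      exact ⟨i, by simpa [ind] using h1.1, h1.2, rfl⟩
  have e2 : Submodule.span (ZMod 2) {x | ∃ i, sd i = s ∧ x = Mr M D i} = Submodule.span (ZMod 2)
        ((fun i => Mr M D i) '' ((D.filter fun i => sd i = s : Finset (Fin n)) : Set (Fin n))) := by
    apply le_antisymm
    · rw [Submodule.span_le]
      rintro _ ⟨i, h1, rfl⟩
      by_cases hi : i ∈ D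
      · refine Submodule.subset_span ⟨i, ?_, rfl⟩
        rw [Finset.mem_coe, Finset.mem_filter]
        exact ⟨hi, h1⟩
      · have h0 : Mr M D i = 0 := by
          funext l
          rw [Mr_apply, if_neg (by tauto)]
          rfl
        rw [h0]
        exact Submodule.zero_mem _
    · apply Submodule.span_mono
      rintro _ ⟨i, h1, rfl⟩
      rw [Finset.mem_coe, Finset.mem_filter] at h1
      exact ⟨i, h1.2, rfl⟩
  unfold Spn
  rw [e1, e2]

/-- the sum is not constant if nothing can be removed -/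
theorem fT_core (M : Matrix (Fin n) (Fin n) (ZMod 2)) (sd : Fin n → Bool)
    (h1 : ∀ i j, M i j = M j i) (h2 : ∀ i j, sd i = sd j → M i j = 0) (D : Finset (Fin n))
    (hne : D.Nonempty) (hrow : ∀ i ∈ D, ∃ l ∈ D, M i l ≠ 0)
    (hinj : ∀ i ∈ D, ∀ j ∈ D, i ≠ j → sd i = sd j → ∃ l ∈ D, M i l ≠ M j l) (c : ℝ)
    (hc : ∀ T, fT M sd D T = c) : False := by
  classical
  have m1 : ∀ i j, Mr M D i j = Mr M D j i := by
    intro i j
    rw [Mr_apply, Mr_apply, h1 i j]
    congr 1
    simp only [eq_iff_iff]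
    tauto
  have m2 : ∀ i j, sd i = sd j → Mr M D i j = 0 := by
    intro i j hij
    rw [Mr_apply, h2 i j hij]
    simp
  obtain ⟨i0, hi0⟩ := hne
  obtain ⟨l0, hl0, hM0⟩ := hrow i0 hi0
  have hpos : 0 < rkI (Mr M D) sd (fun _ => true) := by
    refine rk_pos (Mr M D) sd m1 m2 (i := i0) (j := l0) ?_
    rw [Mr_apply, if_pos ⟨hi0, hl0⟩]
    exact hM0
  set ρ := rkI (Mr M D) sd (fun _ => true) with hρ
  have h3 := top_zero D.powerset (fun J => rkI M sd (ind J)) (fun J => (-2 : ℝ) ^ J.card) ρ hpos c hc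
  set A := D.filter fun i => sd i = true with hA
  set B := D.filter fun i => sd i = false with hB
  have hdis : Disjoint A B := by
    rw [Finset.disjoint_left]
    intro i hi hi'
    rw [hA, Finset.mem_filter] at hi
    rw [hB, Finset.mem_filter, hi.2] at hi'
    exact absurd hi'.2 (by decide)
  have hun : A ∪ B = D := by
    ext i
    rw [Finset.mem_union, hA, hB, Finset.mem_filter, Finset.mem_filter]
    cases sd i <;> simp
  set v : Fin n → (Fin n → ZMod 2) := fun i => Mr M D i with hv
  have hfilt : ∀ (s : Bool) (K L : Finset (Fin n)), K ⊆ D.filter (fun i => sd i = s) →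
      L ⊆ D.filter (fun i => sd i = !s) → (K ∪ L).filter (fun i => sd i = s) = K := by
    intro s K L hK hL
    ext i
    rw [Finset.mem_filter, Finset.mem_union]
    constructor
    · rintro ⟨h4 | h4, h5⟩
      · exact h4
      · have h6 := (Finset.mem_filter.1 (hL h4)).2
        rw [h5] at h6
        exact absurd h6 (by cases s <;> decide)
    · intro h4
      exact ⟨Or.inl h4, (Finset.mem_filter.1 (hK h4)).2⟩
  have hcond : ∀ J ∈ A.powerset, ∀ K ∈ B.powerset, (rkI M sd (ind (J ∪ K)) = ρ ↔
      Submodule.span (ZMod 2) (v '' (J : Set (Fin n))) = Submodule.span (ZMod 2) (v '' (A : Set (Fin n))) ∧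
      Submodule.span (ZMod 2) (v '' (K : Set (Fin n))) =
        Submodule.span (ZMod 2) (v '' (B : Set (Fin n)))) := by
    intro J hJ K hK
    rw [Finset.mem_powerset] at hJ hK
    have hJK : J ∪ K ⊆ D := by
      rw [← hun]
      exact Finset.union_subset_union hJ hK
    rw [rk_part M sd hJK, hρ, rk_iff (Mr M D) sd m1 m2, spn_part, spn_part]
    have e1 := hfilt true J K hJ hK
    have e2 := hfilt false K J hK hJ
    rw [Finset.union_comm K J] at e2
    rw [e1, e2]
  rw [Finset.sum_filter] at h3
  have hun' := hun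
  rw [← hun', sum_powerset_union hdis] at h3
  have h4 : ∀ K ∈ B.powerset, ∀ J ∈ A.powerset,
      (if rkI M sd (ind (J ∪ K)) = ρ then (-2 : ℝ) ^ (J ∪ K).card else 0) =
        (if Submodule.span (ZMod 2) (v '' (K : Set (Fin n))) =
          Submodule.span (ZMod 2) (v '' (B : Set (Fin n))) then (-2 : ℝ) ^ K.card else 0) *
        (if Submodule.span (ZMod 2) (v '' (J : Set (Fin n))) =
          Submodule.span (ZMod 2) (v '' (A : Set (Fin n))) then (-2 : ℝ) ^ J.card else 0) := by
    intro K hK J hJ
    have h5 := hcond J hJ K hK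
    rw [Finset.mem_powerset] at hJ hK
    have h6 : Disjoint J K := Finset.disjoint_of_subset_left hJ (Finset.disjoint_of_subset_right hK hdis)
    by_cases c1 : Submodule.span (ZMod 2) (v '' (K : Set (Fin n))) =
          Submodule.span (ZMod 2) (v '' (B : Set (Fin n)))
    · by_cases c2 : Submodule.span (ZMod 2) (v '' (J : Set (Fin n))) =
          Submodule.span (ZMod 2) (v '' (A : Set (Fin n)))
      · rw [if_pos (h5.2 ⟨c2, c1⟩), if_pos c1, if_pos c2, Finset.card_union_of_disjoint h6, pow_add]
        ring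
      · rw [if_neg fun h => c2 (h5.1 h).1, if_neg c2, mul_zero]
    · rw [if_neg fun h => c1 (h5.1 h).2, if_neg c1, zero_mul]
  rw [Finset.sum_congr rfl fun K hK => Finset.sum_congr rfl fun J hJ => h4 K hK J hJ] at h3
  rw [Finset.sum_congr rfl fun K _ => (Finset.mul_sum _ _ _).symm, ← Finset.sum_mul, mul_eq_zero] at h3
  have hne' : ∀ s : Bool, (∑ J ∈ (D.filter fun i => sd i = s).powerset,
      if Submodule.span (ZMod 2) (v '' (J : Set (Fin n))) =
          Submodule.span (ZMod 2) (v '' ((D.filter fun i => sd i = s : Finset (Fin n)) : Set (Fin n)))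
        then (-2 : ℝ) ^ J.card else 0) ≠ 0 := by
    intro s
    have h5 := span_ne v (D.filter fun i => sd i = s) ?_ ?_
    · generalize (D.filter fun i => sd i = s) = Z at h5 ⊢
      rw [Finset.sum_filter] at h5
      have h6 : ((∑ J ∈ Z.powerset, if Submodule.span (ZMod 2) (v '' (J : Set (Fin n))) =
          Submodule.span (ZMod 2) (v '' (Z : Set (Fin n))) then (-2 : ℤ) ^ J.card else 0 : ℤ) : ℝ) ≠ 0 := by
        rw [Int.cast_ne_zero]
        exact h5
      push_cast at h6
      exact h6
    · intro g hg h0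
      rw [Finset.mem_filter] at hg
      obtain ⟨l, hl, hM⟩ := hrow g hg.1
      have h6 := congrFun h0 l
      simp only [hv, Mr_apply, hg.1, hl, and_self, if_true, Pi.zero_apply] at h6
      exact hM h6
    · intro g hg h hh hgh h0
      rw [Finset.mem_filter] at hg hh
      obtain ⟨l, hl, hM⟩ := hinj g hg.1 h hh.1 hgh (by rw [hg.2, hh.2])
      have h6 := congrFun h0 l
      simp only [hv, Mr_apply, hg.1, hh.1, hl, and_self, if_true] at h6
      exact hM h6
  rcases h3 with h3 | h3
  · exact hne' false h3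
  · exact hne' true h3

/-- If the sum is constant, then everything can be removed. -/
theorem dm_of_const (M : Matrix (Fin n) (Fin n) (ZMod 2)) (sd : Fin n → Bool)
    (h1 : ∀ i j, M i j = M j i) (h2 : ∀ i j, sd i = sd j → M i j = 0) :
    ∀ (m : ℕ) (D : Finset (Fin n)), D.card = m → ∀ c : ℝ, (∀ T, fT M sd D T = c) → Dm M D := by
  intro m
  induction m using Nat.strong_induction_on with
  | _ m ih =>
    intro D hD c hc
    rcases D.eq_empty_or_nonempty with rfl | hne
    · exact Dm.empty
    · by_cases hz : ∃ i ∈ D, ∀ l ∈ D, M i l = 0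
      · obtain ⟨i, hi, hl⟩ := hz
        refine Dm.one hi hl (ih (D.erase i).card ?_ _ rfl (-c) fun T => ?_)
        · rw [← hD]
          exact Finset.card_erase_lt_of_mem hi
        · rw [← hc T, fT_one M sd h1 hi hl T, neg_neg]
      · have hrow : ∀ i ∈ D, ∃ l ∈ D, M i l ≠ 0 := by
          push Not at hz
          exact hz
        by_cases hp : ∃ i ∈ D, ∃ j ∈ D, i ≠ j ∧ sd i = sd j ∧ ∀ l ∈ D, M i l = M j l
        · obtain ⟨i, hi, j, hj, hij, hs, hl⟩ := hp
          refine Dm.two hi hj hij hl (hrow i hi) (ih ((D.erase i).erase j).card ?_ _ rfl c fun T => ?_)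
          · rw [← hD]
            exact (Finset.card_le_card (Finset.erase_subset j _)).trans_lt
              (Finset.card_erase_lt_of_mem hi)
          · rw [← hc T, fT_two M sd h1 hi hj hij hs hl T]
        · exfalso
          push Not at hp
          exact fT_core M sd h1 h2 D hne hrow hp c hc

end Pool.Agent.EVT
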