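import Pool.Agent.EVT.XB

/-!
# EVT module XC: the state sum at a root of unity

If `∑ (∏ weights) * T ^ rank = 1` for all real `x > 1` then also for `x = ζ`, `ζ ^ (2 ^ u) = -1`.  There the
weights of the elements with `k i = 2 ^ u * (even)` are `0` and `1`, the others `2` and `-1`.
-/

namespace Pool.Agent.EVT

open Finset

variable {n : ℕ}

/-- sums over functions and over sets -/
theorem sum_ind {R : Type*} [AddCommMonoid R] (g : (Fin n → Bool) → R) :
    ∑ I : Fin n → Bool, g I = ∑ J ∈ (univ : Finset (Fin n)).powerset, g (ind J) := by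
  refine Finset.sum_nbij' (fun I => univ.filter fun i => I i = true) (fun J => ind J) ?_ ?_ ?_ ?_ ?_
  · intro I _
    exact Finset.mem_powerset.2 (Finset.subset_univ _)
  · intro J _
    exact Finset.mem_univ _
  · intro I _
    funext i
    simp [ind]
  · intro J _
    ext i
    simp [ind]
  · intro I _
    congr 1
    funext i
    simp [ind]

/-- the polynomial of the state sum -/
private noncomputable def Wx (k : Fin n → ℤ) (i : Fin n) (b : Bool) : Polynomial ℂ :=
  if b = true then wt (k i) else wf (k i)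

private theorem Wx_eval (k : Fin n → ℤ) {z : ℂ} (hz : z ≠ 0) (I : Fin n → Bool) :
    (∏ i, Wx k i (I i)).eval z = (∏ i, z ^ (-k i).toNat) *
      ∏ i, (if I i = true then 1 - z ^ k i else z ^ k i) := by
  rw [Polynomial.eval_prod, ← Finset.prod_mul_distrib]
  refine Finset.prod_congr rfl fun i _ => ?_
  unfold Wx
  split_ifs
  · exact wt_eval hz _
  · exact wf_eval hz _

/-- the state sum at every complex number -/
theorem sum_complex (k : Fin n → ℤ) (r : (Fin n → Bool) → ℕ) (T : ℝ)
    (h : ∀ x : ℝ, 1 < x → ∑ I : Fin n → Bool, (∏ i, if I i = true then 1 - x ^ k i else x ^ k i) *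
      T ^ r I = 1) (z : ℂ) (hz : z ≠ 0) :
    ∑ I : Fin n → Bool, (∏ i, if I i = true then 1 - z ^ k i else z ^ k i) * (T : ℂ) ^ r I = 1 := by
  set P : Polynomial ℂ := ∑ I : Fin n → Bool, (∏ i, Wx k i (I i)) * Polynomial.C ((T : ℂ) ^ r I) -
    ∏ i, (Polynomial.X : Polynomial ℂ) ^ (-k i).toNat with hP
  have hev : ∀ y : ℂ, y ≠ 0 → P.eval y = (∏ i, y ^ (-k i).toNat) *
      (∑ I : Fin n → Bool, (∏ i, if I i = true then 1 - y ^ k i else y ^ k i) * (T : ℂ) ^ r I - 1) := by
    intro y hy
    rw [hP, Polynomial.eval_sub, Polynomial.eval_finsetSum, mul_sub, mul_one, Finset.mul_sum]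
    congr 1
    · refine Finset.sum_congr rfl fun I _ => ?_
      rw [Polynomial.eval_mul, Polynomial.eval_C, Wx_eval k hy, mul_assoc]
    · rw [Polynomial.eval_prod]
      refine Finset.prod_congr rfl fun i _ => ?_
      rw [Polynomial.eval_pow, Polynomial.eval_X]
  have h0 : P = 0 := by
    apply Polynomial.eq_zero_of_infinite_isRoot
    refine Set.Infinite.mono (s := (fun x : ℝ => (x : ℂ)) '' Set.Ioi 1) ?_ ?_
    · rintro _ ⟨x, hx, rfl⟩
      show P.eval (x : ℂ) = 0
      have hx0 : (x : ℂ) ≠ 0 := by
        rw [Ne, Complex.ofReal_eq_zero]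
        have : (1 : ℝ) < x := hx
        linarith
      rw [hev _ hx0]
      have h3 := congrArg (fun y : ℝ => (y : ℂ)) (h x hx)
      push_cast at h3
      have h4 : ∑ I : Fin n → Bool, (∏ i, if I i = true then 1 - (x : ℂ) ^ k i else (x : ℂ) ^ k i) *
          (T : ℂ) ^ r I = 1 := by
        refine Eq.trans ?_ h3
        refine Finset.sum_congr rfl fun I _ => ?_
        congr 1
        refine Finset.prod_congr rfl fun i _ => ?_
        split_ifs
        · push_cast
          rfl
        · push_cast
          rfl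
      rw [h4, sub_self, mul_zero]
    · exact (Set.Ioi_infinite (1 : ℝ)).image (Complex.ofReal_injective.injOn)
  have h1 := hev z hz
  rw [h0, Polynomial.eval_zero] at h1
  have h2 : (∏ i, z ^ (-k i).toNat) ≠ 0 := by
    rw [Finset.prod_ne_zero_iff]
    exact fun i _ => pow_ne_zero _ hz
  have h3 := (mul_eq_zero.1 h1.symm).resolve_left h2
  linear_combination h3

/-- the sum at the root of unity -/
theorem fT_const (M : Matrix (Fin n) (Fin n) (ZMod 2)) (sd : Fin n → Bool) (u : ℕ)
    (k c : Fin n → ℤ) (hk : ∀ i, k i = 2 ^ u * c i) (T : ℝ)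
    (h : ∀ x : ℝ, 1 < x → ∑ I : Fin n → Bool, (∏ i, if I i = true then 1 - x ^ k i else x ^ k i) *
      T ^ rkI M sd I = 1) :
    fT M sd (univ.filter fun i => ¬ Even (c i)) T =
      (-1) ^ (univ.filter fun i => ¬ Even (c i)).card := by
  classical
  -- the root of unity
  set z : ℂ := Complex.exp (Real.pi * Complex.I / 2 ^ u) with hz
  have hz0 : z ≠ 0 := Complex.exp_ne_zero _
  have hz1 : z ^ ((2 : ℤ) ^ u) = -1 := by
    have h3 : ((2 : ℤ) ^ u) = ((2 ^ u : ℕ) : ℤ) := by push_cast; rfl
    rw [h3, zpow_natCast, hz, ← Complex.exp_nat_mul]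
    have : ((2 ^ u : ℕ) : ℂ) * (Real.pi * Complex.I / 2 ^ u) = Real.pi * Complex.I := by
      push_cast
      field_simp
    rw [this, Complex.exp_pi_mul_I]
  set D := univ.filter fun i => ¬ Even (c i) with hD
  have hzD : ∀ i ∈ D, z ^ k i = -1 := by
    intro i hi
    rw [hD, Finset.mem_filter] at hi
    rw [hk i, zpow_mul, hz1]
    exact Odd.neg_one_zpow (Int.not_even_iff_odd.1 hi.2)
  have hzE : ∀ i, i ∉ D → z ^ k i = 1 := by
    intro i hi
    rw [hD, Finset.mem_filter, not_and, not_not] at hi
    rw [hk i, zpow_mul, hz1]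
    exact Even.neg_one_zpow (hi (Finset.mem_univ i))
  have h1 := sum_complex k (fun I => rkI M sd I) T h z hz0
  rw [sum_ind] at h1
  have h2 : ∀ J ∈ (univ : Finset (Fin n)).powerset,
      (∏ i, if ind J i = true then 1 - z ^ k i else z ^ k i) * (T : ℂ) ^ rkI M sd (ind J) =
        if J ⊆ D then (-1) ^ D.card * ((-2) ^ J.card * (T : ℂ) ^ rkI M sd (ind J)) else 0 := by
    intro J _
    split_ifs with hJ
    · rw [← mul_assoc]
      congr 1
      simp only [ind, decide_eq_true_eq]
      rw [Finset.prod_ite]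
      have e1 : (univ.filter fun i => i ∈ J) = J := by
        ext i
        simp
      have e2 : (univ.filter fun i => i ∉ J) = (D \ J) ∪ (univ \ D) := by
        ext i
        simp only [Finset.mem_filter, Finset.mem_univ, true_and, Finset.mem_union, Finset.mem_sdiff]
        constructor
        · intro hi
          by_cases hiD : i ∈ D
          · exact Or.inl ⟨hiD, hi⟩
          · exact Or.inr hiD
        · rintro (h3 | h3)
          · exact h3.2
          · exact fun h4 => h3 (hJ h4)
      rw [e1, e2, Finset.prod_union]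
      · rw [Finset.prod_congr rfl (g := fun _ => (2 : ℂ)) fun i hi => by
            rw [hzD i (hJ hi)]
            norm_num,
          Finset.prod_congr rfl (s₁ := D \ J) (g := fun _ => (-1 : ℂ)) fun i hi =>
            hzD i (Finset.mem_sdiff.1 hi).1,
          Finset.prod_congr rfl (s₁ := univ \ D) (g := fun _ => (1 : ℂ)) fun i hi =>
            hzE i (Finset.mem_sdiff.1 hi).2,
          Finset.prod_const, Finset.prod_const, Finset.prod_const_one, mul_one]
        have h7 : D.card = (D \ J).card + J.card := (Finset.card_sdiff_add_card_eq_card hJ).symm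
        have h8 : (-2 : ℂ) ^ J.card = (-1) ^ J.card * 2 ^ J.card := by
          rw [← mul_pow]
          norm_num
        rw [h7, h8, pow_add]
        have h9 : (-1 : ℂ) ^ J.card * (-1) ^ J.card = 1 := by
          rw [← mul_pow]
          norm_num
        linear_combination -(2 : ℂ) ^ J.card * (-1) ^ (D \ J).card * h9
      · rw [Finset.disjoint_left]
        intro i hi hi'
        exact (Finset.mem_sdiff.1 hi').2 (Finset.mem_sdiff.1 hi).1
    · obtain ⟨i, hi, hiD⟩ := Finset.not_subset.1 hJ
      have h3 : ∏ i, (if ind J i = true then 1 - z ^ k i else z ^ k i) = 0 := by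
        apply Finset.prod_eq_zero (Finset.mem_univ i)
        rw [if_pos (by simpa [ind] using hi), hzE i hiD, sub_self]
      rw [h3, zero_mul]
  rw [Finset.sum_congr rfl h2, ← Finset.sum_filter] at h1
  have h3 : (univ : Finset (Fin n)).powerset.filter (fun J => J ⊆ D) = D.powerset := by
    ext J
    simp
  rw [h3, ← Finset.mul_sum] at h1
  have h4 : ((fT M sd D T : ℝ) : ℂ) = ∑ J ∈ D.powerset, (-2) ^ J.card * (T : ℂ) ^ rkI M sd (ind J) := by
    unfold fT
    push_cast
    rfl
  rw [← h4] at h1
  have h5 : (-1 : ℝ) ^ D.card * fT M sd D T = 1 := by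
    have h6 : (((-1 : ℝ) ^ D.card * fT M sd D T : ℝ) : ℂ) = ((1 : ℝ) : ℂ) := by
      push_cast
      exact h1
    exact Complex.ofReal_injective h6
  have h6 : (-1 : ℝ) ^ D.card * (-1) ^ D.card = 1 := by
    rw [← mul_pow]
    norm_num
  calc fT M sd D T = ((-1 : ℝ) ^ D.card * (-1) ^ D.card) * fT M sd D T := by rw [h6, one_mul]
    _ = (-1) ^ D.card * ((-1) ^ D.card * fT M sd D T) := by ring
    _ = (-1) ^ D.card := by rw [h5, mul_one]

end Pool.Agent.EVT
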