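import Pool.Agent.EVT.FE
import Pool.Agent.EVT.RD

/-!
# EVT module XD: labellings over `F₂` and smoothings

* `lb_lab'`: a labelling with jumps gives a labelling of the smoothed pattern.
* `lab_lb`: the converse.
-/

namespace Pool.Agent.EVT

open Finset
open Pool.Agent.Helper9.FA (Item labels wfP)
open Pool.Agent.Helper9.TW (Lab Conn)
open Pool.Agent.Helper77.CR (smo)

/-- the condition at a vertex -/
def Q1 (o : Option Bool) (p : ZMod 2 × ZMod 2) : Prop :=
  (o = some true ∧ p.2 = 0) ∨ (p.1 = 0 ∧ (o = some false ∨ p.2 = 0))

private theorem rl_zero_xd {x : ZMod 2} (h : rl x = 0) : x = 0 := by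
  unfold rl at h
  by_contra hx
  rw [if_neg hx] at h
  exact one_ne_zero h

theorem lb_lab' {S : List (Item Unit)} {b d u : List (ZMod 2)} (h : LB S b d u)
    (f : List (Option Bool)) (hf : List.Forall₂ Q1 f (b.zip d)) :
    ∃ L, Lab (smo f S) L (u.map rl) ∧
      ((∀ s ∈ L, s = 0) → (∀ x ∈ u, x = 0) ∧ ∀ x ∈ b, x = 0) := by
  induction h generalizing f with
  | nil =>
    refine ⟨[], ?_, ?_⟩
    · simp only [List.map_nil, List.map_cons, rl, if_true]
      have e : smo f ([] : List (Item Unit)) = [] := by cases f <;> rfl
      rw [e]
      exact Lab.nil
    · intro _
      simp
  | @cup S b d l r s h ih =>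
    obtain ⟨L, h1, h2⟩ := ih f hf
    refine ⟨L, ?_, ?_⟩
    · rw [List.map_append, List.map_cons, List.map_cons] at h1
      have := Lab.cup h1
      rw [List.length_map] at this
      rw [List.map_append]
      have e : smo f (Item.cup l.length :: S) = Item.cup l.length :: smo f S := by
        cases f with
        | nil => rfl
        | cons o f => cases o with
          | none => rfl
          | some o => cases o <;> rfl
      rw [e]
      exact this
    · intro hL
      obtain ⟨h3, h4⟩ := h2 hL
      refine ⟨?_, h4⟩
      intro x hx
      apply h3
      simp only [List.mem_append, List.mem_cons] at hx ⊢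
      tauto
  | @cap S b d l r s h ih =>
    obtain ⟨L, h1, h2⟩ := ih f hf
    refine ⟨rl s :: L, ?_, ?_⟩
    · rw [List.map_append] at h1
      have := Lab.cap (s := rl s) h1
      rw [List.length_map] at this
      rw [List.map_append, List.map_cons, List.map_cons]
      have e : smo f (Item.cap l.length :: S) = Item.cap l.length :: smo f S := by
        cases f with
        | nil => rfl
        | cons o f => cases o with
          | none => rfl
          | some o => cases o <;> rfl
      rw [e]
      exact this
    · intro hL
      have hs : s = 0 := rl_zero_xd (hL _ List.mem_cons_self)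
      obtain ⟨h3, h4⟩ := h2 (fun x hx => hL x (List.mem_cons_of_mem _ hx))
      refine ⟨?_, h4⟩
      intro x hx
      simp only [List.mem_append, List.mem_cons] at hx
      rcases hx with hx | hx | hx | hx
      · exact h3 x (List.mem_append_left _ hx)
      · rw [hx, hs]
      · rw [hx, hs]
      · exact h3 x (List.mem_append_right _ hx)
  | @box S b d l r s t x a h ih =>
    rw [List.zip_cons_cons] at hf
    cases hf with
    | @cons o _ f _ ho hf =>
    obtain ⟨L, h1, h2⟩ := ih f hf
    have hst0 : ∀ s t : ZMod 2, s + t = 0 → s = t := by decide
    rcases ho with ⟨rfl, ho⟩ | ⟨ho, ho'⟩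
    · -- smoothed
      have hst : s = t := hst0 s t ho
      subst hst
      refine ⟨rl s :: L, ?_, ?_⟩
      · rw [List.map_append, List.map_cons, List.map_cons] at h1
        have h5 := Lab.cup h1
        have h6 := Lab.cap (s := rl s) h5
        rw [List.length_map] at h6
        rw [List.map_append, List.map_cons, List.map_cons]
        exact h6
      · intro hL
        have hs : s = 0 := rl_zero_xd (hL _ List.mem_cons_self)
        obtain ⟨h3, h4⟩ := h2 (fun x hx => hL x (List.mem_cons_of_mem _ hx))
        have h5 : s + x = 0 := h3 _ (by simp)
        have hx0 : x = 0 := by rwa [hs, zero_add] at h5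
        subst hx0
        rw [add_zero] at h3
        refine ⟨h3, ?_⟩
        intro y hy
        rcases List.mem_cons.1 hy with hy | hy
        · exact hy
        · exact h4 y hy
    · simp only at ho
      subst ho
      rw [add_zero, add_zero, List.map_append, List.map_cons, List.map_cons] at h1
      have key : ((∀ s ∈ L, s = 0) → (∀ x ∈ (l ++ s :: t :: r), x = 0) ∧ ∀ x ∈ (0 : ZMod 2) :: b, x = 0) := by
        intro hL
        obtain ⟨h3, h4⟩ := h2 hL
        rw [add_zero, add_zero] at h3
        refine ⟨h3, ?_⟩
        intro y hy
        rcases List.mem_cons.1 hy with hy | hy
        · exact hy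
        · exact h4 y hy
      rcases o with _ | o
      · have hst : s = t := by
          rcases ho' with ho' | ho'
          · exact absurd ho' (by simp)
          · exact hst0 s t ho'
        subst hst
        refine ⟨L, ?_, key⟩
        have := Lab.box (a := a) h1
        rw [List.length_map] at this
        rw [List.map_append, List.map_cons, List.map_cons]
        exact this
      · cases o with
        | false =>
          refine ⟨L, ?_, key⟩
          rw [List.map_append, List.map_cons, List.map_cons]
          exact h1
        | true =>
          have hst : s = t := by
            rcases ho' with ho' | ho'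
            · exact absurd ho' (by simp)
            · exact hst0 s t ho'
          subst hst
          refine ⟨rl s :: L, ?_, ?_⟩
          · have h5 := Lab.cup h1
            have h6 := Lab.cap (s := rl s) h5
            rw [List.length_map] at h6
            rw [List.map_append, List.map_cons, List.map_cons]
            exact h6
          · intro hL
            exact key fun s hs => hL s (List.mem_cons_of_mem _ hs)

/-- the condition at a vertex, converse -/
def Q2 (o : Option Bool) (p : ZMod 2 × ZMod 2) : Prop :=
  (o = none ∧ p.1 = 0 ∧ p.2 = 0) ∨ (o = some false ∧ p.1 = 0) ∨ (o = some true ∧ p.2 = 0)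

theorem smo_cup (f : List (Option Bool)) (k : ℕ) (S : List (Item Unit)) :
    smo f (Item.cup k :: S) = Item.cup k :: smo f S := by
  cases f with
  | nil => rfl
  | cons o f => cases o with
    | none => rfl
    | some o => cases o <;> rfl

theorem smo_cap (f : List (Option Bool)) (k : ℕ) (S : List (Item Unit)) :
    smo f (Item.cap k :: S) = Item.cap k :: smo f S := by
  cases f with
  | nil => rfl
  | cons o f => cases o with
    | none => rfl
    | some o => cases o <;> rfl

private theorem take_drop_app {l r : List (ZMod 2)} {k : ℕ} (h : l.length = k) {g : ℕ → ZMod 2}
    {L : List ℕ} (hL : l ++ r = L.map g) : l = (L.take k).map g ∧ r = (L.drop k).map g := by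
  have e : L.map g = (L.take k).map g ++ (L.drop k).map g := by
    rw [← List.map_append, List.take_append_drop]
  have hk : k ≤ L.length := by
    have := congrArg List.length hL
    rw [List.length_append, List.length_map] at this
    omega
  rw [e] at hL
  exact List.append_inj hL (by rw [List.length_map, List.length_take, h]; omega)

private theorem lab_cup_inv {k : ℕ} {P : List (Item Unit)} {K u : List ℝ}
    (h : Lab (Item.cup k :: P) K u) :
    ∃ (l r : List ℝ) (s : ℝ), l.length = k ∧ u = l ++ r ∧ Lab P K (l ++ s :: s :: r) := by
  cases h with
  | cup h => exact ⟨_, _, _, rfl, rfl, h⟩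

private theorem split_two {k : ℕ} {u : List ℝ} (h : k + 2 ≤ u.length) :
    ∃ (l r : List ℝ) (s t : ℝ), l.length = k ∧ u = l ++ s :: t :: r := by
  have h1 : u = u.take k ++ u.drop k := (List.take_append_drop k u).symm
  have h2 : (u.drop k).length = u.length - k := List.length_drop
  match hd : u.drop k with
  | [] => rw [hd] at h2; simp only [List.length_nil] at h2; omega
  | [_] => rw [hd] at h2; simp only [List.length_cons, List.length_nil] at h2; omega
  | s :: t :: r =>
    refine ⟨u.take k, r, s, t, ?_, ?_⟩
    · rw [List.length_take]
      omega
    · rw [← hd]
      exact h1

/-- a labelling of the smoothed pattern gives a labelling with jumps; without jumps all labels at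
the maxima vanish -/
theorem lab_lb (χ : ℝ → ZMod 2) (hχ : χ 0 = 0) (S : List (Item Unit)) :
    ∀ (f : List (Option Bool)) (K u : List ℝ) (n : ℕ), f.length = (labels S).length → wfS n S 1 →
    Lab (smo f S) K u → u.length = n ∧
    ∃ b d, LB S b d (u.map χ) ∧ List.Forall₂ Q2 f (b.zip d) ∧
      ∀ (c m : ℕ) (L : List ℕ) (g : ℕ → ZMod 2), ArcP c L S → Cnt c L m → (∀ x ∈ b, x = 0) →
        u.map χ = L.map g → (∀ x ∈ L, g x = 0) ∧ ∀ s ∈ K, χ s = 0 := by
  induction S with
  | nil =>
    intro f K u n hf hw h
    have hf' : f = [] := List.length_eq_zero_iff.1 hf
    subst hf'
    have e : smo ([] : List (Option Bool)) ([] : List (Item Unit)) = [] := rfl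
    rw [e] at h
    have hn : n = 1 := hw
    subst hn
    cases h
    refine ⟨rfl, [], [], ?_, List.Forall₂.nil, ?_⟩
    · rw [List.map_cons, List.map_nil, hχ]
      exact LB.nil
    · intro c m L g hL _ _ hg
      simp only [ArcP] at hL
      rw [List.map_cons, List.map_nil, hχ] at hg
      refine ⟨fun x hx => ?_, fun s hs => absurd hs (by simp)⟩
      have h3 : g x ∈ L.map g := List.mem_map_of_mem hx
      rw [← hg] at h3
      simpa using h3
  | cons it S ih =>
    intro f K u n hf hw h
    rcases it with k | k | ⟨k, a⟩
    · rw [smo_cup] at h
      cases h with
      | @cup _ _ l r s h =>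
      obtain ⟨hn, b, d, h1, h2, h3⟩ := ih f K _ (n + 2) hf hw.2 h
      rw [List.map_append, List.map_cons, List.map_cons] at h1 h3
      refine ⟨?_, b, d, ?_, h2, ?_⟩
      · rw [List.length_append, List.length_cons, List.length_cons] at hn
        rw [List.length_append]
        omega
      · have := LB.cup h1
        rw [List.length_map] at this
        rw [List.map_append]
        exact this
      · intro c m L g hL hc hb hg
        simp only [ArcP] at hL
        have hcL : ∀ x ∈ L, x ≠ c := fun x hx => (hc.2.2 x hx).ne
        rw [List.map_append] at hg
        obtain ⟨e1, e2⟩ := take_drop_app (by rw [List.length_map]) hg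
        have e3 : ∀ M : List ℕ, (∀ z ∈ M, z ∈ L) →
            M.map (Function.update g c (χ s)) = M.map g := by
          intro M hM
          refine List.map_congr_left fun z hz => ?_
          rw [Function.update_of_ne (hcL z (hM z hz))]
        obtain ⟨h4, h5⟩ := h3 (c + 1) m _ (Function.update g c (χ s)) hL.2 (cnt_cup hc _) hb (by
          rw [List.map_append, List.map_cons, List.map_cons, Function.update_self,
            e3 _ (fun z hz => List.mem_of_mem_take hz), e3 _ (fun z hz => List.mem_of_mem_drop hz),
            ← e1, ← e2])
        refine ⟨fun x hx => ?_, h5⟩
        have h6 := h4 x (by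
          rw [List.mem_append, List.mem_cons, List.mem_cons]
          rw [← List.take_append_drop l.length L, List.mem_append] at hx
          tauto)
        rwa [Function.update_of_ne (hcL x hx)] at h6
    · rw [smo_cap] at h
      cases h with
      | @cap _ K l r s h =>
      obtain ⟨hn, b, d, h1, h2, h3⟩ := ih f K _ (n - 2) hf hw.2 h
      rw [List.map_append] at h1 h3
      refine ⟨?_, b, d, ?_, h2, ?_⟩
      · rw [List.length_append] at hn
        rw [List.length_append, List.length_cons, List.length_cons]
        have := hw.1
        omega
      · have := LB.cap (s := χ s) h1
        rw [List.length_map] at this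
        rw [List.map_append, List.map_cons, List.map_cons]
        exact this
      · intro c m L g hL hc hb hg
        simp only [ArcP] at hL
        rw [List.map_append, List.map_cons, List.map_cons] at hg
        obtain ⟨e1, e2⟩ := take_drop_app (by rw [List.length_map]) hg
        match hd : L.drop l.length with
        | [] => rw [hd] at hL; exact hL.elim
        | [_] => rw [hd] at hL; exact hL.elim
        | x :: y :: R =>
          rw [hd] at hL e2
          obtain ⟨hxy, hL⟩ := hL
          rw [List.map_cons, List.map_cons, List.cons.injEq, List.cons.injEq] at e2
          obtain ⟨gx, gy, gR⟩ := e2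
          have hLe : L = L.take l.length ++ x :: y :: R := by rw [← hd, List.take_append_drop]
          obtain ⟨h4, h5⟩ := h3 c _ _ g hL (cnt_cap hc hd hxy) hb (by
            rw [e1, gR, ← List.map_append, List.map_map]
            refine List.map_congr_left fun v _ => ?_
            simp only [Function.comp_apply]
            by_cases hv : v = y
            · rw [if_pos hv, hv, ← gx, gy]
            · rw [if_neg hv])
          have hs0 : χ s = 0 := by
            have hex : ∃ z ∈ L.take l.length ++ R, z = x ∨ z = y := by
              have hcnt : ∀ z, z ≠ m → (z = x ∨ z = y) → z ∈ L.take l.length ++ R := by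
                intro z hzm hz
                have hzL : z ∈ L := by
                  rw [hLe]
                  rcases hz with rfl | rfl <;> simp
                have hcx := hc.2.1 z hzL hzm
                rw [hLe, List.count_append] at hcx
                by_contra hcon
                rw [List.mem_append, not_or] at hcon
                rw [List.count_eq_zero_of_not_mem hcon.1] at hcx
                rcases hz with rfl | rfl
                · rw [List.count_cons_self, List.count_cons_of_ne hxy.symm,
                    List.count_eq_zero_of_not_mem hcon.2] at hcx
                  omega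
                · rw [List.count_cons_of_ne hxy, List.count_cons_self,
                    List.count_eq_zero_of_not_mem hcon.2] at hcx
                  omega
              by_cases hxm : x = m
              · exact ⟨y, hcnt y (fun h => hxy (hxm.trans h.symm)) (Or.inr rfl), Or.inr rfl⟩
              · exact ⟨x, hcnt x hxm (Or.inl rfl), Or.inl rfl⟩
            obtain ⟨z, hz, hz'⟩ := hex
            have h6 := h4 _ (List.mem_map_of_mem (f := fun z => if z = y then x else z) hz)
            rcases hz' with rfl | rfl
            · simp only [hxy, if_false] at h6
              rw [gx, h6]
            · simp only [if_true] at h6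
              rw [gx, h6]
          refine ⟨fun z hz => ?_, fun t ht => ?_⟩
          · rw [hLe] at hz
            have h7 : ∀ w ∈ L.take l.length ++ R, g w = 0 := by
              intro w hw
              have h6 := h4 _ (List.mem_map_of_mem (f := fun z => if z = y then x else z) hw)
              by_cases hwy : w = y
              · rw [hwy, ← gy, hs0]
              · simpa only [hwy, if_false] using h6
            rw [List.mem_append, List.mem_cons, List.mem_cons] at hz
            rcases hz with hz | rfl | rfl | hz
            · exact h7 z (List.mem_append_left _ hz)
            · rw [← gx, hs0]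
            · rw [← gy, hs0]
            · exact h7 z (List.mem_append_right _ hz)
          · rcases List.mem_cons.1 ht with rfl | ht
            · exact hs0
            · exact h5 t ht
    · rcases f with _ | ⟨o, f⟩
      · simp [labels] at hf
      · have hf' : f.length = (labels S).length := by
          simp only [labels, List.length_cons] at hf
          omega
        rcases o with _ | o
        · have e : smo (none :: f) (Item.box k a :: S) = Item.box k a :: smo f S := rfl
          rw [e] at h
          cases h with
          | @box _ _ l r s _ h =>
          obtain ⟨hn, b, d, h1, h2, h3⟩ := ih f K _ n hf' hw.2 h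
          rw [List.map_append, List.map_cons, List.map_cons] at h1 h3
          refine ⟨hn, 0 :: b, 0 :: d, ?_, ?_, ?_⟩
          · have h4 : LB S b d (l.map χ ++ (χ s + 0) :: (χ s + 0) :: r.map χ) := by
              rw [add_zero]
              exact h1
            have h5 := LB.box (a := a) h4
            rw [List.length_map] at h5
            rw [List.map_append, List.map_cons, List.map_cons]
            have h6 : χ s + χ s = 0 := CharTwo.add_self_eq_zero _
            rw [h6] at h5
            exact h5
          · rw [List.zip_cons_cons]
            exact List.Forall₂.cons (Or.inl ⟨rfl, rfl, rfl⟩) h2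
          · intro c m L g hL hc hb hg
            simp only [ArcP] at hL
            rw [List.map_append, List.map_cons, List.map_cons] at hg
            exact h3 c m L g hL.2 hc (fun x hx => hb x (List.mem_cons_of_mem _ hx)) hg
        · cases o with
          | false =>
            have e : smo (some false :: f) (Item.box k a :: S) = smo f S := rfl
            rw [e] at h
            obtain ⟨hn, b, d, h1, h2, h3⟩ := ih f K u n hf' hw.2 h
            obtain ⟨l, r, s, t, hl, rfl⟩ := split_two (k := k) (u := u) (by rw [hn]; exact hw.1)
            subst hl
            refine ⟨hn, 0 :: b, (χ s + χ t) :: d, ?_, ?_, ?_⟩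
            · rw [List.map_append, List.map_cons, List.map_cons] at h1 ⊢
              have h4 : LB S b d (l.map χ ++ (χ s + 0) :: (χ t + 0) :: r.map χ) := by
                rw [add_zero, add_zero]
                exact h1
              have h5 := LB.box (a := a) h4
              rw [List.length_map] at h5
              exact h5
            · rw [List.zip_cons_cons]
              exact List.Forall₂.cons (Or.inr (Or.inl ⟨rfl, rfl⟩)) h2
            · intro c m L g hL hc hb hg
              simp only [ArcP] at hL
              exact h3 c m L g hL.2 hc (fun x hx => hb x (List.mem_cons_of_mem _ hx)) hg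
          | true =>
            have e : smo (some true :: f) (Item.box k a :: S) =
              Item.cap k :: Item.cup k :: smo f S := rfl
            rw [e] at h
            cases h with
            | @cap _ K l r s h =>
            obtain ⟨l', r', s', hl, hlr, h⟩ := lab_cup_inv h
            obtain ⟨rfl, rfl⟩ := List.append_inj hlr hl.symm
            obtain ⟨hn, b, d, h1, h2, h3⟩ := ih f K _ n hf' hw.2 h
            rw [List.map_append, List.map_cons, List.map_cons] at h1 h3
            have hx : χ s + (χ s + χ s') = χ s' := by
              rw [← add_assoc, CharTwo.add_self_eq_zero, zero_add]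
            refine ⟨?_, (χ s + χ s') :: b, 0 :: d, ?_, ?_, ?_⟩
            · rw [List.length_append, List.length_cons, List.length_cons] at hn ⊢
              exact hn
            · have h4 : LB S b d (l.map χ ++ (χ s + (χ s + χ s')) :: (χ s + (χ s + χ s')) ::
                  r.map χ) := by
                rw [hx]
                exact h1
              have h5 := LB.box (a := a) h4
              rw [List.length_map] at h5
              rw [List.map_append, List.map_cons, List.map_cons]
              have h6 : χ s + χ s = 0 := CharTwo.add_self_eq_zero _
              rw [h6] at h5
              exact h5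
            · rw [List.zip_cons_cons]
              exact List.Forall₂.cons (Or.inr (Or.inr ⟨rfl, rfl⟩)) h2
            · intro c m L g hL hc hb hg
              simp only [ArcP] at hL
              rw [List.map_append, List.map_cons, List.map_cons] at hg
              have h7 : χ s + χ s' = 0 := hb _ List.mem_cons_self
              have h8 : χ s' = χ s := by rw [← hx, h7, add_zero]
              obtain ⟨h4, h5⟩ := h3 c m L g hL.2 hc (fun x hx => hb x (List.mem_cons_of_mem _ hx))
                (by rw [h8]; exact hg)
              refine ⟨h4, fun t ht => ?_⟩
              rcases List.mem_cons.1 ht with rfl | ht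
              · have h9 : χ t ∈ L.map g := by
                  rw [← hg]
                  simp
                obtain ⟨z, hz, hz'⟩ := List.mem_map.1 h9
                rw [← hz', h4 z hz]
              · exact h5 t ht

end Pool.Agent.EVT
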