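import Pool.Agent.EVT.Defs4
import Pool.Agent.EVT.XB
import Pool.Agent.EVT.XD

/-!
# EVT module XE: from the matrix to the pattern

If a set of vertices can be removed step by step for the matrix (`Dm M D`), then also for the pattern
(`Dissolves`).
-/

namespace Pool.Agent.EVT

open Finset
open Pool.Agent.Helper9.FA (Item labels wfP)
open Pool.Agent.Helper9.TW (Lab Conn)
open Pool.Agent.Helper77.CR (smo)

variable {n : ℕ}

private theorem xe_zip (x y : Fin n → ZMod 2) :
    List.zip (List.ofFn x) (List.ofFn y) = List.ofFn fun i => (x i, y i) := by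
  apply List.ext_getElem
  · simp
  · intro i h1 h2
    simp

private theorem xe_ofFn {α : Type*} (l : List α) (h : l.length = n) :
    ∃ x : Fin n → α, l = List.ofFn x := by
  subst h
  exact ⟨l.get, (List.ofFn_get l).symm⟩

private theorem xe_st (D B : Finset (Fin n)) :
    st n (D.map Fin.valEmbedding) (B.map Fin.valEmbedding) =
      List.ofFn fun i => if i ∈ B then some true else if i ∈ D then none else some false := by
  unfold st
  apply List.ext_getElem
  · simp
  · intro i h1 h2
    have hi : i < n := by simpa using h1
    simp only [List.getElem_map, List.getElem_range, List.getElem_ofFn]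
    have e : ∀ A : Finset (Fin n), i ∈ A.map Fin.valEmbedding ↔ (⟨i, hi⟩ : Fin n) ∈ A := by
      intro A
      rw [Finset.mem_map]
      constructor
      · rintro ⟨a, ha, hai⟩
        have : a = ⟨i, hi⟩ := Fin.ext hai
        rwa [← this]
      · intro h
        exact ⟨_, h, rfl⟩
    simp only [e]

private theorem xe_forall {α β : Type*} (R : α → β → Prop) (f : Fin n → α) (g : Fin n → β) :
    List.Forall₂ R (List.ofFn f) (List.ofFn g) ↔ ∀ i, R (f i) (g i) := by
  rw [List.forall₂_iff_get]
  constructor
  · rintro ⟨h1, h2⟩ i
    have := h2 i (by simp) (by simp)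
    simpa using this
  · intro h
    refine ⟨by simp, ?_⟩
    intro i h1 h2
    simpa using h _

private theorem xe_wadd (x y : Fin n → ZMod 2) :
    wadd (List.ofFn x) (List.ofFn y) = List.ofFn (x + y) := by
  unfold wadd
  apply List.ext_getElem
  · simp
  · intro i h1 h2
    simp

/-- the sums are given by the matrix -/
private theorem xe_uniq {S : List (Item Unit)} (hA : ArcP 1 [0] S)
    (hn : (sides S).length = n) (M : Matrix (Fin n) (Fin n) (ZMod 2))
    (h3 : ∀ x : Fin n → ZMod 2, LB S (List.ofFn x) (List.ofFn (M.mulVec x)) [0])
    {x y : Fin n → ZMod 2} (h : LB S (List.ofFn x) (List.ofFn y) [0]) : y = M.mulVec x := by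
  have h4 := lb_add h (h3 x) rfl
  rw [xe_wadd, xe_wadd] at h4
  have e1 : x + x = 0 := by
    funext i
    exact CharTwo.add_self_eq_zero _
  have e2 : wadd [0] [0] = [0] := by decide
  have e3 : List.ofFn (0 : Fin n → ZMod 2) = List.replicate n 0 := by
    rw [← List.ofFn_const]
    rfl
  have e4 : List.replicate n (0 : ZMod 2) = List.replicate (sides S).length 0 := by rw [hn]
  rw [e1, e2, e3, e4] at h4
  have h5 := lb_zero S hA _ h4
  funext i
  have h6 : (y + M.mulVec x) i ∈ List.ofFn (y + M.mulVec x) := List.mem_ofFn.2 ⟨i, rfl⟩
  rw [h5] at h6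
  have h7 : y i + M.mulVec x i = 0 := List.eq_of_mem_replicate h6
  have h8 : ∀ a b : ZMod 2, a + b = 0 → a = b := by decide
  exact h8 _ _ h7

/-- a labelling with jumps in `B` only disconnects -/
private theorem not_conn {S : List (Item Unit)} (hn : (labels S).length = n)
    (M : Matrix (Fin n) (Fin n) (ZMod 2))
    (h3 : ∀ x : Fin n → ZMod 2, LB S (List.ofFn x) (List.ofFn (M.mulVec x)) [0])
    (D B : Finset (Fin n)) (hB : B ⊆ D) (x : Fin n → ZMod 2) (hx : ∀ i, i ∉ B → x i = 0)
    (hx0 : x ≠ 0) (hM : ∀ l ∈ D, M.mulVec x l = 0) :
    ¬ Conn (smo (st (labels S).length (D.map Fin.valEmbedding) (B.map Fin.valEmbedding)) S) := by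
  intro hC
  rw [hn, xe_st] at hC
  obtain ⟨L, h4, h5⟩ := lb_lab' (h3 x) (List.ofFn fun i => if i ∈ B then some true else
    if i ∈ D then none else some false) (by
      rw [xe_zip, xe_forall]
      intro i
      by_cases hi : i ∈ B
      · rw [if_pos hi]
        exact Or.inl ⟨rfl, hM i (hB hi)⟩
      · rw [if_neg hi]
        right
        refine ⟨hx i hi, ?_⟩
        by_cases hiD : i ∈ D
        · exact Or.inr (hM i hiD)
        · rw [if_neg hiD]
          exact Or.inl rfl)
  apply hx0
  funext i
  exact (h5 (hC _ _ h4)).2 _ (List.mem_ofFn.2 ⟨i, rfl⟩)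

/-- no labelling, so the smoothed pattern is connected -/
private theorem conn_of {S : List (Item Unit)} (hS : wfS 1 S 1) (hA : ArcP 1 [0] S)
    (hn : (sides S).length = n) (hn' : (labels S).length = n)
    (M : Matrix (Fin n) (Fin n) (ZMod 2))
    (h3 : ∀ x : Fin n → ZMod 2, LB S (List.ofFn x) (List.ofFn (M.mulVec x)) [0])
    (D C : Finset (Fin n))
    (h : ∀ x : Fin n → ZMod 2, (∀ i, i ∉ C → x i = 0) → (∀ l ∈ D, M.mulVec x l = 0) → x = 0) :
    Conn (smo (st (labels S).length (D.map Fin.valEmbedding) (C.map Fin.valEmbedding)) S) := by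
  classical
  rw [hn', xe_st]
  intro K u hL s hs
  by_contra hs0
  set χ : ℝ → ZMod 2 := fun t => if t = s then 1 else 0 with hχ
  have hχ0 : χ 0 = 0 := by
    simp only [hχ]
    rw [if_neg fun h => hs0 h.symm]
  obtain ⟨hu, b, d, h4, h5, h6⟩ := lab_lb χ hχ0 S _ K u 1 (by rw [List.length_ofFn, hn']) hS hL
  obtain ⟨u0, rfl⟩ := List.length_eq_one_iff.1 hu
  rw [List.map_cons, List.map_nil] at h4 h6
  have h7 := lb_pair h4 h4 rfl
  have hu0 : χ u0 = 0 := by
    have e1 : dotp [χ u0] [χ u0] = χ u0 * χ u0 := by
      unfold dotp
      simp
    rw [CharTwo.add_self_eq_zero, e1] at h7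
    have e2 : ∀ a : ZMod 2, 0 = a * a → a = 0 := by decide
    exact e2 _ h7
  rw [hu0] at h4 h6
  obtain ⟨x, rfl⟩ := xe_ofFn b ((lb_len h4).1.trans hn)
  obtain ⟨y, rfl⟩ := xe_ofFn d ((lb_len h4).2.1.trans hn)
  have hy := xe_uniq hA hn M h3 h4
  subst hy
  rw [xe_zip, xe_forall] at h5
  have hx0 : x = 0 := by
    apply h
    · intro i hi
      have h8 := h5 i
      rw [if_neg hi] at h8
      rcases h8 with h8 | h8 | h8
      · exact h8.2.1
      · exact h8.2
      · by_cases hiD : i ∈ D
        · rw [if_pos hiD] at h8
          exact absurd h8.1 (by simp)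
        · rw [if_neg hiD] at h8
          exact absurd h8.1 (by simp)
    · intro l hl
      have h8 := h5 l
      rcases h8 with h8 | h8 | h8
      · exact h8.2.2
      · by_cases hlC : l ∈ C
        · rw [if_pos hlC] at h8
          exact absurd h8.1 (by simp)
        · rw [if_neg hlC, if_pos hl] at h8
          exact absurd h8.1 (by simp)
      · exact h8.2
  obtain ⟨-, h9⟩ := h6 1 0 [0] (fun _ => 0) hA cnt_init (by
    intro z hz
    rw [hx0] at hz
    obtain ⟨i, rfl⟩ := List.mem_ofFn.1 hz
    rfl) rfl
  have h10 := h9 s hs
  simp only [hχ, if_true] at h10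
  exact one_ne_zero h10

private theorem mul_single (M : Matrix (Fin n) (Fin n) (ZMod 2)) (h1 : ∀ i j, M i j = M j i)
    (i l : Fin n) : M.mulVec (Pi.single i 1) l = M i l := by
  rw [Matrix.mulVec_single_one]
  exact (h1 i l).symm

theorem dis_of_dm {S : List (Item Unit)} (hS : wfS 1 S 1) (hA : ArcP 1 [0] S)
    (hn : (sides S).length = n) (M : Matrix (Fin n) (Fin n) (ZMod 2)) (h1 : ∀ i j, M i j = M j i)
    (h3 : ∀ x : Fin n → ZMod 2, LB S (List.ofFn x) (List.ofFn (M.mulVec x)) [0])
    {D : Finset (Fin n)} (h : Dm M D) : Dissolves S (D.map Fin.valEmbedding) := by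
  classical
  have hn' : (labels S).length = n := by rw [← sides_len, hn]
  have hz2 : ∀ a : ZMod 2, a = 0 ∨ a = 1 := by decide
  induction h with
  | empty =>
    rw [Finset.map_empty]
    exact Dissolves.empty
  | @one D i hi hl hD ih =>
    refine Dissolves.step (B := ({i} : Finset (Fin n)).map Fin.valEmbedding) ?_ ?_ ?_ ?_ ?_
    · exact Finset.map_subset_map.2 (Finset.singleton_subset_iff.2 hi)
    · rw [Finset.card_map, Finset.card_singleton]
      norm_num
    · refine not_conn hn' M h3 D {i} (Finset.singleton_subset_iff.2 hi) (Pi.single i 1) ?_ ?_ ?_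
      · intro j hj
        rw [Finset.mem_singleton] at hj
        exact Pi.single_eq_of_ne hj _
      · intro h0
        have := congrFun h0 i
        rw [Pi.single_eq_same] at this
        exact one_ne_zero this
      · intro l hlD
        rw [mul_single M h1]
        exact hl l hlD
    · intro C hC
      obtain ⟨C', hC', rfl⟩ := Finset.subset_map_iff.1 hC.subset
      have hC0 : C' = ∅ := by
        rcases Finset.subset_singleton_iff.1 hC' with h4 | h4
        · exact h4
        · rw [h4] at hC
          exact absurd hC (ssubset_irrefl _)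
      rw [hC0]
      apply conn_of hS hA hn hn' M h3
      intro x hx _
      funext l
      exact hx l (Finset.notMem_empty l)
    · rw [← Finset.map_sdiff, Finset.sdiff_singleton_eq_erase]
      exact ih
  | @two D i j hi hj hij hl hi' hD ih =>
    have hsub : ({i, j} : Finset (Fin n)) ⊆ D := by
      intro a ha
      rw [Finset.mem_insert, Finset.mem_singleton] at ha
      rcases ha with rfl | rfl
      · exact hi
      · exact hj
    refine Dissolves.step (B := ({i, j} : Finset (Fin n)).map Fin.valEmbedding) ?_ ?_ ?_ ?_ ?_
    · exact Finset.map_subset_map.2 hsub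
    · rw [Finset.card_map]
      exact Finset.card_le_two
    · refine not_conn hn' M h3 D {i, j} hsub (Pi.single i 1 + Pi.single j 1) ?_ ?_ ?_
      · intro a ha
        rw [Finset.mem_insert, Finset.mem_singleton, not_or] at ha
        rw [Pi.add_apply, Pi.single_eq_of_ne ha.1, Pi.single_eq_of_ne ha.2, add_zero]
      · intro h0
        have := congrFun h0 i
        rw [Pi.add_apply, Pi.single_eq_same, Pi.single_eq_of_ne hij, add_zero] at this
        exact one_ne_zero this
      · intro l hlD
        rw [Matrix.mulVec_add, Pi.add_apply, mul_single M h1, mul_single M h1, hl l hlD]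
        exact CharTwo.add_self_eq_zero _
    · intro C hC
      obtain ⟨C', hC', rfl⟩ := Finset.subset_map_iff.1 hC.subset
      have hne : C' ≠ {i, j} := by
        rintro rfl
        exact ssubset_irrefl _ hC
      have hij' : i ∉ C' ∨ j ∉ C' := by
        by_contra hcon
        rw [not_or, not_not, not_not] at hcon
        apply hne
        apply Finset.Subset.antisymm hC'
        intro a ha
        rw [Finset.mem_insert, Finset.mem_singleton] at ha
        rcases ha with rfl | rfl
        · exact hcon.1
        · exact hcon.2
      apply conn_of hS hA hn hn' M h3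
      intro x hx hMx
      have hout : ∀ a, a ≠ i → a ≠ j → x a = 0 := by
        intro a ha hb
        apply hx
        intro hac
        have := hC' hac
        rw [Finset.mem_insert, Finset.mem_singleton] at this
        tauto
      obtain ⟨l, hlD, hMl⟩ := hi'
      rcases hij' with h4 | h4
      · have h5 : x i = 0 := hx i h4
        rcases hz2 (x j) with h6 | h6
        · funext a
          by_cases ha : a = i
          · rw [ha, h5]
            rfl
          · by_cases hb : a = j
            · rw [hb, h6]
              rfl
            · exact hout a ha hb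
        · exfalso
          have h7 : x = Pi.single j 1 := by
            funext a
            by_cases hb : a = j
            · rw [hb, h6, Pi.single_eq_same]
            · rw [Pi.single_eq_of_ne hb]
              by_cases ha : a = i
              · rw [ha, h5]
              · exact hout a ha hb
          have h8 := hMx l hlD
          rw [h7, mul_single M h1, ← hl l hlD] at h8
          exact hMl h8
      · have h5 : x j = 0 := hx j h4
        rcases hz2 (x i) with h6 | h6
        · funext a
          by_cases ha : a = i
          · rw [ha, h6]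
            rfl
          · by_cases hb : a = j
            · rw [hb, h5]
              rfl
            · exact hout a ha hb
        · exfalso
          have h7 : x = Pi.single i 1 := by
            funext a
            by_cases ha : a = i
            · rw [ha, h6, Pi.single_eq_same]
            · rw [Pi.single_eq_of_ne ha]
              by_cases hb : a = j
              · rw [hb, h5]
              · exact hout a ha hb
          have h8 := hMx l hlD
          rw [h7, mul_single M h1] at h8
          exact hMl h8
    · rw [← Finset.map_sdiff]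
      have e : D \ {i, j} = (D.erase i).erase j := by
        ext a
        simp only [Finset.mem_sdiff, Finset.mem_insert, Finset.mem_singleton, Finset.mem_erase]
        tauto
      rw [e]
      exact ih

end Pool.Agent.EVT
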