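import Pool.Agent.EVT.FIN
import Pool.Agent.EVT.XC
import Pool.Agent.EVT.XE

/-!
# EVT module XF: the vertices of minimal valuation

All numbers of crossings are divisible by `2 ^ (u + 1)`.  If the set of the vertices whose numbers are not
divisible by `2 ^ (u + 2)` does not dissolve, then the knot is detected.
-/

namespace Pool.Agent.EVT

open Finset
open Pool.Agent.Helper9.Kashaev (Piece Diagram)
open Pool.Agent.Helper9.FA (Item twists labels wfP)
open Pool.Agent.Helper77.ST (Arc IsKnot tw IsVassiliev poly_of_diff tw_diff exists_finite_eqs)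

/-- also if some numbers are zero -/
theorem arc_tw' (S : List (Item Unit)) (ks : List ℤ) (c : ℕ) (L : List ℕ)
    (hl : ks.length = (sides S).length) (hw : wfS L.length S 1)
    (h : Arc c L (tw S (dbl2 ks))) : ArcP c L S := by
  induction S generalizing ks c L with
  | nil => exact h
  | cons s S ih =>
    rcases s with k | k | ⟨k, a⟩
    · simp only [tw] at h
      unfold Arc at h
      unfold ArcP
      have e : (L.take k ++ c :: c :: L.drop k).length = L.length + 2 := by
        simp only [List.length_append, List.length_take, List.length_cons, List.length_drop]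
        have := h.1
        omega
      exact ⟨h.1, ih ks (c + 1) _ hl (by rw [e]; exact hw.2) h.2⟩
    · simp only [tw] at h
      unfold Arc at h
      unfold ArcP
      split at h
      · rename_i x y R hd
        rw [hd]
        have h2 : (L.drop k).length = R.length + 2 := by rw [hd]; simp
        rw [List.length_drop] at h2
        have e : ((L.take k ++ R).map fun z => if z = y then x else z).length =
            L.length - 2 := by
          rw [List.length_map, List.length_append, List.length_take]
          omega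
        exact ⟨h.1, ih ks c _ hl (by rw [e]; exact hw.2) h.2⟩
      · exact h.elim
    · rcases ks with _ | ⟨x, ks⟩
      · simp [sides] at hl
      · have hl' : ks.length = (sides S).length := by
          simp only [sides, List.length_cons] at hl
          omega
        have e : tw (Item.box k a :: S) (dbl2 (x :: ks)) =
            twists k (2 * x) ++ tw S (dbl2 ks) := rfl
        rw [e] at h
        obtain ⟨-, h2⟩ := arc_twists x h
        unfold ArcP
        exact ⟨hw.1, ih ks c L hl' hw.2 h2⟩

theorem exists_VI3 (S : List (Item Unit)) (hS : wfP 1 S 1) {n : ℕ}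
    (hn : (sides S).length = n) (u : ℕ) (k c : Fin n → ℤ) (hk : ∀ i, k i = 2 ^ u * c i)
    (hD : ¬ Dissolves S ((univ.filter fun i => ¬ Even (c i)).map Fin.valEmbedding))
    (hK : IsKnot (tw S (dbl2 (List.ofFn k)))) :
    ∃ N j : ℕ, VI (N + 1) j (tw S (dbl2 (List.ofFn k))) ≠ VI (N + 1) j [] := by
  classical
  by_contra hcon
  push Not at hcon
  have hS' := wfS_of hS
  have hA : ArcP 1 [0] S := arc_tw' S (List.ofFn k) 1 [0] (by simp [hn]) hS' hK
  obtain ⟨M, h1, h2, h3, h4⟩ := exists_matrix S hS' hA n hn
  have h2' : ∀ i j, sdf S hn i = sdf S hn j → M i j = 0 := h2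
  apply hD
  apply dis_of_dm hS' hA hn M h1 h3
  refine dm_of_const M (sdf S hn) h1 h2' _ _ rfl _ (fun T => fT_const M (sdf S hn) u k c hk T ?_)
  intro x hx
  have h6 := poly_id S hS' hn k hK hcon M h1 h2' h4 1 (Or.inl rfl) x hx T
  simpa only [one_mul] using h6

/-- evenly twisted knots whose regions of minimal valuation do not dissolve -/
theorem main3 (S : List (Item Unit)) (hS : wfP 1 S 1) :
    ∃ d : ℕ, ∀ (a : List ℤ) (u : ℕ), a.length = (labels S).length →
      (∀ x ∈ a, (2 : ℤ) ^ (u + 1) ∣ x) →
      ¬ Dissolves S ((Finset.range a.length).filter fun i => ¬ (2 : ℤ) ^ (u + 2) ∣ a.getD i 0) →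
      IsKnot (tw S a) → ∃ I, IsVassiliev d I ∧ I (tw S a) ≠ I [] := by
  set n := (labels S).length with hn
  have hn' : (sides S).length = n := sides_len S
  choose p hp using fun x : ℕ × ℕ => vi_poly (x.1 + 1) x.2 S hS
  obtain ⟨F, hF⟩ := exists_finite_eqs (fun x : ℕ × ℕ =>
    p x - MvPolynomial.C (VI (x.1 + 1) x.2 []))
  refine ⟨F.sup Prod.snd, fun a u hal hu hD hK => ?_⟩
  have hi1 : ∀ i : Fin n, (i : ℕ) < a.length := fun i => by rw [hal]; exact i.2
  choose! q hq using hu
  set c : Fin n → ℤ := fun i => q (a[(i : ℕ)]'(hi1 i)) with hc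
  set k : Fin n → ℤ := fun i => 2 ^ u * c i with hk
  have hac : ∀ i : Fin n, a[(i : ℕ)]'(hi1 i) = 2 ^ (u + 1) * c i := fun i =>
    hq _ (List.getElem_mem (hi1 i))
  have hak : ∀ i : Fin n, a[(i : ℕ)]'(hi1 i) = 2 * k i := by
    intro i
    rw [hac, hk, pow_succ]
    ring
  have ha : a = dbl2 (List.ofFn k) := by
    apply List.ext_getElem
    · simp [dbl2, hal]
    · intro i h2 h3
      have h4 : i < n := by rw [← hal]; exact h2
      have h5 := hak ⟨i, h4⟩
      simp only [dbl2, List.getElem_map, List.getElem_ofFn]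
      exact h5
  have hset : ((univ.filter fun i => ¬ Even (c i)).map Fin.valEmbedding) =
      (Finset.range a.length).filter fun i => ¬ (2 : ℤ) ^ (u + 2) ∣ a.getD i 0 := by
    have key : ∀ i : Fin n, ¬ Even (c i) ↔ ¬ (2 : ℤ) ^ (u + 2) ∣ a.getD i 0 := by
      intro i
      rw [List.getD_eq_getElem _ _ (hi1 i), hac i, pow_succ (2 : ℤ) (u + 1),
        mul_dvd_mul_iff_left (pow_ne_zero _ two_ne_zero), even_iff_two_dvd]
    ext i
    rw [Finset.mem_map, Finset.mem_filter, Finset.mem_range]
    constructor
    · rintro ⟨j, hj, rfl⟩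
      exact ⟨hi1 j, (key j).1 (Finset.mem_filter.1 hj).2⟩
    · rintro ⟨h2, h3⟩
      refine ⟨⟨i, by rw [← hal]; exact h2⟩, ?_, rfl⟩
      rw [Finset.mem_filter]
      exact ⟨Finset.mem_univ _, (key _).2 h3⟩
  have key : ∃ N j : ℕ, VI (N + 1) j (tw S (dbl2 (List.ofFn k))) ≠ VI (N + 1) j [] := by
    refine exists_VI3 S hS hn' u k c (fun i => rfl) ?_ (by rw [← ha]; exact hK)
    rw [hset]
    exact hD
  by_contra hcon
  push Not at hcon
  rw [ha] at hcon
  obtain ⟨N, j, hNj⟩ := key
  apply hNj
  have h2 := hF (fun i => (k i : ℚ)) (by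
    intro x hx
    rw [map_sub, MvPolynomial.eval_C, ← hp, sub_eq_zero]
    exact hcon _ (mono (vi_vassiliev (x.1 + 1) x.2) (Finset.le_sup (f := Prod.snd) hx))) (N, j)
  rw [map_sub, MvPolynomial.eval_C, ← hp, sub_eq_zero] at h2
  exact h2

end Pool.Agent.EVT
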