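import Pool.Agent.EVT.XF

/-!
# EVT module XG: the degree depends only on the number of vertices

The coefficients `VI (N + 1) j` of a knot with `n` evenly twisted regions are determined by the interlacement
matrix and the sides, and there are only finitely many of these for each `n`.
-/

namespace Pool.Agent.EVT

open Finset
open Pool.Agent.Helper9.Kashaev (Piece Diagram)
open Pool.Agent.Helper9.FA (Item twists labels wfP)
open Pool.Agent.Helper77.ST (Arc IsKnot tw IsVassiliev exists_finite_eqs psU)

/-- the state sum over any ring -/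
theorem state_eq' {A : Type*} [CommRing A] (S : List (Item Unit)) (hS : wfS 1 S 1) {n : ℕ}
    (hn : (sides S).length = n) (k : Fin n → ℤ) (hK : IsKnot (tw S (dbl2 (List.ofFn k))))
    (M : Matrix (Fin n) (Fin n) (ZMod 2)) (h1 : ∀ i j, M i j = M j i)
    (h2 : ∀ i j, sdf S hn i = sdf S hn j → M i j = 0)
    (h4 : ∀ I : Fin n → Bool, 2 ^ lp (sm S (List.ofFn I)) =
      (univ.filter fun x : Fin n → ZMod 2 =>
        (∀ i, I i = false → x i = 0) ∧ ∀ i, I i = true → M.mulVec x i = 0).card)
    (N : ℕ) [NeZero N] (q : Aˣ) (y : A) (hy : y * dl N q ^ 2 = 1) :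
    val N q (tw S (dbl2 (List.ofFn k))) =
      ∑ I : Fin n → Bool, (∏ i, if I i = true then 1 - zp q (2 * N * k i) else
        zp q (2 * N * k i)) * y ^ rkI M (sdf S hn) I := by
  rw [val_lift N q S _ (by simp [hn]) hK, wtQ_ofFn,
    ev_lp (TQ_ok N q) S hS n hn _ _ _ (by simp)]
  refine Finset.sum_congr rfl fun I _ => ?_
  have hl := rk_add M (sdf S hn) h1 h2 I _ (h4 I)
  have e1 : (∏ i, if I i = true then (1 : A) - zp q (2 * N * k i) else zp q (2 * N * k i)) =
      (∏ i, if I i = true then cc N q (k i) else zp q (2 * N * k i)) *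
        dl N q ^ (univ.filter fun i => I i = true).card := by
    rw [← Finset.prod_const, Finset.prod_filter, ← Finset.prod_mul_distrib]
    refine Finset.prod_congr rfl fun i _ => ?_
    by_cases hi : I i = true
    · simp only [hi, if_true]
      rw [cc_mul]
    · simp [hi]
  simp only []
  rw [e1, ← hl, pow_add, pow_mul]
  have e2 : (dl N q ^ 2) ^ rkI M (sdf S hn) I * y ^ rkI M (sdf S hn) I = 1 := by
    rw [← mul_pow, mul_comm (dl N q ^ 2), hy, one_pow]
  have e3 : ket A [(0 : Fin N)] [0] = 1 := by simp [ket]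
  rw [e3, mul_one, mul_assoc, mul_assoc, e2, mul_one]

/-- even twists do not change the arcs -/
private theorem arc_cross' {c k : ℕ} {L : List ℕ} {p : Piece} (hp : p = .pos ∨ p = .neg)
    {D : Diagram} (hk : k + 2 ≤ L.length) (h : Arc c L D) :
    Arc c L ((k, p) :: (k, p) :: D) := by
  have h2 : (L.drop k).length = L.length - k := List.length_drop
  match hd : L.drop k with
  | [] => rw [hd] at h2; simp only [List.length_nil] at h2; omega
  | [_] => rw [hd] at h2; simp only [List.length_cons, List.length_nil] at h2; omega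
  | x :: y :: R =>
    have ht : (L.take k).length = k := by
      rw [List.length_take]
      omega
    have e1 : (L.take k ++ y :: x :: R).drop k = y :: x :: R := List.drop_left' ht
    have e2 : (L.take k ++ y :: x :: R).take k = L.take k := List.take_left' ht
    have e3 : L.take k ++ x :: y :: R = L := by rw [← hd, List.take_append_drop]
    rcases hp with rfl | rfl
    · simp only [Arc, hd, e1, e2, e3]
      exact h
    · simp only [Arc, hd, e1, e2, e3]
      exact h

private theorem arc_twists' {c k : ℕ} {L : List ℕ} (x : ℤ) {D : Diagram} (hk : k + 2 ≤ L.length)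
    (h : Arc c L D) : Arc c L (twists k (2 * x) ++ D) := by
  unfold twists
  have e : (2 * x).natAbs = 2 * x.natAbs := by
    rw [Int.natAbs_mul]
    rfl
  rw [e]
  have hp : ∀ p : Piece, (p = .pos ∨ p = .neg) → ∀ m : ℕ,
      Arc c L (List.replicate (2 * m) (k, p) ++ D) := by
    intro p hp m
    induction m with
    | zero => simpa using h
    | succ m ih =>
      have e : List.replicate (2 * (m + 1)) (k, p) ++ D =
          (k, p) :: (k, p) :: (List.replicate (2 * m) (k, p) ++ D) := by
        rw [show 2 * (m + 1) = 2 * m + 1 + 1 from by ring, List.replicate_succ,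
          List.replicate_succ]
        rfl
      rw [e]
      exact arc_cross' hp hk ih
  apply hp
  split_ifs
  · exact Or.inl rfl
  · exact Or.inr rfl

theorem arc_of (S : List (Item Unit)) (ks : List ℤ) (c : ℕ) (L : List ℕ)
    (hl : ks.length = (sides S).length) (h : ArcP c L S) : Arc c L (tw S (dbl2 ks)) := by
  induction S generalizing ks c L with
  | nil => exact h
  | cons s S ih =>
    rcases s with k | k | ⟨k, a⟩
    · simp only [tw]
      unfold ArcP at h
      unfold Arc
      exact ⟨h.1, ih ks (c + 1) _ hl h.2⟩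
    · simp only [tw]
      unfold ArcP at h
      unfold Arc
      split at h
      · rename_i x y R hd
        rw [hd]
        exact ⟨h.1, ih ks c _ hl h.2⟩
      · exact h.elim
    · rcases ks with _ | ⟨x, ks⟩
      · simp [sides] at hl
      · have hl' : ks.length = (sides S).length := by
          simp only [sides, List.length_cons] at hl
          omega
        have e : tw (Item.box k a :: S) (dbl2 (x :: ks)) =
            twists k (2 * x) ++ tw S (dbl2 ks) := rfl
        rw [e]
        unfold ArcP at h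
        exact arc_twists' x h.1 (ih ks c L hl' h.2)

/-! ### the coefficients -/

private theorem dl_const (N : ℕ) :
    PowerSeries.constantCoeff (dl (N + 1) psU : PowerSeries ℚ) ≠ 0 := by
  have h : Units.map ((PowerSeries.constantCoeff (R := ℚ) : PowerSeries ℚ →+* ℚ) :
      PowerSeries ℚ →* ℚ) psU = 1 := by
    ext
    change PowerSeries.constantCoeff (1 + PowerSeries.X : PowerSeries ℚ) = 1
    simp
  have h1 : PowerSeries.constantCoeff (dl (N + 1) psU : PowerSeries ℚ) = (N + 1 : ℕ) := by
    unfold dl kap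
    rw [map_sum]
    have h2 : ∀ i : Fin (N + 1), PowerSeries.constantCoeff
        (zp psU (2 * (i : ℤ) + 1 - ((N + 1 : ℕ) : ℤ)) : PowerSeries ℚ) = 1 := by
      intro i
      rw [wi_map_zp, h, wi_one_zp]
    rw [Finset.sum_congr rfl fun i _ => h2 i]
    simp
  rw [h1]
  exact Nat.cast_ne_zero.2 (Nat.succ_ne_zero N)

/-- the coefficients as functions of the numbers of full twists -/
noncomputable def GP {n : ℕ} (M : Matrix (Fin n) (Fin n) (ZMod 2)) (sd : Fin n → Bool) (N j : ℕ)
    (k : Fin n → ℤ) : ℚ :=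
  PowerSeries.coeff j (∑ I : Fin n → Bool, (∏ i, if I i = true then
    1 - zp psU (2 * (N + 1 : ℕ) * k i) else zp psU (2 * (N + 1 : ℕ) * k i)) *
      ((dl (N + 1) psU ^ 2)⁻¹ : PowerSeries ℚ) ^ rkI M sd I)

/-- the data of a pattern -/
structure Dat {n : ℕ} (S : List (Item Unit)) (hn : (sides S).length = n)
    (M : Matrix (Fin n) (Fin n) (ZMod 2)) (sd : Fin n → Bool) : Prop where
  wf : wfP 1 S 1
  arc : ArcP 1 [0] S
  side : sd = sdf S hn
  h1 : ∀ i j, M i j = M j i
  h2 : ∀ i j, sd i = sd j → M i j = 0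
  h4 : ∀ I : Fin n → Bool, 2 ^ lp (sm S (List.ofFn I)) =
      (univ.filter fun x : Fin n → ZMod 2 =>
        (∀ i, I i = false → x i = 0) ∧ ∀ i, I i = true → M.mulVec x i = 0).card

theorem vi_eq {n : ℕ} {S : List (Item Unit)} {hn : (sides S).length = n}
    {M : Matrix (Fin n) (Fin n) (ZMod 2)} {sd : Fin n → Bool} (h : Dat S hn M sd) (N j : ℕ)
    (k : Fin n → ℤ) : VI (N + 1) j (tw S (dbl2 (List.ofFn k))) = GP M sd N j k := by
  have hK : IsKnot (tw S (dbl2 (List.ofFn k))) := arc_of S _ 1 [0] (by simp [hn]) h.arc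
  have hs := h.side
  subst hs
  unfold VI GP
  rw [state_eq' S (wfS_of h.wf) hn k hK M h.h1 h.h2 h.h4 (N + 1) psU _
    (PowerSeries.inv_mul_cancel _ (by
      rw [map_pow]
      exact pow_ne_zero 2 (dl_const N)))]

/-- finitely many coefficients suffice -/
theorem gp_fin {n : ℕ} (M : Matrix (Fin n) (Fin n) (ZMod 2)) (sd : Fin n → Bool) :
    ∃ d : ℕ, ∀ (S : List (Item Unit)) (hn : (sides S).length = n), Dat S hn M sd →
      ∀ k : Fin n → ℤ, (∀ N j, j ≤ d → GP M sd N j k = VI (N + 1) j []) →
        ∀ N j, GP M sd N j k = VI (N + 1) j [] := by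
  by_cases hex : ∃ (S₀ : List (Item Unit)) (hn₀ : (sides S₀).length = n), Dat S₀ hn₀ M sd
  · obtain ⟨S₀, hn₀, h₀⟩ := hex
    have hl : (labels S₀).length = n := by rw [← sides_len, hn₀]
    choose p hp using fun x : ℕ × ℕ => vi_poly (x.1 + 1) x.2 S₀ h₀.wf
    obtain ⟨F, hF⟩ := exists_finite_eqs (fun x : ℕ × ℕ =>
      p x - MvPolynomial.C (VI (x.1 + 1) x.2 []))
    refine ⟨F.sup Prod.snd, fun S hn h k hk N j => ?_⟩
    clear S hn h
    subst hl
    have key : ∀ x : ℕ × ℕ, GP M sd x.1 x.2 k = MvPolynomial.eval (fun i => (k i : ℚ)) (p x) := by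
      intro x
      rw [← vi_eq h₀, hp]
    have h2 := hF (fun i => (k i : ℚ)) (by
      intro x hx
      rw [map_sub, MvPolynomial.eval_C, ← key, sub_eq_zero]
      exact hk _ _ (Finset.le_sup (f := Prod.snd) hx)) (N, j)
    rw [map_sub, MvPolynomial.eval_C, ← key, sub_eq_zero] at h2
    exact h2
  · push Not at hex
    exact ⟨0, fun S hn h => absurd h (hex S hn)⟩

/-- the degree depends only on the number of vertices -/
theorem uni (n : ℕ) : ∃ d : ℕ, ∀ (S : List (Item Unit)), wfP 1 S 1 → (labels S).length = n →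
    ∀ k : Fin n → ℤ, IsKnot (tw S (dbl2 (List.ofFn k))) →
      (∃ N j : ℕ, VI (N + 1) j (tw S (dbl2 (List.ofFn k))) ≠ VI (N + 1) j []) →
      ∃ I, IsVassiliev d I ∧ I (tw S (dbl2 (List.ofFn k))) ≠ I [] := by
  classical
  choose d hd using fun x : Matrix (Fin n) (Fin n) (ZMod 2) × (Fin n → Bool) => gp_fin x.1 x.2
  have : Fintype (Matrix (Fin n) (Fin n) (ZMod 2)) := Matrix.instFintypeOfDecidableEq _
  refine ⟨univ.sup d, fun S hS hl k hK hex => ?_⟩
  have hn : (sides S).length = n := by rw [sides_len, hl]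
  have hS' := wfS_of hS
  have hA : ArcP 1 [0] S := arc_tw' S (List.ofFn k) 1 [0] (by simp [hn]) hS' hK
  obtain ⟨M, h1, h2, -, h4⟩ := exists_matrix S hS' hA n hn
  have hD : Dat S hn M (sdf S hn) := ⟨hS, hA, rfl, h1, h2, h4⟩
  by_contra hcon
  push Not at hcon
  obtain ⟨N, j, hNj⟩ := hex
  apply hNj
  rw [vi_eq hD]
  refine hd (M, sdf S hn) S hn hD k (fun N' j' hj => ?_) N j
  rw [← vi_eq hD]
  exact hcon _ (mono (vi_vassiliev (N' + 1) j')
    (hj.trans (Finset.le_sup (f := d) (Finset.mem_univ (M, sdf S hn)))))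

end Pool.Agent.EVT
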