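import Pool.Agent.EVT.XG
import Pool.Agent.EVT.VC

/-!
# EVT module XH: the theorems with a degree which depends only on the number of vertices
-/

namespace Pool.Agent.EVT

open Finset
open Pool.Agent.Helper9.Kashaev (Piece Diagram)
open Pool.Agent.Helper9.FA (Item twists labels wfP)
open Pool.Agent.Helper77.ST (Arc IsKnot tw IsVassiliev)
open Pool.Agent.Helper77.CR (Red)

/-- evenly twisted knots whose regions of minimal valuation do not dissolve -/
theorem main4 (n : ℕ) : ∃ d : ℕ, ∀ S : List (Item Unit), wfP 1 S 1 → (labels S).length = n →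
    ∀ (a : List ℤ) (u : ℕ), a.length = n → (∀ x ∈ a, (2 : ℤ) ^ (u + 1) ∣ x) →
      ¬ Dissolves S ((Finset.range n).filter fun i => ¬ (2 : ℤ) ^ (u + 2) ∣ a.getD i 0) →
      IsKnot (tw S a) → ∃ I, IsVassiliev d I ∧ I (tw S a) ≠ I [] := by
  obtain ⟨d, hd⟩ := uni n
  refine ⟨d, fun S hS hn a u hal hu hD hK => ?_⟩
  have hn' : (sides S).length = n := by rw [sides_len, hn]
  have hi1 : ∀ i : Fin n, (i : ℕ) < a.length := fun i => by rw [hal]; exact i.2
  choose! q hq using hu
  set c : Fin n → ℤ := fun i => q (a[(i : ℕ)]'(hi1 i)) with hc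
  set k : Fin n → ℤ := fun i => 2 ^ u * c i with hk
  have hac : ∀ i : Fin n, a[(i : ℕ)]'(hi1 i) = 2 ^ (u + 1) * c i := fun i =>
    hq _ (List.getElem_mem (hi1 i))
  have hak : ∀ i : Fin n, a[(i : ℕ)]'(hi1 i) = 2 * k i := by
    intro i
    rw [hac, hk, pow_succ]
    ring
  have ha : a = dbl2 (List.ofFn k) := by
    apply List.ext_getElem
    · simp [dbl2, hal]
    · intro i h2 h3
      have h4 : i < n := by rw [← hal]; exact h2
      have h5 := hak ⟨i, h4⟩
      simp only [dbl2, List.getElem_map, List.getElem_ofFn]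
      exact h5
  have hset : ((univ.filter fun i => ¬ Even (c i)).map Fin.valEmbedding) =
      (Finset.range n).filter fun i => ¬ (2 : ℤ) ^ (u + 2) ∣ a.getD i 0 := by
    have key : ∀ i : Fin n, ¬ Even (c i) ↔ ¬ (2 : ℤ) ^ (u + 2) ∣ a.getD i 0 := by
      intro i
      rw [List.getD_eq_getElem _ _ (hi1 i), hac i, pow_succ (2 : ℤ) (u + 1),
        mul_dvd_mul_iff_left (pow_ne_zero _ two_ne_zero), even_iff_two_dvd]
    ext i
    rw [Finset.mem_map, Finset.mem_filter, Finset.mem_range]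
    constructor
    · rintro ⟨j, hj, rfl⟩
      exact ⟨j.2, (key j).1 (Finset.mem_filter.1 hj).2⟩
    · rintro ⟨h2, h3⟩
      refine ⟨⟨i, h2⟩, ?_, rfl⟩
      rw [Finset.mem_filter]
      exact ⟨Finset.mem_univ _, (key _).2 h3⟩
  rw [ha] at hK ⊢
  refine hd S hS hn k hK (exists_VI3 S hS hn' u k c (fun i => rfl) ?_ hK)
  rw [hset]
  exact hD

/-- numbers of non-minimal valuation of one sign on each side -/
theorem main5 (n : ℕ) (h0 : 0 < n) : ∃ d : ℕ, ∀ S : List (Item Unit), wfP 1 S 1 → Red S →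
    (labels S).length = n → ∀ a : List ℤ, a.length = n → (∀ x ∈ a, Even x ∧ x ≠ 0) →
      (∃ (u : Bool → ℕ) (e : Bool → ℤ), ∀ z ∈ (sides S).zip a, ∃ c : ℤ,
        z.2 = 2 ^ u z.1 * c ∧ (Even c → 0 < e z.1 * c)) →
      IsKnot (tw S a) → ∃ I, IsVassiliev d I ∧ I (tw S a) ≠ I [] := by
  obtain ⟨d, hd⟩ := uni n
  refine ⟨d, fun S hS hR hn a hal hev hV hK => ?_⟩
  have hn' : (sides S).length = n := by rw [sides_len, hn]
  have hi1 : ∀ i : Fin n, (i : ℕ) < a.length := fun i => by rw [hal]; exact i.2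
  have hi2 : ∀ i : Fin n, (i : ℕ) < (sides S).length := fun i => by rw [hn']; exact i.2
  set k : Fin n → ℤ := fun i => (a[(i : ℕ)]'(hi1 i)) / 2 with hk
  have hak : ∀ i : Fin n, a[(i : ℕ)]'(hi1 i) = 2 * k i := by
    intro i
    have h3 := (hev _ (List.getElem_mem (hi1 i))).1
    simp only [hk]
    rw [Int.mul_ediv_cancel' h3.two_dvd]
  have hk0 : ∀ i, k i ≠ 0 := by
    intro i h3
    apply (hev _ (List.getElem_mem (hi1 i))).2
    rw [hak, h3, mul_zero]
  have ha : a = dbl2 (List.ofFn k) := by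
    apply List.ext_getElem
    · simp [dbl2, hal]
    · intro i h2 h3
      have h4 : i < n := by rw [← hal]; exact h2
      have h5 := hak ⟨i, h4⟩
      simp only [dbl2, List.getElem_map, List.getElem_ofFn]
      exact h5
  have hmem : ∀ i : Fin n, (sdf S hn' i, 2 * k i) ∈ (sides S).zip a := by
    intro i
    rw [← hak i, List.mem_iff_getElem]
    refine ⟨i, ?_, ?_⟩
    · rw [List.length_zip]
      exact lt_min (hi2 i) (hi1 i)
    · rw [List.getElem_zip]
      rfl
  have hK' : IsKnot (tw S (dbl2 (List.ofFn k))) := by rw [← ha]; exact hK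
  rw [ha]
  refine hd S hS hn k hK' ?_
  obtain ⟨u, e, hu⟩ := hV
  choose c hc1 hc2 using fun i : Fin n => hu _ (hmem i)
  simp only at hc1 hc2
  have h4 : ∀ i, ∃ c' : ℤ, k i = 2 ^ (u (sdf S hn' i) - 1) * c' ∧
      (Even c' → 0 < e (sdf S hn' i) * c') := by
    intro i
    rcases Nat.eq_zero_or_pos (u (sdf S hn' i)) with h5 | h5
    · have h6 := hc1 i
      rw [h5, pow_zero, one_mul] at h6
      refine ⟨k i, by rw [h5]; simp, fun _ => ?_⟩
      have h7 := hc2 i (by rw [← h6]; exact even_two_mul _)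
      rw [← h6] at h7
      linarith
    · refine ⟨c i, ?_, hc2 i⟩
      have h6 : (2 : ℤ) ^ u (sdf S hn' i) = 2 * 2 ^ (u (sdf S hn' i) - 1) := by
        rw [← pow_succ']
        congr 1
        omega
      have h7 := hc1 i
      rw [h6, mul_assoc] at h7
      exact mul_left_cancel₀ two_ne_zero h7
  choose c' hc3 hc4 using h4
  exact exists_VI2 S hS hR h0 hn' (fun s => u s - 1) e k c' hk0 hc3 hc4 hK'

end Pool.Agent.EVT
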