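import Pool.Agent.EVT.XE
import Pool.Agent.EVT.RC

/-!
# EVT module XI: reduced and twist-reduced patterns do not dissolve
-/

namespace Pool.Agent.EVT

open Finset
open Pool.Agent.Helper9.FA (Item labels wfP)
open Pool.Agent.Helper9.TW (Conn)
open Pool.Agent.Helper77.CR (smo Red)

/-- the set of all vertices of a reduced and twist-reduced pattern does not dissolve -/
theorem red_not_dis {S : List (Item Unit)} (hR : Red S) (h0 : labels S ≠ []) :
    ¬ Dissolves S (Finset.range (labels S).length) := by
  intro h
  generalize hD : Finset.range (labels S).length = D at h
  have hpos : 0 < (labels S).length := List.length_pos_iff.mpr h0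
  induction h with
  | empty =>
    have : (0 : ℕ) ∈ Finset.range (labels S).length := Finset.mem_range.2 hpos
    rw [hD] at this
    exact Finset.notMem_empty _ this
  | @step D B hB h2 hc hm hD' ih =>
    apply hc
    apply hR
    · unfold st
      simp
    · left
      subst hD
      constructor
      · rw [List.count_eq_zero]
        intro hmem
        unfold st at hmem
        obtain ⟨i, hi, hi'⟩ := List.mem_map.1 hmem
        have hi2 : i ∈ Finset.range (labels S).length := Finset.mem_range.2 (List.mem_range.1 hi)
        by_cases hB' : i ∈ B
        · rw [if_pos hB'] at hi'
          simp at hi'
        · rw [if_neg hB', if_pos hi2] at hi'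
          simp at hi'
      · refine le_trans ?_ h2
        unfold st
        rw [List.count, List.countP_map, List.countP_eq_length_filter]
        have e1 : (List.filter ((fun x => x == some true) ∘ fun i => if i ∈ B then some true else
            if i ∈ Finset.range (labels S).length then none else some false)
            (List.range (labels S).length)).toFinset ⊆ B := by
          intro i hi
          rw [List.mem_toFinset, List.mem_filter] at hi
          by_contra hB'
          have h3 := hi.2
          simp only [Function.comp_apply, if_neg hB'] at h3
          split_ifs at h3 <;> simp at h3
        have e2 := Finset.card_le_card e1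
        rwa [List.toFinset_card_of_nodup (List.Nodup.filter _ List.nodup_range)] at e2

end Pool.Agent.EVT
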